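import Mathlib

set_option autoImplicit false

namespace Pool.Agent.MP_22afe8_al

/-- The real group algebra. -/
abbrev RA (Q : Type) [Group Q] : Type := MonoidAlgebra ℝ Q

/-- A single term of the group algebra. -/
noncomputable abbrev sg {Q : Type} [Group Q] (g : Q) (c : ℝ) : RA Q := MonoidAlgebra.single g c

/-- Polycyclic subgroups of an ambient group, with a bound on the number of cyclic steps. -/
inductive Pc {Q : Type} [Group Q] : ℕ → Subgroup Q → Prop
  | bot (n : ℕ) : Pc n ⊥
  | step (n : ℕ) (N H : Subgroup Q) (t : Q) (hN : Pc n N) (hNH : N ≤ H) (ht : t ∈ H)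
      (h1 : ∀ n ∈ N, t * n * t⁻¹ ∈ N) (h2 : ∀ n ∈ N, t⁻¹ * n * t ∈ N)
      (hgen : ∀ h ∈ H, ∃ n ∈ N, ∃ i : ℤ, h = n * t ^ i) : Pc (n + 1) H

/-- Elements of the real group algebra supported in a subgroup. -/
def suppRing {Q : Type} [Group Q] (H : Subgroup Q) : Subring (RA Q) where
  carrier := {u | ∀ g, u.coeff g ≠ 0 → g ∈ H}
  zero_mem' := by
    intro g hg
    exact absurd rfl hg
  one_mem' := by
    classical
    intro g hg
    rw [MonoidAlgebra.one_def, MonoidAlgebra.coeff_single, Finsupp.single_apply] at hg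
    by_cases h : (1 : Q) = g
    · rw [← h]; exact H.one_mem
    · rw [if_neg h] at hg; exact absurd rfl hg
  add_mem' := by
    intro a b ha hb g hg
    by_cases h : a.coeff g = 0
    · refine hb g ?_
      intro h'
      apply hg
      rw [MonoidAlgebra.coeff_add, Finsupp.add_apply, h, h', add_zero]
    · exact ha g h
  neg_mem' := by
    intro a ha g hg
    refine ha g ?_
    intro h
    apply hg
    rw [MonoidAlgebra.coeff_neg, Finsupp.neg_apply, h, neg_zero]
  mul_mem' := by
    classical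
    intro a b ha hb g hg
    have h1 : g ∈ (a * b).coeff.support := Finsupp.mem_support_iff.mpr hg
    have h2 := MonoidAlgebra.support_coeff_mul_subset a b h1
    obtain ⟨x, hx, y, hy, rfl⟩ := Finset.mem_mul.mp h2
    exact H.mul_mem (ha x (Finsupp.mem_support_iff.mp hx)) (hb y (Finsupp.mem_support_iff.mp hy))

/-- Products of exactly `J` elements of `E`, up to `Q1` on the left. -/
def PS {Q : Type} [Group Q] (Q1 : Subgroup Q) (E : Finset Q) : ℕ → Set Q
  | 0 => (Q1 : Set Q)
  | (J + 1) => {x | ∃ y ∈ PS Q1 E J, ∃ e ∈ E, x = y * e}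

/-- The Ore condition for nonnegative integer combinations, in terms of multisets. -/
def NatOre (Q : Type) [Group Q] : Prop :=
  ∀ p r : Multiset Q, p ≠ 0 → r ≠ 0 → ∃ s s' : Multiset Q, s ≠ 0 ∧ s' ≠ 0 ∧
    (s.bind fun a => p.map fun b => a * b) = (s'.bind fun a => r.map fun b => a * b)

/-- The Ore condition for nonnegative elements of the real group algebra. -/
def RealOre (Q : Type) [Group Q] : Prop :=
  ∀ p r : RA Q, (∀ g, 0 ≤ p.coeff g) → (∀ g, 0 ≤ r.coeff g) → p ≠ 0 → r ≠ 0 →
    ∃ s s' : RA Q, (∀ g, 0 ≤ s.coeff g) ∧ (∀ g, 0 ≤ s'.coeff g) ∧ s ≠ 0 ∧ s' ≠ 0 ∧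
      s * p = s' * r

end Pool.Agent.MP_22afe8_al
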