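import Mathlib
import Pool.Agent.Work.MP_22afe8_al.Defs

set_option autoImplicit false

namespace Pool.Agent.MP_22afe8_al

namespace M4

/-- A rational linear functional on the reals which is positive on a finite set of positive
reals. -/
theorem exists_functional (F : Finset ℝ) (hF : ∀ c ∈ F, 0 < c) :
    ∃ L : ℝ →ₗ[ℚ] ℚ, ∀ c ∈ F, 0 < L c := by
  classical
  set b := Module.Basis.ofVectorSpace ℚ ℝ with hb
  set K : ℝ → ℝ := fun c => ∑ i ∈ (b.repr c).support, |((b.repr c i : ℚ) : ℝ)| with hK
  have hK0 : ∀ c, 0 ≤ K c := fun c => Finset.sum_nonneg fun i _ => abs_nonneg _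
  obtain ⟨ε, hε, hεF⟩ : ∃ ε : ℝ, 0 < ε ∧ ∀ c ∈ F, ε * (K c + 1) < c := by
    have h1 : ∀ᶠ ε : ℝ in nhdsWithin 0 (Set.Ioi 0), ∀ c ∈ F, ε * (K c + 1) < c := by
      rw [Filter.eventually_all_finset]
      intro c hc
      have h2 : Filter.Tendsto (fun ε : ℝ => ε * (K c + 1)) (nhds 0) (nhds (0 * (K c + 1))) :=
        Filter.Tendsto.mul_const _ Filter.tendsto_id
      rw [zero_mul] at h2
      exact (h2.eventually_lt_const (hF c hc)).filter_mono nhdsWithin_le_nhds
    obtain ⟨ε, h2, h3⟩ := (h1.and self_mem_nhdsWithin).exists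
    exact ⟨ε, h3, h2⟩
  have hq : ∀ i, ∃ q : ℚ, |(q : ℝ) - b i| < ε := by
    intro i
    obtain ⟨q, h1, h2⟩ := exists_rat_btwn (show b i - ε < b i by linarith)
    exact ⟨q, by rw [abs_lt]; constructor <;> linarith⟩
  choose q hq using hq
  refine ⟨b.constr ℚ q, fun c hc => ?_⟩
  have h1 : ((b.constr ℚ q c : ℚ) : ℝ) =
      ∑ i ∈ (b.repr c).support, ((b.repr c i : ℚ) : ℝ) * (q i : ℝ) := by
    rw [b.constr_apply ℚ q c]
    simp only [Finsupp.sum, smul_eq_mul, Rat.cast_sum, Rat.cast_mul]
  have h2 : c = ∑ i ∈ (b.repr c).support, ((b.repr c i : ℚ) : ℝ) * b i := by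
    conv_lhs => rw [← b.linearCombination_repr c]
    rw [Finsupp.linearCombination_apply, Finsupp.sum]
    refine Finset.sum_congr rfl fun i _ => ?_
    rw [Rat.smul_def]
  have h3 : ∑ i ∈ (b.repr c).support, ((b.repr c i : ℚ) : ℝ) * ((q i : ℝ) - b i) =
      ((b.constr ℚ q c : ℚ) : ℝ) - c := by
    simp only [mul_sub, Finset.sum_sub_distrib]
    rw [← h1, ← h2]
  have h6 : |((b.constr ℚ q c : ℚ) : ℝ) - c| ≤ ε * K c := by
    rw [← h3, hK, Finset.mul_sum]
    refine (Finset.abs_sum_le_sum_abs _ _).trans (Finset.sum_le_sum fun i _ => ?_)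
    rw [abs_mul, mul_comm]
    exact mul_le_mul_of_nonneg_right (hq i).le (abs_nonneg _)
  have h4 := hεF c hc
  have h5 : (0 : ℝ) < ((b.constr ℚ q c : ℚ) : ℝ) := by
    have := (abs_le.1 h6).1
    nlinarith [hK0 c]
  exact_mod_cast h5

/-- A common denominator. -/
theorem exists_den (F : Finset ℚ) (hF : ∀ x ∈ F, 0 ≤ x) :
    ∃ N : ℕ, 0 < N ∧ ∀ x ∈ F, ∃ m : ℕ, (N : ℚ) * x = m := by
  classical
  induction F using Finset.induction_on with
  | empty => exact ⟨1, one_pos, fun x hx => absurd hx (Finset.notMem_empty x)⟩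
  | insert a s ha ih =>
    obtain ⟨N, hN, h⟩ := ih fun x hx => hF x (Finset.mem_insert_of_mem hx)
    refine ⟨a.den * N, Nat.mul_pos a.den_pos hN, fun x hx => ?_⟩
    rcases Finset.mem_insert.1 hx with rfl | hx
    · refine ⟨N * x.num.toNat, ?_⟩
      have h1 : ((x.num.toNat : ℤ) : ℚ) = x.num := by
        rw [Int.toNat_of_nonneg (Rat.num_nonneg.2 (hF x (Finset.mem_insert_self _ _)))]
      have h2 := Rat.den_mul_eq_num x
      push_cast at h1 ⊢
      rw [h1, ← h2]
      ring
    · obtain ⟨m, hm⟩ := h x hx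
      exact ⟨a.den * m, by push_cast; rw [mul_assoc, hm]⟩

theorem count_bind {Q : Type} [Group Q] [DecidableEq Q] (s p : Multiset Q) (g : Q) :
    (s.bind fun a => p.map fun b => a * b).count g =
      (p.map fun b => s.count (g * b⁻¹)).sum := by
  induction p using Multiset.induction_on with
  | empty => simp
  | cons b p ih =>
    have h1 : (s.bind fun a => (b ::ₘ p).map fun b => a * b) =
        s.map (fun a => a * b) + s.bind fun a => p.map fun b => a * b := by
      rw [← Multiset.bind_cons]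
      simp
    rw [h1, Multiset.count_add, ih, Multiset.map_cons, Multiset.sum_cons]
    congr 1
    have h2 := Multiset.count_map_eq_count' (fun a => a * b) s (mul_left_injective b) (g * b⁻¹)
    rw [inv_mul_cancel_right] at h2
    exact h2

/-- The element of the real group algebra attached to a multiset. -/
noncomputable def phi {Q : Type} [Group Q] (p : Multiset Q) : RA Q :=
  (p.map fun b => sg b 1).sum

theorem coeff_phi {Q : Type} [Group Q] [DecidableEq Q] (p : Multiset Q) (g : Q) :
    (phi p).coeff g = p.count g := by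
  induction p using Multiset.induction_on with
  | empty => simp [phi]
  | cons b p ih =>
    have h1 : phi (b ::ₘ p) = sg b 1 + phi p := by simp [phi]
    rw [h1, MonoidAlgebra.coeff_add, Finsupp.add_apply, ih, MonoidAlgebra.coeff_single,
      Finsupp.single_apply, Multiset.count_cons]
    by_cases h : b = g
    · subst h; simp [add_comm]
    · rw [if_neg h, if_neg (Ne.symm h)]; simp

theorem coeff_mul_phi {Q : Type} [Group Q] (s : RA Q) (p : Multiset Q) (g : Q) :
    (s * phi p).coeff g = (p.map fun b => s.coeff (g * b⁻¹)).sum := by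
  induction p using Multiset.induction_on with
  | empty => simp [phi]
  | cons b p ih =>
    have h1 : phi (b ::ₘ p) = sg b 1 + phi p := by simp [phi]
    rw [h1, mul_add, MonoidAlgebra.coeff_add, Finsupp.add_apply, ih, Multiset.map_cons,
      Multiset.sum_cons, MonoidAlgebra.coeff_mul_single_apply, mul_one]

theorem phi_ne_zero {Q : Type} [Group Q] {p : Multiset Q} (hp : p ≠ 0) : phi p ≠ 0 := by
  classical
  obtain ⟨g, hg⟩ := Multiset.exists_mem_of_ne_zero hp
  intro h
  have h1 := coeff_phi p g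
  rw [h] at h1
  have h2 : 0 < p.count g := Multiset.count_pos.2 hg
  have h3 : ((0 : RA Q).coeff g) = 0 := rfl
  rw [h3] at h1
  have : p.count g = 0 := by exact_mod_cast h1.symm
  omega

theorem exists_multiset {Q : Type} [Group Q] [DecidableEq Q] (s : RA Q) (n : Q → ℕ)
    (hn : ∀ g, n g ≠ 0 → s.coeff g ≠ 0) : ∃ S : Multiset Q, ∀ g, S.count g = n g := by
  refine ⟨Finsupp.toMultiset (Finsupp.onFinset s.coeff.support n fun g hg =>
    Finsupp.mem_support_iff.2 (hn g hg)), fun g => ?_⟩
  rw [Finsupp.count_toMultiset]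
  rfl

end M4

open M4 in
theorem natOre_of_realOre {Q : Type} [Group Q] (h : RealOre Q) : NatOre Q := by
  classical
  intro p r hp hr
  obtain ⟨s, s', hs, hs', hs0, hs0', heq⟩ := h (phi p) (phi r)
    (fun g => by rw [coeff_phi]; exact Nat.cast_nonneg _)
    (fun g => by rw [coeff_phi]; exact Nat.cast_nonneg _) (phi_ne_zero hp) (phi_ne_zero hr)
  obtain ⟨L, hL⟩ := exists_functional
    ((s.coeff.support.image s.coeff) ∪ (s'.coeff.support.image s'.coeff)) (by
      intro c hc
      rcases Finset.mem_union.1 hc with hc | hc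
      · obtain ⟨g, hg, rfl⟩ := Finset.mem_image.1 hc
        exact lt_of_le_of_ne (hs g) (Ne.symm (Finsupp.mem_support_iff.1 hg))
      · obtain ⟨g, hg, rfl⟩ := Finset.mem_image.1 hc
        exact lt_of_le_of_ne (hs' g) (Ne.symm (Finsupp.mem_support_iff.1 hg)))
  have hL1 : ∀ g, s.coeff g ≠ 0 → 0 < L (s.coeff g) := fun g hg =>
    hL _ (Finset.mem_union_left _ (Finset.mem_image_of_mem _ (Finsupp.mem_support_iff.2 hg)))
  have hL2 : ∀ g, s'.coeff g ≠ 0 → 0 < L (s'.coeff g) := fun g hg =>
    hL _ (Finset.mem_union_right _ (Finset.mem_image_of_mem _ (Finsupp.mem_support_iff.2 hg)))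
  obtain ⟨N, hN, hden⟩ := exists_den
    ((s.coeff.support.image fun g => L (s.coeff g)) ∪
      (s'.coeff.support.image fun g => L (s'.coeff g))) (by
      intro c hc
      rcases Finset.mem_union.1 hc with hc | hc
      · obtain ⟨g, hg, rfl⟩ := Finset.mem_image.1 hc
        exact (hL1 g (Finsupp.mem_support_iff.1 hg)).le
      · obtain ⟨g, hg, rfl⟩ := Finset.mem_image.1 hc
        exact (hL2 g (Finsupp.mem_support_iff.1 hg)).le)
  have hn1 : ∀ g, ∃ m : ℕ, (N : ℚ) * L (s.coeff g) = m := by
    intro g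
    by_cases hg : s.coeff g = 0
    · exact ⟨0, by rw [hg, map_zero]; simp⟩
    · exact hden _ (Finset.mem_union_left _
        (Finset.mem_image_of_mem (fun g => L (s.coeff g)) (Finsupp.mem_support_iff.2 hg)))
  have hn2 : ∀ g, ∃ m : ℕ, (N : ℚ) * L (s'.coeff g) = m := by
    intro g
    by_cases hg : s'.coeff g = 0
    · exact ⟨0, by rw [hg, map_zero]; simp⟩
    · exact hden _ (Finset.mem_union_right _
        (Finset.mem_image_of_mem (fun g => L (s'.coeff g)) (Finsupp.mem_support_iff.2 hg)))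
  choose n hn using hn1
  choose n' hn' using hn2
  have hN0 : (N : ℚ) ≠ 0 := by exact_mod_cast hN.ne'
  obtain ⟨S, hS⟩ := exists_multiset s n (fun g hg h0 => hg (by
    have := hn g
    rw [h0, map_zero, mul_zero] at this
    exact_mod_cast this.symm))
  obtain ⟨S', hS'⟩ := exists_multiset s' n' (fun g hg h0 => hg (by
    have := hn' g
    rw [h0, map_zero, mul_zero] at this
    exact_mod_cast this.symm))
  refine ⟨S, S', ?_, ?_, ?_⟩
  · rintro rfl
    apply hs0
    ext g
    by_contra hg
    have h1 := hL1 g hg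
    have h2 := hn g
    rw [← hS g, Multiset.count_zero, Nat.cast_zero] at h2
    rcases mul_eq_zero.1 h2 with h3 | h3
    · exact hN0 h3
    · exact h1.ne' h3
  · rintro rfl
    apply hs0'
    ext g
    by_contra hg
    have h1 := hL2 g hg
    have h2 := hn' g
    rw [← hS' g, Multiset.count_zero, Nat.cast_zero] at h2
    rcases mul_eq_zero.1 h2 with h3 | h3
    · exact hN0 h3
    · exact h1.ne' h3
  · ext g
    rw [count_bind, count_bind]
    have h1 : (s * phi p).coeff g = (s' * phi r).coeff g := by rw [heq]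
    rw [coeff_mul_phi, coeff_mul_phi] at h1
    have h2 := congrArg (fun x => (N : ℚ) * L x) h1
    simp only [map_multiset_sum, Multiset.map_map, ← Multiset.sum_map_mul_left,
      Function.comp_def, hn, hn'] at h2
    simp only [hS, hS']
    have h3 : (((p.map fun b => n (g * b⁻¹)).sum : ℕ) : ℚ) =
        (((r.map fun b => n' (g * b⁻¹)).sum : ℕ) : ℚ) := by
      rw [Nat.cast_multiset_sum, Nat.cast_multiset_sum]
      simpa only [Multiset.map_map, Function.comp_def] using h2
    exact_mod_cast h3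

theorem M4.lift_mset {Q : Type} [Group Q] (H : Subgroup Q) (p : Multiset Q)
    (hp : ∀ x ∈ p, x ∈ H) : ∃ p' : Multiset H, p'.map Subtype.val = p := by
  lift p to Multiset H using hp
  exact ⟨p, rfl⟩

theorem natOre_of_fg {Q : Type} [Group Q]
    (h : ∀ H : Subgroup Q, H.FG → NatOre H) : NatOre Q := by
  classical
  intro p r hp hr
  obtain ⟨H, hHfg, hpH, hrH⟩ : ∃ H : Subgroup Q, H.FG ∧ (∀ x ∈ p, x ∈ H) ∧ (∀ x ∈ r, x ∈ H) :=
    ⟨Subgroup.closure ((p + r).toFinset : Set Q), ⟨(p + r).toFinset, rfl⟩,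
      fun x hx => Subgroup.subset_closure (by simp [hx]),
      fun x hx => Subgroup.subset_closure (by simp [hx])⟩
  obtain ⟨p', hp'⟩ := M4.lift_mset H p hpH
  obtain ⟨r', hr'⟩ := M4.lift_mset H r hrH
  subst hp' hr'
  obtain ⟨s, s', hs, hs', heq⟩ := h H hHfg p' r' (by rintro rfl; exact hp rfl)
    (by rintro rfl; exact hr rfl)
  refine ⟨s.map Subtype.val, s'.map Subtype.val, by simpa using hs, by simpa using hs', ?_⟩
  have h1 := congrArg (Multiset.map (Subtype.val : H → Q)) heq
  simpa [Multiset.map_bind, Multiset.bind_map, Multiset.map_map, Function.comp_def] using h1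

end Pool.Agent.MP_22afe8_al
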