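import Mathlib
import Pool.Agent.Work.MP_22afe8_al.Defs

set_option autoImplicit false

open scoped commutatorElement

namespace Pool.Agent.MP_22afe8_al

namespace Gpl

/-- The preimage in `G` of the upper central series of `G ⧸ A`. -/
def W {G : Type} [Group G] (A : Subgroup G) [A.Normal] (k : ℕ) : Subgroup G :=
  (Subgroup.upperCentralSeries (G ⧸ A) k).comap (QuotientGroup.mk' A)

theorem mem_W_zero {G : Type} [Group G] (A : Subgroup G) [A.Normal] (g : G) :
    g ∈ W A 0 ↔ g ∈ A := by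
  unfold W
  rw [Subgroup.mem_comap, Subgroup.upperCentralSeries_zero, Subgroup.mem_bot]
  exact QuotientGroup.eq_one_iff g

theorem mem_W_succ {G : Type} [Group G] (A : Subgroup G) [A.Normal] (k : ℕ) (g : G) :
    g ∈ W A (k + 1) ↔ ∀ h : G, g * h * g⁻¹ * h⁻¹ ∈ W A k := by
  unfold W
  rw [Subgroup.mem_comap, Subgroup.mem_upperCentralSeries_succ_iff]
  constructor
  · intro H h
    have := H (QuotientGroup.mk' A h)
    rw [commutatorElement_def] at this
    rw [Subgroup.mem_comap]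
    simpa using this
  · intro H y
    obtain ⟨h, rfl⟩ := QuotientGroup.mk'_surjective A y
    have := H h
    rw [Subgroup.mem_comap] at this
    rw [commutatorElement_def]
    simpa using this

theorem W_normal {G : Type} [Group G] (A : Subgroup G) [A.Normal] (k : ℕ) : (W A k).Normal := by
  unfold W
  infer_instance

theorem le_W {G : Type} [Group G] (A : Subgroup G) [A.Normal] (k : ℕ) {g : G} (hg : g ∈ A) :
    g ∈ W A k := by
  have h0 : g ∈ W A 0 := (mem_W_zero A g).mpr hg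
  have hmono : W A 0 ≤ W A k := by
    unfold W
    exact Subgroup.comap_mono (Subgroup.upperCentralSeries_mono (G ⧸ A) (Nat.zero_le k))
  exact hmono h0

/-- Torsion-freeness of the successive quotients of the upper central series, general form. -/
theorem ucs_isolated {Q : Type} [Group Q]
    (h0 : ∀ t : Q, t ∈ Subgroup.center Q → ∀ n : ℕ, 0 < n → t ^ n = 1 → t = 1) (k : ℕ) :
    ∀ g : Q, g ∈ Subgroup.upperCentralSeries Q (k + 1) → ∀ n : ℕ, 0 < n →
      g ^ n ∈ Subgroup.upperCentralSeries Q k → g ∈ Subgroup.upperCentralSeries Q k := by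
  induction k with
  | zero =>
    intro g hg n hn hgn
    rw [Subgroup.upperCentralSeries_zero, Subgroup.mem_bot] at hgn ⊢
    rw [zero_add, Subgroup.upperCentralSeries_one] at hg
    exact h0 g hg n hn hgn
  | succ k ih =>
    intro g hg n hn hgn
    rw [Subgroup.mem_upperCentralSeries_succ_iff] at hgn ⊢
    intro h
    have hz : ⁅g, h⁆ ∈ Subgroup.upperCentralSeries Q (k + 1) :=
      Subgroup.mem_upperCentralSeries_succ_iff.mp hg h
    refine ih _ hz n hn ?_
    have hgnh := hgn h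
    -- work modulo the k-th term
    set N := Subgroup.upperCentralSeries Q k with hN
    haveI : N.Normal := by rw [hN]; infer_instance
    have hcen : ∀ q : Q, (QuotientGroup.mk' N ⁅g, h⁆) * (QuotientGroup.mk' N q) =
        (QuotientGroup.mk' N q) * (QuotientGroup.mk' N ⁅g, h⁆) := by
      intro q
      have h1 : ⁅⁅g, h⁆, q⁆ ∈ N := Subgroup.mem_upperCentralSeries_succ_iff.mp hz q
      have h2 : QuotientGroup.mk' N ⁅⁅g, h⁆, q⁆ = 1 := (QuotientGroup.eq_one_iff _).mpr h1
      rw [map_commutatorElement] at h2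
      exact commutatorElement_eq_one_iff_mul_comm.mp h2
    set z := QuotientGroup.mk' N ⁅g, h⁆ with hzdef
    set g' := QuotientGroup.mk' N g with hg'
    set h' := QuotientGroup.mk' N h with hh'
    have hzz : z = g' * h' * g'⁻¹ * h'⁻¹ := by
      rw [hzdef, map_commutatorElement, commutatorElement_def]
    have key : ∀ m : ℕ, g' ^ m * h' = z ^ m * h' * g' ^ m := by
      intro m
      induction m with
      | zero => simp
      | succ m ihm =>
        have e1 : g' * h' = z * h' * g' := by rw [hzz]; group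
        have e2 : Commute (z ^ m) g' := (show Commute z g' from hcen g).pow_left m
        calc g' ^ (m + 1) * h' = g' * (g' ^ m * h') := by rw [pow_succ']; group
          _ = g' * (z ^ m * h' * g' ^ m) := by rw [ihm]
          _ = (g' * z ^ m) * (h' * g' ^ m) := by group
          _ = (z ^ m * g') * (h' * g' ^ m) := by rw [e2.eq]
          _ = z ^ m * (g' * h') * g' ^ m := by group
          _ = z ^ m * (z * h' * g') * g' ^ m := by rw [e1]
          _ = z ^ (m + 1) * h' * g' ^ (m + 1) := by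
            rw [pow_succ z m, pow_succ' g' m]; group
    have h3 : z ^ n = ⁅g' ^ n, h'⁆ := by
      rw [commutatorElement_def, key n]; group
    have h4 : QuotientGroup.mk' N ⁅g ^ n, h⁆ = 1 := (QuotientGroup.eq_one_iff _).mpr hgnh
    rw [map_commutatorElement, map_pow] at h4
    have h5 : QuotientGroup.mk' N (⁅g, h⁆ ^ n) = 1 := by
      rw [map_pow]
      show z ^ n = 1
      rw [h3]; exact h4
    exact (QuotientGroup.eq_one_iff _).mp h5

section order

variable {G : Type} [Group G] [PartialOrder G] [MulLeftMono G] [MulRightMono G]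

theorem conj_le {g h : G} (H : g ≤ h) (k : G) : k * g * k⁻¹ ≤ k * h * k⁻¹ :=
  mul_le_mul' (mul_le_mul' le_rfl H) le_rfl

theorem one_le_conj {g : G} (H : 1 ≤ g) (k : G) : 1 ≤ k * g * k⁻¹ := by
  have := conj_le H k
  simpa using this

/-- The normal submonoid generated by `y`. -/
def MY {G : Type} [Group G] (y : G) : Submonoid G := Submonoid.closure {z | ∃ g, z = g * y * g⁻¹}

theorem MY_self {G : Type} [Group G] (y : G) : y ∈ MY y :=
  Submonoid.subset_closure ⟨1, by simp⟩

theorem MY_conj {G : Type} [Group G] {y u : G} (hu : u ∈ MY y) (k : G) : k * u * k⁻¹ ∈ MY y := by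
  unfold MY at *
  induction hu using Submonoid.closure_induction with
  | mem z hz =>
    obtain ⟨g, rfl⟩ := hz
    exact Submonoid.subset_closure ⟨k * g, by group⟩
  | one => simp
  | mul a b _ _ iha ihb =>
    have : k * (a * b) * k⁻¹ = (k * a * k⁻¹) * (k * b * k⁻¹) := by group
    rw [this]
    exact Submonoid.mul_mem _ iha ihb

theorem MY_one_le {y u : G} (hy : 1 ≤ y) (hu : u ∈ MY y) : 1 ≤ u := by
  unfold MY at hu
  induction hu using Submonoid.closure_induction with
  | mem z hz =>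
    obtain ⟨g, rfl⟩ := hz
    exact one_le_conj hy g
  | one => exact le_rfl
  | mul a b _ _ iha ihb => exact one_le_mul iha ihb

theorem MY_transfer {y π : G} (h : y ≤ π) (L : Subgroup G) (hL : L.Normal) (hπ : π ∈ L) {u : G}
    (hu : u ∈ MY y) : ∃ v ∈ L, u ≤ v := by
  unfold MY at hu
  induction hu using Submonoid.closure_induction with
  | mem z hz =>
    obtain ⟨g, rfl⟩ := hz
    exact ⟨g * π * g⁻¹, hL.conj_mem π hπ g, conj_le h g⟩
  | one => exact ⟨1, L.one_mem, le_rfl⟩
  | mul a b _ _ iha ihb =>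
    obtain ⟨v, hv, hv'⟩ := iha
    obtain ⟨w, hw, hw'⟩ := ihb
    exact ⟨v * w, L.mul_mem hv hw, mul_le_mul' hv' hw'⟩

/-- The convex normal subgroup generated by `y`. -/
def CS (y : G) (hy : 1 ≤ y) : Subgroup G where
  carrier := {g | ∃ u ∈ MY y, u⁻¹ ≤ g ∧ g ≤ u}
  one_mem' := ⟨1, Submonoid.one_mem _, by simp, le_rfl⟩
  mul_mem' := by
    rintro g h ⟨u, hu, hu1, hu2⟩ ⟨v, hv, hv1, hv2⟩
    have hu0 := MY_one_le hy hu
    have hv0 := MY_one_le hy hv
    have h1 : u * v ≤ u * v * (v * u) := by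
      calc u * v = u * v * 1 := by simp
        _ ≤ u * v * (v * u) := mul_le_mul' le_rfl (one_le_mul hv0 hu0)
    have h2 : v * u ≤ u * v * (v * u) := by
      calc v * u = 1 * (v * u) := by simp
        _ ≤ u * v * (v * u) := mul_le_mul' (one_le_mul hu0 hv0) le_rfl
    refine ⟨u * v * (v * u), Submonoid.mul_mem _ (Submonoid.mul_mem _ hu hv)
      (Submonoid.mul_mem _ hv hu), ?_, ?_⟩
    · calc (u * v * (v * u))⁻¹ ≤ (v * u)⁻¹ := inv_le_inv_iff.mpr h2
        _ = u⁻¹ * v⁻¹ := by group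
        _ ≤ g * h := mul_le_mul' hu1 hv1
    · exact (mul_le_mul' hu2 hv2).trans h1
  inv_mem' := by
    rintro g ⟨u, hu, hu1, hu2⟩
    exact ⟨u, hu, inv_le_inv_iff.mpr hu2, inv_le_of_inv_le' hu1⟩

theorem mem_CS {y : G} (hy : 1 ≤ y) {g : G} : g ∈ CS y hy ↔ ∃ u ∈ MY y, u⁻¹ ≤ g ∧ g ≤ u := Iff.rfl

theorem CS_normal {y : G} (hy : 1 ≤ y) : (CS y hy).Normal := by
  constructor
  rintro g ⟨u, hu, hu1, hu2⟩ k
  refine ⟨k * u * k⁻¹, MY_conj hu k, ?_, conj_le hu2 k⟩
  have := conj_le hu1 k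
  calc (k * u * k⁻¹)⁻¹ = k * u⁻¹ * k⁻¹ := by group
    _ ≤ k * g * k⁻¹ := this

theorem mem_CS_of_le {y : G} (hy : 1 ≤ y) {g u : G} (hg : 1 ≤ g) (hu : u ∈ CS y hy) (h : g ≤ u) :
    g ∈ CS y hy := by
  obtain ⟨v, hv, hv1, hv2⟩ := hu
  refine ⟨v, hv, ?_, h.trans hv2⟩
  exact (inv_le_one'.mpr (MY_one_le hy hv)).trans hg

end order

section maxab

variable {G : Type} [Group G]

/-- Existence of a maximal abelian normal subgroup. -/
theorem exists_maxab (A0 : Subgroup G) (hn : A0.Normal) (hab : ∀ a ∈ A0, ∀ b ∈ A0, a * b = b * a) :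
    ∃ A : Subgroup G, A.Normal ∧ A0 ≤ A ∧ (∀ a ∈ A, ∀ b ∈ A, a * b = b * a) ∧
      (∀ B : Subgroup G, B.Normal → (∀ a ∈ B, ∀ b ∈ B, a * b = b * a) → A ≤ B → B ≤ A) := by
  obtain ⟨A, hA, hmax⟩ := zorn_le_nonempty₀
    {B : Subgroup G | B.Normal ∧ (∀ a ∈ B, ∀ b ∈ B, a * b = b * a)} (by
      intro c hc hchain B0 hB0
      refine ⟨sSup c, ⟨?_, ?_⟩, fun B hB => le_sSup hB⟩
      · constructor
        intro x hx g
        rw [Subgroup.mem_sSup_of_directedOn ⟨B0, hB0⟩ hchain.directedOn] at hx ⊢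
        obtain ⟨B, hB, hxB⟩ := hx
        exact ⟨B, hB, (hc hB).1.conj_mem x hxB g⟩
      · intro a ha b hb
        rw [Subgroup.mem_sSup_of_directedOn ⟨B0, hB0⟩ hchain.directedOn] at ha hb
        obtain ⟨B1, hB1, ha⟩ := ha
        obtain ⟨B2, hB2, hb⟩ := hb
        rcases hchain.total hB1 hB2 with h | h
        · exact (hc hB2).2 a (h ha) b hb
        · exact (hc hB1).2 a ha b (h hb)) A0 ⟨hn, hab⟩
  refine ⟨A, hmax.prop.1, hA, hmax.prop.2, ?_⟩
  intro B hB hBab hAB
  exact hmax.le_of_ge ⟨hB, hBab⟩ hAB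

/-- A normal abelian subgroup centralising `A` lies in `A`. -/
theorem maxab_le {A : Subgroup G} (hAn : A.Normal) (hAab : ∀ a ∈ A, ∀ b ∈ A, a * b = b * a)
    (hAmax : ∀ B : Subgroup G, B.Normal → (∀ a ∈ B, ∀ b ∈ B, a * b = b * a) → A ≤ B → B ≤ A)
    (C : Subgroup G) (hCn : C.Normal) (hCab : ∀ a ∈ C, ∀ b ∈ C, a * b = b * a)
    (hCA : ∀ c ∈ C, ∀ a ∈ A, c * a = a * c) : C ≤ A := by
  refine le_trans le_sup_right (hAmax (A ⊔ C) inferInstance ?_ le_sup_left)
  intro x hx z hz
  rw [Subgroup.mem_sup_of_normal_left] at hx hz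
  obtain ⟨a, ha, c, hc, rfl⟩ := hx
  obtain ⟨a', ha', c', hc', rfl⟩ := hz
  calc a * c * (a' * c') = a * (c * a') * c' := by group
    _ = a * (a' * c) * c' := by rw [hCA c hc a' ha']
    _ = (a * a') * (c * c') := by group
    _ = (a' * a) * (c' * c) := by rw [hAab a ha a' ha', hCab c hc c' hc']
    _ = a' * (a * c') * c := by group
    _ = a' * (c' * a) * c := by rw [hCA c' hc' a ha]
    _ = a' * c' * (a * c) := by group

/-- An element commuting with `A` and central modulo `A` lies in `A`. -/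
theorem maxab_mem {A : Subgroup G} (hAn : A.Normal) (hAab : ∀ a ∈ A, ∀ b ∈ A, a * b = b * a)
    (hAmax : ∀ B : Subgroup G, B.Normal → (∀ a ∈ B, ∀ b ∈ B, a * b = b * a) → A ≤ B → B ≤ A)
    (t : G) (htA : ∀ a ∈ A, t * a = a * t) (ht : ∀ g : G, t * g * t⁻¹ * g⁻¹ ∈ A) : t ∈ A := by
  -- the subgroup generated by A and t
  have hmem : ∀ x ∈ A ⊔ Subgroup.zpowers t, ∃ a ∈ A, ∃ i : ℤ, x = a * t ^ i := by
    intro x hx
    rw [Subgroup.mem_sup_of_normal_left] at hx
    obtain ⟨a, ha, c, hc, rfl⟩ := hx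
    obtain ⟨i, rfl⟩ := Subgroup.mem_zpowers_iff.mp hc
    exact ⟨a, ha, i, rfl⟩
  have hcom : ∀ a ∈ A, ∀ i : ℤ, a * t ^ i = t ^ i * a := by
    intro a ha i
    exact ((show Commute t a from htA a ha).zpow_left i).symm.eq
  have hN : (A ⊔ Subgroup.zpowers t).Normal := by
    have htn : ∀ g : G, g * t * g⁻¹ ∈ A ⊔ Subgroup.zpowers t := by
      intro g
      have h1 : g * t * g⁻¹ = (t * g * t⁻¹ * g⁻¹)⁻¹ * t := by group
      rw [h1]
      exact Subgroup.mul_mem _ (Subgroup.mem_sup_left (A.inv_mem (ht g)))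
        (Subgroup.mem_sup_right (Subgroup.mem_zpowers t))
    constructor
    intro x hx g
    obtain ⟨a, ha, i, rfl⟩ := hmem x hx
    have h1 : g * (a * t ^ i) * g⁻¹ = (g * a * g⁻¹) * (g * t * g⁻¹) ^ i := by
      rw [conj_zpow]; group
    rw [h1]
    exact Subgroup.mul_mem _ (Subgroup.mem_sup_left (hAn.conj_mem a ha g))
      (Subgroup.zpow_mem _ (htn g) i)
  refine hAmax (A ⊔ Subgroup.zpowers t) hN ?_ le_sup_left
    (Subgroup.mem_sup_right (Subgroup.mem_zpowers t))
  intro x hx z hz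
  obtain ⟨a, ha, i, rfl⟩ := hmem x hx
  obtain ⟨b, hb, j, rfl⟩ := hmem z hz
  calc a * t ^ i * (b * t ^ j) = a * (t ^ i * b) * t ^ j := by group
    _ = a * (b * t ^ i) * t ^ j := by rw [hcom b hb i]
    _ = (a * b) * (t ^ i * t ^ j) := by group
    _ = (b * a) * (t ^ j * t ^ i) := by rw [hAab a ha b hb, (zpow_mul_comm t i j)]
    _ = b * (a * t ^ j) * t ^ i := by group
    _ = b * (t ^ j * a) * t ^ i := by rw [hcom a ha j]
    _ = b * t ^ j * (a * t ^ i) := by group

end maxab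

end Gpl

end Pool.Agent.MP_22afe8_al
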