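import Mathlib
import Pool.Agent.Work.MP_22afe8_al.M5a

set_option autoImplicit false

namespace Pool.Agent.MP_22afe8_al

namespace Gpl

variable {G : Type} [Group G] [PartialOrder G] [MulLeftMono G] [MulRightMono G]

/-- The common hypotheses of the core argument. -/
structure Ctx (A : Subgroup G) (y : G) : Prop where
  hy : 1 ≤ y
  hy1 : y ≠ 1
  hAab : ∀ a ∈ A, ∀ b ∈ A, a * b = b * a
  hAmax : ∀ B : Subgroup G, B.Normal → (∀ a ∈ B, ∀ b ∈ B, a * b = b * a) → A ≤ B → B ≤ A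
  hE : ∀ L : Subgroup G, L.Normal → L ≠ ⊥ → ∃ l ∈ L, y ≤ l

theorem comm_mem_of_normal {C : Subgroup G} (hC : C.Normal) {g : G} (hg : g ∈ C) (h : G) :
    g * h * g⁻¹ * h⁻¹ ∈ C := by
  have e : g * h * g⁻¹ * h⁻¹ = g * (h * g⁻¹ * h⁻¹) := by group
  rw [e]
  exact Subgroup.mul_mem _ hg (hC.conj_mem _ (Subgroup.inv_mem _ hg) h)

theorem comm_mem_of_normal' {C : Subgroup G} (hC : C.Normal) {h : G} (hh : h ∈ C) (g : G) :
    g * h * g⁻¹ * h⁻¹ ∈ C :=
  Subgroup.mul_mem _ (hC.conj_mem _ hh g) (Subgroup.inv_mem _ hh)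

theorem step1 {A : Subgroup G} [hAn : A.Normal] {y : G} (h : Ctx A y) (hn : ∃ n, W A n = ⊤) :
    CS y h.hy ⊓ A ≠ ⊥ := by
  intro hbot
  have key : ∀ k, ∀ g ∈ CS y h.hy, g ∈ W A k → g = 1 := by
    intro k
    induction k with
    | zero =>
      intro g hg hW
      rw [mem_W_zero] at hW
      have h1 : g ∈ (CS y h.hy ⊓ A) := ⟨hg, hW⟩
      rw [hbot] at h1
      exact Subgroup.mem_bot.mp h1
    | succ k ih =>
      intro g hg hW
      rw [mem_W_succ] at hW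
      have hc : ∀ h' : G, g * h' = h' * g := by
        intro h'
        have h1 : g * h' * g⁻¹ * h'⁻¹ ∈ CS y h.hy := comm_mem_of_normal (CS_normal h.hy) hg h'
        have h2 := ih _ h1 (hW h')
        calc g * h' = (g * h' * g⁻¹ * h'⁻¹) * (h' * g) := by group
          _ = h' * g := by rw [h2, one_mul]
      have hgA : g ∈ A := maxab_mem hAn h.hAab h.hAmax g (fun a _ => hc a) (fun g' => by
         have h3 : g * g' * g⁻¹ * g'⁻¹ = 1 := by rw [hc g']; group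
         rw [h3]
         exact A.one_mem)
      have h1 : g ∈ (CS y h.hy ⊓ A) := ⟨hg, hgA⟩
      rw [hbot] at h1
      exact Subgroup.mem_bot.mp h1
  obtain ⟨n, hn⟩ := hn
  refine h.hy1 (key n y ?_ (by rw [hn]; trivial))
  exact ⟨y, MY_self y, (inv_le_one'.mpr h.hy).trans h.hy, le_rfl⟩

theorem step2 {A : Subgroup G} [hAn : A.Normal] {y : G} (h : Ctx A y) (hn : ∃ n, W A n = ⊤)
    {m : G} (hm : m ∈ CS y h.hy) :
    ∃ a, a ∈ A ∧ a ∈ CS y h.hy ∧ 1 ≤ a ∧ a⁻¹ ≤ m ∧ m ≤ a ∧ y ≤ a := by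
  haveI := CS_normal h.hy
  have hN : (CS y h.hy ⊓ A).Normal := inferInstance
  obtain ⟨a0, ha0, hya0⟩ := h.hE (CS y h.hy ⊓ A) hN (step1 h hn)
  obtain ⟨u, hu, hu1, hu2⟩ := hm
  obtain ⟨v, hv, huv⟩ := MY_transfer hya0 _ hN ha0 hu
  have h1u : 1 ≤ u := MY_one_le h.hy hu
  have h1v : 1 ≤ v := h1u.trans huv
  have h1a0 : 1 ≤ a0 := h.hy.trans hya0
  have hle : u ≤ v * a0 := by
    calc u ≤ v := huv
      _ = v * 1 := (mul_one v).symm
      _ ≤ v * a0 := mul_le_mul' le_rfl h1a0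
  refine ⟨v * a0, A.mul_mem hv.2 ha0.2, Subgroup.mul_mem _ hv.1 ha0.1, one_le_mul h1v h1a0,
    (inv_le_inv_iff.mpr hle).trans hu1, hu2.trans hle, ?_⟩
  calc y ≤ a0 := hya0
    _ = 1 * a0 := (one_mul a0).symm
    _ ≤ v * a0 := mul_le_mul' h1v le_rfl

theorem step3 {A : Subgroup G} [hAn : A.Normal] {y : G} (h : Ctx A y)
    (Z : Subgroup G) (hZn : Z.Normal) (hZab : ∀ a ∈ Z, ∀ b ∈ Z, a * b = b * a)
    (a : G) (haC : a ∈ CS y h.hy) (hya : y ≤ a) (β : G) (hβZ : β ∈ Z) (k0 : ℕ)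
    (hβ : ∀ g : G, ∀ k : ℤ, β ^ k ≤ (g * a * g⁻¹) ^ k0) : β = 1 := by
  have h1a : 1 ≤ a := h.hy.trans hya
  -- the subgroup of infinitesimals relative to all conjugates of `a`
  let B : Subgroup G :=
    { carrier := {β | β ∈ Z ∧ ∃ k0 : ℕ, ∀ g : G, ∀ k : ℤ, β ^ k ≤ (g * a * g⁻¹) ^ k0}
      one_mem' := ⟨Z.one_mem, 0, fun g k => by simp⟩
      mul_mem' := by
        rintro s t ⟨hs, k1, h1⟩ ⟨ht, k2, h2⟩
        refine ⟨Z.mul_mem hs ht, k1 + k2, fun g k => ?_⟩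
        rw [(show Commute s t from hZab s hs t ht).mul_zpow, pow_add]
        exact mul_le_mul' (h1 g k) (h2 g k)
      inv_mem' := by
        rintro s ⟨hs, k1, h1⟩
        refine ⟨Z.inv_mem hs, k1, fun g k => ?_⟩
        rw [inv_zpow']
        exact h1 g (-k) }
  have hBn : B.Normal := by
    constructor
    rintro s ⟨hs, k1, h1⟩ k
    refine ⟨hZn.conj_mem s hs k, k1, fun g j => ?_⟩
    rw [conj_zpow]
    have h2 := conj_le (h1 (k⁻¹ * g) j) k
    refine h2.trans (le_of_eq ?_)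
    rw [conj_pow, conj_pow]
    group
  by_contra hne
  have hBne : B ≠ ⊥ := by
    intro hb
    have : β ∈ B := ⟨hβZ, k0, hβ⟩
    rw [hb] at this
    exact hne (Subgroup.mem_bot.mp this)
  obtain ⟨π, hπ, hyπ⟩ := h.hE B hBn hBne
  obtain ⟨u, hu, hu1, hu2⟩ := haC
  obtain ⟨v, hv, huv⟩ := MY_transfer hyπ B hBn hπ hu
  obtain ⟨_, k1, hv1⟩ := hv
  have h3 := hv1 1 ((k1 : ℤ) + 1)
  have h4 : a ^ (k1 + 1) ≤ v ^ (k1 + 1) := pow_le_pow_left' (hu2.trans huv) _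
  have h5 : v ^ (k1 + 1) ≤ a ^ k1 := by
    have e1 : v ^ ((k1 : ℤ) + 1) = v ^ (k1 + 1) := by
      rw [← Nat.cast_succ, zpow_natCast]
    rw [e1] at h3
    simpa using h3
  have h6 : a ^ k1 * a ≤ a ^ k1 * 1 := by
    rw [← pow_succ, mul_one]
    exact h4.trans h5
  have h7 : a ≤ 1 := le_of_mul_le_mul_left' h6
  exact h.hy1 (le_antisymm (hya.trans h7) h.hy)

theorem step4 {A : Subgroup G} [hAn : A.Normal] {y : G} (h : Ctx A y) (hn : ∃ n, W A n = ⊤)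
    (X Z : Subgroup G) (hXn : X.Normal) (hZn : Z.Normal)
    (hZab : ∀ a ∈ Z, ∀ b ∈ Z, a * b = b * a)
    (hZX : ∀ z ∈ Z, ∀ x ∈ X, z * x = x * z)
    (hAX : ∀ a ∈ A, a ∈ CS y h.hy → ∀ x ∈ X, a * x = x * a)
    (m : G) (hm : m ∈ CS y h.hy)
    (h1 : ∀ g : G, ∀ x ∈ X, (m * g * m⁻¹ * g⁻¹) * x = x * (m * g * m⁻¹ * g⁻¹))
    (h2 : ∀ α ∈ X, m * α * m⁻¹ * α⁻¹ ∈ Z) : ∀ α ∈ X, m * α = α * m := by
  intro α hα
  obtain ⟨a, haA, haC, h1a, ham, hma, hya⟩ := step2 h hn hm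
  set β := m * α * m⁻¹ * α⁻¹ with hβdef
  have hβ1 : β = 1 := by
    refine step3 h Z hZn hZab a haC hya β (h2 α hα) 2 ?_
    intro g k
    set ag := g * a * g⁻¹ with hag
    set mg := g * m * g⁻¹ with hmg
    have hagA : ag ∈ A := hAn.conj_mem a haA g
    have hagC : ag ∈ CS y h.hy := (CS_normal h.hy).conj_mem a haC g
    have hmα : m * α * m⁻¹ ∈ X := hXn.conj_mem α hα m
    -- conjugation by `mg` agrees with conjugation by `m` on `α`
    have hconj : mg * α = (m * α * m⁻¹) * mg := by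
      have e1 : mg = (m * g * m⁻¹ * g⁻¹)⁻¹ * m := by rw [hmg]; group
      have e2 : (m * g * m⁻¹ * g⁻¹)⁻¹ * (m * α * m⁻¹) = (m * α * m⁻¹) * (m * g * m⁻¹ * g⁻¹)⁻¹ :=
        ((show Commute (m * g * m⁻¹ * g⁻¹) (m * α * m⁻¹) from h1 g _ hmα).inv_left).eq
      calc mg * α = (m * g * m⁻¹ * g⁻¹)⁻¹ * (m * α * m⁻¹) * m := by rw [e1]; group
        _ = (m * α * m⁻¹) * (m * g * m⁻¹ * g⁻¹)⁻¹ * m := by rw [e2]
        _ = (m * α * m⁻¹) * mg := by rw [e1]; group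
    have hβX : ∀ x ∈ X, β * x = x * β := hZX β (h2 α hα)
    have hqα : α⁻¹ * (ag * mg) * α = β * (ag * mg) := by
      have e3 : ag * (m * α * m⁻¹) = (m * α * m⁻¹) * ag := hAX ag hagA hagC _ hmα
      have e4 : m * α * m⁻¹ = β * α := by rw [hβdef]; group
      calc α⁻¹ * (ag * mg) * α = α⁻¹ * (ag * (mg * α)) := by group
        _ = α⁻¹ * (ag * ((m * α * m⁻¹) * mg)) := by rw [hconj]
        _ = α⁻¹ * ((ag * (m * α * m⁻¹)) * mg) := by group
        _ = α⁻¹ * (((m * α * m⁻¹) * ag) * mg) := by rw [e3]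
        _ = α⁻¹ * ((β * α) * ag * mg) := by rw [e4]
        _ = α⁻¹ * ((α * β) * ag * mg) := by rw [hβX α hα]
        _ = β * (ag * mg) := by group
    have hβα : Commute β α := hβX α hα
    have hqα' : α * (ag * mg) * α⁻¹ = β⁻¹ * (ag * mg) := by
      have e5 : ag * mg = α * (β * (ag * mg)) * α⁻¹ := by rw [← hqα]; group
      have e6 : α * (β * (ag * mg)) * α⁻¹ = β * (α * (ag * mg) * α⁻¹) := by
        calc α * (β * (ag * mg)) * α⁻¹ = (α * β) * (ag * mg) * α⁻¹ := by group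
          _ = (β * α) * (ag * mg) * α⁻¹ := by rw [hβα.eq]
          _ = β * (α * (ag * mg) * α⁻¹) := by group
      rw [eq_inv_mul_iff_mul_eq, ← e6, ← e5]
    have hpow : ∀ k : ℤ, α ^ (-k) * (ag * mg) * α ^ k = β ^ k * (ag * mg) := by
      intro k
      induction k using Int.induction_on with
      | zero => simp
      | succ i ih =>
        have e7 : α⁻¹ * β ^ (i : ℤ) = β ^ (i : ℤ) * α⁻¹ :=
          ((hβα.zpow_left (i : ℤ)).symm.inv_left).eq
        calc α ^ (-((i : ℤ) + 1)) * (ag * mg) * α ^ ((i : ℤ) + 1)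
            = α⁻¹ * (α ^ (-(i : ℤ)) * (ag * mg) * α ^ (i : ℤ)) * α := by group
          _ = α⁻¹ * (β ^ (i : ℤ) * (ag * mg)) * α := by rw [ih]
          _ = (α⁻¹ * β ^ (i : ℤ)) * (ag * mg) * α := by group
          _ = β ^ (i : ℤ) * (α⁻¹ * (ag * mg) * α) := by rw [e7]; group
          _ = β ^ (i : ℤ) * (β * (ag * mg)) := by rw [hqα]
          _ = β ^ ((i : ℤ) + 1) * (ag * mg) := by group
      | pred i ih =>
        have e7 : α * β ^ (-(i : ℤ)) = β ^ (-(i : ℤ)) * α :=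
          ((hβα.zpow_left (-(i : ℤ))).symm).eq
        calc α ^ (-(-(i : ℤ) - 1)) * (ag * mg) * α ^ (-(i : ℤ) - 1)
            = α * (α ^ (-(-(i : ℤ))) * (ag * mg) * α ^ (-(i : ℤ))) * α⁻¹ := by group
          _ = α * (β ^ (-(i : ℤ)) * (ag * mg)) * α⁻¹ := by rw [ih]
          _ = (α * β ^ (-(i : ℤ))) * (ag * mg) * α⁻¹ := by group
          _ = β ^ (-(i : ℤ)) * (α * (ag * mg) * α⁻¹) := by rw [e7]; group
          _ = β ^ (-(i : ℤ)) * (β⁻¹ * (ag * mg)) := by rw [hqα']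
          _ = β ^ (-(i : ℤ) - 1) * (ag * mg) := by group
    -- bounds on `ag * mg`
    have hlow : 1 ≤ ag * mg := by
      have e8 := conj_le ham g
      calc (1 : G) = ag * (g * a⁻¹ * g⁻¹) := by rw [hag]; group
        _ ≤ ag * mg := mul_le_mul' le_rfl e8
    have hup : ag * mg ≤ ag ^ 2 := by
      rw [pow_two]
      exact mul_le_mul' le_rfl (conj_le hma g)
    have hup2 : α ^ (-k) * (ag * mg) * α ^ k ≤ ag ^ 2 := by
      have e9 := conj_le hup (α ^ (-k))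
      have e10 : α ^ (-k) * ag ^ 2 * (α ^ (-k))⁻¹ = ag ^ 2 := by
        have e11 : Commute ag α := hAX ag hagA hagC α hα
        have e12 : Commute (ag ^ 2) (α ^ (-k)) := (e11.pow_left 2).zpow_right (-k)
        rw [← e12.eq]; group
      rw [e10] at e9
      refine le_trans (le_of_eq ?_) e9
      group
    calc β ^ k = β ^ k * 1 := (mul_one _).symm
      _ ≤ β ^ k * (ag * mg) := mul_le_mul' le_rfl hlow
      _ = α ^ (-k) * (ag * mg) * α ^ k := (hpow k).symm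
      _ ≤ ag ^ 2 := hup2
  calc m * α = β * (α * m) := by rw [hβdef]; group
    _ = α * m := by rw [hβ1, one_mul]

theorem step5 {A : Subgroup G} [hAn : A.Normal] {y : G} (h : Ctx A y) (hn : ∃ n, W A n = ⊤) :
    ∀ m ∈ CS y h.hy, ∀ a ∈ A, m * a = a * m := by
  have key : ∀ k, ∀ m ∈ CS y h.hy, m ∈ W A k → ∀ a ∈ A, m * a = a * m := by
    intro k
    induction k with
    | zero =>
      intro m _ hW a ha
      rw [mem_W_zero] at hW
      exact h.hAab m hW a ha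
    | succ k ih =>
      intro m hm hW
      rw [mem_W_succ] at hW
      refine step4 h hn A A hAn hAn h.hAab h.hAab (fun a ha _ x hx => h.hAab a ha x hx) m hm ?_ ?_
      · intro g
        exact ih _ (comm_mem_of_normal (CS_normal h.hy) hm g) (hW g)
      · intro α hα
        exact comm_mem_of_normal' hAn hα m
  obtain ⟨n, hn'⟩ := hn
  intro m hm
  exact key n m hm (by rw [hn']; trivial)

theorem step6 {A : Subgroup G} [hAn : A.Normal] {y : G} (h : Ctx A y) (hn : ∃ n, W A n = ⊤) :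
    ∀ m ∈ CS y h.hy, ∀ c ∈ CS y h.hy, m * c = c * m := by
  haveI hCn := CS_normal h.hy
  have key : ∀ k, ∀ m ∈ CS y h.hy, m ∈ W A k → ∀ c ∈ CS y h.hy, m * c = c * m := by
    intro k
    induction k with
    | zero =>
      intro m _ hW c hc
      rw [mem_W_zero] at hW
      exact (step5 h hn c hc m hW).symm
    | succ k ih =>
      intro m hm hW
      rw [mem_W_succ] at hW
      have hZn : (CS y h.hy ⊓ Subgroup.centralizer (CS y h.hy : Set G)).Normal := inferInstance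
      refine step4 h hn (CS y h.hy) (CS y h.hy ⊓ Subgroup.centralizer (CS y h.hy : Set G))
        hCn hZn ?_ ?_ ?_ m hm ?_ ?_
      · rintro a ⟨ha1, ha2⟩ b ⟨hb1, hb2⟩
        exact (Subgroup.mem_centralizer_iff.mp ha2 b hb1).symm
      · rintro a ⟨ha1, ha2⟩ b hb1
        exact (Subgroup.mem_centralizer_iff.mp ha2 b hb1).symm
      · intro a ha _ x hx
        exact (step5 h hn x hx a ha).symm
      · intro g
        exact ih _ (comm_mem_of_normal hCn hm g) (hW g)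
      · intro α hα
        refine Subgroup.mem_inf.mpr ⟨comm_mem_of_normal hCn hm α, ?_⟩
        rw [Subgroup.mem_centralizer_iff]
        intro c hc
        exact (ih _ (comm_mem_of_normal hCn hm α) (hW α) c hc).symm
  obtain ⟨n, hn'⟩ := hn
  intro m hm
  exact key n m hm (by rw [hn']; trivial)

theorem step7 {A : Subgroup G} [hAn : A.Normal] {y : G} (h : Ctx A y) (hn : ∃ n, W A n = ⊤) :
    CS y h.hy ≤ A :=
  maxab_le hAn h.hAab h.hAmax _ (CS_normal h.hy) (step6 h hn) (step5 h hn)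

/-- The quotient by the maximal abelian normal subgroup has torsion-free centre. -/
theorem step8 {A : Subgroup G} [hAn : A.Normal] {y : G} (h : Ctx A y)
    (t : G) (ht : ∀ g : G, t * g * t⁻¹ * g⁻¹ ∈ A) (n : ℕ) (hn0 : 0 < n) (htn : t ^ n ∈ A) :
    t ∈ A := by
  refine maxab_mem hAn h.hAab h.hAmax t ?_ ht
  -- the subgroup of commutators `[t, α]`
  have hconjA : ∀ α ∈ A, t * α * t⁻¹ ∈ A := fun α hα => hAn.conj_mem α hα t
  let L : Subgroup G :=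
    { carrier := {z | ∃ α ∈ A, z = t * α * t⁻¹ * α⁻¹}
      one_mem' := ⟨1, A.one_mem, by group⟩
      mul_mem' := by
        rintro _ _ ⟨α, hα, rfl⟩ ⟨α', hα', rfl⟩
        refine ⟨α * α', A.mul_mem hα hα', ?_⟩
        have e1 := h.hAab (α⁻¹) (A.inv_mem hα) (t * α' * t⁻¹ * α'⁻¹)
          (A.mul_mem (hconjA α' hα') (A.inv_mem hα'))
        calc t * α * t⁻¹ * α⁻¹ * (t * α' * t⁻¹ * α'⁻¹)
            = t * α * t⁻¹ * (α⁻¹ * (t * α' * t⁻¹ * α'⁻¹)) := by group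
          _ = t * α * t⁻¹ * ((t * α' * t⁻¹ * α'⁻¹) * α⁻¹) := by rw [e1]
          _ = t * (α * α') * t⁻¹ * (α * α')⁻¹ := by group
      inv_mem' := by
        rintro _ ⟨α, hα, rfl⟩
        refine ⟨α⁻¹, A.inv_mem hα, ?_⟩
        have e1 := h.hAab α hα (t * α⁻¹ * t⁻¹) (hconjA _ (A.inv_mem hα))
        calc (t * α * t⁻¹ * α⁻¹)⁻¹ = α * (t * α⁻¹ * t⁻¹) := by group
          _ = (t * α⁻¹ * t⁻¹) * α := e1
          _ = t * α⁻¹ * t⁻¹ * (α⁻¹)⁻¹ := by group }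
  have hLn : L.Normal := by
    constructor
    rintro _ ⟨α, hα, rfl⟩ g
    refine ⟨g * α * g⁻¹, hAn.conj_mem α hα g, ?_⟩
    have hcA : (t * g * t⁻¹ * g⁻¹)⁻¹ ∈ A := A.inv_mem (ht g)
    have e1 := h.hAab _ hcA (t * (g * α * g⁻¹) * t⁻¹) (hconjA _ (hAn.conj_mem α hα g))
    calc g * (t * α * t⁻¹ * α⁻¹) * g⁻¹
        = (t * g * t⁻¹ * g⁻¹)⁻¹ * (t * (g * α * g⁻¹) * t⁻¹) * (t * g * t⁻¹ * g⁻¹) *
            (g * α * g⁻¹)⁻¹ := by group
      _ = (t * (g * α * g⁻¹) * t⁻¹) * (t * g * t⁻¹ * g⁻¹)⁻¹ * (t * g * t⁻¹ * g⁻¹) *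
            (g * α * g⁻¹)⁻¹ := by rw [e1]
      _ = t * (g * α * g⁻¹) * t⁻¹ * (g * α * g⁻¹)⁻¹ := by group
  by_contra hcon
  push Not at hcon
  obtain ⟨α0, hα0, hne⟩ := hcon
  have hLne : L ≠ ⊥ := by
    intro hb
    have h1 : t * α0 * t⁻¹ * α0⁻¹ ∈ L := ⟨α0, hα0, rfl⟩
    rw [hb] at h1
    have h2 := Subgroup.mem_bot.mp h1
    apply hne
    calc t * α0 = (t * α0 * t⁻¹ * α0⁻¹) * (α0 * t) := by group
      _ = α0 * t := by rw [h2, one_mul]
  obtain ⟨l, ⟨α, hα, hl⟩, hyl⟩ := h.hE L hLn hLne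
  have h1l : 1 ≤ l := h.hy.trans hyl
  have hT : ∀ k : ℕ, 1 ≤ t ^ k * α * (t ^ k)⁻¹ * α⁻¹ ∧
      l ≤ t ^ (k + 1) * α * (t ^ (k + 1))⁻¹ * α⁻¹ := by
    intro k
    induction k with
    | zero =>
      refine ⟨by simp, le_of_eq ?_⟩
      rw [hl]; simp
    | succ k ih =>
      have h2 : 1 ≤ t ^ (k + 1) * α * (t ^ (k + 1))⁻¹ * α⁻¹ := h1l.trans ih.2
      refine ⟨h2, ?_⟩
      have e1 : t ^ (k + 1 + 1) * α * (t ^ (k + 1 + 1))⁻¹ * α⁻¹ =
          (t * (t ^ (k + 1) * α * (t ^ (k + 1))⁻¹ * α⁻¹) * t⁻¹) * l := by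
        rw [hl, pow_succ' t (k + 1)]; group
      rw [e1]
      calc l = 1 * l := (one_mul l).symm
        _ ≤ _ := mul_le_mul' (one_le_conj h2 t) le_rfl
  obtain ⟨n', rfl⟩ : ∃ n', n = n' + 1 := ⟨n - 1, by omega⟩
  have h3 := (hT n').2
  have h4 : t ^ (n' + 1) * α * (t ^ (n' + 1))⁻¹ * α⁻¹ = 1 := by
    rw [h.hAab _ htn α hα]; group
  rw [h4] at h3
  exact h.hy1 (le_antisymm (hyl.trans h3) h.hy)

theorem step9 {A : Subgroup G} [hAn : A.Normal] {y : G} (h : Ctx A y) (k : ℕ)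
    (g : G) (hg : g ∈ W A (k + 1)) (n : ℕ) (hn0 : 0 < n) (hgn : g ^ n ∈ W A k) : g ∈ W A k := by
  have h0 : ∀ t : G ⧸ A, t ∈ Subgroup.center (G ⧸ A) → ∀ n : ℕ, 0 < n → t ^ n = 1 → t = 1 := by
    intro t ht n hn0 htn
    obtain ⟨t, rfl⟩ := QuotientGroup.mk'_surjective A t
    rw [← map_pow] at htn
    have h1 : t ^ n ∈ A := (QuotientGroup.eq_one_iff _).mp htn
    refine (QuotientGroup.eq_one_iff _).mpr (step8 h t ?_ n hn0 h1)
    intro g
    have h2 := Subgroup.mem_center_iff.mp ht (QuotientGroup.mk' A g)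
    have h3 : QuotientGroup.mk' A (t * g * t⁻¹ * g⁻¹) = 1 := by
      rw [map_mul, map_mul, map_mul, map_inv, map_inv, ← h2]; group
    exact (QuotientGroup.eq_one_iff _).mp h3
  have h1 := ucs_isolated h0 k (QuotientGroup.mk' A g) hg n hn0
  rw [← map_pow] at h1
  exact h1 hgn

end Gpl

end Pool.Agent.MP_22afe8_al
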