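import Mathlib
import Pool.Agent.Work.MP_22afe8_al.M5b

set_option autoImplicit false

namespace Pool.Agent.MP_22afe8_al

namespace Gpl

/-- Products of nonempty finite lists of conjugates of `x`. -/
def SX {G : Type} [Group G] (x : G) : Set G :=
  {z | ∃ l : List G, l ≠ [] ∧ z = (l.map (fun g => g * x * g⁻¹)).prod}

section ord

variable {G : Type} [Group G] [PartialOrder G] [MulLeftMono G] [MulRightMono G]

theorem step10 {A : Subgroup G} [hAn : A.Normal] {y : G} (h : Ctx A y) (hn : ∃ n, W A n = ⊤)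
    (x b : G) (hb : b ∈ SX x) (hbA : b ∈ A) : x ∈ A := by
  have key : ∀ k, x ∈ W A k → x ∈ A := by
    intro k
    induction k with
    | zero =>
      intro hx
      exact (mem_W_zero A x).mp hx
    | succ k ih =>
      intro hx
      obtain ⟨l, hl, hbl⟩ := hb
      apply ih
      haveI := W_normal A k
      have hx' := (mem_W_succ A k x).mp hx
      have hcen : ∀ g : G, QuotientGroup.mk' (W A k) (g * x * g⁻¹) =
          QuotientGroup.mk' (W A k) x := by
        intro g
        have h1 : QuotientGroup.mk' (W A k) (x * g * x⁻¹ * g⁻¹) = 1 :=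
          (QuotientGroup.eq_one_iff _).mpr (hx' g)
        have h2 : g * x * g⁻¹ = (x * g * x⁻¹ * g⁻¹)⁻¹ * x := by group
        rw [h2, map_mul, map_inv, h1, inv_one, one_mul]
      have hprod : ∀ l : List G, QuotientGroup.mk' (W A k)
          ((l.map (fun g => g * x * g⁻¹)).prod) = (QuotientGroup.mk' (W A k) x) ^ l.length := by
        intro l
        induction l with
        | nil => simp
        | cons a l ihl =>
          rw [List.map_cons, List.prod_cons, map_mul, ihl, hcen, List.length_cons, pow_succ']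
      have h3 : x ^ l.length ∈ W A k := by
        have h4 := hprod l
        rw [← hbl] at h4
        have h5 : QuotientGroup.mk' (W A k) b = 1 := (QuotientGroup.eq_one_iff _).mpr (le_W A k hbA)
        rw [h5, ← map_pow] at h4
        exact (QuotientGroup.eq_one_iff _).mp h4.symm
      exact step9 h k x hx l.length (List.length_pos_iff.mpr hl) h3
  obtain ⟨n, hn'⟩ := hn
  exact key n (by rw [hn']; trivial)

theorem core (hOre : ∀ (Q : Type) [Group Q], Group.IsNilpotent Q → NatOre Q)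
    (A0 : Subgroup G) [hA0 : A0.Normal] (hab : ∀ a ∈ A0, ∀ b ∈ A0, a * b = b * a)
    (hnil : Group.IsNilpotent (G ⧸ A0)) (x b c : G) (hb : b ∈ SX x) (hc : c ∈ SX x)
    (h1b : 1 ≤ b) (hc1 : c ≤ 1) (hy1 : b * c⁻¹ ≠ 1)
    (hE : ∀ L : Subgroup G, L.Normal → L ≠ ⊥ → ∃ l ∈ L, b * c⁻¹ ≤ l) : False := by
  obtain ⟨A, hAn, hA0A, hAab, hAmax⟩ := exists_maxab A0 hA0 hab
  have h1c : 1 ≤ c⁻¹ := one_le_inv'.mpr hc1
  have h1y : 1 ≤ b * c⁻¹ := one_le_mul h1b h1c
  have hctx : Ctx A (b * c⁻¹) := ⟨h1y, hy1, hAab, hAmax, hE⟩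
  -- nilpotency of `G ⧸ A`
  have hle : A0 ≤ A.comap (MonoidHom.id G) := hA0A
  have hnilA : Group.IsNilpotent (G ⧸ A) := by
    refine Group.nilpotent_of_surjective (QuotientGroup.map A0 A (MonoidHom.id G) hle) ?_
    intro q
    obtain ⟨g, rfl⟩ := QuotientGroup.mk'_surjective A q
    exact ⟨QuotientGroup.mk' A0 g, rfl⟩
  have hn : ∃ n, W A n = ⊤ := by
    obtain ⟨n, hn⟩ := hnilA.nilpotent'
    refine ⟨n, ?_⟩
    unfold W
    rw [hn]
    exact Subgroup.comap_top _
  have hCA := step7 hctx hn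
  have hyC : b * c⁻¹ ∈ CS (b * c⁻¹) h1y :=
    ⟨b * c⁻¹, MY_self _, (inv_le_one'.mpr h1y).trans h1y, le_rfl⟩
  have hbC : b ∈ CS (b * c⁻¹) h1y := mem_CS_of_le h1y h1b hyC (by
    calc b = b * 1 := (mul_one b).symm
      _ ≤ b * c⁻¹ := mul_le_mul' le_rfl h1c)
  have hcC : c⁻¹ ∈ CS (b * c⁻¹) h1y := mem_CS_of_le h1y h1c hyC (by
    calc c⁻¹ = 1 * c⁻¹ := (one_mul _).symm
      _ ≤ b * c⁻¹ := mul_le_mul' h1b le_rfl)
  have hbA : b ∈ A := hCA hbC
  have hxA : x ∈ A := step10 hctx hn x b hb hbA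
  -- the action of `G ⧸ A` on `A`
  letI : CommGroup A := { (inferInstance : Group A) with
    mul_comm := fun a b => Subtype.ext (hAab a a.2 b b.2) }
  let act : G ⧸ A →* MulAut A := QuotientGroup.lift A MulAut.conjNormal (by
    intro a ha
    ext z
    rw [MulAut.conjNormal_apply, hAab a ha z z.2]
    simp)
  have hact : ∀ (g : G) (z : A), ((act (QuotientGroup.mk' A g) z : A) : G) = g * z * g⁻¹ := by
    intro g z
    show ((MulAut.conjNormal g z : A) : G) = _
    rw [MulAut.conjNormal_apply]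
  let E : Multiset (G ⧸ A) → A → A := fun u z => (u.map (fun q => act q z)).prod
  have hElist : ∀ l : List G, ((E ((l.map (QuotientGroup.mk' A) : List (G ⧸ A)) :
      Multiset (G ⧸ A)) ⟨x, hxA⟩ : A) : G) = (l.map (fun g => g * x * g⁻¹)).prod := by
    intro l
    induction l with
    | nil => simp [E]
    | cons a l ih =>
      have e1 : (E (((a :: l).map (QuotientGroup.mk' A) : List (G ⧸ A)) :
          Multiset (G ⧸ A)) ⟨x, hxA⟩ : A) = act (QuotientGroup.mk' A a) ⟨x, hxA⟩ *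
          E ((l.map (QuotientGroup.mk' A) : List (G ⧸ A)) : Multiset (G ⧸ A)) ⟨x, hxA⟩ := by
        simp only [E, List.map_cons, ← Multiset.cons_coe, Multiset.map_cons, Multiset.prod_cons]
      rw [e1, List.map_cons, List.prod_cons, Subgroup.coe_mul, ih, hact]
  have hEbind : ∀ (s p : Multiset (G ⧸ A)) (z : A),
      E (s.bind fun a => p.map fun b => a * b) z = E s (E p z) := by
    intro s p z
    simp only [E]
    rw [Multiset.map_bind, Multiset.prod_bind]
    refine congrArg Multiset.prod (Multiset.map_congr rfl ?_)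
    intro a _
    rw [Multiset.map_map, map_multiset_prod, Multiset.map_map]
    refine congrArg Multiset.prod (Multiset.map_congr rfl ?_)
    intro q _
    simp only [Function.comp_apply, map_mul]
    rfl
  have hEle : ∀ (z : A), (1 : G) ≤ z → ∀ u : Multiset (G ⧸ A),
      (1 : G) ≤ (E u z : A) ∧ (u ≠ 0 → ∃ g : G, g * z * g⁻¹ ≤ (E u z : A)) := by
    intro z hz u
    induction u using Multiset.induction with
    | empty => simp [E]
    | cons q u ih =>
      obtain ⟨g, rfl⟩ := QuotientGroup.mk'_surjective A q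
      have e1 : ((E (QuotientGroup.mk' A g ::ₘ u) z : A) : G) = (g * z * g⁻¹) * (E u z : A) := by
        simp only [E, Multiset.map_cons, Multiset.prod_cons]
        rw [Subgroup.coe_mul, hact]
      rw [e1]
      refine ⟨one_le_mul (one_le_conj hz g) ih.1, fun _ => ⟨g, ?_⟩⟩
      calc g * z * g⁻¹ = (g * z * g⁻¹) * 1 := (mul_one _).symm
        _ ≤ (g * z * g⁻¹) * (E u z : A) := mul_le_mul' le_rfl ih.1
  have hEge : ∀ (z : A), (z : G) ≤ 1 → ∀ u : Multiset (G ⧸ A),
      ((E u z : A) : G) ≤ 1 ∧ (u ≠ 0 → ∃ g : G, ((E u z : A) : G) ≤ g * z * g⁻¹) := by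
    intro z hz u
    induction u using Multiset.induction with
    | empty => simp [E]
    | cons q u ih =>
      obtain ⟨g, rfl⟩ := QuotientGroup.mk'_surjective A q
      have e1 : ((E (QuotientGroup.mk' A g ::ₘ u) z : A) : G) = (g * z * g⁻¹) * (E u z : A) := by
        simp only [E, Multiset.map_cons, Multiset.prod_cons]
        rw [Subgroup.coe_mul, hact]
      rw [e1]
      have e2 : g * z * g⁻¹ ≤ 1 := by
        have := conj_le hz g
        simpa using this
      refine ⟨mul_le_one' e2 ih.1, fun _ => ⟨g, ?_⟩⟩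
      calc (g * z * g⁻¹) * (E u z : A) ≤ (g * z * g⁻¹) * 1 := mul_le_mul' le_rfl ih.1
        _ = g * z * g⁻¹ := mul_one _
  obtain ⟨lb, hlb, hbl⟩ := hb
  obtain ⟨lc, hlc, hcl⟩ := hc
  have hcA : c ∈ A := by
    have := A.inv_mem (hCA hcC)
    rwa [inv_inv] at this
  obtain ⟨s, s', hs, hs', hss⟩ := hOre (G ⧸ A) hnilA
    ((lb.map (QuotientGroup.mk' A) : List (G ⧸ A)) : Multiset (G ⧸ A))
    ((lc.map (QuotientGroup.mk' A) : List (G ⧸ A)) : Multiset (G ⧸ A))
    (by simpa using hlb) (by simpa using hlc)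
  have hEb : E ((lb.map (QuotientGroup.mk' A) : List (G ⧸ A)) : Multiset (G ⧸ A)) ⟨x, hxA⟩ =
      ⟨b, hbA⟩ := Subtype.ext ((hElist lb).trans hbl.symm)
  have hEc : E ((lc.map (QuotientGroup.mk' A) : List (G ⧸ A)) : Multiset (G ⧸ A)) ⟨x, hxA⟩ =
      ⟨c, hcA⟩ := Subtype.ext ((hElist lc).trans hcl.symm)
  have hEE : E s ⟨b, hbA⟩ = E s' ⟨c, hcA⟩ := by
    rw [← hEb, ← hEc, ← hEbind, ← hEbind, hss]
  obtain ⟨hb1, hb2⟩ := hEle ⟨b, hbA⟩ h1b s
  obtain ⟨hc1', hc2⟩ := hEge ⟨c, hcA⟩ hc1 s'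
  obtain ⟨g, hg⟩ := hb2 hs
  obtain ⟨g', hg'⟩ := hc2 hs'
  have h3 : g * b * g⁻¹ ≤ 1 := by
    refine le_trans hg ?_
    rw [hEE]
    exact hc1'
  have h4 : 1 ≤ g' * c * g'⁻¹ := by
    refine le_trans ?_ hg'
    rw [← hEE]
    exact hb1
  have h5 : b ≤ 1 := by
    have := conj_le h3 g⁻¹
    refine le_trans (le_of_eq ?_) (le_trans this (le_of_eq ?_))
    · group
    · group
  have h6 : 1 ≤ c := by
    have := conj_le h4 g'⁻¹
    refine le_trans (le_of_eq ?_) (le_trans this (le_of_eq ?_))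
    · group
    · group
  apply hy1
  rw [le_antisymm h5 h1b, le_antisymm hc1 h6]
  simp

end ord

section level

variable {G : Type} [Group G]

theorem SX_self (x : G) : x ∈ SX x := ⟨[1], by simp, by simp⟩

theorem SX_mul {x a b : G} (ha : a ∈ SX x) (hb : b ∈ SX x) : a * b ∈ SX x := by
  obtain ⟨l, hl, rfl⟩ := ha
  obtain ⟨m, hm, rfl⟩ := hb
  refine ⟨l ++ m, by simp [hl], ?_⟩
  rw [List.map_append, List.prod_append]

theorem conj_list_prod (x k : G) (l : List G) :
    k * (l.map (fun g => g * x * g⁻¹)).prod * k⁻¹ =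
      ((l.map (fun g => k * g)).map (fun g => g * x * g⁻¹)).prod := by
  induction l with
  | nil => simp
  | cons a l ih =>
    rw [List.map_cons, List.prod_cons, List.map_cons, List.map_cons, List.prod_cons, ← ih]
    group

theorem SX_conj {x a : G} (ha : a ∈ SX x) (k : G) : k * a * k⁻¹ ∈ SX x := by
  obtain ⟨l, hl, rfl⟩ := ha
  exact ⟨l.map (fun g => k * g), by simpa using hl, conj_list_prod x k l⟩

theorem SX_inv {x a : G} (ha : a ∈ SX x) : a⁻¹ ∈ SX x⁻¹ := by
  obtain ⟨l, hl, rfl⟩ := ha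
  refine ⟨l.reverse, by simpa using hl, ?_⟩
  rw [List.prod_inv_reverse, List.map_reverse]
  congr 2
  rw [List.map_map]
  apply List.map_congr_left
  intro g _
  simp only [Function.comp_apply]
  group

theorem SX_sub {P : Set G} (hmul : ∀ a : G, a ∈ P → ∀ b : G, b ∈ P → a * b ∈ P)
    (hconj : ∀ a : G, a ∈ P → ∀ g : G, g * a * g⁻¹ ∈ P) {x : G} (hx : x ∈ P) {z : G}
    (hz : z ∈ SX x) : z ∈ P := by
  obtain ⟨l, hl, rfl⟩ := hz
  induction l with
  | nil => exact absurd rfl hl
  | cons a l ih =>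
    rw [List.map_cons, List.prod_cons]
    by_cases hl' : l = []
    · subst hl'
      simpa using hconj x hx a
    · exact hmul _ (hconj x hx a) _ (ih hl')

theorem SX_map {H : Type} [Group H] (f : G →* H) {x a : G} (ha : a ∈ SX x) : f a ∈ SX (f x) := by
  obtain ⟨l, hl, rfl⟩ := ha
  refine ⟨l.map f, by simpa using hl, ?_⟩
  rw [map_list_prod, List.map_map, List.map_map]
  congr 1
  apply List.map_congr_left
  intro g _
  simp

/-- The class of multiplicatively closed, conjugation invariant sets without the identity. -/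
def Cl (G : Type) [Group G] : Set (Set G) :=
  {P | (∀ a : G, a ∈ P → ∀ b : G, b ∈ P → a * b ∈ P) ∧
    (∀ a : G, a ∈ P → ∀ g : G, g * a * g⁻¹ ∈ P) ∧ (1 : G) ∉ P}

theorem exists_inv_mem {P : Set G} (hP : Maximal (fun P => P ∈ Cl G) P) {g : G} (hg : g ∉ P)
    (h1 : (1 : G) ∉ SX g) : ∃ c ∈ SX g, c⁻¹ ∈ P := by
  by_contra hcon
  push Not at hcon
  obtain ⟨hmul, hconj, hone⟩ := hP.prop
  apply hg
  have hT : (P ∪ SX g ∪ {z | ∃ p ∈ P, ∃ s ∈ SX g, z = p * s}) ∈ Cl G := by
    refine ⟨?_, ?_, ?_⟩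
    · -- multiplicatively closed
      have hsp : ∀ s ∈ SX g, ∀ p ∈ P, ∃ p' ∈ P, s * p = p' * s := fun s hs p hp =>
        ⟨s * p * s⁻¹, hconj p hp s, by group⟩
      rintro a ((ha | ha) | ⟨p, hp, s, hs, rfl⟩) b ((hb | hb) | ⟨p', hp', s', hs', rfl⟩)
      · exact Or.inl (Or.inl (hmul a ha b hb))
      · exact Or.inr ⟨a, ha, b, hb, rfl⟩
      · exact Or.inr ⟨a * p', hmul a ha p' hp', s', hs', by group⟩
      · obtain ⟨q, hq, e⟩ := hsp a ha b hb
        exact Or.inr ⟨q, hq, a, ha, e⟩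
      · exact Or.inl (Or.inr (SX_mul ha hb))
      · obtain ⟨q, hq, e⟩ := hsp a ha p' hp'
        exact Or.inr ⟨q, hq, a * s', SX_mul ha hs', by rw [← mul_assoc, e, mul_assoc]⟩
      · obtain ⟨q, hq, e⟩ := hsp s hs b hb
        exact Or.inr ⟨p * q, hmul p hp q hq, s, hs, by rw [mul_assoc, e, mul_assoc]⟩
      · exact Or.inr ⟨p, hp, s * b, SX_mul hs hb, by group⟩
      · obtain ⟨q, hq, e⟩ := hsp s hs p' hp'
        refine Or.inr ⟨p * q, hmul p hp q hq, s * s', SX_mul hs hs', ?_⟩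
        calc p * s * (p' * s') = p * (s * p') * s' := by group
          _ = p * (q * s) * s' := by rw [e]
          _ = p * q * (s * s') := by group
    · rintro a ((ha | ha) | ⟨p, hp, s, hs, rfl⟩) k
      · exact Or.inl (Or.inl (hconj a ha k))
      · exact Or.inl (Or.inr (SX_conj ha k))
      · exact Or.inr ⟨k * p * k⁻¹, hconj p hp k, k * s * k⁻¹, SX_conj hs k, by group⟩
    · rintro ((h | h) | ⟨p, hp, s, hs, h⟩)
      · exact hone h
      · exact h1 h
      · refine hcon s hs ?_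
        have : s⁻¹ = p := by
          rw [inv_eq_iff_mul_eq_one.mpr]
          · exact mul_eq_one_iff_eq_inv.mpr (by
              rw [eq_inv_iff_mul_eq_one]
              have h2 : s * p = s * (p * s) * s⁻¹ := by group
              rw [h2, ← h]; group)
        rw [this]
        exact hp
  have hle := hP.le_of_ge hT (fun z hz => Or.inl (Or.inl hz))
  exact hle (Or.inl (Or.inr (SX_self g)))

end level

end Gpl

end Pool.Agent.MP_22afe8_al
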