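import Mathlib
import Pool.Agent.Work.MP_22afe8_al.M5c

set_option autoImplicit false

namespace Pool.Agent.MP_22afe8_al

namespace Gpl

variable {G : Type} [Group G]

/-- The normal submonoid `P ∪ {1}`. -/
def PM (P : Set G) (hmul : ∀ a : G, a ∈ P → ∀ b : G, b ∈ P → a * b ∈ P) : Submonoid G where
  carrier := {z | z ∈ P ∨ z = 1}
  one_mem' := Or.inr rfl
  mul_mem' := by
    rintro a b (ha | rfl) (hb | rfl)
    · exact Or.inl (hmul a ha b hb)
    · rw [mul_one]; exact Or.inl ha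
    · rw [one_mul]; exact Or.inl hb
    · rw [one_mul]; exact Or.inr rfl

/-- Passing to a suitable quotient and ordering it, one reduces to the core argument. -/
theorem reduce (hOre : ∀ (Q : Type) [Group Q], Group.IsNilpotent Q → NatOre Q)
    (N : Subgroup G) (hN : N.Normal) (hab : ∀ a ∈ N, ∀ b ∈ N, a * b = b * a)
    (hnil : Group.IsNilpotent (G ⧸ N))
    (P : Set G) (hmul : ∀ a : G, a ∈ P → ∀ b : G, b ∈ P → a * b ∈ P)
    (hconj : ∀ a : G, a ∈ P → ∀ g : G, g * a * g⁻¹ ∈ P) (hone : (1 : G) ∉ P)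
    (x b c : G) (hb : b ∈ SX x) (hc : c ∈ SX x) (hbP : b ∈ P) (hcP : c⁻¹ ∈ P) : False := by
  -- the normal submonoid `P0 = P ∪ {1}`
  set P0 : Submonoid G := PM P hmul with hP0
  have hP0mem : ∀ z, z ∈ P0 ↔ (z ∈ P ∨ z = 1) := fun z => Iff.rfl
  have hP0conj : ∀ z ∈ P0, ∀ g : G, g * z * g⁻¹ ∈ P0 := by
    intro z hz g
    rw [hP0mem] at hz ⊢
    rcases hz with hz | rfl
    · exact Or.inl (hconj z hz g)
    · right; group
  have hyP : b * c⁻¹ ∈ P := hmul b hbP _ hcP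
  have hyinv : (b * c⁻¹)⁻¹ ∉ P0 := by
    rw [hP0mem]
    rintro (h | h)
    · apply hone
      have := hmul _ hyP _ h
      rwa [mul_inv_cancel] at this
    · apply hone
      rw [inv_eq_one] at h
      rwa [h] at hyP
  -- the maximal normal subgroup `D`
  obtain ⟨D, hD0, hDmax⟩ := zorn_le_nonempty₀
    {D : Subgroup G | D.Normal ∧ ∀ p ∈ P0, ∀ d ∈ D, p * d ≠ (b * c⁻¹)⁻¹} (by
      intro ch hc hchain B0 hB0
      refine ⟨sSup ch, ⟨?_, ?_⟩, fun B hB => le_sSup hB⟩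
      · constructor
        intro x hx g
        rw [Subgroup.mem_sSup_of_directedOn ⟨B0, hB0⟩ hchain.directedOn] at hx ⊢
        obtain ⟨B, hB, hxB⟩ := hx
        exact ⟨B, hB, (hc hB).1.conj_mem x hxB g⟩
      · intro p hp d hd
        rw [Subgroup.mem_sSup_of_directedOn ⟨B0, hB0⟩ hchain.directedOn] at hd
        obtain ⟨B, hB, hd⟩ := hd
        exact (hc hB).2 p hp d hd) ⊥ ⟨inferInstance, by
      intro p hp d hd h
      rw [Subgroup.mem_bot.mp hd, mul_one] at h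
      rw [h] at hp
      exact hyinv hp⟩
  have hDn : D.Normal := hDmax.prop.1
  have hDy : ∀ p ∈ P0, ∀ d ∈ D, p * d ≠ (b * c⁻¹)⁻¹ := hDmax.prop.2
  -- `P0 D` is a normal submonoid
  have hPDmul : ∀ g h : G, (∃ p ∈ P0, ∃ d ∈ D, g = p * d) → (∃ p ∈ P0, ∃ d ∈ D, h = p * d) →
      ∃ p ∈ P0, ∃ d ∈ D, g * h = p * d := by
    rintro _ _ ⟨p, hp, d, hd, rfl⟩ ⟨p', hp', d', hd', rfl⟩
    refine ⟨p * p', P0.mul_mem hp hp', (p'⁻¹ * d * p') * d', D.mul_mem ?_ hd', by group⟩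
    have := hDn.conj_mem d hd p'⁻¹
    rwa [inv_inv] at this
  have hPDconj : ∀ g k : G, (∃ p ∈ P0, ∃ d ∈ D, g = p * d) →
      ∃ p ∈ P0, ∃ d ∈ D, k * g * k⁻¹ = p * d := by
    rintro _ k ⟨p, hp, d, hd, rfl⟩
    exact ⟨k * p * k⁻¹, hP0conj p hp k, k * d * k⁻¹, hDn.conj_mem d hd k, by group⟩
  -- the units of `P0 D` are exactly `D`
  have hunit : ∀ g : G, (∃ p ∈ P0, ∃ d ∈ D, g = p * d) → (∃ p ∈ P0, ∃ d ∈ D, g⁻¹ = p * d) →
      g ∈ D := by
    let E : Subgroup G :=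
      { carrier := {g | (∃ p ∈ P0, ∃ d ∈ D, g = p * d) ∧ (∃ p ∈ P0, ∃ d ∈ D, g⁻¹ = p * d)}
        one_mem' := ⟨⟨1, P0.one_mem, 1, D.one_mem, by simp⟩, ⟨1, P0.one_mem, 1, D.one_mem, by simp⟩⟩
        mul_mem' := by
          rintro g h ⟨hg1, hg2⟩ ⟨hh1, hh2⟩
          refine ⟨hPDmul g h hg1 hh1, ?_⟩
          rw [mul_inv_rev]
          exact hPDmul _ _ hh2 hg2
        inv_mem' := by
          rintro g ⟨hg1, hg2⟩
          refine ⟨hg2, ?_⟩
          rw [inv_inv]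
          exact hg1 }
    have hEn : E.Normal := by
      constructor
      rintro g ⟨hg1, hg2⟩ k
      refine ⟨hPDconj g k hg1, ?_⟩
      have h1 := hPDconj _ k hg2
      have h2 : (k * g * k⁻¹)⁻¹ = k * g⁻¹ * k⁻¹ := by group
      rw [h2]
      exact h1
    have hDE : D ≤ E := by
      intro d hd
      exact ⟨⟨1, P0.one_mem, d, hd, by simp⟩, ⟨1, P0.one_mem, d⁻¹, D.inv_mem hd, by simp⟩⟩
    have hED : E ≤ D := by
      refine hDmax.le_of_ge ⟨hEn, ?_⟩ hDE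
      rintro p hp e ⟨⟨p', hp', d, hd, rfl⟩, _⟩ h
      refine hDy (p * p') (P0.mul_mem hp hp') d hd ?_
      rw [← h]; group
    intro g h1 h2
    exact hED ⟨h1, h2⟩
  -- the positive cone of the quotient
  set R : Submonoid (G ⧸ D) := P0.map (QuotientGroup.mk' D) with hR
  have hRconj : ∀ r ∈ R, ∀ k : G ⧸ D, k * r * k⁻¹ ∈ R := by
    intro r hr k
    obtain ⟨p, hp, rfl⟩ := Submonoid.mem_map.mp hr
    obtain ⟨k, rfl⟩ := QuotientGroup.mk'_surjective D k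
    refine Submonoid.mem_map.mpr ⟨k * p * k⁻¹, hP0conj p hp k, ?_⟩
    simp
  have hRanti : ∀ r ∈ R, r⁻¹ ∈ R → r = 1 := by
    intro r hr hr'
    obtain ⟨p, hp, rfl⟩ := Submonoid.mem_map.mp hr
    obtain ⟨p', hp', h⟩ := Submonoid.mem_map.mp hr'
    refine (QuotientGroup.eq_one_iff _).mpr (hunit p ⟨p, hp, 1, D.one_mem, by simp⟩ ?_)
    refine ⟨p', hp', p'⁻¹ * p⁻¹, ?_, by group⟩
    rw [← QuotientGroup.eq_one_iff]
    show QuotientGroup.mk' D (p'⁻¹ * p⁻¹) = 1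
    rw [map_mul, map_inv, h, map_inv, inv_inv, mul_inv_cancel]
  letI : PartialOrder (G ⧸ D) :=
    { le := fun a b => a⁻¹ * b ∈ R
      le_refl := fun a => by
        show a⁻¹ * a ∈ R
        rw [inv_mul_cancel]
        exact R.one_mem
      le_trans := fun a b c hab hbc => by
        show a⁻¹ * c ∈ R
        have h1 : a⁻¹ * c = (a⁻¹ * b) * (b⁻¹ * c) := by group
        rw [h1]
        exact R.mul_mem hab hbc
      le_antisymm := fun a b hab hba => by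
        have h1 : (a⁻¹ * b)⁻¹ ∈ R := by
          have h2 : (a⁻¹ * b)⁻¹ = b⁻¹ * a := by group
          rw [h2]
          exact hba
        have h3 := hRanti _ hab h1
        exact inv_mul_eq_one.mp h3 }
  have hle : ∀ a b : G ⧸ D, a ≤ b ↔ a⁻¹ * b ∈ R := fun _ _ => Iff.rfl
  haveI : MulLeftMono (G ⧸ D) := ⟨by
    intro k a b hab
    have h1 : (k * a)⁻¹ * (k * b) = a⁻¹ * b := by group
    show (k * a)⁻¹ * (k * b) ∈ R
    rw [h1]
    exact hab⟩
  haveI : MulRightMono (G ⧸ D) := ⟨by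
    intro k a b hab
    have h1 : (a * k)⁻¹ * (b * k) = k⁻¹ * (a⁻¹ * b) * (k⁻¹)⁻¹ := by group
    show (a * k)⁻¹ * (b * k) ∈ R
    rw [h1]
    exact hRconj _ hab _⟩
  -- nilpotency of the quotient
  have hsurj := QuotientGroup.mk'_surjective D
  have hA0n : (N.map (QuotientGroup.mk' D)).Normal := hN.map _ hsurj
  have hnil' : Group.IsNilpotent ((G ⧸ D) ⧸ (N.map (QuotientGroup.mk' D))) := by
    have hle' : N ≤ (N.map (QuotientGroup.mk' D)).comap (QuotientGroup.mk' D) :=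
      Subgroup.le_comap_map _ _
    refine Group.nilpotent_of_surjective
      (QuotientGroup.map N (N.map (QuotientGroup.mk' D)) (QuotientGroup.mk' D) hle') ?_
    intro q
    obtain ⟨g, rfl⟩ := QuotientGroup.mk'_surjective _ q
    obtain ⟨g, rfl⟩ := hsurj g
    exact ⟨QuotientGroup.mk' N g, rfl⟩
  refine core hOre (N.map (QuotientGroup.mk' D)) ?_ hnil' (QuotientGroup.mk' D x)
    (QuotientGroup.mk' D b) (QuotientGroup.mk' D c) (SX_map _ hb) (SX_map _ hc) ?_ ?_ ?_ ?_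
  · intro s hs t ht
    obtain ⟨s', hs', rfl⟩ := Subgroup.mem_map.mp hs
    obtain ⟨t', ht', rfl⟩ := Subgroup.mem_map.mp ht
    rw [← map_mul, ← map_mul, hab s' hs' t' ht']
  · rw [hle, inv_one, one_mul]
    exact Submonoid.mem_map.mpr ⟨b, Or.inl hbP, rfl⟩
  · rw [hle, mul_one]
    exact Submonoid.mem_map.mpr ⟨c⁻¹, Or.inl hcP, by simp⟩
  · intro h
    rw [← map_inv, ← map_mul] at h
    have h1 : b * c⁻¹ ∈ D := (QuotientGroup.eq_one_iff _).mp h
    exact hDy 1 P0.one_mem _ (D.inv_mem h1) (one_mul _)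
  · intro L hL hLne
    have hDL : D ≤ L.comap (QuotientGroup.mk' D) := by
      intro d hd
      rw [Subgroup.mem_comap]
      have : QuotientGroup.mk' D d = 1 := (QuotientGroup.eq_one_iff _).mpr hd
      rw [this]
      exact L.one_mem
    have hnot : ¬ (L.comap (QuotientGroup.mk' D)) ≤ D := by
      intro h
      apply hLne
      rw [eq_bot_iff]
      intro l hl
      obtain ⟨l, rfl⟩ := hsurj l
      exact Subgroup.mem_bot.mpr ((QuotientGroup.eq_one_iff _).mpr (h hl))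
    have h1 : ¬ ((L.comap (QuotientGroup.mk' D)).Normal ∧
        ∀ p ∈ P0, ∀ d ∈ L.comap (QuotientGroup.mk' D), p * d ≠ (b * c⁻¹)⁻¹) := by
      intro h
      exact hnot (hDmax.le_of_ge h hDL)
    have h2 : (L.comap (QuotientGroup.mk' D)).Normal := hL.comap _
    push Not at h1
    obtain ⟨p, hp, l, hl, hpl⟩ := h1 h2
    refine ⟨QuotientGroup.mk' D l⁻¹, ?_, ?_⟩
    · rw [map_inv]
      exact L.inv_mem hl
    · rw [hle]
      have h3 : l⁻¹ = (b * c⁻¹) * p := by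
        rw [← inv_inv (b * c⁻¹), ← hpl]; group
      rw [h3, ← map_inv, ← map_mul, ← map_inv, ← map_mul]
      refine Submonoid.mem_map.mpr ⟨p, hp, ?_⟩
      congr 1
      group

end Gpl

theorem group_level (hOre : ∀ (Q : Type) [Group Q], Group.IsNilpotent Q → NatOre Q) :
    ∀ (G : Type) [Group G],
      (∃ N : Subgroup G, ∃ _hN : N.Normal,
          (∀ a : G, a ∈ N → ∀ b : G, b ∈ N → a * b = b * a) ∧
          Group.IsNilpotent (G ⧸ N)) →
      (∃ P : Set G, (∀ a : G, a ∈ P → ∀ b : G, b ∈ P → a * b ∈ P) ∧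
          (∀ a : G, a ∈ P → ∀ g : G, g * a * g⁻¹ ∈ P) ∧
          (1 : G) ∉ P ∧ (∀ g : G, g ≠ 1 → g ∈ P ∨ g⁻¹ ∈ P)) →
      ∀ Q : Set G, (∀ a : G, a ∈ Q → ∀ b : G, b ∈ Q → a * b ∈ Q) →
        (∀ a : G, a ∈ Q → ∀ g : G, g * a * g⁻¹ ∈ Q) →
        (1 : G) ∉ Q →
        ∃ P : Set G, Q ⊆ P ∧ (∀ a : G, a ∈ P → ∀ b : G, b ∈ P → a * b ∈ P) ∧
          (∀ a : G, a ∈ P → ∀ g : G, g * a * g⁻¹ ∈ P) ∧ (1 : G) ∉ P ∧
          (∀ g : G, g ≠ 1 → g ∈ P ∨ g⁻¹ ∈ P) := by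
  rintro G _ ⟨N, hN, hab, hnil⟩ ⟨T, hTmul, hTconj, hT1, hTtot⟩ Q hQmul hQconj hQ1
  have hno : ∀ g : G, g ≠ 1 → (1 : G) ∉ Gpl.SX g := by
    intro g hg h1
    rcases hTtot g hg with h | h
    · exact hT1 (Gpl.SX_sub hTmul hTconj h h1)
    · have h2 := Gpl.SX_inv h1
      rw [inv_one] at h2
      exact hT1 (Gpl.SX_sub hTmul hTconj h h2)
  obtain ⟨P, hQP, hP⟩ := zorn_subset_nonempty (Gpl.Cl G) (by
    intro ch hc hchain hne
    refine ⟨⋃₀ ch, ⟨?_, ?_, ?_⟩, fun s hs => Set.subset_sUnion_of_mem hs⟩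
    · rintro a ⟨s, hs, ha⟩ b ⟨t, ht, hb⟩
      rcases hchain.total hs ht with h | h
      · exact ⟨t, ht, (hc ht).1 a (h ha) b hb⟩
      · exact ⟨s, hs, (hc hs).1 a ha b (h hb)⟩
    · rintro a ⟨s, hs, ha⟩ g
      exact ⟨s, hs, (hc hs).2.1 a ha g⟩
    · rintro ⟨s, hs, h⟩
      exact (hc hs).2.2 h) Q ⟨hQmul, hQconj, hQ1⟩
  obtain ⟨hPmul, hPconj, hP1⟩ := hP.prop
  refine ⟨P, hQP, hPmul, hPconj, hP1, ?_⟩
  intro g hg
  by_contra hcon
  push Not at hcon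
  obtain ⟨hg1, hg2⟩ := hcon
  obtain ⟨c, hc, hcP⟩ := Gpl.exists_inv_mem hP hg1 (hno g hg)
  obtain ⟨c', hc', hcP'⟩ := Gpl.exists_inv_mem hP hg2 (hno g⁻¹ (inv_ne_one.mpr hg))
  have hb : c'⁻¹ ∈ Gpl.SX g := by
    have := Gpl.SX_inv hc'
    rwa [inv_inv] at this
  exact Gpl.reduce hOre N hN hab hnil P hPmul hPconj hP1 g c'⁻¹ c hb hc hcP' hcP

end Pool.Agent.MP_22afe8_al
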