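import Mathlib
import Pool.Agent.Work.MP_22afe8_al.Defs

set_option autoImplicit false

open scoped commutatorElement

namespace Pool.Agent.MP_22afe8_al

/-- Conjugation by integer powers of a normalising element. -/
theorem M3.conj_zpow {Q : Type} [Group Q] (N : Subgroup Q) (t : Q)
    (h1 : ∀ n ∈ N, t * n * t⁻¹ ∈ N) (h2 : ∀ n ∈ N, t⁻¹ * n * t ∈ N) (i : ℤ) :
    ∀ n ∈ N, t ^ i * n * (t ^ i)⁻¹ ∈ N := by
  induction i using Int.induction_on with
  | zero => intro n hn; simpa using hn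
  | succ i ih =>
    intro n hn
    have := h1 _ (ih n hn)
    have h3 : t ^ ((i : ℤ) + 1) * n * (t ^ ((i : ℤ) + 1))⁻¹
        = t * (t ^ (i : ℤ) * n * (t ^ (i : ℤ))⁻¹) * t⁻¹ := by
      rw [add_comm, zpow_add, zpow_one]
      group
    rw [h3]; exact this
  | pred i ih =>
    intro n hn
    have := h2 _ (ih n hn)
    have h3 : t ^ (-(i : ℤ) - 1) * n * (t ^ (-(i : ℤ) - 1))⁻¹
        = t⁻¹ * (t ^ (-(i : ℤ)) * n * (t ^ (-(i : ℤ)))⁻¹) * t := by
      have : t ^ (-(i : ℤ) - 1) = t⁻¹ * t ^ (-(i : ℤ)) := by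
        rw [sub_eq_add_neg, add_comm, zpow_add, zpow_neg_one]
      rw [this]
      group
    rw [h3]; exact this

/-- Multiplication rule for elements of the form `n * t ^ i`. -/
theorem M3.mul_form {Q : Type} [Group Q] (N : Subgroup Q) (t : Q)
    (hc : ∀ i : ℤ, ∀ n ∈ N, t ^ i * n * (t ^ i)⁻¹ ∈ N) (n₁ n₂ : Q) (i j : ℤ)
    (hn₁ : n₁ ∈ N) (hn₂ : n₂ ∈ N) :
    ∃ n₃ ∈ N, n₁ * t ^ i * (n₂ * t ^ j) = n₃ * t ^ (i + j) := by
  refine ⟨n₁ * (t ^ i * n₂ * (t ^ i)⁻¹), N.mul_mem hn₁ (hc i n₂ hn₂), ?_⟩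
  rw [zpow_add]
  group

theorem M3.inv_form {Q : Type} [Group Q] (N : Subgroup Q) (t : Q)
    (hc : ∀ i : ℤ, ∀ n ∈ N, t ^ i * n * (t ^ i)⁻¹ ∈ N) (n₁ : Q) (i : ℤ)
    (hn₁ : n₁ ∈ N) :
    ∃ n₃ ∈ N, (n₁ * t ^ i)⁻¹ = n₃ * t ^ (-i) := by
  refine ⟨t ^ (-i) * n₁⁻¹ * (t ^ (-i))⁻¹, hc (-i) _ (N.inv_mem hn₁), ?_⟩
  rw [zpow_neg]
  group

theorem M3.pow_form {Q : Type} [Group Q] (N : Subgroup Q) (t : Q)
    (hc : ∀ i : ℤ, ∀ n ∈ N, t ^ i * n * (t ^ i)⁻¹ ∈ N) (n₁ : Q) (d : ℤ)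
    (hn₁ : n₁ ∈ N) (m : ℕ) :
    ∃ n₃ ∈ N, (n₁ * t ^ d) ^ m = n₃ * t ^ (d * m) := by
  induction m with
  | zero => exact ⟨1, N.one_mem, by simp⟩
  | succ m ih =>
    obtain ⟨n₃, hn₃, h⟩ := ih
    obtain ⟨n₄, hn₄, h'⟩ := M3.mul_form N t hc n₃ n₁ (d * m) d hn₃ hn₁
    refine ⟨n₄, hn₄, ?_⟩
    rw [pow_succ, h, h']
    congr 2
    push_cast
    ring

theorem M3.zpow_form {Q : Type} [Group Q] (N : Subgroup Q) (t : Q)
    (hc : ∀ i : ℤ, ∀ n ∈ N, t ^ i * n * (t ^ i)⁻¹ ∈ N) (n₁ : Q) (d : ℤ)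
    (hn₁ : n₁ ∈ N) (m : ℤ) :
    ∃ n₃ ∈ N, (n₁ * t ^ d) ^ m = n₃ * t ^ (d * m) := by
  obtain ⟨k, rfl | rfl⟩ := m.eq_nat_or_neg
  · simp only [zpow_natCast]; exact M3.pow_form N t hc n₁ d hn₁ k
  · obtain ⟨n₃, hn₃, h⟩ := M3.pow_form N t hc n₁ d hn₁ k
    obtain ⟨n₄, hn₄, h'⟩ := M3.inv_form N t hc n₃ (d * k) hn₃
    refine ⟨n₄, hn₄, ?_⟩
    rw [zpow_neg, zpow_natCast, h, h']
    congr 2
    ring

/-- The auxiliary lemma: a subgroup of `N⟨t⟩` is polycyclic when its part in `N` is. -/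
theorem M3.aux {Q : Type} [Group Q] {k : ℕ} (N H L : Subgroup Q) (t : Q)
    (h1 : ∀ n ∈ N, t * n * t⁻¹ ∈ N) (h2 : ∀ n ∈ N, t⁻¹ * n * t ∈ N)
    (hgen : ∀ h ∈ H, ∃ n ∈ N, ∃ i : ℤ, h = n * t ^ i) (hLH : L ≤ H)
    (hLN : Pc k (L ⊓ N)) : Pc (k + 1) L := by
  have hc : ∀ i : ℤ, ∀ n ∈ N, t ^ i * n * (t ^ i)⁻¹ ∈ N := M3.conj_zpow N t h1 h2
  let D : AddSubgroup ℤ :=
    { carrier := {i | ∃ n ∈ N, n * t ^ i ∈ L}
      zero_mem' := ⟨1, N.one_mem, by simpa using L.one_mem⟩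
      add_mem' := by
        rintro a b ⟨n₁, hn₁, h₁⟩ ⟨n₂, hn₂, h₂⟩
        obtain ⟨n₃, hn₃, h₃⟩ := M3.mul_form N t hc n₁ n₂ a b hn₁ hn₂
        exact ⟨n₃, hn₃, h₃ ▸ L.mul_mem h₁ h₂⟩
      neg_mem' := by
        rintro a ⟨n₁, hn₁, h₁⟩
        obtain ⟨n₃, hn₃, h₃⟩ := M3.inv_form N t hc n₁ a hn₁
        exact ⟨n₃, hn₃, h₃ ▸ L.inv_mem h₁⟩ }
  obtain ⟨d, hd⟩ := Int.subgroup_cyclic D
  have hdD : d ∈ D := by rw [hd]; exact AddSubgroup.subset_closure (Set.mem_singleton d)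
  obtain ⟨n₀, hn₀, hn₀L⟩ := hdD
  have hconjN : ∀ n ∈ N, n₀ * t ^ d * n * (n₀ * t ^ d)⁻¹ ∈ N := by
    intro n hn
    have : n₀ * t ^ d * n * (n₀ * t ^ d)⁻¹ = n₀ * (t ^ d * n * (t ^ d)⁻¹) * n₀⁻¹ := by group
    rw [this]
    exact N.mul_mem (N.mul_mem hn₀ (hc d n hn)) (N.inv_mem hn₀)
  have hconjN' : ∀ n ∈ N, (n₀ * t ^ d)⁻¹ * n * (n₀ * t ^ d) ∈ N := by
    intro n hn
    have : (n₀ * t ^ d)⁻¹ * n * (n₀ * t ^ d)
        = t ^ (-d) * (n₀⁻¹ * n * n₀) * (t ^ (-d))⁻¹ := by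
      rw [zpow_neg]
      group
    rw [this]
    exact hc (-d) _ (N.mul_mem (N.mul_mem (N.inv_mem hn₀) hn) hn₀)
  refine Pc.step k (L ⊓ N) L (n₀ * t ^ d) hLN inf_le_left hn₀L ?_ ?_ ?_
  · rintro n ⟨hnL, hnN⟩
    exact ⟨L.mul_mem (L.mul_mem hn₀L hnL) (L.inv_mem hn₀L), hconjN n hnN⟩
  · rintro n ⟨hnL, hnN⟩
    exact ⟨L.mul_mem (L.mul_mem (L.inv_mem hn₀L) hnL) hn₀L, hconjN' n hnN⟩
  · intro h hh
    obtain ⟨n, hn, i, hi⟩ := hgen h (hLH hh)
    have hiD : i ∈ D := ⟨n, hn, hi ▸ hh⟩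
    rw [hd] at hiD
    obtain ⟨m, hm⟩ := AddSubgroup.mem_closure_singleton.mp hiD
    have hm' : i = d * m := by rw [← hm]; simp [mul_comm]
    obtain ⟨n₃, hn₃, h₃⟩ := M3.zpow_form N t hc n₀ d hn₀ m
    refine ⟨h * ((n₀ * t ^ d) ^ m)⁻¹, ⟨?_, ?_⟩, m, by group⟩
    · exact L.mul_mem hh (L.inv_mem (L.zpow_mem hn₀L m))
    · rw [h₃, hi, hm']
      have : n * t ^ (d * m) * (n₃ * t ^ (d * m))⁻¹ = n * n₃⁻¹ := by group
      rw [this]
      exact N.mul_mem hn (N.inv_mem hn₃)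

theorem Pc.mono {Q : Type} [Group Q] {n : ℕ} {H : Subgroup Q} (h : Pc n H) (L : Subgroup Q)
    (hL : L ≤ H) : Pc n L := by
  induction h generalizing L with
  | bot n =>
    have : L = ⊥ := le_bot_iff.mp hL
    rw [this]
    exact Pc.bot n
  | step n N H t hN hNH ht h1 h2 hgen ih =>
    exact M3.aux N H L t h1 h2 hgen hL (ih (L ⊓ N) inf_le_right)

/-- An additive function on a subgroup is additive on powers. -/
theorem M3.tau_zpow {Q : Type} [Group Q] {H : Subgroup Q} (τ : Q → ℝ)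
    (hτ : ∀ g ∈ H, ∀ h ∈ H, τ (g * h) = τ g + τ h) (t : Q) (ht : t ∈ H) (i : ℤ) :
    τ (t ^ i) = i * τ t := by
  let φ : H →* Multiplicative ℝ :=
    MonoidHom.mk' (fun g => Multiplicative.ofAdd (τ (g : Q))) (by
      intro a b
      rw [← ofAdd_add, ← hτ a a.2 b b.2]
      rfl)
  have h := map_zpow φ ⟨t, ht⟩ i
  have h' : Multiplicative.ofAdd (τ (t ^ i)) = Multiplicative.ofAdd (i • τ t) := h
  have h'' := Multiplicative.ofAdd.injective h'
  rw [h'', zsmul_eq_mul]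

/-- If the additive function vanishes on `N` then its kernel is `N`. -/
theorem M3.ker_eq {Q : Type} [Group Q] {N H : Subgroup Q} (t : Q) (hNH : N ≤ H) (ht : t ∈ H)
    (hgen : ∀ h ∈ H, ∃ n ∈ N, ∃ i : ℤ, h = n * t ^ i) (τ : Q → ℝ)
    (hτ : ∀ g ∈ H, ∀ h ∈ H, τ (g * h) = τ g + τ h) (hne : ∃ g ∈ H, τ g ≠ 0)
    (h0 : ∀ g ∈ N, τ g = 0) (L : Subgroup Q) (hL : ∀ g, g ∈ L ↔ g ∈ H ∧ τ g = 0) : L = N := by
  have key : ∀ n ∈ N, ∀ i : ℤ, τ (n * t ^ i) = i * τ t := by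
    intro n hn i
    rw [hτ n (hNH hn) _ (H.zpow_mem ht i), h0 n hn, M3.tau_zpow τ hτ t ht i, zero_add]
  have htne : τ t ≠ 0 := by
    intro h
    obtain ⟨g, hg, hg'⟩ := hne
    obtain ⟨n, hn, i, rfl⟩ := hgen g hg
    rw [key n hn i, h, mul_zero] at hg'
    exact hg' rfl
  ext g
  constructor
  · intro hg
    obtain ⟨hgH, hg0⟩ := (hL g).mp hg
    obtain ⟨n, hn, i, rfl⟩ := hgen g hgH
    rw [key n hn i] at hg0
    have hi : i = 0 := by
      rcases mul_eq_zero.mp hg0 with h | h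
      · exact_mod_cast h
      · exact absurd h htne
    rw [hi]
    simpa using hn
  · intro hg
    exact (hL g).mpr ⟨hNH hg, h0 g hg⟩

theorem Pc.ker {Q : Type} [Group Q] {n : ℕ} {H : Subgroup Q} (h : Pc (n + 1) H) (τ : Q → ℝ)
    (hτ : ∀ g ∈ H, ∀ h ∈ H, τ (g * h) = τ g + τ h) (hne : ∃ g ∈ H, τ g ≠ 0) (L : Subgroup Q)
    (hL : ∀ g, g ∈ L ↔ g ∈ H ∧ τ g = 0) : Pc n L := by
  have hbot : ¬ ∃ g ∈ (⊥ : Subgroup Q), (∀ g ∈ (⊥ : Subgroup Q), ∀ h ∈ (⊥ : Subgroup Q),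
      τ (g * h) = τ g + τ h) ∧ τ g ≠ 0 := by
    rintro ⟨g, hg, h2, hg'⟩
    have h1 : g = 1 := Subgroup.mem_bot.mp hg
    have h3 := h2 1 (Subgroup.one_mem _) 1 (Subgroup.one_mem _)
    rw [mul_one] at h3
    apply hg'
    rw [h1]
    linarith
  induction n generalizing H L with
  | zero =>
    cases h with
    | bot n =>
      obtain ⟨g, hg, hg'⟩ := hne
      exact absurd ⟨g, hg, hτ, hg'⟩ hbot
    | step n N H t hN hNH ht h1 h2 hgen =>
      have hNbot : N = ⊥ := by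
        cases hN with
        | bot => rfl
      have h0 : ∀ g ∈ N, τ g = 0 := by
        intro g hg
        by_contra hg'
        rw [hNbot] at hg
        have : g = 1 := Subgroup.mem_bot.mp hg
        have h3 := hτ 1 (Subgroup.one_mem _) 1 (Subgroup.one_mem _)
        rw [mul_one] at h3
        apply hg'
        rw [this]
        linarith
      rw [M3.ker_eq t hNH ht hgen τ hτ hne h0 L hL]
      exact hN
  | succ n ih =>
    cases h with
    | bot n =>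
      obtain ⟨g, hg, hg'⟩ := hne
      exact absurd ⟨g, hg, hτ, hg'⟩ hbot
    | step n N H t hN hNH ht h1 h2 hgen =>
      by_cases h0 : ∀ g ∈ N, τ g = 0
      · rw [M3.ker_eq t hNH ht hgen τ hτ hne h0 L hL]
        exact hN
      · push Not at h0
        have hk : Pc n (L ⊓ N) := by
          refine ih hN (fun g hg h hh => hτ g (hNH hg) h (hNH hh)) h0 (L ⊓ N) ?_
          intro g
          rw [Subgroup.mem_inf, hL g]
          constructor
          · rintro ⟨⟨_, h⟩, h'⟩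
            exact ⟨h', h⟩
          · rintro ⟨h, h'⟩
            exact ⟨⟨hNH h, h'⟩, h⟩
        exact M3.aux N H L t h1 h2 hgen (fun g hg => ((hL g).mp hg).1) hk

/-- The lower central series of the whole group. -/
abbrev M3.gam (Q : Type) [Group Q] (i : ℕ) : Subgroup Q := (⊤ : Subgroup Q).lowerCentralSeries i

theorem M3.gam_comm {Q : Type} [Group Q] (i : ℕ) (x g : Q) (hx : x ∈ M3.gam Q i) :
    ⁅x, g⁆ ∈ M3.gam Q (i + 1) := by
  rw [M3.gam, Subgroup.lowerCentralSeries_succ]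
  exact Subgroup.commutator_mem_commutator hx (Subgroup.mem_top g)

theorem M3.gam_comm' {Q : Type} [Group Q] (i : ℕ) (x g : Q) (hx : x ∈ M3.gam Q i) :
    ⁅g, x⁆ ∈ M3.gam Q (i + 1) := by
  rw [← commutatorElement_inv]
  exact Subgroup.inv_mem _ (M3.gam_comm i x g hx)

/-- Subgroups between consecutive terms of the lower central series are normal. -/
theorem M3.normal_between {Q : Type} [Group Q] (i : ℕ) (L : Subgroup Q) (h1 : M3.gam Q (i + 1) ≤ L)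
    (h2 : L ≤ M3.gam Q i) : L.Normal := by
  refine ⟨fun n hn g => ?_⟩
  have h : g * n * g⁻¹ = ⁅g, n⁆ * n := by rw [commutatorElement_def]; group
  rw [h]
  exact L.mul_mem (h1 (M3.gam_comm' i n g (h2 hn))) hn

theorem M3.mk_comm_iff {Q : Type} [Group Q] (L : Subgroup Q) [L.Normal] (x g : Q) :
    ((x : Q ⧸ L) * (g : Q ⧸ L) = (g : Q ⧸ L) * (x : Q ⧸ L)) ↔ ⁅x, g⁆ ∈ L := by
  rw [← commutatorElement_eq_one_iff_mul_comm, ← QuotientGroup.eq_one_iff]
  rfl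

theorem M3.claimA {Q : Type} [Group Q] (S₀ : Set Q) (hS₀ : S₀.Finite)
    (hgen : Subgroup.closure S₀ = ⊤) (i : ℕ) :
    ∃ S : Set Q, S.Finite ∧ S ⊆ M3.gam Q i ∧
      M3.gam Q i ≤ Subgroup.closure S ⊔ M3.gam Q (i + 1) := by
  induction i with
  | zero =>
    refine ⟨S₀, hS₀, fun x _ => Subgroup.mem_top x, ?_⟩
    rw [hgen]
    exact le_top.trans le_sup_left
  | succ i ih =>
    obtain ⟨S, hS, hSi, hle⟩ := ih
    let S' : Set Q := Set.image2 (fun s g => ⁅s, g⁆) S S₀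
    have hS' : S'.Finite := hS.image2 _ hS₀
    have hS'i : S' ⊆ M3.gam Q (i + 1) := by
      rintro _ ⟨s, hs, g, _, rfl⟩
      exact M3.gam_comm i s g (hSi hs)
    refine ⟨S', hS', hS'i, ?_⟩
    set L : Subgroup Q := Subgroup.closure S' ⊔ M3.gam Q (i + 1 + 1) with hL
    have hL1 : M3.gam Q (i + 1 + 1) ≤ L := le_sup_right
    have hL2 : L ≤ M3.gam Q (i + 1) :=
      sup_le ((Subgroup.closure_le _).mpr hS'i)
        ((⊤ : Subgroup Q).lowerCentralSeries_antitone (Nat.le_succ _))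
    have hLn : L.Normal := M3.normal_between (i + 1) L hL1 hL2
    have hC1 : (⊤ : Subgroup Q) ≤ (Subgroup.centralizer
        ((fun x : Q => (x : Q ⧸ L)) '' S)).comap (QuotientGroup.mk' L) := by
      rw [← hgen, Subgroup.closure_le]
      intro g hg
      change (g : Q ⧸ L) ∈ Subgroup.centralizer _
      rw [Subgroup.mem_centralizer_iff]
      rintro _ ⟨s, hs, rfl⟩
      rw [M3.mk_comm_iff]
      exact le_sup_left (a := Subgroup.closure S') (Subgroup.subset_closure ⟨s, hs, g, hg, rfl⟩)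
    have hC2 : M3.gam Q i ≤ (Subgroup.center (Q ⧸ L)).comap (QuotientGroup.mk' L) := by
      refine hle.trans (sup_le ?_ ?_)
      · rw [Subgroup.closure_le]
        intro s hs
        change (s : Q ⧸ L) ∈ Subgroup.center _
        rw [Subgroup.mem_center_iff]
        intro g
        induction g using QuotientGroup.induction_on with
        | H g =>
          have := hC1 (Subgroup.mem_top g)
          have h' : (g : Q ⧸ L) ∈ Subgroup.centralizer ((fun x : Q => (x : Q ⧸ L)) '' S) := this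
          rw [Subgroup.mem_centralizer_iff] at h'
          exact (h' _ ⟨s, hs, rfl⟩).symm
      · intro s hs
        change (s : Q ⧸ L) ∈ Subgroup.center _
        rw [Subgroup.mem_center_iff]
        intro g
        induction g using QuotientGroup.induction_on with
        | H g =>
          rw [M3.mk_comm_iff]
          exact hL1 (M3.gam_comm' (i + 1) s g hs)
    rw [M3.gam, Subgroup.lowerCentralSeries_succ, Subgroup.commutator_le]
    intro x hx g _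
    have := hC2 hx
    have h' : (x : Q ⧸ L) ∈ Subgroup.center _ := this
    rw [Subgroup.mem_center_iff] at h'
    exact (M3.mk_comm_iff L x g).mp (h' g).symm

theorem M3.claimB {Q : Type} [Group Q] (i m : ℕ) (hm : Pc m (M3.gam Q (i + 1))) (S : Set Q)
    (hS : S.Finite) (hSi : S ⊆ M3.gam Q i) :
    ∃ m', Pc m' (Subgroup.closure S ⊔ M3.gam Q (i + 1)) := by
  induction S, hS using Set.Finite.induction_on with
  | empty => exact ⟨m, by simpa using hm⟩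
  | @insert t T _ _ ih =>
    obtain ⟨m', hm'⟩ := ih (fun x hx => hSi (Set.mem_insert_of_mem _ hx))
    refine ⟨m' + 1, ?_⟩
    set N : Subgroup Q := Subgroup.closure T ⊔ M3.gam Q (i + 1) with hN
    have hN1 : M3.gam Q (i + 1) ≤ N := le_sup_right
    have hN2 : N ≤ M3.gam Q i :=
      sup_le ((Subgroup.closure_le _).mpr (fun x hx => hSi (Set.mem_insert_of_mem _ hx)))
        ((⊤ : Subgroup Q).lowerCentralSeries_antitone (Nat.le_succ _))
    have hNn : N.Normal := M3.normal_between i N hN1 hN2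
    have hH : Subgroup.closure (insert t T) ⊔ M3.gam Q (i + 1) = N ⊔ Subgroup.zpowers t := by
      rw [Set.insert_eq, Subgroup.closure_union, ← Subgroup.zpowers_eq_closure, hN]
      rw [sup_assoc, sup_comm]
    rw [hH]
    refine Pc.step m' N _ t hm' le_sup_left (le_sup_right (a := N) (Subgroup.mem_zpowers t))
      ?_ ?_ ?_
    · intro n hn
      exact hNn.conj_mem n hn t
    · intro n hn
      exact hNn.conj_mem' n hn t
    · intro h hh
      rw [Subgroup.mem_sup_of_normal_left] at hh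
      obtain ⟨n, hn, z, ⟨j, rfl⟩, rfl⟩ := hh
      exact ⟨n, hn, j, rfl⟩

theorem Pc.of_fg_nilpotent {Q : Type} [Group Q] (hfg : Group.FG Q) (hQ : Group.IsNilpotent Q) :
    ∃ n, Pc n (⊤ : Subgroup Q) := by
  obtain ⟨S₀, hS₀, hfin⟩ := Group.fg_iff.mp hfg
  obtain ⟨c, hc⟩ := Subgroup.nilpotent_iff_lowerCentralSeries.mp hQ
  have key : ∀ k : ℕ, k ≤ c → ∃ n, Pc n (M3.gam Q (c - k)) := by
    intro k
    induction k with
    | zero =>
      intro _
      refine ⟨0, ?_⟩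
      rw [Nat.sub_zero, M3.gam, hc]
      exact Pc.bot 0
    | succ k ih =>
      intro hk
      obtain ⟨m, hm⟩ := ih (by omega)
      have h1 : c - k = c - (k + 1) + 1 := by omega
      rw [h1] at hm
      obtain ⟨S, hS, hSi, hle⟩ := M3.claimA S₀ hfin hS₀ (c - (k + 1))
      obtain ⟨m', hm'⟩ := M3.claimB (c - (k + 1)) m hm S hS hSi
      exact ⟨m', hm'.mono _ hle⟩
  obtain ⟨n, hn⟩ := key c le_rfl
  rw [Nat.sub_self] at hn
  exact ⟨n, hn⟩

/-- Restricting the ambient group. -/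
theorem M3.subgroupOf {Q : Type} [Group Q] {n : ℕ} {L : Subgroup Q} (h : Pc n L) :
    ∀ H : Subgroup Q, L ≤ H → Pc n (L.subgroupOf H) := by
  induction h with
  | bot n =>
    intro H _
    rw [Subgroup.bot_subgroupOf]
    exact Pc.bot n
  | step n N L t hN hNH ht h1 h2 hgen ih =>
    intro H hLH
    refine Pc.step n (N.subgroupOf H) (L.subgroupOf H) ⟨t, hLH ht⟩ (ih H (hNH.trans hLH))
      ?_ ?_ ?_ ?_ ?_
    · intro g hg
      exact hNH hg
    · exact ht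
    · intro g hg
      exact h1 g hg
    · intro g hg
      exact h2 g hg
    · intro g hg
      obtain ⟨m, hm, i, hi⟩ := hgen g hg
      refine ⟨⟨m, hLH (hNH hm)⟩, hm, i, ?_⟩
      apply Subtype.ext
      rw [hi]
      simp

theorem Pc.type {Q : Type} [Group Q] {n : ℕ} {H : Subgroup Q} (h : Pc n H) :
    Pc n (⊤ : Subgroup H) := by
  have := M3.subgroupOf h H le_rfl
  rwa [Subgroup.subgroupOf_self] at this

end Pool.Agent.MP_22afe8_al
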