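import Mathlib
import Pool.Agent.Work.MP_22afe8_al.Defs

set_option autoImplicit false

namespace Pool.Agent.MP_22afe8_al

/-! ## M2: noncommutative Hilbert basis theorem and an Artin-Rees type statement -/

/-- Sums `∑_{i<n} a^i r_i` with `r_i ∈ R`. -/
def HF {B : Type} [Ring B] (R : Subring B) (a : B) : ℕ → Set B
  | 0 => {0}
  | (n + 1) => {x | ∃ r ∈ R, ∃ f ∈ HF R a n, x = a ^ n * r + f}

section hf

variable {B : Type} [Ring B] {R : Subring B} {a : B}

lemma HF_zero_mem (n : ℕ) : (0 : B) ∈ HF R a n := by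
  induction n with
  | zero => exact rfl
  | succ n ih => exact ⟨0, R.zero_mem, 0, ih, by simp⟩

lemma HF_add {n : ℕ} {x y : B} (hx : x ∈ HF R a n) (hy : y ∈ HF R a n) :
    x + y ∈ HF R a n := by
  induction n generalizing x y with
  | zero =>
    have h1 : x = 0 := hx
    have h2 : y = 0 := hy
    rw [h1, h2, add_zero]; exact rfl
  | succ n ih =>
    obtain ⟨r, hr, f, hf, rfl⟩ := hx
    obtain ⟨s, hs, g, hg, rfl⟩ := hy
    exact ⟨r + s, R.add_mem hr hs, f + g, ih hf hg, by rw [mul_add]; abel⟩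

lemma HF_neg {n : ℕ} {x : B} (hx : x ∈ HF R a n) : -x ∈ HF R a n := by
  induction n generalizing x with
  | zero =>
    have h1 : x = 0 := hx
    rw [h1, neg_zero]; exact rfl
  | succ n ih =>
    obtain ⟨r, hr, f, hf, rfl⟩ := hx
    exact ⟨-r, R.neg_mem hr, -f, ih hf, by rw [mul_neg]; abel⟩

lemma HF_succ {n : ℕ} {x : B} (hx : x ∈ HF R a n) : x ∈ HF R a (n + 1) :=
  ⟨0, R.zero_mem, x, hx, by simp⟩

lemma HF_mono {n m : ℕ} (h : n ≤ m) {x : B} (hx : x ∈ HF R a n) : x ∈ HF R a m := by
  induction h with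
  | refl => exact hx
  | step _ ih => exact HF_succ ih

lemma HF_rmul {n : ℕ} {x r : B} (hx : x ∈ HF R a n) (hr : r ∈ R) : x * r ∈ HF R a n := by
  induction n generalizing x with
  | zero =>
    have h1 : x = 0 := hx
    rw [h1, zero_mul]; exact rfl
  | succ n ih =>
    obtain ⟨s, hs, f, hf, rfl⟩ := hx
    exact ⟨s * r, R.mul_mem hs hr, f * r, ih hf, by rw [add_mul, mul_assoc]⟩

lemma HF_amul {n : ℕ} {x : B} (hx : x ∈ HF R a n) : a * x ∈ HF R a (n + 1) := by
  induction n generalizing x with
  | zero =>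
    have h1 : x = 0 := hx
    rw [h1, mul_zero]; exact HF_zero_mem _
  | succ n ih =>
    obtain ⟨s, hs, f, hf, rfl⟩ := hx
    exact ⟨s, hs, a * f, ih hf, by rw [mul_add, ← mul_assoc, ← pow_succ']⟩

lemma HF_pow_mul {n i : ℕ} {x : B} (hx : x ∈ HF R a n) : a ^ i * x ∈ HF R a (n + i) := by
  induction i with
  | zero => simpa using hx
  | succ i ih =>
    rw [pow_succ', mul_assoc]
    exact HF_amul ih

lemma comm_pow1 (h1 : ∀ r ∈ R, ∃ r' ∈ R, a * r = r' * a) (n : ℕ) :
    ∀ r ∈ R, ∃ r' ∈ R, a ^ n * r = r' * a ^ n := by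
  induction n with
  | zero => intro r hr; exact ⟨r, hr, by simp⟩
  | succ n ih =>
    intro r hr
    obtain ⟨r1, hr1, e1⟩ := h1 r hr
    obtain ⟨r2, hr2, e2⟩ := ih r1 hr1
    exact ⟨r2, hr2, by rw [pow_succ, mul_assoc, e1, ← mul_assoc, e2, mul_assoc]⟩

lemma comm_pow2 (h2 : ∀ r ∈ R, ∃ r' ∈ R, r * a = a * r') (n : ℕ) :
    ∀ r ∈ R, ∃ r' ∈ R, r * a ^ n = a ^ n * r' := by
  induction n with
  | zero => intro r hr; exact ⟨r, hr, by simp⟩
  | succ n ih =>
    intro r hr
    obtain ⟨r1, hr1, e1⟩ := ih r hr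
    obtain ⟨r2, hr2, e2⟩ := h2 r1 hr1
    exact ⟨r2, hr2, by rw [pow_succ, ← mul_assoc, e1, mul_assoc, e2, ← mul_assoc]⟩

lemma HF_lmul (h2 : ∀ r ∈ R, ∃ r' ∈ R, r * a = a * r') {n : ℕ} {x r : B}
    (hx : x ∈ HF R a n) (hr : r ∈ R) : r * x ∈ HF R a n := by
  induction n generalizing x with
  | zero =>
    have h1 : x = 0 := hx
    rw [h1, mul_zero]; exact rfl
  | succ n ih =>
    obtain ⟨s, hs, f, hf, rfl⟩ := hx
    obtain ⟨r', hr', e⟩ := comm_pow2 h2 n r hr
    exact ⟨r' * s, R.mul_mem hr' hs, r * f, ih hf, by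
      rw [mul_add, ← mul_assoc, e, mul_assoc]⟩

lemma HF_mul (h2 : ∀ r ∈ R, ∃ r' ∈ R, r * a = a * r') {n m : ℕ} {x y : B}
    (hx : x ∈ HF R a n) (hy : y ∈ HF R a m) : x * y ∈ HF R a (m + n) := by
  induction n generalizing x with
  | zero =>
    have h1 : x = 0 := hx
    rw [h1, zero_mul]; exact HF_zero_mem _
  | succ n ih =>
    obtain ⟨s, hs, f, hf, rfl⟩ := hx
    rw [add_mul, mul_assoc]
    refine HF_add ?_ (HF_succ (ih hf))
    exact HF_succ (HF_pow_mul (HF_lmul h2 hy hs))

lemma mem_HF_of_closure (h2 : ∀ r ∈ R, ∃ r' ∈ R, r * a = a * r') {x : B}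
    (hx : x ∈ Subring.closure ((R : Set B) ∪ {a})) : ∃ n, x ∈ HF R a n := by
  induction hx using Subring.closure_induction with
  | mem x hx =>
    rcases hx with hx | hx
    · exact ⟨1, x, hx, 0, rfl, by simp⟩
    · have hx' : x = a := hx
      refine ⟨2, 1, R.one_mem, 0, HF_zero_mem 1, by simp [hx']⟩
  | zero => exact ⟨0, rfl⟩
  | one => exact ⟨1, 1, R.one_mem, 0, rfl, by simp⟩
  | add x y _ _ hx hy =>
    obtain ⟨n, hn⟩ := hx
    obtain ⟨m, hm⟩ := hy
    exact ⟨max n m, HF_add (HF_mono (le_max_left _ _) hn) (HF_mono (le_max_right _ _) hm)⟩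
  | neg x _ hx =>
    obtain ⟨n, hn⟩ := hx
    exact ⟨n, HF_neg hn⟩
  | mul x y _ _ hx hy =>
    obtain ⟨n, hn⟩ := hx
    obtain ⟨m, hm⟩ := hy
    exact ⟨m + n, HF_mul h2 hn hm⟩

/-- leading coefficients of a left ideal -/
def leadIdeal (h1 : ∀ r ∈ R, ∃ r' ∈ R, a * r = r' * a) (h2 : ∀ r ∈ R, ∃ r' ∈ R, r * a = a * r')
    (L : Submodule (Subring.closure ((R : Set B) ∪ {a})) (Subring.closure ((R : Set B) ∪ {a})))
    (n : ℕ) : Submodule R R where
  carrier := {r | ∃ x ∈ L, ∃ f ∈ HF R a n, (x : B) = a ^ n * (r : B) + f}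
  add_mem' := by
    rintro r s ⟨x, hx, f, hf, e⟩ ⟨y, hy, g, hg, e'⟩
    refine ⟨x + y, L.add_mem hx hy, f + g, HF_add hf hg, ?_⟩
    push_cast
    rw [e, e', mul_add]; abel
  zero_mem' := ⟨0, L.zero_mem, 0, HF_zero_mem n, by simp⟩
  smul_mem' := by
    rintro s r ⟨x, hx, f, hf, e⟩
    obtain ⟨s', hs', es⟩ := comm_pow1 h1 n (s : B) s.2
    refine ⟨⟨s', Subring.subset_closure (Or.inl hs')⟩ • x, L.smul_mem _ hx, s' * f,
      HF_lmul h2 hf hs', ?_⟩
    simp only [smul_eq_mul, Subring.coe_mul]
    rw [e, mul_add, ← mul_assoc, ← es, mul_assoc]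

lemma leadIdeal_mono (h1 : ∀ r ∈ R, ∃ r' ∈ R, a * r = r' * a)
    (h2 : ∀ r ∈ R, ∃ r' ∈ R, r * a = a * r')
    {L M : Submodule (Subring.closure ((R : Set B) ∪ {a})) (Subring.closure ((R : Set B) ∪ {a}))}
    (hLM : L ≤ M) (n : ℕ) : leadIdeal h1 h2 L n ≤ leadIdeal h1 h2 M n := by
  rintro r ⟨x, hx, f, hf, e⟩
  exact ⟨x, hLM hx, f, hf, e⟩

lemma leadIdeal_succ (h1 : ∀ r ∈ R, ∃ r' ∈ R, a * r = r' * a)
    (h2 : ∀ r ∈ R, ∃ r' ∈ R, r * a = a * r')
    (L : Submodule (Subring.closure ((R : Set B) ∪ {a})) (Subring.closure ((R : Set B) ∪ {a})))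
    (n : ℕ) : leadIdeal h1 h2 L n ≤ leadIdeal h1 h2 L (n + 1) := by
  rintro r ⟨x, hx, f, hf, e⟩
  refine ⟨⟨a, Subring.subset_closure (Or.inr rfl)⟩ • x, L.smul_mem _ hx, a * f, HF_amul hf, ?_⟩
  simp only [smul_eq_mul, Subring.coe_mul]
  rw [e, mul_add, ← mul_assoc, ← pow_succ']

lemma leadIdeal_le (h1 : ∀ r ∈ R, ∃ r' ∈ R, a * r = r' * a)
    (h2 : ∀ r ∈ R, ∃ r' ∈ R, r * a = a * r')
    (L : Submodule (Subring.closure ((R : Set B) ∪ {a})) (Subring.closure ((R : Set B) ∪ {a})))
    {n m : ℕ} (h : n ≤ m) : leadIdeal h1 h2 L n ≤ leadIdeal h1 h2 L m := by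
  induction h with
  | refl => exact le_rfl
  | step _ ih => exact ih.trans (leadIdeal_succ h1 h2 L _)

lemma le_of_leadIdeal (h1 : ∀ r ∈ R, ∃ r' ∈ R, a * r = r' * a)
    (h2 : ∀ r ∈ R, ∃ r' ∈ R, r * a = a * r')
    {L M : Submodule (Subring.closure ((R : Set B) ∪ {a})) (Subring.closure ((R : Set B) ∪ {a}))}
    (hLM : L ≤ M) (h : ∀ n, leadIdeal h1 h2 M n ≤ leadIdeal h1 h2 L n) : M ≤ L := by
  have key : ∀ n, ∀ m ∈ M, (m : B) ∈ HF R a n → m ∈ L := by
    intro n
    induction n with
    | zero =>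
      intro m _ h0
      have h0' : (m : B) = 0 := h0
      have : m = 0 := Subtype.ext h0'
      rw [this]; exact L.zero_mem
    | succ n ih =>
      intro m hm h0
      obtain ⟨r, hr, f, hf, e⟩ := h0
      have hr' : (⟨r, hr⟩ : R) ∈ leadIdeal h1 h2 M n := ⟨m, hm, f, hf, e⟩
      obtain ⟨x, hx, g, hg, e'⟩ := h n hr'
      have h3 : m - x ∈ L := by
        apply ih (m - x) (M.sub_mem hm (hLM hx))
        have : ((m - x : Subring.closure ((R : Set B) ∪ {a})) : B) = f + -g := by
          push_cast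
          rw [e, e']; simp only []; abel
        rw [this]
        exact HF_add hf (HF_neg hg)
      have : m = (m - x) + x := by abel
      rw [this]
      exact L.add_mem h3 hx
  intro m hm
  obtain ⟨n, hn⟩ := mem_HF_of_closure h2 m.2
  exact key n m hm hn

end hf

theorem hilbert_ext {B : Type} [Ring B] (R : Subring B) (a : B)
    (h1 : ∀ r ∈ R, ∃ r' ∈ R, a * r = r' * a) (h2 : ∀ r ∈ R, ∃ r' ∈ R, r * a = a * r')
    (hR : IsNoetherianRing R) : IsNoetherianRing (Subring.closure ((R : Set B) ∪ {a})) := by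
  rw [isNoetherianRing_iff, ← monotone_stabilizes_iff_noetherian]
  have hR' := monotone_stabilizes_iff_noetherian.mpr (isNoetherianRing_iff.mp hR)
  intro f
  obtain ⟨d, hd⟩ := hR' ⟨fun k => leadIdeal h1 h2 (f k) k, by
    intro k m hkm
    exact (leadIdeal_mono h1 h2 (f.mono hkm) k).trans (leadIdeal_le h1 h2 _ hkm)⟩
  have hn : ∀ n, ∃ k, ∀ m, k ≤ m → leadIdeal h1 h2 (f k) n = leadIdeal h1 h2 (f m) n := by
    intro n
    exact hR' ⟨fun k => leadIdeal h1 h2 (f k) n, by
      intro k m hkm
      exact leadIdeal_mono h1 h2 (f.mono hkm) n⟩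
  choose k hk using hn
  refine ⟨max d ((Finset.range d).sup k), ?_⟩
  intro m hm
  have hdm : d ≤ m := le_trans (le_max_left _ _) hm
  apply le_antisymm
  · exact f.mono hm
  · apply le_of_leadIdeal h1 h2 (f.mono hm)
    intro n
    by_cases hnd : n < d
    · have h3 : k n ≤ (Finset.range d).sup k := Finset.le_sup (Finset.mem_range.mpr hnd)
      have h4 : k n ≤ max d ((Finset.range d).sup k) := le_trans h3 (le_max_right _ _)
      rw [← hk n m (h4.trans hm), ← hk n _ h4]
    · rw [not_lt] at hnd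
      calc leadIdeal h1 h2 (f m) n ≤ leadIdeal h1 h2 (f m) (max m n) :=
            leadIdeal_le h1 h2 _ (le_max_right _ _)
        _ ≤ leadIdeal h1 h2 (f (max m n)) (max m n) :=
            leadIdeal_mono h1 h2 (f.mono (le_max_left _ _)) _
        _ = leadIdeal h1 h2 (f d) d := (hd (max m n) (hdm.trans (le_max_left _ _))).symm
        _ ≤ leadIdeal h1 h2 (f (max d ((Finset.range d).sup k))) d :=
            leadIdeal_mono h1 h2 (f.mono (le_max_left _ _)) _
        _ ≤ leadIdeal h1 h2 (f (max d ((Finset.range d).sup k))) n :=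
            leadIdeal_le h1 h2 _ hnd

/-! ### group rings of polycyclic groups -/

section grp

variable {Q : Type} [Group Q]

lemma sg_mem_suppRing {H : Subgroup Q} {g : Q} (hg : g ∈ H) (c : ℝ) : sg g c ∈ suppRing H := by
  classical
  intro h hh
  rw [MonoidAlgebra.coeff_single, Finsupp.single_apply] at hh
  by_cases e : g = h
  · rw [← e]; exact hg
  · rw [if_neg e] at hh; exact absurd rfl hh

lemma supp_mem (S : Set Q) (A : AddSubmonoid (RA Q)) (hA : ∀ g ∈ S, ∀ c, sg g c ∈ A) (u : RA Q)
    (hu : ∀ g, u.coeff g ≠ 0 → g ∈ S) : u ∈ A := by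
  rw [← MonoidAlgebra.sum_coeff_single u]
  exact A.sum_mem (fun g hg => hA g (hu g (Finsupp.mem_support_iff.mp hg)) _)

lemma suppRing_eq_closure_le {H : Subgroup Q} {T : Subring (RA Q)}
    (hT : ∀ g ∈ H, ∀ c, sg g c ∈ T) : suppRing H ≤ T := by
  intro u hu
  exact supp_mem (H : Set Q) T.toAddSubmonoid hT u hu

lemma conj_suppRing {N : Subgroup Q} {t : Q} (h2 : ∀ n ∈ N, t * n * t⁻¹ ∈ N)
    {r : RA Q} (hr : r ∈ suppRing N) : sg t 1 * r * sg t⁻¹ 1 ∈ suppRing N := by
  intro g hg
  rw [MonoidAlgebra.coeff_mul_single_apply, MonoidAlgebra.coeff_single_mul_apply] at hg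
  have h3 : t⁻¹ * (g * t⁻¹⁻¹) ∈ N := by
    apply hr
    intro h0
    apply hg
    rw [h0]; simp
  have h4 := h2 _ h3
  have h5 : t * (t⁻¹ * (g * t⁻¹⁻¹)) * t⁻¹ = g := by group
  rwa [h5] at h4

lemma sg_inv_mul (t : Q) : sg t⁻¹ (1 : ℝ) * sg t 1 = 1 := by
  rw [MonoidAlgebra.single_mul_single, inv_mul_cancel, mul_one, MonoidAlgebra.one_def]

lemma sg_mul_inv (t : Q) : sg t (1 : ℝ) * sg t⁻¹ 1 = 1 := by
  rw [MonoidAlgebra.single_mul_single, mul_inv_cancel, mul_one, MonoidAlgebra.one_def]

lemma noeth_bot : IsNoetherianRing (suppRing (⊥ : Subgroup Q)) := by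
  classical
  let f : ℝ →+* suppRing (⊥ : Subgroup Q) :=
    (MonoidAlgebra.singleOneRingHom : ℝ →+* RA Q).codRestrict (suppRing (⊥ : Subgroup Q))
      (fun c => sg_mem_suppRing (Subgroup.one_mem _) c)
  apply isNoetherianRing_of_surjective ℝ _ f
  rintro ⟨u, hu⟩
  refine ⟨u.coeff 1, Subtype.ext ?_⟩
  change sg (1 : Q) (u.coeff 1) = u
  ext g
  rw [MonoidAlgebra.coeff_single, Finsupp.single_apply]
  by_cases e : (1 : Q) = g
  · rw [if_pos e, ← e]
  · rw [if_neg e]
    by_contra h
    have : g ∈ (⊥ : Subgroup Q) := hu g (fun h' => h h'.symm)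
    exact e (Subgroup.mem_bot.mp this).symm

theorem noeth_Pc (n : ℕ) (H : Subgroup Q) (h : Pc n H) :
    IsNoetherianRing (suppRing H) := by
  induction h with
  | bot n => exact noeth_bot
  | step n N H t _ hNH ht h1 h2 hgen ih =>
    have hn1 : IsNoetherianRing (Subring.closure ((suppRing N : Set (RA Q)) ∪ {sg t 1})) := by
      apply hilbert_ext (suppRing N) (sg t 1) _ _ ih
      · intro r hr
        refine ⟨sg t 1 * r * sg t⁻¹ 1, conj_suppRing h1 hr, ?_⟩
        rw [mul_assoc, mul_assoc, sg_inv_mul, mul_one]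
      · intro r hr
        refine ⟨sg t⁻¹ 1 * r * sg t 1, ?_, ?_⟩
        · have := conj_suppRing (t := t⁻¹) (fun n hn => by simpa using h2 n hn) hr
          simpa using this
        · rw [← mul_assoc, ← mul_assoc, sg_mul_inv, one_mul]
    have key1 : ∀ r ∈ Subring.closure ((suppRing N : Set (RA Q)) ∪ {sg t 1}),
        sg t⁻¹ 1 * r * sg t 1 ∈ Subring.closure ((suppRing N : Set (RA Q)) ∪ {sg t 1}) := by
      intro r hr
      induction hr using Subring.closure_induction with
      | mem x hx =>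
        rcases hx with hx | hx
        · apply Subring.subset_closure
          left
          have := conj_suppRing (t := t⁻¹) (fun n hn => by simpa using h2 n hn) hx
          simpa using this
        · have hx' : x = sg t 1 := hx
          rw [hx', sg_inv_mul, one_mul]
          exact Subring.subset_closure (Or.inr rfl)
      | zero => simp
      | one =>
        rw [mul_one, sg_inv_mul]; exact Subring.one_mem _
      | add x y _ _ hx hy =>
        rw [mul_add, add_mul]; exact Subring.add_mem _ hx hy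
      | neg x _ hx =>
        rw [mul_neg, neg_mul]; exact Subring.neg_mem _ hx
      | mul x y _ _ hx hy =>
        have : sg t⁻¹ 1 * (x * y) * sg t 1 = (sg t⁻¹ 1 * x * sg t 1) * (sg t⁻¹ 1 * y * sg t 1) := by
          have e : (sg t⁻¹ 1 * x * sg t 1) * (sg t⁻¹ 1 * y * sg t 1)
            = sg t⁻¹ 1 * x * (sg t 1 * sg t⁻¹ 1) * y * sg t 1 := by noncomm_ring
          rw [e, sg_mul_inv]; noncomm_ring
        rw [this]
        exact Subring.mul_mem _ hx hy
    have key2 : ∀ r ∈ Subring.closure ((suppRing N : Set (RA Q)) ∪ {sg t 1}),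
        sg t 1 * r * sg t⁻¹ 1 ∈ Subring.closure ((suppRing N : Set (RA Q)) ∪ {sg t 1}) := by
      intro r hr
      induction hr using Subring.closure_induction with
      | mem x hx =>
        rcases hx with hx | hx
        · apply Subring.subset_closure
          left
          exact conj_suppRing h1 hx
        · have hx' : x = sg t 1 := hx
          rw [hx', mul_assoc, sg_mul_inv, mul_one]
          exact Subring.subset_closure (Or.inr rfl)
      | zero => simp
      | one =>
        rw [mul_one, sg_mul_inv]; exact Subring.one_mem _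
      | add x y _ _ hx hy =>
        rw [mul_add, add_mul]; exact Subring.add_mem _ hx hy
      | neg x _ hx =>
        rw [mul_neg, neg_mul]; exact Subring.neg_mem _ hx
      | mul x y _ _ hx hy =>
        have : sg t 1 * (x * y) * sg t⁻¹ 1 = (sg t 1 * x * sg t⁻¹ 1) * (sg t 1 * y * sg t⁻¹ 1) := by
          have e : (sg t 1 * x * sg t⁻¹ 1) * (sg t 1 * y * sg t⁻¹ 1)
            = sg t 1 * x * (sg t⁻¹ 1 * sg t 1) * y * sg t⁻¹ 1 := by noncomm_ring
          rw [e, sg_inv_mul]; noncomm_ring
        rw [this]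
        exact Subring.mul_mem _ hx hy
    have hn2 := hilbert_ext (Subring.closure ((suppRing N : Set (RA Q)) ∪ {sg t 1})) (sg t⁻¹ 1)
      (by
        intro r hr
        refine ⟨_, key1 r hr, ?_⟩
        rw [mul_assoc, mul_assoc, sg_mul_inv, mul_one])
      (by
        intro r hr
        refine ⟨_, key2 r hr, ?_⟩
        rw [← mul_assoc, ← mul_assoc, sg_inv_mul, one_mul]) hn1
    have heq : Subring.closure ((Subring.closure ((suppRing N : Set (RA Q)) ∪ {sg t 1}) : Set (RA Q))
        ∪ {sg t⁻¹ 1}) = suppRing H := by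
      apply le_antisymm
      · rw [Subring.closure_le]
        rintro x (hx | hx)
        · have : Subring.closure ((suppRing N : Set (RA Q)) ∪ {sg t 1}) ≤ suppRing H := by
            rw [Subring.closure_le]
            rintro y (hy | hy)
            · intro g hg
              exact hNH (hy g hg)
            · rw [Set.mem_singleton_iff.mp hy]
              exact sg_mem_suppRing ht 1
          exact this hx
        · rw [Set.mem_singleton_iff.mp hx]
          exact sg_mem_suppRing (H.inv_mem ht) 1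
      · apply suppRing_eq_closure_le
        intro g hg c
        obtain ⟨m, hm, i, rfl⟩ := hgen g hg
        have e1 : sg (m * t ^ i) c = sg m c * sg (t ^ i) 1 := by
          rw [MonoidAlgebra.single_mul_single, mul_one]
        rw [e1]
        apply Subring.mul_mem
        · apply Subring.subset_closure
          left
          apply Subring.subset_closure
          left
          exact sg_mem_suppRing hm c
        · cases i with
          | ofNat k =>
            have : sg (t ^ (Int.ofNat k)) (1 : ℝ) = (sg t 1) ^ k := by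
              rw [MonoidAlgebra.single_pow, one_pow]; simp
            rw [this]
            apply Subring.pow_mem
            apply Subring.subset_closure
            left
            apply Subring.subset_closure
            right
            rfl
          | negSucc k =>
            have : sg (t ^ (Int.negSucc k)) (1 : ℝ) = (sg t⁻¹ 1) ^ (k + 1) := by
              rw [MonoidAlgebra.single_pow, one_pow, zpow_negSucc, inv_pow]
            rw [this]
            apply Subring.pow_mem
            apply Subring.subset_closure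
            right
            rfl
    rw [heq] at hn2
    exact hn2

theorem noeth_top (n : ℕ) (h : Pc n (⊤ : Subgroup Q)) :
    IsNoetherianRing (RA Q) := by
  have h1 := noeth_Pc n _ h
  apply isNoetherianRing_of_surjective (suppRing (⊤ : Subgroup Q)) (RA Q)
    (suppRing (⊤ : Subgroup Q)).subtype
  intro u
  exact ⟨⟨u, fun g _ => Subgroup.mem_top g⟩, rfl⟩

end grp

/-! ### adjoining several elements -/

theorem hilbert_multi {B : Type} [Ring B] (R : Subring B) (hR : IsNoetherianRing R) (Y : Finset B)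
    (h1 : ∀ a ∈ Y, ∀ r ∈ R, ∃ r' ∈ R, a * r = r' * a)
    (h2 : ∀ a ∈ Y, ∀ r ∈ R, ∃ r' ∈ R, r * a = a * r')
    (h3 : ∀ a ∈ Y, ∀ b ∈ Y, ∃ q ∈ R, a * b = q * b * a)
    (h4 : ∀ a ∈ Y, ∀ b ∈ Y, ∃ q ∈ R, b * a = a * (b * q)) :
    IsNoetherianRing (Subring.closure ((R : Set B) ∪ (Y : Set B))) := by
  classical
  induction Y using Finset.induction_on with
  | empty =>
    have : Subring.closure ((R : Set B) ∪ ((∅ : Finset B) : Set B)) = R := by
      rw [Finset.coe_empty, Set.union_empty, Subring.closure_eq]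
    rw [this]; exact hR
  | insert a Y _ ih =>
    have ih' := ih (fun b hb => h1 b (Finset.mem_insert_of_mem hb))
      (fun b hb => h2 b (Finset.mem_insert_of_mem hb))
      (fun b hb c hc => h3 b (Finset.mem_insert_of_mem hb) c (Finset.mem_insert_of_mem hc))
      (fun b hb c hc => h4 b (Finset.mem_insert_of_mem hb) c (Finset.mem_insert_of_mem hc))
    have hR' : ∀ q ∈ R, q ∈ Subring.closure ((R : Set B) ∪ (Y : Set B)) := fun q hq =>
      Subring.subset_closure (Or.inl hq)
    have hY' : ∀ q ∈ Y, q ∈ Subring.closure ((R : Set B) ∪ (Y : Set B)) := fun q hq =>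
      Subring.subset_closure (Or.inr (Finset.mem_coe.mpr hq))
    have k1 : ∀ r ∈ Subring.closure ((R : Set B) ∪ (Y : Set B)),
        ∃ r' ∈ Subring.closure ((R : Set B) ∪ (Y : Set B)), a * r = r' * a := by
      intro r hr
      induction hr using Subring.closure_induction with
      | mem x hx =>
        rcases hx with hx | hx
        · obtain ⟨r', hr', e⟩ := h1 a (Finset.mem_insert_self a Y) x hx
          exact ⟨r', hR' r' hr', e⟩
        · have hx' : x ∈ Y := Finset.mem_coe.mp hx
          obtain ⟨q, hq, e⟩ := h3 a (Finset.mem_insert_self a Y) x (Finset.mem_insert_of_mem hx')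
          exact ⟨q * x, Subring.mul_mem _ (hR' q hq) (hY' x hx'), e⟩
      | zero => exact ⟨0, Subring.zero_mem _, by simp⟩
      | one => exact ⟨1, Subring.one_mem _, by simp⟩
      | add x y _ _ hx hy =>
        obtain ⟨x', hx', ex⟩ := hx
        obtain ⟨y', hy', ey⟩ := hy
        exact ⟨x' + y', Subring.add_mem _ hx' hy', by rw [mul_add, add_mul, ex, ey]⟩
      | neg x _ hx =>
        obtain ⟨x', hx', ex⟩ := hx
        exact ⟨-x', Subring.neg_mem _ hx', by rw [mul_neg, neg_mul, ex]⟩
      | mul x y _ _ hx hy =>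
        obtain ⟨x', hx', ex⟩ := hx
        obtain ⟨y', hy', ey⟩ := hy
        exact ⟨x' * y', Subring.mul_mem _ hx' hy', by
          rw [← mul_assoc, ex, mul_assoc, ey, ← mul_assoc]⟩
    have k2 : ∀ r ∈ Subring.closure ((R : Set B) ∪ (Y : Set B)),
        ∃ r' ∈ Subring.closure ((R : Set B) ∪ (Y : Set B)), r * a = a * r' := by
      intro r hr
      induction hr using Subring.closure_induction with
      | mem x hx =>
        rcases hx with hx | hx
        · obtain ⟨r', hr', e⟩ := h2 a (Finset.mem_insert_self a Y) x hx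
          exact ⟨r', hR' r' hr', e⟩
        · have hx' : x ∈ Y := Finset.mem_coe.mp hx
          obtain ⟨q, hq, e⟩ := h4 a (Finset.mem_insert_self a Y) x (Finset.mem_insert_of_mem hx')
          exact ⟨x * q, Subring.mul_mem _ (hY' x hx') (hR' q hq), e⟩
      | zero => exact ⟨0, Subring.zero_mem _, by simp⟩
      | one => exact ⟨1, Subring.one_mem _, by simp⟩
      | add x y _ _ hx hy =>
        obtain ⟨x', hx', ex⟩ := hx
        obtain ⟨y', hy', ey⟩ := hy
        exact ⟨x' + y', Subring.add_mem _ hx' hy', by rw [mul_add, add_mul, ex, ey]⟩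
      | neg x _ hx =>
        obtain ⟨x', hx', ex⟩ := hx
        exact ⟨-x', Subring.neg_mem _ hx', by rw [mul_neg, neg_mul, ex]⟩
      | mul x y _ _ hx hy =>
        obtain ⟨x', hx', ex⟩ := hx
        obtain ⟨y', hy', ey⟩ := hy
        exact ⟨x' * y', Subring.mul_mem _ hx' hy', by
          rw [mul_assoc, ey, ← mul_assoc, ex, mul_assoc]⟩
    have h5 := hilbert_ext _ a k1 k2 ih'
    have heq : Subring.closure ((Subring.closure ((R : Set B) ∪ (Y : Set B)) : Set B) ∪ {a}) =
        Subring.closure ((R : Set B) ∪ ((insert a Y : Finset B) : Set B)) := by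
      rw [Subring.closure_union, Subring.closure_eq, ← Subring.closure_union, Finset.coe_insert,
        Set.insert_eq, Set.union_comm {a}, ← Set.union_assoc]
    rw [heq] at h5
    exact h5

/-! ### Artin-Rees -/

open Polynomial in
theorem artin_rees {Q : Type} [Group Q] (τ : Q → ℝ) (hτ : ∀ g h, τ (g * h) = τ g + τ h)
    (Q1 : Subgroup Q) (hQ1 : ∀ g, g ∈ Q1 ↔ τ g = 0) (hN : IsNoetherianRing (suppRing Q1))
    (E : Finset Q) (hE : ∀ e ∈ E, τ e < 0) (w : ℕ → RA Q)
    (hw : ∀ J, ∀ g, (w J).coeff g ≠ 0 → g ∈ PS Q1 E J) :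
    ∃ (J : ℕ) (β : ℕ → RA Q), (∀ i, ∀ g, (β i).coeff g ≠ 0 → τ g < 0) ∧
      w (J + 1) = ∑ i ∈ Finset.range (J + 1), β i * w i := by
  classical
  have hτ1 : τ 1 = 0 := by
    have := hτ 1 1
    rw [mul_one] at this; linarith
  have hτi : ∀ g, τ g⁻¹ = - τ g := by
    intro g
    have := hτ g g⁻¹
    rw [mul_inv_cancel, hτ1] at this; linarith
  have hconj : ∀ e g, g ∈ Q1 → e * g * e⁻¹ ∈ Q1 := by
    intro e g hg
    rw [hQ1] at hg ⊢
    rw [hτ, hτ, hτi, hg]; ring
  -- the base ring
  let R0 : Subring (Polynomial (RA Q)) := (suppRing Q1).map (C : RA Q →+* Polynomial (RA Q))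
  have hR0 : IsNoetherianRing R0 := by
    apply isNoetherianRing_of_surjective (suppRing Q1) R0
      (((C : RA Q →+* Polynomial (RA Q)).comp (suppRing Q1).subtype).codRestrict R0
        (fun u => ⟨u.1, u.2, rfl⟩))
    rintro ⟨_, u, hu, rfl⟩
    exact ⟨⟨u, hu⟩, rfl⟩
  -- the new generators
  let Y : Finset (Polynomial (RA Q)) := E.image (fun e => monomial 0 (sg e (1 : ℝ))) ∪
    E.image (fun e => monomial 1 (sg e (1 : ℝ)))
  have hY : ∀ a ∈ Y, ∃ e ∈ E, ∃ k : ℕ, a = monomial k (sg e (1 : ℝ)) := by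
    intro a ha
    rcases Finset.mem_union.mp ha with ha | ha
    · obtain ⟨e, he, rfl⟩ := Finset.mem_image.mp ha
      exact ⟨e, he, 0, rfl⟩
    · obtain ⟨e, he, rfl⟩ := Finset.mem_image.mp ha
      exact ⟨e, he, 1, rfl⟩
  have hT := hilbert_multi R0 hR0 Y
    (by
      intro a ha r hr
      obtain ⟨e, he, k, rfl⟩ := hY a ha
      obtain ⟨u, hu, rfl⟩ := hr
      refine ⟨C (sg e 1 * u * sg e⁻¹ 1), ⟨_, conj_suppRing (hconj e) hu, rfl⟩, ?_⟩
      rw [← monomial_zero_left, ← monomial_zero_left, monomial_mul_monomial,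
        monomial_mul_monomial, mul_assoc, mul_assoc, sg_inv_mul, mul_one, add_comm])
    (by
      intro a ha r hr
      obtain ⟨e, he, k, rfl⟩ := hY a ha
      obtain ⟨u, hu, rfl⟩ := hr
      refine ⟨C (sg e⁻¹ 1 * u * sg e 1), ⟨_, ?_, rfl⟩, ?_⟩
      · have := conj_suppRing (hconj e⁻¹) hu
        simpa using this
      · rw [← monomial_zero_left, ← monomial_zero_left, monomial_mul_monomial,
          monomial_mul_monomial, ← mul_assoc, ← mul_assoc, sg_mul_inv, one_mul, add_comm])
    (by
      intro a ha b hb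
      obtain ⟨e, he, k, rfl⟩ := hY a ha
      obtain ⟨e', he', k', rfl⟩ := hY b hb
      refine ⟨C (sg (e * e' * e⁻¹ * e'⁻¹) 1), ⟨_, sg_mem_suppRing ?_ 1, rfl⟩, ?_⟩
      · rw [hQ1]; simp only [hτ, hτi]; ring
      · rw [← monomial_zero_left, monomial_mul_monomial, monomial_mul_monomial,
          monomial_mul_monomial, MonoidAlgebra.single_mul_single, MonoidAlgebra.single_mul_single,
          MonoidAlgebra.single_mul_single]
        have e1 : e * e' * e⁻¹ * e'⁻¹ * e' * e = e * e' := by group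
        rw [e1]
        have e2 : 0 + k' + k = k + k' := by ring
        rw [e2]; simp)
    (by
      intro a ha b hb
      obtain ⟨e, he, k, rfl⟩ := hY a ha
      obtain ⟨e', he', k', rfl⟩ := hY b hb
      refine ⟨C (sg (e'⁻¹ * e⁻¹ * e' * e) 1), ⟨_, sg_mem_suppRing ?_ 1, rfl⟩, ?_⟩
      · rw [hQ1]; simp only [hτ, hτi]; ring
      · rw [← monomial_zero_left, monomial_mul_monomial, monomial_mul_monomial,
          monomial_mul_monomial, MonoidAlgebra.single_mul_single, MonoidAlgebra.single_mul_single,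
          MonoidAlgebra.single_mul_single]
        have e1 : e * (e' * (e'⁻¹ * e⁻¹ * e' * e)) = e' * e := by group
        rw [e1]
        have e2 : k + (k' + 0) = k' + k := by ring
        rw [e2]; simp)
  set T : Subring (Polynomial (RA Q)) :=
    Subring.closure ((R0 : Set (Polynomial (RA Q))) ∪ (Y : Set (Polynomial (RA Q)))) with hTdef
  -- supports of the coefficients
  have hsupp : ∀ f ∈ T, ∀ k g, (f.coeff k).coeff g ≠ 0 → τ g ≤ 0 ∧ (0 < k → τ g < 0) := by
    intro f hf
    induction hf using Subring.closure_induction with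
    | mem x hx =>
      intro k g hg
      rcases hx with hx | hx
      · obtain ⟨u, hu, rfl⟩ := hx
        rw [coeff_C] at hg
        by_cases hk : k = 0
        · rw [if_pos hk] at hg
          have := (hQ1 g).mp (hu g hg)
          exact ⟨this.le, fun h => absurd hk h.ne'⟩
        · rw [if_neg hk] at hg
          exact absurd rfl hg
      · obtain ⟨e, he, k', rfl⟩ := hY x (Finset.mem_coe.mp hx)
        rw [coeff_monomial] at hg
        by_cases hk : k' = k
        · rw [if_pos hk, MonoidAlgebra.coeff_single, Finsupp.single_apply] at hg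
          by_cases h : e = g
          · rw [← h]
            exact ⟨(hE e he).le, fun _ => hE e he⟩
          · rw [if_neg h] at hg; exact absurd rfl hg
        · rw [if_neg hk] at hg
          exact absurd rfl hg
    | zero => intro k g hg; exact absurd rfl hg
    | one =>
      intro k g hg
      rw [coeff_one] at hg
      by_cases hk : k = 0
      · rw [if_pos hk, MonoidAlgebra.one_def, MonoidAlgebra.coeff_single,
          Finsupp.single_apply] at hg
        by_cases h : 1 = g
        · rw [← h]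
          exact ⟨hτ1.le, fun h => absurd hk h.ne'⟩
        · rw [if_neg h] at hg; exact absurd rfl hg
      · rw [if_neg hk] at hg
        exact absurd rfl hg
    | add x y _ _ hx hy =>
      intro k g hg
      by_cases h : (x.coeff k).coeff g = 0
      · refine hy k g ?_
        intro h'
        apply hg
        rw [coeff_add, MonoidAlgebra.coeff_add, Finsupp.add_apply, h, h', add_zero]
      · exact hx k g h
    | neg x _ hx =>
      intro k g hg
      refine hx k g ?_
      intro h
      apply hg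
      rw [coeff_neg, MonoidAlgebra.coeff_neg, Finsupp.neg_apply, h, neg_zero]
    | mul x y _ _ hx hy =>
      intro k g hg
      rw [coeff_mul, MonoidAlgebra.coeff_sum, Finsupp.finsetSum_apply] at hg
      obtain ⟨⟨i, j⟩, hij, h⟩ := Finset.exists_ne_zero_of_sum_ne_zero hg
      have hij' : i + j = k := by simpa using hij
      have h2 := MonoidAlgebra.support_coeff_mul_subset (x.coeff i) (y.coeff j)
        (Finsupp.mem_support_iff.mpr h)
      obtain ⟨a, ha, b, hb, rfl⟩ := Finset.mem_mul.mp h2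
      obtain ⟨ha1, ha2⟩ := hx i a (Finsupp.mem_support_iff.mp ha)
      obtain ⟨hb1, hb2⟩ := hy j b (Finsupp.mem_support_iff.mp hb)
      rw [hτ]
      refine ⟨by linarith, fun hk => ?_⟩
      rcases Nat.eq_zero_or_pos i with hi | hi
      · have hj : 0 < j := by omega
        have := hb2 hj
        linarith
      · have := ha2 hi
        linarith
  -- membership of the elements `W_J`
  have hmono : ∀ J, ∀ g ∈ PS Q1 E J, ∀ c : ℝ, monomial J (sg g c) ∈ T := by
    intro J
    induction J with
    | zero =>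
      intro g hg c
      apply Subring.subset_closure
      left
      exact ⟨sg g c, sg_mem_suppRing hg c, by rw [monomial_zero_left]⟩
    | succ J ih =>
      rintro g ⟨y, hy, e, he, rfl⟩ c
      have e1 : monomial (J + 1) (sg (y * e) c) = monomial J (sg y c) * monomial 1 (sg e (1 : ℝ)) := by
        rw [monomial_mul_monomial, MonoidAlgebra.single_mul_single, mul_one]
      rw [e1]
      apply Subring.mul_mem _ (ih y hy c)
      apply Subring.subset_closure
      right
      apply Finset.mem_coe.mpr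
      exact Finset.mem_union_right _ (Finset.mem_image_of_mem _ he)
  have hW : ∀ J, monomial J (w J) ∈ T := by
    intro J
    have := supp_mem (PS Q1 E J) (T.toAddSubmonoid.comap
      ((monomial J : RA Q →ₗ[RA Q] Polynomial (RA Q)).toAddMonoidHom)) (by
        intro g hg c
        exact hmono J g hg c) (w J) (hw J)
    exact this
  -- the ascending chain
  let W : ℕ → T := fun J => ⟨monomial J (w J), hW J⟩
  obtain ⟨J, hJ⟩ := monotone_stabilizes_iff_noetherian.mpr (isNoetherianRing_iff.mp hT)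
    ⟨fun J => Submodule.span T (W '' ((Finset.range (J + 1) : Finset ℕ) : Set ℕ)), by
      intro J J' hJ
      apply Submodule.span_mono
      apply Set.image_mono
      intro i hi
      rw [Finset.mem_coe, Finset.mem_range] at hi ⊢
      omega⟩
  have hJ' := hJ (J + 1) (Nat.le_succ J)
  have hmem : W (J + 1) ∈ Submodule.span T (W '' ((Finset.range (J + 1) : Finset ℕ) : Set ℕ)) := by
    have e1 : Submodule.span T (W '' ((Finset.range (J + 1) : Finset ℕ) : Set ℕ)) =
      Submodule.span T (W '' ((Finset.range (J + 1 + 1) : Finset ℕ) : Set ℕ)) := hJ'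
    rw [e1]
    apply Submodule.subset_span
    exact ⟨J + 1, by simp, rfl⟩
  rw [Submodule.mem_span_image_finset_iff_exists_fun'] at hmem
  obtain ⟨c, hc⟩ := hmem
  refine ⟨J, fun i => if i ≤ J then ((c i : Polynomial (RA Q))).coeff (J + 1 - i) else 0, ?_, ?_⟩
  · intro i g hg
    by_cases hi : i ≤ J
    · simp only [if_pos hi] at hg
      exact (hsupp _ (c i).2 _ g hg).2 (by omega)
    · simp only [if_neg hi] at hg
      exact absurd rfl hg
  · have e1 := congrArg (fun z : T => (z : Polynomial (RA Q)).coeff (J + 1)) hc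
    simp only [AddSubmonoidClass.coe_finsetSum, smul_eq_mul, Subring.coe_mul, W,
      finsetSum_coeff] at e1
    rw [coeff_monomial, if_pos rfl] at e1
    rw [← e1]
    apply Finset.sum_congr rfl
    intro i hi
    have hi' : i ≤ J := by
      have := Finset.mem_range.mp hi
      omega
    have e2 : J + 1 = (J + 1 - i) + i := by omega
    have e3 : ((c i : Polynomial (RA Q)) * (monomial i) (w i)).coeff (J + 1) =
        (c i : Polynomial (RA Q)).coeff (J + 1 - i) * w i := by
      conv_lhs => rw [e2]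
      rw [coeff_mul_monomial]
    rw [e3]
    simp only [if_pos hi']

end Pool.Agent.MP_22afe8_al
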