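import Mathlib
import Pool.Agent.Work.MP_22afe8_al.Defs

set_option autoImplicit false

open scoped commutatorElement

namespace Pool.Agent.MP_22afe8_al

/-! M1 growth -/
theorem growth_exists (l : ℕ) (F : ℤ → Prop) (a : ℤ → ℝ) (I : ℕ) (C : ℝ) (j0 : ℤ)
    (hj0 : 1 ≤ j0) (hstart : ∃ j, j0 ≤ j ∧ F j)
    (hup : ∀ j, j0 ≤ j → F j → ∃ i : ℤ, 1 ≤ i ∧ i ≤ I ∧ F (j + i) ∧
      a j ≤ a (j + i) + C * (j : ℝ) ^ l)
    (hdown : ∀ j, j0 ≤ j → F j → ∃ i : ℤ, 1 ≤ i ∧ i ≤ I ∧ F (j - i) ∧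
      a j ≤ a (j - i) + C * (j : ℝ) ^ l) :
    ∃ A : ℝ, (∀ ε : ℝ, 0 < ε → ∃ j1 : ℤ, ∀ j, j1 ≤ j → F j → a j ≤ (A + ε) * (j : ℝ) ^ (l + 1)) ∧
      (∀ ε : ℝ, 0 < ε → ∀ j1 : ℤ, ∃ j, j1 ≤ j ∧ F j ∧ (A - ε) * (j : ℝ) ^ (l + 1) ≤ a j) := by
  -- the constant may be taken nonnegative
  obtain ⟨D, hD0, hCD⟩ : ∃ D : ℝ, 0 ≤ D ∧ C ≤ D := ⟨max C 0, le_max_right _ _, le_max_left _ _⟩
  have hpow : ∀ j : ℤ, j0 ≤ j → ∀ k : ℕ, (0:ℝ) ≤ (j:ℝ) ^ k := by
    intro j hj k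
    have : (0:ℝ) ≤ (j:ℝ) := by exact_mod_cast (by omega : (0:ℤ) ≤ j)
    positivity
  have hpow1 : ∀ j : ℤ, j0 ≤ j → ∀ k : ℕ, (1:ℝ) ≤ (j:ℝ) ^ k := by
    intro j hj k
    exact one_le_pow₀ (by exact_mod_cast (by omega : (1:ℤ) ≤ j))
  have hCle : ∀ j : ℤ, j0 ≤ j → C * (j:ℝ) ^ l ≤ D * (j:ℝ) ^ l := fun j hj =>
    mul_le_mul_of_nonneg_right hCD (hpow j hj l)
  -- upper bound
  set B : ℝ := ∑ k ∈ Finset.Icc (j0 - I) j0, |a k| with hB
  have hB0 : 0 ≤ B := Finset.sum_nonneg (fun _ _ => abs_nonneg _)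
  have hBle : ∀ k : ℤ, j0 - I ≤ k → k ≤ j0 → a k ≤ B := by
    intro k hk1 hk2
    refine (le_abs_self _).trans ?_
    exact Finset.single_le_sum (f := fun k => |a k|) (fun _ _ => abs_nonneg _)
      (Finset.mem_Icc.2 ⟨hk1, hk2⟩)
  have hupper : ∀ n : ℕ, F (j0 + n) → a (j0 + n) ≤ B + D * ((j0 + n : ℤ) : ℝ) ^ (l + 1) := by
    intro n
    induction n using Nat.strong_induction_on with
    | _ n ih =>
      intro hF
      obtain ⟨i, hi1, hi2, hFi, hai⟩ := hdown (j0 + n) (by omega) hF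
      set j : ℤ := j0 + n with hj
      have hjj : j0 ≤ j := by omega
      have hj1 : (1:ℝ) ≤ (j:ℝ) := by exact_mod_cast (by omega : (1:ℤ) ≤ j)
      have hpl := hpow j hjj l
      have h1 := hCle j hjj
      by_cases hlt : j0 ≤ j - i
      · obtain ⟨m, hm⟩ : ∃ m : ℕ, j - i = j0 + m := ⟨(j - i - j0).toNat, by omega⟩
        have hmn : m < n := by omega
        have h2 := ih m hmn (by rw [← hm]; exact hFi)
        rw [← hm] at h2
        have h3 : ((j - i : ℤ) : ℝ) ^ (l + 1) ≤ ((j:ℝ) - 1) * (j:ℝ) ^ l := by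
          have e1 : (0:ℝ) ≤ ((j - i : ℤ) : ℝ) := by exact_mod_cast (by omega : (0:ℤ) ≤ j - i)
          have e2 : ((j - i : ℤ) : ℝ) ≤ (j:ℝ) - 1 := by
            have : (j - i : ℤ) ≤ j - 1 := by omega
            exact_mod_cast this
          have e3 : ((j - i : ℤ) : ℝ) ≤ (j:ℝ) := by linarith
          calc ((j - i : ℤ) : ℝ) ^ (l + 1) = ((j - i : ℤ) : ℝ) * ((j - i : ℤ) : ℝ) ^ l := by ring
            _ ≤ ((j:ℝ) - 1) * (j:ℝ) ^ l := by
                apply mul_le_mul e2 (pow_le_pow_left₀ e1 e3 l) (by positivity) (by linarith)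
        have h4 := mul_le_mul_of_nonneg_left h3 hD0
        have h5 : D * (j:ℝ) ^ (l + 1) = D * (((j:ℝ) - 1) * (j:ℝ) ^ l) + D * (j:ℝ) ^ l := by ring
        linarith
      · push Not at hlt
        have h2 := hBle (j - i) (by omega) (by omega)
        have h3 : (j:ℝ) ^ l ≤ (j:ℝ) ^ (l + 1) := pow_le_pow_right₀ hj1 (Nat.le_succ l)
        have h4 := mul_le_mul_of_nonneg_left h3 hD0
        linarith
  set X : Set ℝ := {A' | ∃ j1 : ℤ, ∀ j, j1 ≤ j → F j → a j ≤ A' * (j:ℝ) ^ (l + 1)} with hX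
  have hXne : X.Nonempty := by
    refine ⟨B + D, j0, ?_⟩
    intro j hj hF
    obtain ⟨n, hn⟩ : ∃ n : ℕ, j = j0 + n := ⟨(j - j0).toNat, by omega⟩
    have h1 := hupper n (by rw [← hn]; exact hF)
    rw [← hn] at h1
    have h2 := hpow1 j hj (l + 1)
    have h3 : B ≤ B * (j:ℝ) ^ (l + 1) := le_mul_of_one_le_right hB0 h2
    rw [add_mul]
    linarith
  obtain ⟨js, hjs, hFs⟩ := hstart
  have hchain : ∀ n : ℕ, ∃ j : ℤ, js + n ≤ j ∧ F j ∧ a js - D * (j:ℝ) ^ (l + 1) ≤ a j := by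
    intro n
    induction n with
    | zero =>
      refine ⟨js, by simp, hFs, ?_⟩
      have := mul_nonneg hD0 (hpow js hjs (l + 1))
      linarith
    | succ n ih =>
      obtain ⟨j, hj1, hF, haj⟩ := ih
      have hjj : j0 ≤ j := by omega
      obtain ⟨i, hi1, hi2, hFi, hai⟩ := hup j hjj hF
      refine ⟨j + i, by push_cast; omega, hFi, ?_⟩
      have h1 := hCle j hjj
      have e0 : (0:ℝ) ≤ (j:ℝ) := by exact_mod_cast (by omega : (0:ℤ) ≤ j)
      have h3 : ((j:ℝ) + 1) * (j:ℝ) ^ l ≤ ((j + i : ℤ) : ℝ) ^ (l + 1) := by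
        have e2 : (j:ℝ) + 1 ≤ ((j + i : ℤ) : ℝ) := by
          have : (j + 1 : ℤ) ≤ j + i := by omega
          exact_mod_cast this
        calc ((j:ℝ) + 1) * (j:ℝ) ^ l ≤ ((j + i : ℤ) : ℝ) * ((j + i : ℤ) : ℝ) ^ l := by
              apply mul_le_mul e2 (pow_le_pow_left₀ e0 (by linarith) l) (by positivity) (by linarith)
          _ = ((j + i : ℤ) : ℝ) ^ (l + 1) := by ring
      have h4 := mul_le_mul_of_nonneg_left h3 hD0
      have h5 : D * (((j:ℝ) + 1) * (j:ℝ) ^ l) = D * (j:ℝ) ^ (l + 1) + D * (j:ℝ) ^ l := by ring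
      linarith
  have hXbdd : BddBelow X := by
    refine ⟨-D - |a js|, ?_⟩
    rintro A' ⟨j1, hj1⟩
    obtain ⟨j, hja, hF, haj⟩ := hchain (j1 - js).toNat
    have hjj : j0 ≤ j := by omega
    have h1 := hj1 j (by omega) hF
    have h2 := hpow1 j hjj (l + 1)
    have h3 : -|a js| * (j:ℝ) ^ (l + 1) ≤ a js := by
      have e1 : |a js| ≤ |a js| * (j:ℝ) ^ (l + 1) := le_mul_of_one_le_right (abs_nonneg _) h2
      have e2 := neg_abs_le (a js)
      linarith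
    by_contra hcon
    push Not at hcon
    have h4 : A' * (j:ℝ) ^ (l + 1) < (-D - |a js|) * (j:ℝ) ^ (l + 1) :=
      mul_lt_mul_of_pos_right hcon (by linarith)
    have h5 : (-D - |a js|) * (j:ℝ) ^ (l + 1)
        = - (D * (j:ℝ) ^ (l + 1)) + -|a js| * (j:ℝ) ^ (l + 1) := by ring
    linarith
  refine ⟨sInf X, ?_, ?_⟩
  · intro ε hε
    obtain ⟨A', ⟨j1, hj1⟩, hlt⟩ := exists_lt_of_csInf_lt hXne (show sInf X < sInf X + ε by linarith)
    refine ⟨max j1 j0, fun j hj hF => ?_⟩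
    have h1 := hj1 j (le_trans (le_max_left _ _) hj) hF
    have h2 := mul_le_mul_of_nonneg_right hlt.le (hpow j (le_trans (le_max_right _ _) hj) (l + 1))
    linarith
  · intro ε hε j1
    by_contra hcon
    push Not at hcon
    have : sInf X - ε ∈ X := ⟨j1, fun j hj hF => (hcon j hj hF).le⟩
    have := csInf_le hXbdd this
    linarith

/-- Second-order remainder of a power. -/
theorem pow_rem (I : ℕ) (l : ℕ) : ∃ K : ℝ, 0 ≤ K ∧ ∀ j i : ℝ, 1 ≤ j → (I:ℝ) ≤ j → |i| ≤ I →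
    |(j + i) ^ (l + 1) - j ^ (l + 1) - (l + 1) * i * j ^ l| * j ≤ K * j ^ l := by
  induction l with
  | zero =>
    refine ⟨0, le_rfl, fun j i _ _ _ => ?_⟩
    have : (j + i) ^ (0 + 1) - j ^ (0 + 1) - (((0:ℕ):ℝ) + 1) * i * j ^ 0 = 0 := by
      push_cast; ring
    rw [this]; simp
  | succ l ih =>
    obtain ⟨K, hK0, hK⟩ := ih
    refine ⟨2 * K + (l + 1) * (I:ℝ) ^ 2, by positivity, fun j i hj1 hjI hi => ?_⟩
    have h0 := hK j i hj1 hjI hi
    have hj0 : (0:ℝ) ≤ j := by linarith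
    have e : (j + i) ^ (l + 1 + 1) - j ^ (l + 1 + 1) - (((l + 1 : ℕ) : ℝ) + 1) * i * j ^ (l + 1)
        = (j + i) * ((j + i) ^ (l + 1) - j ^ (l + 1) - (l + 1) * i * j ^ l)
          + (l + 1) * i ^ 2 * j ^ l := by
      push_cast; ring
    rw [e]
    have h1 : |j + i| ≤ 2 * j := by
      have := abs_add_le j i
      rw [abs_of_nonneg hj0] at this
      linarith
    have h2 : i ^ 2 ≤ (I:ℝ) ^ 2 := by
      rw [← sq_abs]
      exact pow_le_pow_left₀ (abs_nonneg _) hi 2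
    have hjl : (0:ℝ) ≤ j ^ l := by positivity
    calc |(j + i) * ((j + i) ^ (l + 1) - j ^ (l + 1) - (l + 1) * i * j ^ l)
          + (l + 1) * i ^ 2 * j ^ l| * j
        ≤ (|(j + i) * ((j + i) ^ (l + 1) - j ^ (l + 1) - (l + 1) * i * j ^ l)|
          + |(l + 1) * i ^ 2 * j ^ l|) * j := by
          apply mul_le_mul_of_nonneg_right (abs_add_le _ _) hj0
      _ = |j + i| * (|(j + i) ^ (l + 1) - j ^ (l + 1) - (l + 1) * i * j ^ l| * j)
          + (l + 1) * i ^ 2 * j ^ l * j := by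
          rw [abs_mul, abs_of_nonneg (by positivity : (0:ℝ) ≤ (l + 1) * i ^ 2 * j ^ l)]
          ring
      _ ≤ (2 * j) * (K * j ^ l) + (l + 1) * (I:ℝ) ^ 2 * j ^ l * j := by
          gcongr
      _ = (2 * K + (l + 1) * (I:ℝ) ^ 2) * j ^ (l + 1) := by ring

theorem growth_contra (l : ℕ) (F : ℤ → Prop) (a : ℤ → ℝ) (A : ℝ)
    (hA1 : ∀ ε : ℝ, 0 < ε → ∃ j1 : ℤ, ∀ j, j1 ≤ j → F j → a j ≤ (A + ε) * (j : ℝ) ^ (l + 1))
    (hA2 : ∀ ε : ℝ, 0 < ε → ∀ j1 : ℤ, ∃ j, j1 ≤ j ∧ F j ∧ (A - ε) * (j : ℝ) ^ (l + 1) ≤ a j)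
    (I : ℕ) (δ : ℝ) (hδ : 0 < δ) (j0 : ℤ)
    (hrel : ∀ j, j0 ≤ j → F j → ∃ i : ℤ, |i| ≤ (I : ℤ) ∧ F (j + i) ∧
      a j ≤ a (j + i) - (δ + (l + 1) * A * i) * (j : ℝ) ^ l) : False := by
  obtain ⟨K, hK0, hK⟩ := pow_rem I l
  set b : ℤ → ℝ := fun j => a j - A * (j:ℝ) ^ (l + 1) with hb
  -- (i)
  obtain ⟨j2, hj2⟩ : ∃ j2 : ℤ, ∀ j, j2 ≤ j → F j → ∃ i : ℤ, |i| ≤ (I : ℤ) ∧ F (j + i) ∧
      b j ≤ b (j + i) - (δ / 2) * (j:ℝ) ^ l := by
    obtain ⟨m, hm⟩ := exists_nat_ge (|A| * K / (δ / 2))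
    refine ⟨max (max j0 1) (max (I:ℤ) m), fun j hj hF => ?_⟩
    have hjj0 : j0 ≤ j := by omega
    have hjj1 : 1 ≤ j := by omega
    have hjI : (I:ℤ) ≤ j := by omega
    have hjm : (m:ℤ) ≤ j := by omega
    obtain ⟨i, hi, hFi, hai⟩ := hrel j hjj0 hF
    refine ⟨i, hi, hFi, ?_⟩
    have hj1r : (1:ℝ) ≤ (j:ℝ) := by exact_mod_cast hjj1
    have hjIr : (I:ℝ) ≤ (j:ℝ) := by exact_mod_cast hjI
    have hjmr : (m:ℝ) ≤ (j:ℝ) := by exact_mod_cast hjm
    have hir : |(i:ℝ)| ≤ (I:ℝ) := by exact_mod_cast hi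
    have h1 := hK j i hj1r hjIr hir
    set R : ℝ := ((j:ℝ) + i) ^ (l + 1) - (j:ℝ) ^ (l + 1) - (l + 1) * i * (j:ℝ) ^ l with hR
    have hjl : (0:ℝ) ≤ (j:ℝ) ^ l := by positivity
    have h2 : A * R ≤ (δ / 2) * (j:ℝ) ^ l := by
      have e1 : A * R ≤ |A| * |R| := by
        rw [← abs_mul]; exact le_abs_self _
      have e2 : |A| * K ≤ (δ / 2) * j := by
        have := (div_le_iff₀ (by positivity : (0:ℝ) < δ / 2)).1 (hm.trans hjmr)
        linarith
      have e3 : (|A| * |R|) * j ≤ ((δ / 2) * (j:ℝ) ^ l) * j := by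
        calc (|A| * |R|) * j = |A| * (|R| * j) := by ring
          _ ≤ |A| * (K * (j:ℝ) ^ l) := mul_le_mul_of_nonneg_left h1 (abs_nonneg _)
          _ = (|A| * K) * (j:ℝ) ^ l := by ring
          _ ≤ ((δ / 2) * j) * (j:ℝ) ^ l := mul_le_mul_of_nonneg_right e2 hjl
          _ = ((δ / 2) * (j:ℝ) ^ l) * j := by ring
      have e4 := le_of_mul_le_mul_right e3 (by linarith : (0:ℝ) < j)
      linarith
    have h3 : A * ((j:ℝ) + i) ^ (l + 1) = A * (j:ℝ) ^ (l + 1) + (l + 1) * A * i * (j:ℝ) ^ l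
        + A * R := by rw [hR]; ring
    simp only [hb]
    push_cast
    rw [h3]
    have h4 : (δ + (l + 1) * A * i) * (j:ℝ) ^ l
        = δ * (j:ℝ) ^ l + (l + 1) * A * i * (j:ℝ) ^ l := by ring
    rw [h4] at hai
    have h5 : δ * (j:ℝ) ^ l = (δ / 2) * (j:ℝ) ^ l + (δ / 2) * (j:ℝ) ^ l := by ring
    linarith
  -- constants
  set κ : ℝ := δ / (4 * (I + 1) * 2 ^ l) with hκ
  have hκ0 : 0 < κ := by positivity
  have hκI : κ * I * 2 ^ l < δ / 2 := by
    have e : κ * (I + 1) * 2 ^ l = δ / 4 := by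
      rw [hκ]; field_simp
    have e2 : κ * I * 2 ^ l ≤ κ * (I + 1) * 2 ^ l := by gcongr; linarith
    linarith
  set η : ℝ := κ / (8 * (1 + 2 ^ (l + 1))) with hη
  have hη0 : 0 < η := by positivity
  have hηκ : η * (1 + 2 ^ (l + 1)) < κ / 4 := by
    have e : η * (1 + 2 ^ (l + 1)) = κ / 8 := by
      rw [hη]; field_simp
    linarith
  obtain ⟨j1, hj1⟩ := hA1 η hη0
  obtain ⟨J, hJge, hFJ, hJa⟩ := hA2 η hη0 (2 * |j1| + 2 * |j2| + 4 * I + 4)
  have habs1 := le_abs_self j1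
  have habs2 := le_abs_self j2
  have hab1 := abs_nonneg j1
  have hab2 := abs_nonneg j2
  have hJpos : (0:ℝ) < (J:ℝ) := by exact_mod_cast (by omega : (0:ℤ) < J)
  have hbJ : -η * (J:ℝ) ^ (l + 1) ≤ b J := by
    simp only [hb]
    have : (A - η) * (J:ℝ) ^ (l + 1) = A * (J:ℝ) ^ (l + 1) + -η * (J:ℝ) ^ (l + 1) := by ring
    linarith
  have hbj : ∀ j, J ≤ 2 * j → F j → b j ≤ η * (j:ℝ) ^ (l + 1) := by
    intro j hj hF
    have h1 := hj1 j (by omega) hF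
    simp only [hb]
    have : (A + η) * (j:ℝ) ^ (l + 1) = A * (j:ℝ) ^ (l + 1) + η * (j:ℝ) ^ (l + 1) := by ring
    linarith
  classical
  set S : Finset ℤ := (Finset.Icc 0 (2 * J)).filter (fun j => J ≤ 2 * j ∧ F j) with hS
  have hJS : J ∈ S := by
    rw [hS, Finset.mem_filter, Finset.mem_Icc]
    exact ⟨⟨by omega, by omega⟩, by omega, hFJ⟩
  set g : ℤ → ℝ := fun j => b j - κ * (J:ℝ) ^ l * |(j:ℝ) - J| with hg
  obtain ⟨s, hsS, hmax⟩ := Finset.exists_max_image S g ⟨J, hJS⟩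
  rw [hS, Finset.mem_filter, Finset.mem_Icc] at hsS
  obtain ⟨⟨hs0, hs2⟩, hsJ, hFs⟩ := hsS
  obtain ⟨i, hi, hFi, hbi⟩ := hj2 s (by omega) hFs
  have hi' := abs_le.1 hi
  have hsr : (J:ℝ) / 2 ≤ (s:ℝ) := by
    have : (J:ℝ) ≤ 2 * (s:ℝ) := by exact_mod_cast hsJ
    linarith
  have hJl : (0:ℝ) < (J:ℝ) ^ l := by positivity
  have hir : |(i:ℝ)| ≤ (I:ℝ) := by exact_mod_cast hi
  by_cases hmem : s + i ∈ S
  · have h1 := hmax (s + i) hmem
    simp only [hg] at h1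
    push_cast at h1
    have h2 : |(s:ℝ) + i - J| ≤ |(s:ℝ) - J| + I := by
      have := abs_add_le ((s:ℝ) - J) i
      have e : (s:ℝ) - J + i = (s:ℝ) + i - J := by ring
      rw [e] at this
      linarith
    have h3 : (J:ℝ) ^ l ≤ 2 ^ l * (s:ℝ) ^ l := by
      rw [← mul_pow]
      exact pow_le_pow_left₀ hJpos.le (by linarith) l
    have h4 : κ * (J:ℝ) ^ l * |(s:ℝ) + i - J| ≤ κ * (J:ℝ) ^ l * (|(s:ℝ) - J| + I) :=
      mul_le_mul_of_nonneg_left h2 (by positivity)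
    have h5 : (δ / 2) * (s:ℝ) ^ l ≤ κ * (J:ℝ) ^ l * I := by
      have : κ * (J:ℝ) ^ l * (|(s:ℝ) - J| + I)
        = κ * (J:ℝ) ^ l * |(s:ℝ) - J| + κ * (J:ℝ) ^ l * I := by ring
      linarith
    have h6 : κ * (J:ℝ) ^ l * I ≤ κ * (2 ^ l * (s:ℝ) ^ l) * I := by gcongr
    have hsl : (0:ℝ) < (s:ℝ) ^ l := by
      have : (0:ℝ) < s := by linarith
      positivity
    have h7 : κ * (2 ^ l * (s:ℝ) ^ l) * I < (δ / 2) * (s:ℝ) ^ l := by
      have := mul_lt_mul_of_pos_right hκI hsl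
      calc κ * (2 ^ l * (s:ℝ) ^ l) * I = κ * I * 2 ^ l * (s:ℝ) ^ l := by ring
        _ < _ := this
    linarith
  · have hfar : (J:ℝ) / 4 ≤ |(s:ℝ) - J| := by
      rw [hS, Finset.mem_filter, Finset.mem_Icc] at hmem
      by_cases hc : J ≤ 2 * (s + i)
      · have hc2 : 2 * J < s + i := by
          by_contra hcon
          exact hmem ⟨⟨by omega, by omega⟩, hc, hFi⟩
        have : J ≤ 4 * (s - J) := by omega
        have h' : (J:ℝ) ≤ 4 * ((s:ℝ) - J) := by exact_mod_cast this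
        exact le_trans (by linarith) (le_abs_self _)
      · push Not at hc
        have : J ≤ 4 * (J - s) := by omega
        have h' : (J:ℝ) ≤ 4 * ((J:ℝ) - s) := by exact_mod_cast this
        rw [abs_sub_comm]
        exact le_trans (by linarith) (le_abs_self _)
    have h1 := hmax J hJS
    simp only [hg, sub_self, abs_zero, mul_zero, sub_zero] at h1
    have h2 := hbj s hsJ hFs
    have h3 : (s:ℝ) ^ (l + 1) ≤ 2 ^ (l + 1) * (J:ℝ) ^ (l + 1) := by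
      rw [← mul_pow]
      refine pow_le_pow_left₀ (by linarith) ?_ _
      exact_mod_cast hs2
    have h4 : κ * (J:ℝ) ^ l * ((J:ℝ) / 4) ≤ κ * (J:ℝ) ^ l * |(s:ℝ) - J| :=
      mul_le_mul_of_nonneg_left hfar (by positivity)
    have h5 : η * (s:ℝ) ^ (l + 1) ≤ η * (2 ^ (l + 1) * (J:ℝ) ^ (l + 1)) :=
      mul_le_mul_of_nonneg_left h3 hη0.le
    have hJl1 : (0:ℝ) < (J:ℝ) ^ (l + 1) := by positivity
    have h6 := mul_lt_mul_of_pos_right hηκ hJl1
    have h7 : κ * (J:ℝ) ^ l * ((J:ℝ) / 4) = κ / 4 * (J:ℝ) ^ (l + 1) := by ring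
    have h8 : η * (1 + 2 ^ (l + 1)) * (J:ℝ) ^ (l + 1)
        = η * (J:ℝ) ^ (l + 1) + η * (2 ^ (l + 1) * (J:ℝ) ^ (l + 1)) := by ring
    linarith

/-- Iterated differences of a function under conjugation by `t`. -/
noncomputable def dl {Q : Type} [Group Q] (t : Q) (ρ : Q → ℝ) : ℕ → Q → ℝ
  | 0 => ρ
  | (k + 1) => fun n => dl t ρ k (t * n * t⁻¹) - dl t ρ k n

theorem dl_add {Q : Type} [Group Q] (N : Subgroup Q) (t : Q)
    (h1 : ∀ n ∈ N, t * n * t⁻¹ ∈ N) (ρ : Q → ℝ)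
    (hρ : ∀ g ∈ N, ∀ h ∈ N, ρ (g * h) = ρ g + ρ h) (k : ℕ) :
    ∀ g ∈ N, ∀ h ∈ N, dl t ρ k (g * h) = dl t ρ k g + dl t ρ k h := by
  induction k with
  | zero => exact hρ
  | succ k ih =>
    intro g hg h hh
    have e : t * (g * h) * t⁻¹ = (t * g * t⁻¹) * (t * h * t⁻¹) := by group
    simp only [dl]
    rw [e, ih _ (h1 g hg) _ (h1 h hh), ih g hg h hh]
    ring

theorem dl_one {Q : Type} [Group Q] (N : Subgroup Q) (t : Q)
    (h1 : ∀ n ∈ N, t * n * t⁻¹ ∈ N) (ρ : Q → ℝ)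
    (hρ : ∀ g ∈ N, ∀ h ∈ N, ρ (g * h) = ρ g + ρ h) (k : ℕ) : dl t ρ k 1 = 0 := by
  have := dl_add N t h1 ρ hρ k 1 N.one_mem 1 N.one_mem
  rw [mul_one] at this
  linarith

theorem dl_succ {Q : Type} [Group Q] (N : Subgroup Q) (t : Q)
    (h1 : ∀ n ∈ N, t * n * t⁻¹ ∈ N) (ρ : Q → ℝ)
    (hρ : ∀ g ∈ N, ∀ h ∈ N, ρ (g * h) = ρ g + ρ h) (k : ℕ) (n : Q) (hn : n ∈ N) :
    dl t ρ (k + 1) n = dl t ρ k (t * n * t⁻¹ * n⁻¹) := by
  have hm : t * n * t⁻¹ * n⁻¹ ∈ N := N.mul_mem (h1 n hn) (N.inv_mem hn)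
  have := dl_add N t h1 ρ hρ k _ hm n hn
  rw [inv_mul_cancel_right] at this
  simp only [dl]
  linarith

theorem dl_lcs {Q : Type} [Group Q] (N : Subgroup Q) (t : Q)
    (h1 : ∀ n ∈ N, t * n * t⁻¹ ∈ N) (ρ : Q → ℝ)
    (hρ : ∀ g ∈ N, ∀ h ∈ N, ρ (g * h) = ρ g + ρ h) (c : ℕ)
    (hc : (⊤ : Subgroup Q).lowerCentralSeries c = ⊥) (k : ℕ) :
    ∀ j, j + k = c → ∀ n ∈ N, n ∈ (⊤ : Subgroup Q).lowerCentralSeries j → dl t ρ k n = 0 := by
  induction k with
  | zero =>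
    intro j hj n _ hn
    rw [show j = c by omega, hc, Subgroup.mem_bot] at hn
    rw [hn]
    exact dl_one N t h1 ρ hρ 0
  | succ k ih =>
    intro j hj n hnN hn
    rw [dl_succ N t h1 ρ hρ k n hnN]
    refine ih (j + 1) (by omega) _ (N.mul_mem (h1 n hnN) (N.inv_mem hnN)) ?_
    have h2 : ⁅n, t⁆ ∈ (⊤ : Subgroup Q).lowerCentralSeries (j + 1) := by
      rw [Subgroup.lowerCentralSeries_succ]
      exact Subgroup.commutator_mem_commutator hn (Subgroup.mem_top t)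
    have h3 : t * n * t⁻¹ * n⁻¹ = ⁅n, t⁆⁻¹ := by
      rw [commutatorElement_def]; group
    rw [h3]
    exact Subgroup.inv_mem _ h2

theorem dl_fwd {Q : Type} [Group Q] (t : Q) (ρ : Q → ℝ) (n : Q) (k : ℕ) :
    ∀ j : ℕ, (fwdDiff (1 : ℕ))^[k] (fun j : ℕ => ρ (t ^ j * n * (t ^ j)⁻¹)) j
      = dl t ρ k (t ^ j * n * (t ^ j)⁻¹) := by
  induction k with
  | zero => intro j; rfl
  | succ k ih =>
    intro j
    rw [Function.iterate_succ_apply', fwdDiff, ih, ih]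
    simp only [dl]
    congr 2
    rw [pow_succ']
    group

theorem choose_ratio (l k : ℕ) (hk : k < l) :
    Filter.Tendsto (fun j : ℕ => (j.choose k : ℝ) / (j : ℝ) ^ l) Filter.atTop (nhds 0) := by
  have h1 : (fun n : ℕ => (n.choose k : ℝ)) =O[Filter.atTop] (fun n : ℕ => (n : ℝ) ^ k) :=
    (isTheta_choose k).1
  have h2 : (fun n : ℕ => (n : ℝ) ^ k) =o[Filter.atTop] (fun n : ℕ => (n : ℝ) ^ l) :=
    (Asymptotics.isLittleO_pow_pow_atTop_of_lt hk).comp_tendsto tendsto_natCast_atTop_atTop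
  exact (h1.trans_isLittleO h2).tendsto_div_nhds_zero

theorem choose_ratio_self (l : ℕ) :
    Filter.Tendsto (fun j : ℕ => (j.choose l : ℝ) / (j : ℝ) ^ l) Filter.atTop
      (nhds (1 / (l.factorial : ℝ))) := by
  have h1 := isEquivalent_choose l
  have h2 : ∀ᶠ n : ℕ in Filter.atTop, ((n:ℝ) ^ l / (l.factorial : ℝ)) ≠ 0 := by
    filter_upwards [Filter.eventually_gt_atTop 0] with n hn
    have : (0:ℝ) < n := by exact_mod_cast hn
    have : (0:ℝ) < (l.factorial : ℝ) := by exact_mod_cast l.factorial_pos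
    positivity
  have h3 := (Asymptotics.isEquivalent_iff_tendsto_one h2).1 h1
  have h4 := h3.mul_const (1 / (l.factorial : ℝ))
  rw [one_mul] at h4
  refine h4.congr' ?_
  filter_upwards [Filter.eventually_gt_atTop 0] with n hn
  have h5 : (0:ℝ) < n := by exact_mod_cast hn
  have h6 : (0:ℝ) < (l.factorial : ℝ) := by exact_mod_cast l.factorial_pos
  simp only [Pi.div_apply]
  field_simp

theorem poly_growth {Q : Type} [Group Q] (hQ : Group.IsNilpotent Q) (N : Subgroup Q) (t : Q)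
    (h1 : ∀ n ∈ N, t * n * t⁻¹ ∈ N) (h2 : ∀ n ∈ N, t⁻¹ * n * t ∈ N)
    (ρ : Q → ℝ) (hρ : ∀ g ∈ N, ∀ h ∈ N, ρ (g * h) = ρ g + ρ h) (hne : ∃ n ∈ N, ρ n ≠ 0) :
    ∃ (l : ℕ) (lam : Q → ℝ), (∀ g ∈ N, ∀ h ∈ N, lam (g * h) = lam g + lam h) ∧
      (∃ n ∈ N, lam n ≠ 0) ∧ (∀ n ∈ N, lam (t * n * t⁻¹) = lam n) ∧
      (∀ n ∈ N, Filter.Tendsto (fun j : ℤ => ρ (t ^ j * n * t ^ (-j)) / (j : ℝ) ^ l)
        Filter.atTop (nhds (lam n))) ∧
      (l = 0 → ∀ n ∈ N, ρ (t * n * t⁻¹) = ρ n) := by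
  classical
  obtain ⟨c, hc⟩ := Subgroup.nilpotent_iff_lowerCentralSeries.1 hQ
  have hex : ∃ k, ∀ n ∈ N, dl t ρ k n = 0 :=
    ⟨c, fun n hn => dl_lcs N t h1 ρ hρ c hc c 0 (by omega) n hn (by simp)⟩
  have hspec := Nat.find_spec hex
  have hmin : ∀ m, m < Nat.find hex → ¬ ∀ n ∈ N, dl t ρ m n = 0 := fun m hm => Nat.find_min hex hm
  obtain ⟨l, hl⟩ : ∃ l, Nat.find hex = l + 1 := by
    rcases Nat.eq_zero_or_pos (Nat.find hex) with h0 | hpos
    · exfalso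
      rw [h0] at hspec
      obtain ⟨n, hn, hn0⟩ := hne
      exact hn0 (hspec n hn)
    · exact ⟨Nat.find hex - 1, by omega⟩
  rw [hl] at hspec
  have hnel : ∃ n ∈ N, dl t ρ l n ≠ 0 := by
    have := hmin l (by omega)
    push Not at this
    exact this
  have hzero : ∀ k, l + 1 ≤ k → ∀ n ∈ N, dl t ρ k n = 0 := by
    intro k hk
    induction k, hk using Nat.le_induction with
    | base => exact hspec
    | succ k hk ih =>
      intro n hn
      simp only [dl]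
      rw [ih _ (h1 n hn), ih n hn, sub_zero]
  have hfac : (0:ℝ) < (l.factorial : ℝ) := by exact_mod_cast l.factorial_pos
  refine ⟨l, fun n => dl t ρ l n * (1 / (l.factorial : ℝ)), ?_, ?_, ?_, ?_, ?_⟩
  · intro g hg h hh
    simp only []
    rw [dl_add N t h1 ρ hρ l g hg h hh, add_mul]
  · obtain ⟨n, hn, hn0⟩ := hnel
    exact ⟨n, hn, mul_ne_zero hn0 (by positivity)⟩
  · intro n hn
    have := hspec n hn
    simp only [dl] at this
    have h3 : dl t ρ l (t * n * t⁻¹) = dl t ρ l n := by linarith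
    simp only []
    rw [h3]
  · intro n hn
    -- the natural version
    have hnat : Filter.Tendsto (fun j : ℕ => ρ (t ^ j * n * (t ^ j)⁻¹) / (j : ℝ) ^ l)
        Filter.atTop (nhds (dl t ρ l n * (1 / (l.factorial : ℝ)))) := by
      have hsum : ∀ j : ℕ, ρ (t ^ j * n * (t ^ j)⁻¹)
          = ∑ k ∈ Finset.range (l + 1), (j.choose k : ℝ) * dl t ρ k n := by
        intro j
        have h3 := shift_eq_sum_fwdDiff_iter (1 : ℕ) (fun j : ℕ => ρ (t ^ j * n * (t ^ j)⁻¹)) j 0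
        simp only [zero_add, smul_eq_mul, mul_one, nsmul_eq_mul] at h3
        rw [h3]
        have h4 : ∀ k, (fwdDiff (1 : ℕ))^[k] (fun j : ℕ => ρ (t ^ j * n * (t ^ j)⁻¹)) 0
            = dl t ρ k n := by
          intro k
          rw [dl_fwd t ρ n k 0]
          simp
        simp only [h4]
        -- extend both sums to a large common range
        have h5 : ∑ k ∈ Finset.range (j + 1), (j.choose k : ℝ) * dl t ρ k n
            = ∑ k ∈ Finset.range (j + 1 + (l + 1)), (j.choose k : ℝ) * dl t ρ k n := by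
          apply Finset.sum_subset
          · intro k hk; rw [Finset.mem_range] at hk ⊢; omega
          · intro k _ hk
            rw [Finset.mem_range] at hk
            rw [Nat.choose_eq_zero_of_lt (by omega)]
            simp
        have h6 : ∑ k ∈ Finset.range (l + 1), (j.choose k : ℝ) * dl t ρ k n
            = ∑ k ∈ Finset.range (j + 1 + (l + 1)), (j.choose k : ℝ) * dl t ρ k n := by
          apply Finset.sum_subset
          · intro k hk; rw [Finset.mem_range] at hk ⊢; omega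
          · intro k _ hk
            rw [Finset.mem_range] at hk
            rw [hzero k (by omega) n hn, mul_zero]
        rw [h5, h6]
      have h7 : (fun j : ℕ => ρ (t ^ j * n * (t ^ j)⁻¹) / (j : ℝ) ^ l)
          = fun j : ℕ => ∑ k ∈ Finset.range (l + 1), ((j.choose k : ℝ) / (j:ℝ) ^ l) * dl t ρ k n := by
        funext j
        rw [hsum j, Finset.sum_div]
        apply Finset.sum_congr rfl
        intro k _
        ring
      rw [h7]
      have h8 : dl t ρ l n * (1 / (l.factorial : ℝ))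
          = ∑ k ∈ Finset.range (l + 1), (if k = l then 1 / (l.factorial : ℝ) else 0) * dl t ρ k n := by
        rw [Finset.sum_eq_single l]
        · simp; ring
        · intro k _ hk; simp [hk]
        · intro hk; exact absurd (Finset.mem_range.2 (Nat.lt_succ_self l)) hk
      rw [h8]
      apply tendsto_finsetSum
      intro k hk
      rw [Finset.mem_range] at hk
      apply Filter.Tendsto.mul_const
      by_cases hkl : k = l
      · rw [if_pos hkl, hkl]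
        exact choose_ratio_self l
      · rw [if_neg hkl]
        exact choose_ratio l k (by omega)
    have htn : Filter.Tendsto Int.toNat Filter.atTop Filter.atTop := by
      rw [Filter.tendsto_atTop]
      intro m
      filter_upwards [Filter.eventually_ge_atTop (m:ℤ)] with j hj
      omega
    have h9 := hnat.comp htn
    refine h9.congr' ?_
    filter_upwards [Filter.eventually_ge_atTop (0:ℤ)] with j hj
    obtain ⟨m, rfl⟩ := Int.eq_ofNat_of_zero_le hj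
    simp only [Function.comp_apply, Int.toNat_natCast, zpow_natCast, Int.cast_natCast, zpow_neg]
  · intro hl0 n hn
    subst hl0
    have := hspec n hn
    simp only [dl] at this
    linarith

end Pool.Agent.MP_22afe8_al
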