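import Mathlib
import Pool.Agent.Work.MP_22afe8_al.Defs

set_option autoImplicit false

namespace Pool.Agent.MP_22afe8_al

variable {Q : Type} [Group Q] {C : Type} [AddCommGroup C] [Module (RA Q) C]

/-- Nonnegative elements of the group algebra supported in a set. -/
def NN (S : Set Q) : Set (RA Q) := {u | (∀ g, 0 ≤ u.coeff g) ∧ ∀ g, u.coeff g ≠ 0 → g ∈ S}

namespace NN

theorem mono {S S' : Set Q} (h : S ⊆ S') {u : RA Q} (hu : u ∈ NN S) : u ∈ NN S' :=
  ⟨hu.1, fun g hg => h (hu.2 g hg)⟩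

theorem zero (S : Set Q) : (0 : RA Q) ∈ NN S := by
  constructor
  · intro g
    exact le_refl _
  · intro g hg
    exact absurd rfl hg

theorem add {S : Set Q} {u v : RA Q} (hu : u ∈ NN S) (hv : v ∈ NN S) : u + v ∈ NN S := by
  constructor
  · intro g
    rw [MonoidAlgebra.coeff_add, Finsupp.add_apply]
    exact add_nonneg (hu.1 g) (hv.1 g)
  · intro g hg
    by_cases h : u.coeff g = 0
    · refine hv.2 g ?_
      intro h'
      apply hg
      rw [MonoidAlgebra.coeff_add, Finsupp.add_apply, h, h', add_zero]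
    · exact hu.2 g h

theorem sg_mem {S : Set Q} {g : Q} (hg : g ∈ S) {c : ℝ} (hc : 0 ≤ c) : sg g c ∈ NN S := by
  classical
  constructor
  · intro h
    rw [MonoidAlgebra.coeff_single, Finsupp.single_apply]
    split_ifs
    · exact hc
    · exact le_refl _
  · intro h hh
    rw [MonoidAlgebra.coeff_single, Finsupp.single_apply] at hh
    split_ifs at hh with h1
    · rw [← h1]; exact hg
    · exact absurd rfl hh

theorem one_mem {S : Set Q} (h : (1 : Q) ∈ S) : (1 : RA Q) ∈ NN S := by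
  rw [MonoidAlgebra.one_def]
  exact sg_mem h zero_le_one

theorem sum_mem {S : Set Q} {ι : Type*} (s : Finset ι) (f : ι → RA Q)
    (h : ∀ i ∈ s, f i ∈ NN S) : ∑ i ∈ s, f i ∈ NN S := by
  classical
  induction s using Finset.induction_on with
  | empty => simpa using zero S
  | insert a s ha ih =>
    rw [Finset.sum_insert ha]
    exact add (h a (Finset.mem_insert_self a s))
      (ih fun i hi => h i (Finset.mem_insert_of_mem hi))

theorem decomp (u : RA Q) : u = ∑ g ∈ u.coeff.support, sg g (u.coeff g) :=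
  (MonoidAlgebra.sum_coeff_single u).symm

theorem induct {S : Set Q} {p : RA Q → Prop} (h0 : p 0) (hadd : ∀ u v, p u → p v → p (u + v))
    (hs : ∀ g ∈ S, ∀ c : ℝ, 0 ≤ c → p (sg g c)) {u : RA Q} (hu : u ∈ NN S) : p u := by
  classical
  rw [decomp u]
  have : ∀ s : Finset Q, (∀ g ∈ s, g ∈ u.coeff.support) → p (∑ g ∈ s, sg g (u.coeff g)) := by
    intro s
    induction s using Finset.induction_on with
    | empty => intro _; simpa using h0
    | insert a s ha ih =>
      intro hss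
      rw [Finset.sum_insert ha]
      refine hadd _ _ ?_ (ih fun g hg => hss g (Finset.mem_insert_of_mem hg))
      exact hs a (hu.2 a (Finsupp.mem_support_iff.mp (hss a (Finset.mem_insert_self a s)))) _
        (hu.1 a)
  exact this _ fun g hg => hg

theorem mul {S S' S'' : Set Q} {u v : RA Q} (hu : u ∈ NN S) (hv : v ∈ NN S')
    (h : ∀ g ∈ S, ∀ k ∈ S', g * k ∈ S'') : u * v ∈ NN S'' := by
  refine induct (p := fun u => u * v ∈ NN S'') ?_ ?_ ?_ hu
  · simpa using zero S''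
  · intro a b ha hb
    rw [add_mul]
    exact add ha hb
  · intro g hg c hc
    refine induct (p := fun v => sg g c * v ∈ NN S'') ?_ ?_ ?_ hv
    · simpa using zero S''
    · intro a b ha hb
      rw [mul_add]
      exact add ha hb
    · intro k hk d hd
      rw [MonoidAlgebra.single_mul_single]
      exact sg_mem (h g hg k hk) (mul_nonneg hc hd)

theorem mulH {H : Subgroup Q} {u v : RA Q} (hu : u ∈ NN (H : Set Q)) (hv : v ∈ NN (H : Set Q)) :
    u * v ∈ NN (H : Set Q) :=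
  mul hu hv fun _ hg _ hk => H.mul_mem hg hk

/-- The sum of the coefficients. -/
noncomputable def aug (u : RA Q) : ℝ := u.coeff.sum fun _ c => c

theorem aug_add (u v : RA Q) : aug (u + v) = aug u + aug v := by
  classical
  unfold aug
  rw [MonoidAlgebra.coeff_add]
  exact Finsupp.sum_add_index' (fun _ => rfl) (fun _ _ _ => rfl)

theorem aug_sg (g : Q) (c : ℝ) : aug (sg g c) = c := by
  unfold aug
  rw [MonoidAlgebra.coeff_single]
  exact Finsupp.sum_single_index rfl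

theorem aug_zero : aug (0 : RA Q) = 0 := by
  unfold aug
  simp

theorem aug_mul (u v : RA Q) : aug (u * v) = aug u * aug v := by
  refine MonoidAlgebra.induction_linear u ?_ ?_ ?_
  · simp [aug_zero]
  · intro a b ha hb
    rw [add_mul, aug_add, aug_add, ha, hb, add_mul]
  · intro g c
    refine MonoidAlgebra.induction_linear v ?_ ?_ ?_
    · simp [aug_zero]
    · intro a b ha hb
      rw [mul_add, aug_add, aug_add, ha, hb, mul_add]
    · intro k d
      rw [MonoidAlgebra.single_mul_single, aug_sg, aug_sg, aug_sg]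

theorem aug_pos {S : Set Q} {u : RA Q} (hu : u ∈ NN S) (h0 : u ≠ 0) : 0 < aug u := by
  have hne : u.coeff ≠ 0 := by
    intro h
    exact h0 (MonoidAlgebra.coeff_eq_zero.mp h)
  obtain ⟨g, hg⟩ := Finsupp.ne_iff.mp hne
  unfold aug
  refine Finset.sum_pos' (fun i _ => hu.1 i) ⟨g, Finsupp.mem_support_iff.mpr hg, ?_⟩
  exact lt_of_le_of_ne (hu.1 g) (Ne.symm hg)

theorem aug_nonneg {S : Set Q} {u : RA Q} (hu : u ∈ NN S) : 0 ≤ aug u := by
  by_cases h0 : u = 0
  · rw [h0, aug_zero]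
  · exact (aug_pos hu h0).le

theorem ne_zero_of_aug {u : RA Q} (h : aug u ≠ 0) : u ≠ 0 := by
  intro h0
  apply h
  rw [h0, aug_zero]

theorem mul_ne_zero {S S' : Set Q} {u v : RA Q} (hu : u ∈ NN S) (hv : v ∈ NN S') (hu0 : u ≠ 0)
    (hv0 : v ≠ 0) : u * v ≠ 0 := by
  apply ne_zero_of_aug
  rw [aug_mul]
  exact (mul_pos (aug_pos hu hu0) (aug_pos hv hv0)).ne'

theorem add_ne_zero {S S' : Set Q} {u v : RA Q} (hu : u ∈ NN S) (hv : v ∈ NN S') (hu0 : u ≠ 0) :
    u + v ≠ 0 := by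
  apply ne_zero_of_aug
  rw [aug_add]
  exact (add_pos_of_pos_of_nonneg (aug_pos hu hu0) (aug_nonneg hv)).ne'

theorem split {S : Set Q} {u : RA Q} (hu : u ∈ NN S) (h0 : u ≠ 0) :
    ∃ g ∈ S, ∃ c : ℝ, 0 < c ∧ ∃ u' ∈ NN S, u = sg g c + u' := by
  classical
  have hne : u.coeff ≠ 0 := by
    intro h
    exact h0 (MonoidAlgebra.coeff_eq_zero.mp h)
  obtain ⟨g, hg⟩ := Finsupp.ne_iff.mp hne
  refine ⟨g, hu.2 g hg, u.coeff g, lt_of_le_of_ne (hu.1 g) (Ne.symm hg), u.erase g, ?_, ?_⟩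
  · constructor
    · intro k
      rw [MonoidAlgebra.coeff_erase, Finsupp.erase_apply]
      split_ifs
      · exact le_refl _
      · exact hu.1 k
    · intro k hk
      rw [MonoidAlgebra.coeff_erase, Finsupp.erase_apply] at hk
      split_ifs at hk with h1
      · exact absurd rfl hk
      · exact hu.2 k hk
  · exact (MonoidAlgebra.single_add_erase g u).symm

end NN

/-- A cone invariant under a subgroup. -/
structure IsCone (H : Subgroup Q) (K : Set C) : Prop where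
  zero : (0 : C) ∈ K
  add : ∀ a ∈ K, ∀ b ∈ K, a + b ∈ K
  smul : ∀ g ∈ H, ∀ c : ℝ, 0 ≤ c → ∀ k ∈ K, sg g c • k ∈ K

theorem IsCone.mono {H H' : Subgroup Q} {K : Set C} (hK : IsCone H K) (h : H' ≤ H) :
    IsCone H' K :=
  ⟨hK.zero, hK.add, fun g hg => hK.smul g (h hg)⟩

theorem IsCone.nn {H : Subgroup Q} {K : Set C} (hK : IsCone H K) {u : RA Q}
    (hu : u ∈ NN (H : Set Q)) {k : C} (hk : k ∈ K) : u • k ∈ K := by
  refine NN.induct (p := fun u => u • k ∈ K) ?_ ?_ ?_ hu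
  · simpa using hK.zero
  · intro a b ha hb
    rw [add_smul]
    exact hK.add _ ha _ hb
  · intro g hg c hc
    exact hK.smul g hg c hc k hk

theorem sg_inv_smul (g : Q) {c : ℝ} (hc : c ≠ 0) (m : C) :
    sg g⁻¹ c⁻¹ • (sg g c • m) = m := by
  rw [smul_smul, MonoidAlgebra.single_mul_single, inv_mul_cancel, inv_mul_cancel₀ hc]
  change (1 : RA Q) • m = m
  exact one_smul _ _

theorem IsCone.neg_mem {H : Subgroup Q} {K : Set C} (hK : IsCone H K) {u : RA Q}
    (hu : u ∈ NN (H : Set Q)) (hu0 : u ≠ 0) {k : C} (hk : k ∈ K) (h : -(u • k) ∈ K) :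
    -k ∈ K := by
  obtain ⟨g, hg, c, hc, u', hu', rfl⟩ := NN.split hu hu0
  have h1 : -(sg g c • k) ∈ K := by
    have := hK.add _ h _ (hK.nn hu' hk)
    have h2 : -((sg g c + u') • k) + u' • k = -(sg g c • k) := by
      rw [add_smul]; abel
    rwa [h2] at this
  have h3 := hK.smul g⁻¹ (H.inv_mem hg) c⁻¹ (inv_nonneg.mpr hc.le) _ h1
  rwa [smul_neg, sg_inv_smul g hc.ne'] at h3

/-- A cone maximal with respect to avoiding the negative of an element. -/
structure MaxCone (H : Subgroup Q) (K : Set C) (y : C) : Prop where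
  cone : IsCone H K
  mem : y ∈ K
  nmem : -y ∉ K
  max : ∀ m, m ∉ K → ∃ k ∈ K, ∃ u ∈ NN (H : Set Q), -y = k + u • m

theorem adjoin_cone {H : Subgroup Q} {K : Set C} (hK : IsCone H K) (m : C) :
    IsCone H {x : C | ∃ k ∈ K, ∃ u ∈ NN (H : Set Q), x = k + u • m} := by
  refine ⟨⟨0, hK.zero, 0, NN.zero _, by simp⟩, ?_, ?_⟩
  · rintro a ⟨k, hk, u, hu, rfl⟩ b ⟨k', hk', u', hu', rfl⟩
    refine ⟨k + k', hK.add _ hk _ hk', u + u', NN.add hu hu', ?_⟩
    rw [add_smul]; abel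
  · rintro g hg c hc a ⟨k, hk, u, hu, rfl⟩
    refine ⟨sg g c • k, hK.smul g hg c hc k hk, sg g c * u, NN.mulH (NN.sg_mem hg hc) hu, ?_⟩
    rw [smul_add, mul_smul]

theorem exists_maxCone {H : Subgroup Q} {K0 : Set C} (hK0 : IsCone H K0) {y : C} (hy : y ∈ K0)
    (hny : -y ∉ K0) : ∃ K : Set C, K0 ⊆ K ∧ MaxCone H K y := by
  obtain ⟨K, hK0K, hmax⟩ := zorn_subset_nonempty {K : Set C | IsCone H K ∧ -y ∉ K} (by
    intro c hc hchain hne
    refine ⟨⋃₀ c, ⟨⟨?_, ?_, ?_⟩, ?_⟩, fun s hs => Set.subset_sUnion_of_mem hs⟩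
    · obtain ⟨s, hs⟩ := hne
      exact ⟨s, hs, (hc hs).1.zero⟩
    · rintro a ⟨s, hs, has⟩ b ⟨s', hs', hbs'⟩
      rcases hchain.total hs hs' with h | h
      · exact ⟨s', hs', (hc hs').1.add _ (h has) _ hbs'⟩
      · exact ⟨s, hs, (hc hs).1.add _ has _ (h hbs')⟩
    · rintro g hg c' hc' a ⟨s, hs, has⟩
      exact ⟨s, hs, (hc hs).1.smul g hg c' hc' a has⟩
    · rintro ⟨s, hs, has⟩
      exact (hc hs).2 has) K0 ⟨hK0, hny⟩
  refine ⟨K, hK0K, hmax.prop.1, hK0K hy, hmax.prop.2, ?_⟩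
  intro m hm
  by_contra hcon
  set K' : Set C := {x : C | ∃ k ∈ K, ∃ u ∈ NN (H : Set Q), x = k + u • m} with hK'
  have hK'c : IsCone H K' := adjoin_cone hmax.prop.1 m
  have hsub : K ⊆ K' := fun k hk => ⟨k, hk, 0, NN.zero _, by simp⟩
  have hmK' : m ∈ K' := ⟨0, hmax.prop.1.zero, 1, NN.one_mem H.one_mem, by simp⟩
  have : K' ⊆ K := hmax.le_of_ge ⟨hK'c, hcon⟩ hsub
  exact hm (this hmK')

/-- The Ore condition for nonnegative elements supported in a subgroup. -/
def OreRel (H : Subgroup Q) : Prop :=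
  ∀ p ∈ NN (H : Set Q), ∀ r ∈ NN (H : Set Q), p ≠ 0 → r ≠ 0 →
    ∃ s ∈ NN (H : Set Q), ∃ s' ∈ NN (H : Set Q), s ≠ 0 ∧ s' ≠ 0 ∧ s * p = s' * r

theorem MaxCone.total {H : Subgroup Q} {K : Set C} {y : C} (hK : MaxCone H K y)
    (hO : OreRel H) (m : C) : m ∈ K ∨ -m ∈ K := by
  by_contra hcon
  obtain ⟨h1, h2⟩ := not_or.mp hcon
  obtain ⟨k, hk, u, hu, hku⟩ := hK.max m h1
  obtain ⟨k', hk', u', hu', hku'⟩ := hK.max (-m) h2
  have hu0 : u ≠ 0 := by
    rintro rfl
    apply hK.nmem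
    rw [hku, zero_smul, add_zero]
    exact hk
  have hu'0 : u' ≠ 0 := by
    rintro rfl
    apply hK.nmem
    rw [hku', zero_smul, add_zero]
    exact hk'
  obtain ⟨s, hs, s', hs', hs0, hs'0, hss⟩ := hO u hu u' hu' hu0 hu'0
  have h3 : -((s + s') • y) ∈ K := by
    have e1 : -((s + s') • y) = s • k + s' • k' := by
      have e2 : s • (-y) = s • k + (s * u) • m := by
        rw [hku, smul_add, smul_smul]
      have e3 : s' • (-y) = s' • k' - (s' * u') • m := by
        rw [hku', smul_add, smul_smul, smul_neg, sub_eq_add_neg]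
      rw [← smul_neg, add_smul, e2, e3, hss]
      abel
    rw [e1]
    exact hK.cone.add _ (hK.cone.nn hs hk) _ (hK.cone.nn hs' hk')
  exact hK.nmem (hK.cone.neg_mem (NN.add hs hs') (NN.add_ne_zero hs hs' hs0) hK.mem h3)

theorem MaxCone.dom {H : Subgroup Q} {K : Set C} {y : C} (hK : MaxCone H K y) {k : C}
    (hk : -k ∉ K) : ∃ u ∈ NN (H : Set Q), u • k - y ∈ K := by
  obtain ⟨k', hk', u, hu, h⟩ := hK.max (-k) hk
  refine ⟨u, hu, ?_⟩
  have : u • k - y = k' := by
    rw [sub_eq_add_neg, h, smul_neg]; abel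
  rw [this]
  exact hk'

/-- Everything is bounded by multiples of an element. -/
def Bd (H : Subgroup Q) (K : Set C) (y : C) : Prop :=
  ∀ m : C, ∃ u ∈ NN (H : Set Q), u • y - m ∈ K

/-- First alternative: a direction in which the element is not dominated. -/
def AltT (H : Subgroup Q) (K : Set C) (y : C) : Prop :=
  ∃ τ : Q → ℝ, (∀ g ∈ H, ∀ h ∈ H, τ (g * h) = τ g + τ h) ∧ (∃ g ∈ H, τ g ≠ 0) ∧
    ∀ u ∈ NN {g : Q | g ∈ H ∧ τ g < 0}, u • y - y ∉ K

/-- Second alternative: the order comes from a functional which is an eigenvector. -/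
def AltA (H : Subgroup Q) (K : Set C) (y : C) : Prop :=
  ∃ φ : C → ℝ, (∀ a b, φ (a + b) = φ a + φ b) ∧ (∀ (c : ℝ) (m : C), φ (sg (1 : Q) c • m) = c * φ m) ∧
    (∀ m, m ∈ K ↔ 0 ≤ φ m) ∧ 0 < φ y ∧
    ∀ g ∈ H, ∃ c : ℝ, 0 < c ∧ ∀ m, φ (sg g 1 • m) = c * φ m

end Pool.Agent.MP_22afe8_al
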