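import Mathlib
import Pool.Agent.Work.MP_22afe8_al.Basic

set_option autoImplicit false

namespace Pool.Agent.MP_22afe8_al

variable {Q : Type} [Group Q] {C : Type} [AddCommGroup C] [Module (RA Q) C]

theorem NN.bot_eq {u : RA Q} (hu : u ∈ NN ((⊥ : Subgroup Q) : Set Q)) :
    u = sg 1 (NN.aug u) ∧ 0 ≤ NN.aug u := by
  refine ⟨?_, NN.aug_nonneg hu⟩
  refine NN.induct (p := fun u => u = sg 1 (NN.aug u)) ?_ ?_ ?_ hu
  · rw [NN.aug_zero]; simp
  · intro a b ha hb
    rw [NN.aug_add, sg, MonoidAlgebra.single_add]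
    exact congrArg₂ (fun x y => x + y) ha hb
  · intro g hg c _
    have : g = 1 := by simpa using hg
    rw [NN.aug_sg, this]

theorem OreRel.bot : OreRel (⊥ : Subgroup Q) := by
  intro p hp r hr hp0 hr0
  obtain ⟨ep, _⟩ := NN.bot_eq hp
  obtain ⟨er, _⟩ := NN.bot_eq hr
  refine ⟨r, hr, p, hp, hr0, hp0, ?_⟩
  rw [ep, er, MonoidAlgebra.single_mul_single, MonoidAlgebra.single_mul_single, mul_comm (NN.aug r)]

theorem sg_one_add (a b : ℝ) (m : C) : sg (1 : Q) (a + b) • m = sg (1 : Q) a • m + sg (1 : Q) b • m := by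
  rw [sg, MonoidAlgebra.single_add, add_smul]

theorem sg_one_sub (a b : ℝ) (m : C) : sg (1 : Q) (a - b) • m = sg (1 : Q) a • m - sg (1 : Q) b • m := by
  have := sg_one_add (Q := Q) (a - b) b m
  rw [sub_add_cancel] at this
  rw [this]; abel

theorem sg_one_mul (a b : ℝ) (m : C) : sg (1 : Q) (a * b) • m = sg (1 : Q) a • sg (1 : Q) b • m := by
  rw [smul_smul, MonoidAlgebra.single_mul_single, one_mul]

theorem sg_one_one (m : C) : sg (1 : Q) 1 • m = m := by
  change (1 : RA Q) • m = m
  exact one_smul _ _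

theorem sg_one_zero (m : C) : sg (1 : Q) 0 • m = 0 := by
  rw [sg, MonoidAlgebra.single_zero, zero_smul]

theorem sg_one_neg (a : ℝ) (m : C) : sg (1 : Q) (-a) • m = -(sg (1 : Q) a • m) := by
  have := sg_one_sub (Q := Q) 0 a m
  rw [sg_one_zero, zero_sub, zero_sub] at this
  exact this

theorem IsCone.scal {H : Subgroup Q} {K : Set C} (hK : IsCone H K) {c : ℝ} (hc : 0 ≤ c) {k : C}
    (hk : k ∈ K) : sg (1 : Q) c • k ∈ K :=
  hK.smul 1 H.one_mem c hc k hk

theorem MaxCone.scal_neg {H : Subgroup Q} {K : Set C} {y : C} (hK : MaxCone H K y) {a : ℝ}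
    (h : sg (1 : Q) a • y ∈ K) : 0 ≤ a := by
  by_contra hcon
  push Not at hcon
  apply hK.nmem
  have := hK.cone.scal (c := (-a)⁻¹) (inv_nonneg.mpr (by linarith)) h
  rw [← sg_one_mul] at this
  have e : (-a)⁻¹ * a = -1 := by
    rw [inv_neg, neg_mul, inv_mul_cancel₀ hcon.ne]
  rw [e, sg_one_neg, sg_one_one] at this
  exact this

theorem str_bot {K : Set C} {y : C} (hK : MaxCone (⊥ : Subgroup Q) K y)
    (hb : Bd (⊥ : Subgroup Q) K y) : AltA (⊥ : Subgroup Q) K y := by
  classical
  have htot : ∀ m : C, m ∈ K ∨ -m ∈ K := hK.total OreRel.bot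
  set S : C → Set ℝ := fun m => {a : ℝ | sg (1 : Q) a • y - m ∈ K} with hS
  have hup : ∀ m a b, a ∈ S m → a ≤ b → b ∈ S m := by
    intro m a b ha hab
    have h1 := hK.cone.scal (c := b - a) (by linarith) hK.mem
    have h2 := hK.cone.add _ ha _ h1
    have e : sg (1 : Q) a • y - m + sg (1 : Q) (b - a) • y = sg (1 : Q) b • y - m := by
      rw [sg_one_sub]; abel
    rw [e] at h2
    exact h2
  have hne : ∀ m, (S m).Nonempty := by
    intro m
    obtain ⟨u, hu, h⟩ := hb m
    obtain ⟨e, _⟩ := NN.bot_eq hu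
    rw [e] at h
    exact ⟨_, h⟩
  have hadd : ∀ m m' a b, a ∈ S m → b ∈ S m' → a + b ∈ S (m + m') := by
    intro m m' a b ha hb'
    have h2 := hK.cone.add _ ha _ hb'
    have e : sg (1 : Q) a • y - m + (sg (1 : Q) b • y - m') = sg (1 : Q) (a + b) • y - (m + m') := by
      rw [sg_one_add]; abel
    rw [e] at h2
    exact h2
  have hz : ∀ a ∈ S 0, 0 ≤ a := by
    intro a ha
    have : sg (1 : Q) a • y ∈ K := by simpa [hS] using ha
    exact hK.scal_neg this
  have hbdd : ∀ m, BddBelow (S m) := by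
    intro m
    obtain ⟨b, hb'⟩ := hne (-m)
    refine ⟨-b, ?_⟩
    intro a ha
    have := hadd _ _ _ _ ha hb'
    rw [add_neg_cancel] at this
    have := hz _ this
    linarith
  set φ : C → ℝ := fun m => sInf (S m) with hφ
  have hφle : ∀ m a, a ∈ S m → φ m ≤ a := fun m a ha => csInf_le (hbdd m) ha
  have hφlt : ∀ m a, φ m < a → a ∈ S m := by
    intro m a ha
    obtain ⟨b, hb', hba⟩ := (csInf_lt_iff (hbdd m) (hne m)).mp ha
    exact hup m b a hb' hba.le
  have hφneg : ∀ m a, a < φ m → -a ∈ S (-m) := by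
    intro m a ha
    have h1 : a ∉ S m := fun h => absurd (hφle m a h) (not_le.mpr ha)
    rcases htot (sg (1 : Q) a • y - m) with h | h
    · exact absurd h h1
    · change sg (1 : Q) (-a) • y - (-m) ∈ K
      rw [sg_one_neg]
      have e : -(sg (1 : Q) a • y - m) = -(sg (1 : Q) a • y) - -m := by abel
      rw [e] at h
      exact h
  have hsub : ∀ m m', φ (m + m') ≤ φ m + φ m' := by
    intro m m'
    apply le_of_forall_pos_le_add
    intro ε hε
    have h1 := hφlt m (φ m + ε / 2) (by linarith)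
    have h2 := hφlt m' (φ m' + ε / 2) (by linarith)
    have := hφle _ _ (hadd _ _ _ _ h1 h2)
    linarith
  have hneg : ∀ m, φ (-m) ≤ -φ m := by
    intro m
    apply le_of_forall_pos_le_add
    intro ε hε
    have := hφle _ _ (hφneg m (φ m - ε) (by linarith))
    linarith
  have hzero : 0 ≤ φ 0 := le_csInf (hne 0) hz
  have hneg' : ∀ m, φ (-m) = -φ m := by
    intro m
    apply le_antisymm (hneg m)
    have := hsub m (-m)
    rw [add_neg_cancel] at this
    linarith
  have haddφ : ∀ m m', φ (m + m') = φ m + φ m' := by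
    intro m m'
    apply le_antisymm (hsub m m')
    have := hsub (m + m') (-m')
    rw [add_neg_cancel_right, hneg'] at this
    linarith
  have hKφ : ∀ m, m ∈ K ↔ 0 ≤ φ m := by
    intro m
    constructor
    · intro hm
      by_contra hcon
      push Not at hcon
      obtain ⟨a, ha, ha0⟩ := (csInf_lt_iff (hbdd m) (hne m)).mp hcon
      have h2 := hK.cone.add _ ha _ hm
      rw [sub_add_cancel] at h2
      exact absurd (hK.scal_neg h2) (not_le.mpr ha0)
    · intro hm
      by_contra hcon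
      rw [← neg_neg m] at hcon
      obtain ⟨u, hu, h⟩ := hK.dom hcon
      obtain ⟨e, hpos⟩ := NN.bot_eq hu
      rw [e] at h
      have hne0 : NN.aug u ≠ 0 := by
        intro h0
        rw [h0, sg_one_zero, zero_sub] at h
        exact hK.nmem h
      have hpos' : 0 < NN.aug u := lt_of_le_of_ne hpos (Ne.symm hne0)
      have h3 := hK.cone.scal (c := (NN.aug u)⁻¹) (inv_nonneg.mpr hpos) h
      rw [smul_sub, ← sg_one_mul, inv_mul_cancel₀ hne0, sg_one_one] at h3
      have h4 : -(NN.aug u)⁻¹ ∈ S m := by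
        change sg (1 : Q) (-(NN.aug u)⁻¹) • y - m ∈ K
        rw [sg_one_neg]
        have e2 : -m - sg (1 : Q) (NN.aug u)⁻¹ • y = -(sg (1 : Q) (NN.aug u)⁻¹ • y) - m := by abel
        rw [e2] at h3
        exact h3
      have h5 := hφle _ _ h4
      have h6 : 0 < (NN.aug u)⁻¹ := inv_pos.mpr hpos'
      linarith
  have hφy : 0 < φ y := by
    by_contra hcon
    push Not at hcon
    apply hK.nmem
    rw [hKφ, hneg']
    linarith
  have hscpos : ∀ (c : ℝ), 0 < c → ∀ m, φ (sg (1 : Q) c • m) ≤ c * φ m := by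
    intro c hc m
    apply le_of_forall_pos_le_add
    intro ε hε
    have h1 := hφlt m (φ m + ε / c) (by have := div_pos hε hc; linarith)
    have h2 := hK.cone.scal hc.le h1
    have h3 : c * (φ m + ε / c) ∈ S (sg (1 : Q) c • m) := by
      change sg (1 : Q) (c * (φ m + ε / c)) • y - sg (1 : Q) c • m ∈ K
      rw [sg_one_mul, ← smul_sub]
      exact h2
    have h4 := hφle _ _ h3
    have e : c * (φ m + ε / c) = c * φ m + ε := by field_simp
    linarith
  have hscpos' : ∀ (c : ℝ), 0 < c → ∀ m, φ (sg (1 : Q) c • m) = c * φ m := by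
    intro c hc m
    apply le_antisymm (hscpos c hc m)
    have h1 := hscpos c⁻¹ (inv_pos.mpr hc) (sg (1 : Q) c • m)
    rw [← sg_one_mul, inv_mul_cancel₀ hc.ne', sg_one_one] at h1
    have h2 := mul_le_mul_of_nonneg_left h1 hc.le
    rw [← mul_assoc, mul_inv_cancel₀ hc.ne', one_mul] at h2
    exact h2
  have hφ0 : φ 0 = 0 := by
    have := haddφ 0 0
    rw [add_zero] at this
    linarith
  refine ⟨φ, haddφ, ?_, hKφ, hφy, ?_⟩
  · intro c m
    rcases lt_trichotomy c 0 with h | h | h
    · have h1 := hscpos' (-c) (by linarith) m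
      rw [sg_one_neg, hneg'] at h1
      linarith
    · rw [h, sg_one_zero, hφ0, zero_mul]
    · exact hscpos' c h m
  · intro g hg
    have : g = 1 := by simpa using hg
    refine ⟨1, one_pos, ?_⟩
    intro m
    rw [this, sg_one_one, one_mul]

end Pool.Agent.MP_22afe8_al
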