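import Mathlib
import Pool.Agent.Work.MP_22afe8_al.StrBot

set_option autoImplicit false

namespace Pool.Agent.MP_22afe8_al

variable {Q : Type} [Group Q] {C : Type} [AddCommGroup C] [Module (RA Q) C]

theorem NN.exists_dir {S : ℕ → Set Q} (hS : Monotone S) {u : RA Q} (hu : u ∈ NN (⋃ k, S k)) :
    ∃ k, u ∈ NN (S k) := by
  refine NN.induct (p := fun u => ∃ k, u ∈ NN (S k)) ⟨0, NN.zero _⟩ ?_ ?_ hu
  · rintro a b ⟨k, hk⟩ ⟨k', hk'⟩
    exact ⟨max k k', NN.add (NN.mono (hS (le_max_left _ _)) hk)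
      (NN.mono (hS (le_max_right _ _)) hk')⟩
  · intro g hg c hc
    obtain ⟨k, hk⟩ := Set.mem_iUnion.mp hg
    exact ⟨k, NN.sg_mem hk hc⟩

/-- Elements `n t^i` with `i` in a range. -/
def Co (N : Subgroup Q) (t : Q) (a b : ℤ) : Set Q := {g | ∃ n ∈ N, ∃ i : ℤ, a ≤ i ∧ i ≤ b ∧ g = n * t ^ i}

/-- The data of one cyclic step. -/
structure StepData (N H : Subgroup Q) (t : Q) : Prop where
  le : N ≤ H
  mem : t ∈ H
  n1 : ∀ n ∈ N, t * n * t⁻¹ ∈ N
  n2 : ∀ n ∈ N, t⁻¹ * n * t ∈ N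
  gen : ∀ h ∈ H, ∃ n ∈ N, ∃ i : ℤ, h = n * t ^ i

namespace StepData

variable {N H : Subgroup Q} {t : Q}

theorem zmem (h : StepData N H t) (i : ℤ) : t ^ i ∈ H := H.zpow_mem h.mem i

theorem conj_nat (h : StepData N H t) (j : ℕ) : ∀ n ∈ N, t ^ j * n * (t ^ j)⁻¹ ∈ N := by
  induction j with
  | zero => intro n hn; simpa using hn
  | succ j ih =>
    intro n hn
    have := h.n1 _ (ih n hn)
    have e : t * (t ^ j * n * (t ^ j)⁻¹) * t⁻¹ = t ^ (j + 1) * n * (t ^ (j + 1))⁻¹ := by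
      rw [pow_succ', mul_inv_rev]; group
    rwa [e] at this

theorem conj_nat' (h : StepData N H t) (j : ℕ) : ∀ n ∈ N, (t ^ j)⁻¹ * n * t ^ j ∈ N := by
  induction j with
  | zero => intro n hn; simpa using hn
  | succ j ih =>
    intro n hn
    have := h.n2 _ (ih n hn)
    have e : t⁻¹ * ((t ^ j)⁻¹ * n * t ^ j) * t = (t ^ (j + 1))⁻¹ * n * t ^ (j + 1) := by
      rw [pow_succ, mul_inv_rev]; group
    rwa [e] at this

theorem conj (h : StepData N H t) (j : ℤ) : ∀ n ∈ N, t ^ j * n * t ^ (-j) ∈ N := by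
  intro n hn
  obtain ⟨k, rfl | rfl⟩ := j.eq_nat_or_neg
  · simpa using h.conj_nat k n hn
  · simpa using h.conj_nat' k n hn

end StepData

/-- Translates of the base element. -/
noncomputable def yj (t : Q) (y : C) (j : ℤ) : C := sg (t ^ j) 1 • y

theorem sg_smul_sg (g h : Q) (a b : ℝ) (m : C) : sg g a • sg h b • m = sg (g * h) (a * b) • m := by
  rw [smul_smul, MonoidAlgebra.single_mul_single]

theorem yj_smul (t : Q) (y : C) (j i : ℤ) (n : Q) (c : ℝ) :
    sg (t ^ j) 1 • sg (n * t ^ i) c • y = sg (t ^ j * n * t ^ (-j)) c • yj t y (j + i) := by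
  unfold yj
  rw [sg_smul_sg, sg_smul_sg, one_mul, mul_one]
  congr 2
  rw [zpow_add]; group

theorem yj_mem {N H : Subgroup Q} {t : Q} (hS : StepData N H t) {K : Set C} (hK : IsCone H K)
    {y : C} (hy : y ∈ K) (j : ℤ) : yj t y j ∈ K :=
  hK.smul _ (hS.zmem j) 1 zero_le_one y hy

/-- The window sum. -/
noncomputable def win (t : Q) (y : C) (k : ℕ) : C := ∑ j ∈ Finset.Icc (1 : ℤ) k, yj t y j

theorem cone_sum {H : Subgroup Q} {K : Set C} (hK : IsCone H K) {ι : Type*} (s : Finset ι)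
    (f : ι → C) (h : ∀ i ∈ s, f i ∈ K) : ∑ i ∈ s, f i ∈ K := by
  classical
  induction s using Finset.induction_on with
  | empty => simpa using hK.zero
  | insert a s ha ih =>
    rw [Finset.sum_insert ha]
    exact hK.add _ (h a (Finset.mem_insert_self a s)) _
      (ih fun i hi => h i (Finset.mem_insert_of_mem hi))

theorem win_sub {N H : Subgroup Q} {t : Q} (hS : StepData N H t) {K : Set C} (hK : IsCone H K)
    {y : C} (hy : y ∈ K) (k : ℕ) (j : ℤ) (h1 : 1 ≤ j) (h2 : j ≤ k) : win t y k - yj t y j ∈ K := by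
  classical
  have hmem : j ∈ Finset.Icc (1 : ℤ) k := Finset.mem_Icc.mpr ⟨h1, h2⟩
  have e : win t y k - yj t y j = ∑ i ∈ (Finset.Icc (1 : ℤ) k).erase j, yj t y i := by
    unfold win
    rw [← Finset.add_sum_erase _ _ hmem]; abel
  rw [e]
  exact cone_sum hK _ _ fun i _ => yj_mem hS hK hy i

theorem win_neg {N H : Subgroup Q} {t : Q} (hS : StepData N H t) {K : Set C} {y : C}
    (hK : MaxCone H K y) (k : ℕ) (hk : 1 ≤ k) : -(win t y k) ∉ K := by
  intro h
  have h1 := hK.cone.add _ h _ (win_sub hS hK.cone hK.mem k 1 le_rfl (by exact_mod_cast hk))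
  have e : -win t y k + (win t y k - yj t y 1) = -(sg (t ^ (1 : ℤ)) 1 • y) := by
    unfold yj; abel
  rw [e] at h1
  have h2 : sg (t ^ (1 : ℤ)) (1 : ℝ) ∈ NN (H : Set Q) := NN.sg_mem (hS.zmem 1) zero_le_one
  exact hK.nmem (hK.cone.neg_mem h2 (by simp [MonoidAlgebra.single_eq_zero]) hK.mem h1)

theorem win_mem {N H : Subgroup Q} {t : Q} (hS : StepData N H t) {K : Set C} (hK : IsCone H K)
    {y : C} (hy : y ∈ K) (k : ℕ) : win t y k ∈ K :=
  cone_sum hK _ _ fun i _ => yj_mem hS hK hy i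

/-- Dominated elements. -/
def Dom (N : Subgroup Q) (K : Set C) (Y : C) : Set C := {v | ∃ u ∈ NN (N : Set Q), u • Y - v ∈ K}

theorem Dom.add {N : Subgroup Q} {K : Set C} {Y : C} (hK : IsCone N K) {v w : C}
    (hv : v ∈ Dom N K Y) (hw : w ∈ Dom N K Y) : v + w ∈ Dom N K Y := by
  obtain ⟨u, hu, h⟩ := hv
  obtain ⟨u', hu', h'⟩ := hw
  refine ⟨u + u', NN.add hu hu', ?_⟩
  have e : (u + u') • Y - (v + w) = (u • Y - v) + (u' • Y - w) := by
    rw [add_smul]; abel
  rw [e]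
  exact hK.add _ h _ h'

theorem Dom.smul {N : Subgroup Q} {K : Set C} {Y : C} (hK : IsCone N K) {v : C}
    (hv : v ∈ Dom N K Y) {n : Q} (hn : n ∈ N) {c : ℝ} (hc : 0 ≤ c) : sg n c • v ∈ Dom N K Y := by
  obtain ⟨u, hu, h⟩ := hv
  refine ⟨sg n c * u, NN.mulH (NN.sg_mem hn hc) hu, ?_⟩
  rw [mul_smul, ← smul_sub]
  exact hK.smul n hn c hc _ h

theorem Dom.zero {N : Subgroup Q} {K : Set C} {Y : C} (hK : IsCone N K) : (0 : C) ∈ Dom N K Y :=
  ⟨0, NN.zero _, by simpa using hK.zero⟩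

theorem Dom.le {N : Subgroup Q} {K : Set C} {Y : C} (hK : IsCone N K) {v w : C}
    (hv : v ∈ Dom N K Y) (h : v - w ∈ K) : w ∈ Dom N K Y := by
  obtain ⟨u, hu, h'⟩ := hv
  refine ⟨u, hu, ?_⟩
  have e : u • Y - w = (u • Y - v) + (v - w) := by abel
  rw [e]
  exact hK.add _ h' _ h

theorem window {N H : Subgroup Q} {t : Q} (hS : StepData N H t) {K : Set C} {y : C}
    (hK : MaxCone H K y) (hb : Bd H K y) (k : ℕ) (hk : 1 ≤ k) (um up : RA Q)
    (hum : um ∈ NN (Co N t (-k) (-1))) (hup : up ∈ NN (Co N t 1 k))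
    (hm : um • y - y ∈ K) (hp : up • y - y ∈ K) :
    ∃ T : Set C, K ⊆ T ∧ MaxCone N T (win t y k) ∧ Bd N T (win t y k) := by
  classical
  have hKN : IsCone N K := hK.cone.mono hS.le
  obtain ⟨T, hKT, hT⟩ := exists_maxCone hKN (win_mem hS hK.cone hK.mem k) (win_neg hS hK k hk)
  refine ⟨T, hKT, hT, ?_⟩
  set Y := win t y k with hY
  have hwin : ∀ j : ℤ, 1 ≤ j → j ≤ k → yj t y j ∈ Dom N K Y := by
    intro j h1 h2
    refine ⟨1, NN.one_mem N.one_mem, ?_⟩
    rw [one_smul]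
    exact win_sub hS hK.cone hK.mem k j h1 h2
  have hstep : ∀ (a b : ℤ) (u : RA Q), u ∈ NN (Co N t a b) → u • y - y ∈ K → ∀ j : ℤ,
      (∀ i : ℤ, a ≤ i → i ≤ b → yj t y (j + i) ∈ Dom N K Y) → yj t y j ∈ Dom N K Y := by
    intro a b u hu huy j hj
    have h1 : sg (t ^ j) 1 • (u • y) ∈ Dom N K Y := by
      refine NN.induct (p := fun u => sg (t ^ j) 1 • (u • y) ∈ Dom N K Y) ?_ ?_ ?_ hu
      · rw [zero_smul, smul_zero]
        exact Dom.zero hKN
      · intro v w hv hw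
        rw [add_smul, smul_add]
        exact Dom.add hKN hv hw
      · rintro g ⟨n, hn, i, hi1, hi2, rfl⟩ c hc
        rw [yj_smul]
        exact Dom.smul hKN (hj i hi1 hi2) (hS.conj j n hn) hc
    refine Dom.le hKN h1 ?_
    unfold yj
    rw [← smul_sub]
    exact hK.cone.smul _ (hS.zmem j) 1 zero_le_one _ huy
  have hW : ∀ j : ℤ, ∀ i : ℤ, 1 ≤ i → i ≤ k → yj t y (j + i) ∈ Dom N K Y := by
    intro j
    induction j using Int.induction_on with
    | zero =>
      intro i h1 h2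
      rw [zero_add]
      exact hwin i h1 h2
    | succ j ih =>
      intro i h1 h2
      by_cases hi : i + 1 ≤ k
      · have := ih (i + 1) (by omega) hi
        have e : (j : ℤ) + 1 + i = j + (i + 1) := by ring
        rw [e]; exact this
      · have hik : i = k := by omega
        refine hstep _ _ um hum hm _ ?_
        intro i' h1' h2'
        have e : (j : ℤ) + 1 + i + i' = j + (i + 1 + i') := by ring
        rw [e]
        exact ih _ (by omega) (by omega)
    | pred j ih =>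
      intro i h1 h2
      by_cases hi : 2 ≤ i
      · have := ih (i - 1) (by omega) (by omega)
        have e : -(j : ℤ) - 1 + i = -j + (i - 1) := by ring
        rw [e]; exact this
      · have hi1 : i = 1 := by omega
        subst hi1
        refine hstep _ _ up hup hp _ ?_
        intro i' h1' h2'
        have e : -(j : ℤ) - 1 + 1 + i' = -j + i' := by ring
        rw [e]
        exact ih _ h1' h2'
  have hall : ∀ j : ℤ, yj t y j ∈ Dom N K Y := by
    intro j
    have := hW (j - 1) 1 le_rfl (by exact_mod_cast hk)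
    rwa [sub_add_cancel] at this
  intro m
  obtain ⟨u, hu, hum'⟩ := hb m
  have h1 : u • y ∈ Dom N K Y := by
    refine NN.induct (p := fun u => u • y ∈ Dom N K Y) ?_ ?_ ?_ hu
    · rw [zero_smul]; exact Dom.zero hKN
    · intro v w hv hw
      rw [add_smul]
      exact Dom.add hKN hv hw
    · intro g hg c hc
      obtain ⟨n, hn, i, rfl⟩ := hS.gen g hg
      have e : sg (n * t ^ i) c • y = sg n c • yj t y i := by
        unfold yj
        rw [sg_smul_sg, mul_one]
      rw [e]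
      exact Dom.smul hKN (hall i) hn hc
  obtain ⟨w, hw, hwm⟩ := Dom.le hKN h1 hum'
  exact ⟨w, hw, hKT hwm⟩

/-- Exponent function when the cyclic quotient is infinite. -/
theorem StepData.exists_f {N H : Subgroup Q} {t : Q} (hS : StepData N H t)
    (hinf : ∀ m : ℕ, 1 ≤ m → t ^ m ∉ N) : ∃ f : Q → ℤ, (∀ n ∈ N, ∀ i : ℤ, f (n * t ^ i) = i) ∧
      (∀ h ∈ H, h * t ^ (-f h) ∈ N) ∧ (∀ g ∈ H, ∀ h ∈ H, f (g * h) = f g + f h) := by
  classical
  have hz : ∀ i : ℤ, t ^ i ∈ N → i = 0 := by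
    intro i hi
    by_contra h0
    obtain ⟨k, rfl | rfl⟩ := i.eq_nat_or_neg
    · exact hinf k (by omega) (by simpa using hi)
    · refine hinf k (by omega) ?_
      have := N.inv_mem hi
      simpa using this
  have huniq : ∀ n ∈ N, ∀ n' ∈ N, ∀ i j : ℤ, n * t ^ i = n' * t ^ j → i = j := by
    intro n hn n' hn' i j h
    have h1 : t ^ (i - j) = n⁻¹ * n' := by
      rw [zpow_sub]
      have : t ^ i = n⁻¹ * (n' * t ^ j) := by rw [← h]; group
      rw [this]; group
    have := hz (i - j) (by rw [h1]; exact N.mul_mem (N.inv_mem hn) hn')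
    omega
  let f : Q → ℤ := fun h => if hh : ∃ n ∈ N, ∃ i : ℤ, h = n * t ^ i then hh.choose_spec.2.choose else 0
  have hf : ∀ n ∈ N, ∀ i : ℤ, f (n * t ^ i) = i := by
    intro n hn i
    have hh : ∃ n' ∈ N, ∃ i' : ℤ, n * t ^ i = n' * t ^ i' := ⟨n, hn, i, rfl⟩
    have e : f (n * t ^ i) = hh.choose_spec.2.choose := dif_pos hh
    rw [e]
    exact (huniq n hn _ hh.choose_spec.1 i _ hh.choose_spec.2.choose_spec).symm
  refine ⟨f, hf, ?_, ?_⟩
  · intro h hh
    obtain ⟨n, hn, i, rfl⟩ := hS.gen h hh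
    rw [hf n hn i, mul_assoc, ← zpow_add, add_neg_cancel, zpow_zero, mul_one]
    exact hn
  · intro g hg h hh
    obtain ⟨n, hn, i, rfl⟩ := hS.gen g hg
    obtain ⟨n', hn', j, rfl⟩ := hS.gen h hh
    rw [hf n hn i, hf n' hn' j]
    have e : n * t ^ i * (n' * t ^ j) = (n * (t ^ i * n' * t ^ (-i))) * t ^ (i + j) := by
      rw [zpow_add]; group
    rw [e]
    exact hf _ (N.mul_mem hn (hS.conj i n' hn')) _

end Pool.Agent.MP_22afe8_al
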