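import Mathlib
import Pool.Agent.Work.MP_22afe8_al.StrA
import Pool.Agent.Work.MP_22afe8_al.M1

set_option autoImplicit false

namespace Pool.Agent.MP_22afe8_al

open Filter

variable {Q : Type} [Group Q] {C : Type} [AddCommGroup C] [Module (RA Q) C]

theorem add_one' {N : Subgroup Q} {τ : Q → ℝ} (h : ∀ g ∈ N, ∀ k ∈ N, τ (g * k) = τ g + τ k) :
    τ 1 = 0 := by
  have := h 1 N.one_mem 1 N.one_mem
  rw [one_mul] at this
  linarith

theorem add_inv' {N : Subgroup Q} {τ : Q → ℝ} (h : ∀ g ∈ N, ∀ k ∈ N, τ (g * k) = τ g + τ k)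
    {g : Q} (hg : g ∈ N) : τ g⁻¹ = -τ g := by
  have := h g hg g⁻¹ (N.inv_mem hg)
  rw [mul_inv_cancel, add_one' h] at this
  linarith

theorem add_pow' {N : Subgroup Q} {τ : Q → ℝ} (h : ∀ g ∈ N, ∀ k ∈ N, τ (g * k) = τ g + τ k)
    {g : Q} (hg : g ∈ N) (n : ℕ) : τ (g ^ n) = n * τ g := by
  induction n with
  | zero => rw [pow_zero, add_one' h]; simp
  | succ n ih =>
    rw [pow_succ, h _ (N.pow_mem hg n) _ hg, ih]
    push_cast; ring

theorem add_zpow' {N : Subgroup Q} {τ : Q → ℝ} (h : ∀ g ∈ N, ∀ k ∈ N, τ (g * k) = τ g + τ k)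
    {g : Q} (hg : g ∈ N) (i : ℤ) : τ (g ^ i) = i * τ g := by
  obtain ⟨k, rfl | rfl⟩ := i.eq_nat_or_neg
  · rw [zpow_natCast, add_pow' h hg]; push_cast; rfl
  · rw [zpow_neg, zpow_natCast, add_inv' h (N.pow_mem hg k), add_pow' h hg]; push_cast; ring

/-- Invariance under conjugation by integer powers. -/
theorem StepData.inv_zpow {N H : Subgroup Q} {t : Q} (hS : StepData N H t) {lam : Q → ℝ}
    (hl : ∀ n ∈ N, lam (t * n * t⁻¹) = lam n) (j : ℤ) :
    ∀ n ∈ N, lam (t ^ j * n * t ^ (-j)) = lam n := by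
  have hpos : ∀ k : ℕ, ∀ n ∈ N, lam (t ^ k * n * (t ^ k)⁻¹) = lam n := by
    intro k
    induction k with
    | zero => intro n _; simp
    | succ k ih =>
      intro n hn
      have e : t ^ (k + 1) * n * (t ^ (k + 1))⁻¹ = t * (t ^ k * n * (t ^ k)⁻¹) * t⁻¹ := by
        rw [pow_succ', mul_inv_rev]; group
      rw [e, hl _ (hS.conj_nat k n hn), ih n hn]
  intro n hn
  obtain ⟨k, rfl | rfl⟩ := j.eq_nat_or_neg
  · have := hpos k n hn
    simpa using this
  · have h1 := hS.conj_nat' k n hn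
    have h2 := hpos k _ h1
    have e : t ^ k * ((t ^ k)⁻¹ * n * t ^ k) * (t ^ k)⁻¹ = n := by group
    rw [e] at h2
    have e2 : t ^ (-(k : ℤ)) * n * t ^ (-(-(k : ℤ))) = (t ^ k)⁻¹ * n * t ^ k := by simp
    rw [e2]
    exact h2.symm

/-- Data used in the growth argument. -/
structure GrowthData (N H : Subgroup Q) (t : Q) (f : Q → ℤ) (K : Set C) (y : C)
    (F : ℤ → Prop) (a : ℤ → ℝ) (l : ℕ) (lam : Q → ℝ) : Prop where
  lam_add : ∀ g ∈ N, ∀ h ∈ N, lam (g * h) = lam g + lam h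
  lam_ne : ∃ n ∈ N, lam n ≠ 0
  lam_inv : ∀ n ∈ N, lam (t * n * t⁻¹) = lam n
  start : ∃ j, F j
  rel : ∀ u ∈ NN (H : Set Q), u • y - y ∈ K → ∃ e : Q → ℤ → ℝ,
    (∀ g ∈ H, Tendsto (fun j : ℤ => e g j / (j : ℝ) ^ l) atTop (nhds (lam (g * t ^ (-f g))))) ∧
    ∀ j, F j → ∃ g ∈ u.coeff.support, F (j + f g) ∧ a j ≤ a (j + f g) + e g j

theorem rel_bound {H : Subgroup Q} (L : Q → ℝ) (e : Q → ℤ → ℝ) (l : ℕ)
    (he : ∀ g ∈ H, Tendsto (fun j : ℤ => e g j / (j : ℝ) ^ l) atTop (nhds (L g)))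
    (S : Finset Q) (hS : ∀ g ∈ S, g ∈ H) (ε : ℝ) (hε : 0 < ε) :
    ∃ j1 : ℤ, 1 ≤ j1 ∧ ∀ j, j1 ≤ j → ∀ g ∈ S, e g j ≤ (L g + ε) * (j : ℝ) ^ l := by
  have h1 : ∀ᶠ j : ℤ in atTop, ∀ g ∈ S, e g j / (j : ℝ) ^ l < L g + ε := by
    rw [Filter.eventually_all_finset]
    intro g hg
    exact (he g (hS g hg)).eventually_lt_const (by linarith)
  obtain ⟨j1, hj1⟩ := Filter.eventually_atTop.mp h1
  refine ⟨max j1 1, le_max_right _ _, ?_⟩
  intro j hj g hg
  have hj0 : (0 : ℝ) < (j : ℝ) := by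
    have : 1 ≤ j := le_trans (le_max_right _ _) hj
    exact_mod_cast this
  have := hj1 j (le_trans (le_max_left _ _) hj) g hg
  rw [div_lt_iff₀ (pow_pos hj0 l)] at this
  exact this.le

theorem Co_sub {N H : Subgroup Q} {t : Q} (hS : StepData N H t) (a b : ℤ) :
    Co N t a b ⊆ (H : Set Q) := by
  rintro g ⟨n, hn, i, _, _, rfl⟩
  exact H.mul_mem (hS.le hn) (hS.zmem i)

theorem exists_ub {ι : Type*} (S : Finset ι) (f : ι → ℝ) : ∃ c : ℝ, ∀ i ∈ S, f i ≤ c := by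
  classical
  obtain ⟨c, hc⟩ := Finset.exists_le (S.image f)
  exact ⟨c, fun i hi => hc _ (Finset.mem_image_of_mem f hi)⟩

theorem exists_pos_lb {ι : Type*} (S : Finset ι) (f : ι → ℝ) (h : ∀ i ∈ S, 0 < f i) :
    ∃ c : ℝ, 0 < c ∧ ∀ i ∈ S, c ≤ f i := by
  classical
  induction S using Finset.induction_on with
  | empty => exact ⟨1, one_pos, by simp⟩
  | insert a s ha ih =>
    obtain ⟨c, hc, hc'⟩ := ih fun i hi => h i (Finset.mem_insert_of_mem hi)
    refine ⟨min c (f a), lt_min hc (h a (Finset.mem_insert_self a s)), ?_⟩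
    intro i hi
    rcases Finset.mem_insert.mp hi with rfl | hi
    · exact min_le_right _ _
    · exact le_trans (min_le_left _ _) (hc' i hi)

theorem growth_final {N H : Subgroup Q} {t : Q} (hS : StepData N H t) (f : Q → ℤ)
    (hf1 : ∀ n ∈ N, ∀ i : ℤ, f (n * t ^ i) = i) (hf2 : ∀ h ∈ H, h * t ^ (-f h) ∈ N)
    (hf3 : ∀ g ∈ H, ∀ h ∈ H, f (g * h) = f g + f h) {K : Set C} {y : C}
    (F : ℤ → Prop) (a : ℤ → ℝ) (l : ℕ) (lam : Q → ℝ)
    (hG : GrowthData N H t f K y F a l lam) (k : ℕ) (um up : RA Q)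
    (hum : um ∈ NN (Co N t (-k) (-1))) (hup : up ∈ NN (Co N t 1 k))
    (hm : um • y - y ∈ K) (hp : up • y - y ∈ K) : AltT H K y := by
  classical
  obtain ⟨e1, he1, hr1⟩ := hG.rel up (NN.mono (Co_sub hS _ _) hup) hp
  obtain ⟨e2, he2, hr2⟩ := hG.rel um (NN.mono (Co_sub hS _ _) hum) hm
  have hsup1 : ∀ g ∈ up.coeff.support, g ∈ Co N t 1 k := fun g hg =>
    hup.2 g (Finsupp.mem_support_iff.mp hg)
  have hsup2 : ∀ g ∈ um.coeff.support, g ∈ Co N t (-k) (-1) := fun g hg =>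
    hum.2 g (Finsupp.mem_support_iff.mp hg)
  have hfCo : ∀ a b : ℤ, ∀ g ∈ Co N t a b, a ≤ f g ∧ f g ≤ b := by
    rintro a b g ⟨n, hn, i, h1, h2, rfl⟩
    rw [hf1 n hn i]
    exact ⟨h1, h2⟩
  have hstart : ∀ j0 : ℤ, ∃ j, j0 ≤ j ∧ F j := by
    obtain ⟨js, hjs⟩ := hG.start
    have : ∀ m : ℕ, ∃ j, js + m ≤ j ∧ F j := by
      intro m
      induction m with
      | zero => exact ⟨js, by simp, hjs⟩
      | succ m ih =>
        obtain ⟨j, hj, hFj⟩ := ih
        obtain ⟨g, hg, hFg, _⟩ := hr1 j hFj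
        have := (hfCo _ _ g (hsup1 g hg)).1
        exact ⟨j + f g, by push_cast; omega, hFg⟩
    intro j0
    obtain ⟨j, hj, hFj⟩ := this (j0 - js).toNat
    refine ⟨j, ?_, hFj⟩
    have := Int.self_le_toNat (j0 - js)
    omega
  obtain ⟨j1, hj1, hb1⟩ := rel_bound _ e1 l he1 up.coeff.support
    (fun g hg => Co_sub hS _ _ (hsup1 g hg)) 1 one_pos
  obtain ⟨j2, hj2, hb2⟩ := rel_bound _ e2 l he2 um.coeff.support
    (fun g hg => Co_sub hS _ _ (hsup2 g hg)) 1 one_pos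
  obtain ⟨c1, hc1⟩ := exists_ub up.coeff.support fun g => lam (g * t ^ (-f g)) + 1
  obtain ⟨c2, hc2⟩ := exists_ub um.coeff.support fun g => lam (g * t ^ (-f g)) + 1
  have hpw : ∀ j : ℤ, 1 ≤ j → (0 : ℝ) ≤ (j : ℝ) ^ l := by
    intro j hj
    apply pow_nonneg
    have : (0 : ℤ) ≤ j := by omega
    exact_mod_cast this
  obtain ⟨A, hA1, hA2⟩ := growth_exists l F a k (max c1 c2) (max j1 j2)
    (le_trans hj1 (le_max_left _ _)) (hstart _) (by
      intro j hj hFj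
      obtain ⟨g, hg, hFg, hle⟩ := hr1 j hFj
      have h1 := hfCo _ _ g (hsup1 g hg)
      refine ⟨f g, h1.1, h1.2, hFg, le_trans hle ?_⟩
      have h2 := hb1 j (le_trans (le_max_left _ _) hj) g hg
      have h3 := hc1 g hg
      have h4 := hpw j (by have := le_max_left j1 j2; omega)
      have h5 := mul_le_mul_of_nonneg_right (le_trans h3 (le_max_left c1 c2)) h4
      linarith) (by
      intro j hj hFj
      obtain ⟨g, hg, hFg, hle⟩ := hr2 j hFj
      have h1 := hfCo _ _ g (hsup2 g hg)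
      refine ⟨-f g, by omega, by omega, ?_, ?_⟩
      · rw [sub_neg_eq_add]; exact hFg
      · rw [sub_neg_eq_add]
        refine le_trans hle ?_
        have h2 := hb2 j (le_trans (le_max_right _ _) hj) g hg
        have h3 := hc2 g hg
        have h4 := hpw j (by have := le_max_left j1 j2; omega)
        have h5 := mul_le_mul_of_nonneg_right (le_trans h3 (le_max_right c1 c2)) h4
        linarith)
  refine ⟨fun g => lam (g * t ^ (-f g)) + f g * ((l + 1) * A), ?_, ?_, ?_⟩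
  · intro g hg h hh
    have e : g * h * t ^ (-f (g * h)) =
        (g * t ^ (-f g)) * (t ^ (f g) * (h * t ^ (-f h)) * t ^ (-f g)) := by
      rw [hf3 g hg h hh, neg_add, zpow_add]
      group
    simp only []
    rw [e, hG.lam_add _ (hf2 g hg) _ (hS.conj _ _ (hf2 h hh)),
      hS.inv_zpow hG.lam_inv _ _ (hf2 h hh), hf3 g hg h hh]
    push_cast
    ring
  · obtain ⟨n, hn, hne⟩ := hG.lam_ne
    refine ⟨n, hS.le hn, ?_⟩
    have h0 : f n = 0 := by
      have := hf1 n hn 0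
      rwa [zpow_zero, mul_one] at this
    simp only [h0]
    simpa using hne
  · intro u hu huy
    have huH : u ∈ NN (H : Set Q) := NN.mono (fun g hg => hg.1) hu
    obtain ⟨e, he, hr⟩ := hG.rel u huH huy
    obtain ⟨δ, hδ, hδ'⟩ := exists_pos_lb u.coeff.support
      (fun g => -(lam (g * t ^ (-f g)) + f g * ((l + 1) * A))) (fun g hg => by
        have := (hu.2 g (Finsupp.mem_support_iff.mp hg)).2
        linarith)
    obtain ⟨j3, hj3, hb3⟩ := rel_bound _ e l he u.coeff.support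
      (fun g hg => (hu.2 g (Finsupp.mem_support_iff.mp hg)).1) (δ / 2) (by linarith)
    obtain ⟨c, hc⟩ := exists_ub u.coeff.support fun g => ((|f g| : ℤ) : ℝ)
    refine growth_contra l F a A hA1 hA2 ⌈c⌉₊ (δ / 2) (by linarith) j3 ?_
    intro j hj hFj
    obtain ⟨g, hg, hFg, hle⟩ := hr j hFj
    refine ⟨f g, ?_, hFg, ?_⟩
    · have h1 := le_trans (hc g hg) (Nat.le_ceil c)
      exact_mod_cast h1
    · refine le_trans hle ?_
      have h2 := hb3 j hj g hg
      have h3 := hδ' g hg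
      have h4 := hpw j (by omega)
      have h5 : (lam (g * t ^ (-f g)) + δ / 2) ≤ -(δ / 2 + (l + 1) * A * f g) := by
        have e1 : (f g : ℝ) * ((l + 1) * A) = (l + 1) * A * f g := by ring
        rw [e1] at h3
        linarith
      have h6 := mul_le_mul_of_nonneg_right h5 h4
      linarith

end Pool.Agent.MP_22afe8_al
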