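import Mathlib
import Pool.Agent.Work.MP_22afe8_al.StrB

set_option autoImplicit false

namespace Pool.Agent.MP_22afe8_al

open Filter

variable {Q : Type} [Group Q] {C : Type} [AddCommGroup C] [Module (RA Q) C]

/-- Bounded with exponent at most `s`. -/
def BS (N : Subgroup Q) (ρ : Q → ℝ) (T : Set C) (Y v : C) (s : ℝ) : Prop :=
  ∃ u ∈ NN {g : Q | g ∈ N ∧ ρ g ≤ s}, u • Y - v ∈ T

section BSlemmas

variable {N : Subgroup Q} {ρ : Q → ℝ} {T : Set C} {Y : C}

theorem BS.mono {v : C} {s s' : ℝ} (h : BS N ρ T Y v s) (hs : s ≤ s') : BS N ρ T Y v s' := by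
  obtain ⟨u, hu, hv⟩ := h
  exact ⟨u, NN.mono (S := {g : Q | g ∈ N ∧ ρ g ≤ s}) (S' := {g : Q | g ∈ N ∧ ρ g ≤ s'})
    (fun g hg => ⟨hg.1, le_trans hg.2 hs⟩) hu, hv⟩

theorem BS.add (hT : IsCone N T) {v w : C} {s : ℝ} (h : BS N ρ T Y v s) (h' : BS N ρ T Y w s) :
    BS N ρ T Y (v + w) s := by
  obtain ⟨u, hu, hv⟩ := h
  obtain ⟨u', hu', hw⟩ := h'
  refine ⟨u + u', NN.add hu hu', ?_⟩
  have e : (u + u') • Y - (v + w) = (u • Y - v) + (u' • Y - w) := by
    rw [add_smul]; abel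
  rw [e]
  exact hT.add _ hv _ hw

theorem BS.zero (hT : IsCone N T) (s : ℝ) : BS N ρ T Y 0 s :=
  ⟨0, NN.zero _, by simpa using hT.zero⟩

theorem BS.sum (hT : IsCone N T) {ι : Type*} (S : Finset ι) (v : ι → C) (s : ℝ)
    (h : ∀ i ∈ S, BS N ρ T Y (v i) s) : BS N ρ T Y (∑ i ∈ S, v i) s := by
  classical
  induction S using Finset.induction_on with
  | empty => simpa using BS.zero hT s
  | insert a S ha ih =>
    rw [Finset.sum_insert ha]
    exact BS.add hT (h a (Finset.mem_insert_self a S))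
      (ih fun i hi => h i (Finset.mem_insert_of_mem hi))

theorem BS.smul (hT : IsCone N T) (hρ : ∀ g ∈ N, ∀ h ∈ N, ρ (g * h) = ρ g + ρ h) {v : C} {s : ℝ}
    (h : BS N ρ T Y v s) {n : Q} (hn : n ∈ N) {c : ℝ} (hc : 0 ≤ c) :
    BS N ρ T Y (sg n c • v) (s + ρ n) := by
  obtain ⟨u, hu, hv⟩ := h
  refine ⟨sg n c * u, ?_, ?_⟩
  · refine NN.mul (S := {n}) (NN.sg_mem (Set.mem_singleton n) hc) hu ?_
    rintro g hg k ⟨hk, hk'⟩
    have hgn : g = n := hg
    subst hgn
    refine ⟨N.mul_mem hn hk, ?_⟩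
    rw [hρ _ hn _ hk]
    linarith
  · rw [mul_smul, ← smul_sub]
    exact hT.smul n hn c hc _ hv

theorem BS.le (hT : IsCone N T) {v w : C} {s : ℝ} (h : BS N ρ T Y v s) (hvw : v - w ∈ T) :
    BS N ρ T Y w s := by
  obtain ⟨u, hu, hv⟩ := h
  refine ⟨u, hu, ?_⟩
  have e : u • Y - w = (u • Y - v) + (v - w) := by abel
  rw [e]
  exact hT.add _ hv _ hvw

theorem BS.exists (hb : Bd N T Y) (v : C) : ∃ s, BS N ρ T Y v s := by
  obtain ⟨u, hu, hv⟩ := hb v
  obtain ⟨c, hc⟩ := exists_ub u.coeff.support ρ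
  exact ⟨c, u, ⟨hu.1, fun g hg => ⟨hu.2 g hg, hc g (Finsupp.mem_support_iff.mpr hg)⟩⟩, hv⟩

theorem BS.not_base (hno : ∀ u ∈ NN {g : Q | g ∈ N ∧ ρ g < 0}, u • Y - Y ∉ T) {s : ℝ}
    (hs : s < 0) : ¬ BS N ρ T Y Y s := by
  rintro ⟨u, hu, hv⟩
  exact hno u (NN.mono (S := {g : Q | g ∈ N ∧ ρ g ≤ s}) (S' := {g : Q | g ∈ N ∧ ρ g < 0})
    (fun g hg => ⟨hg.1, lt_of_le_of_lt hg.2 hs⟩) hu) hv

end BSlemmas

theorem exists_common {ι : Type*} (S : Finset ι) (P : ι → ℝ → Prop) (A : ℝ)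
    (hP : ∀ i s s', P i s → s ≤ s' → P i s') (h : ∀ i ∈ S, ∃ s, s < A ∧ P i s) :
    ∃ s, s < A ∧ ∀ i ∈ S, P i s := by
  classical
  induction S using Finset.induction_on with
  | empty => exact ⟨A - 1, by linarith, by simp⟩
  | insert a S ha ih =>
    obtain ⟨s, hs, hs'⟩ := ih fun i hi => h i (Finset.mem_insert_of_mem hi)
    obtain ⟨r, hr, hr'⟩ := h a (Finset.mem_insert_self a S)
    refine ⟨max s r, max_lt hs hr, ?_⟩
    intro i hi
    rcases Finset.mem_insert.mp hi with rfl | hi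
    · exact hP _ _ _ hr' (le_max_right _ _)
    · exact hP _ _ _ (hs' i hi) (le_max_left _ _)

/-- Expansion of a translate of `u • y`. -/
theorem shift_expand {t : Q} (f : Q → ℤ)
    (y : C) (u : RA Q) (j : ℤ) :
    sg (t ^ j) 1 • (u • y) = ∑ g ∈ u.coeff.support,
      sg (t ^ j * (g * t ^ (-f g)) * t ^ (-j)) (u.coeff g) • yj t y (j + f g) := by
  conv_lhs => rw [NN.decomp u]
  rw [Finset.sum_smul, Finset.smul_sum]
  refine Finset.sum_congr rfl ?_
  intro g _
  have := yj_smul t y j (f g) (g * t ^ (-f g)) (u.coeff g)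
  rw [← this]
  congr 3
  group

theorem growth_of_altT {N H : Subgroup Q} {t : Q} (hQ : Group.IsNilpotent Q)
    (hS : StepData N H t) (f : Q → ℤ) (hf2 : ∀ h ∈ H, h * t ^ (-f h) ∈ N)
    {K T : Set C} {y : C} (hK : IsCone H K) (hKT : K ⊆ T) (k : ℕ)
    (hT : MaxCone N T (win t y k)) (hb : Bd N T (win t y k)) (hA : AltT N T (win t y k)) :
    ∃ (F : ℤ → Prop) (a : ℤ → ℝ) (l : ℕ) (lam : Q → ℝ), GrowthData N H t f K y F a l lam := by
  classical
  obtain ⟨ρ, hρ, hne, hno⟩ := hA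
  obtain ⟨l, lam, hl1, hl2, hl3, hl4, _⟩ := poly_growth hQ N t hS.n1 hS.n2 ρ hρ hne
  set Y := win t y k with hY
  set B : C → ℝ → Prop := BS N ρ T Y with hB
  let F : ℤ → Prop := fun j => ∃ s, ¬ B (yj t y j) s
  let a : ℤ → ℝ := fun j => sInf {s : ℝ | B (yj t y j) s}
  have hbdd : ∀ j, F j → BddBelow {s : ℝ | B (yj t y j) s} := by
    rintro j ⟨s0, hs0⟩
    refine ⟨s0, ?_⟩
    intro s hs
    by_contra hcon
    push Not at hcon
    exact hs0 (BS.mono hs hcon.le)
  have hlt : ∀ j, F j → ∀ s, a j < s → B (yj t y j) s := by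
    intro j hj s hs
    obtain ⟨r, hr, hrs⟩ := (csInf_lt_iff (hbdd j hj) (BS.exists hb _)).mp hs
    exact BS.mono hr hrs.le
  have hgt : ∀ j, F j → ∀ s, s < a j → ¬ B (yj t y j) s := by
    intro j hj s hs h
    exact absurd (csInf_le (hbdd j hj) h) (not_le.mpr hs)
  refine ⟨F, a, l, lam, hl1, hl2, hl3, ?_, ?_⟩
  · by_contra hcon
    push Not at hcon
    have h1 : ∀ j, ∀ s, B (yj t y j) s := by
      intro j s
      by_contra h
      exact hcon j ⟨s, h⟩
    exact BS.not_base hno (s := -1) (by norm_num) (BS.sum hT.cone _ _ _ fun j _ => h1 j (-1))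
  · intro u hu huy
    refine ⟨fun g j => ρ (t ^ j * (g * t ^ (-f g)) * t ^ (-j)), fun g hg => hl4 _ (hf2 g hg), ?_⟩
    intro j hj
    by_contra hcon
    push Not at hcon
    obtain ⟨s, hs, hs'⟩ := exists_common u.coeff.support
      (fun g s => B (sg (t ^ j * (g * t ^ (-f g)) * t ^ (-j)) (u.coeff g) • yj t y (j + f g)) s)
      (a j) (fun g s s' h h' => BS.mono h h') (by
        intro g hg
        have hgH : g ∈ H := hu.2 g (Finsupp.mem_support_iff.mp hg)
        have hn := hS.conj j _ (hf2 g hgH)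
        by_cases hF : F (j + f g)
        · have h1 := hcon g hg hF
          set c := ρ (t ^ j * (g * t ^ (-f g)) * t ^ (-j)) with hc
          refine ⟨(a (j + f g) + (a j - c)) / 2 + c, by linarith, ?_⟩
          exact BS.smul hT.cone hρ (hlt _ hF _ (by linarith)) hn (hu.1 g)
        · have h1 : ∀ s, B (yj t y (j + f g)) s := by
            intro s
            by_contra h
            exact hF ⟨s, h⟩
          set c := ρ (t ^ j * (g * t ^ (-f g)) * t ^ (-j)) with hc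
          refine ⟨(a j - 1 - c) + c, by linarith, ?_⟩
          exact BS.smul hT.cone hρ (h1 _) hn (hu.1 g))
    apply hgt j hj s hs
    have h2 := BS.sum hT.cone _ _ _ hs'
    rw [← shift_expand f y u j] at h2
    refine BS.le hT.cone h2 ?_
    unfold yj
    rw [← smul_sub]
    exact hKT (hK.smul _ (hS.zmem j) 1 zero_le_one _ huy)

/-- The eigenvalue of a group element. -/
noncomputable def chi (φ : C → ℝ) (Y : C) (g : Q) : ℝ := φ (sg g 1 • Y) / φ Y

/-- The conclusion of the second alternative, in convenient form. -/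
structure Eig (N : Subgroup Q) (T : Set C) (Y : C) (φ : C → ℝ) : Prop where
  add : ∀ a b, φ (a + b) = φ a + φ b
  scal : ∀ (c : ℝ) (m : C), φ (sg (1 : Q) c • m) = c * φ m
  mem : ∀ m, m ∈ T ↔ 0 ≤ φ m
  pos : 0 < φ Y
  chi_pos : ∀ g ∈ N, 0 < chi φ Y g
  chi_eq : ∀ g ∈ N, ∀ m, φ (sg g 1 • m) = chi φ Y g * φ m

theorem AltA.eig {N : Subgroup Q} {T : Set C} {Y : C} (h : AltA N T Y) : ∃ φ, Eig N T Y φ := by
  obtain ⟨φ, h1, h2, h3, h4, h5⟩ := h
  have key : ∀ g ∈ N, 0 < chi φ Y g ∧ ∀ m, φ (sg g 1 • m) = chi φ Y g * φ m := by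
    intro g hg
    obtain ⟨c, hc, hm⟩ := h5 g hg
    have : chi φ Y g = c := by
      unfold chi
      rw [hm Y]
      field_simp
    rw [this]
    exact ⟨hc, hm⟩
  exact ⟨φ, h1, h2, h3, h4, fun g hg => (key g hg).1, fun g hg => (key g hg).2⟩

theorem Eig.smul {N : Subgroup Q} {T : Set C} {Y : C} {φ : C → ℝ} (h : Eig N T Y φ) {g : Q}
    (hg : g ∈ N) (c : ℝ) (m : C) : φ (sg g c • m) = c * chi φ Y g * φ m := by
  have e : sg g c • m = sg (1 : Q) c • sg g 1 • m := by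
    rw [sg_smul_sg, one_mul, mul_one]
  rw [e, h.scal, h.chi_eq g hg]
  ring

theorem Eig.chi_mul {N : Subgroup Q} {T : Set C} {Y : C} {φ : C → ℝ} (h : Eig N T Y φ) {g k : Q}
    (hg : g ∈ N) (hk : k ∈ N) : chi φ Y (g * k) = chi φ Y g * chi φ Y k := by
  have e : sg (g * k) 1 • Y = sg g 1 • sg k 1 • Y := by
    rw [sg_smul_sg, one_mul]
  have h1 : chi φ Y (g * k) * φ Y = chi φ Y g * chi φ Y k * φ Y := by
    rw [← h.chi_eq _ (N.mul_mem hg hk), e, h.chi_eq g hg, h.chi_eq k hk]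
    ring
  exact mul_right_cancel₀ h.pos.ne' h1

theorem Eig.sum {N : Subgroup Q} {T : Set C} {Y : C} {φ : C → ℝ} (h : Eig N T Y φ) {ι : Type*}
    (S : Finset ι) (v : ι → C) : φ (∑ i ∈ S, v i) = ∑ i ∈ S, φ (v i) :=
  map_sum (AddMonoidHom.mk' φ h.add) v S

theorem Eig.sub {N : Subgroup Q} {T : Set C} {Y : C} {φ : C → ℝ} (h : Eig N T Y φ) (a b : C) :
    φ (a - b) = φ a - φ b :=
  map_sub (AddMonoidHom.mk' φ h.add) a b

theorem Eig.neg {N : Subgroup Q} {T : Set C} {Y : C} {φ : C → ℝ} (h : Eig N T Y φ) (a : C) :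
    φ (-a) = -φ a :=
  map_neg (AddMonoidHom.mk' φ h.add) a

theorem Eig.log_add {N : Subgroup Q} {T : Set C} {Y : C} {φ : C → ℝ} (h : Eig N T Y φ) :
    ∀ g ∈ N, ∀ k ∈ N, Real.log (chi φ Y (g * k)) = Real.log (chi φ Y g) + Real.log (chi φ Y k) := by
  intro g hg k hk
  rw [h.chi_mul hg hk, Real.log_mul (h.chi_pos g hg).ne' (h.chi_pos k hk).ne']

theorem growth_of_eig {N H : Subgroup Q} {t : Q} (hQ : Group.IsNilpotent Q)
    (hS : StepData N H t) (f : Q → ℤ) (hf2 : ∀ h ∈ H, h * t ^ (-f h) ∈ N)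
    {K T : Set C} {y : C} (hK : MaxCone H K y) (hKT : K ⊆ T) (k : ℕ)
    (φ : C → ℝ) (hφ : Eig N T (win t y k) φ)
    (hninv : ∃ n ∈ N, chi φ (win t y k) (t * n * t⁻¹) ≠ chi φ (win t y k) n) :
    ∃ (F : ℤ → Prop) (a : ℤ → ℝ) (l : ℕ) (lam : Q → ℝ), GrowthData N H t f K y F a l lam := by
  classical
  set Y := win t y k with hY
  set ρ : Q → ℝ := fun g => Real.log (chi φ Y g) with hρdef
  have hρ : ∀ g ∈ N, ∀ h ∈ N, ρ (g * h) = ρ g + ρ h := hφ.log_add
  obtain ⟨n0, hn0, hn0'⟩ := hninv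
  have hn1 := hS.n1 n0 hn0
  have hnρ : ρ (t * n0 * t⁻¹) ≠ ρ n0 := by
    intro h
    exact hn0' (Real.log_injOn_pos (Set.mem_Ioi.mpr (hφ.chi_pos _ hn1))
      (Set.mem_Ioi.mpr (hφ.chi_pos _ hn0)) h)
  have hne : ∃ n ∈ N, ρ n ≠ 0 := by
    by_contra hcon
    push Not at hcon
    exact hnρ ((hcon _ hn1).trans (hcon _ hn0).symm)
  obtain ⟨l, lam, hl1, hl2, hl3, hl4, hl5⟩ := poly_growth hQ N t hS.n1 hS.n2 ρ hρ hne
  have hl0 : l ≠ 0 := fun h => hnρ (hl5 h n0 hn0)
  refine ⟨fun j => 0 < φ (yj t y j), fun j => Real.log (φ (yj t y j)), l, lam, hl1, hl2, hl3,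
    ?_, ?_⟩
  · have h1 : 0 < ∑ j ∈ Finset.Icc (1 : ℤ) k, φ (yj t y j) := by
      have := hφ.pos
      rw [hY, win, hφ.sum] at this
      exact this
    obtain ⟨j, _, hj⟩ := Finset.exists_lt_of_sum_lt (s := Finset.Icc (1 : ℤ) k) (f := fun _ => (0 : ℝ))
      (g := fun j => φ (yj t y j)) (by simpa using h1)
    exact ⟨j, hj⟩
  · intro u hu huy
    have hu0 : u ≠ 0 := by
      rintro rfl
      rw [zero_smul, zero_sub] at huy
      exact hK.nmem huy
    have hne' : u.coeff.support.Nonempty := by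
      rw [Finset.nonempty_iff_ne_empty]
      intro h
      exact hu0 (MonoidAlgebra.coeff_eq_zero.mp (Finsupp.support_eq_empty.mp h))
    have hcard : (0 : ℝ) < u.coeff.support.card := by
      exact_mod_cast Finset.card_pos.mpr hne'
    refine ⟨fun g j => ρ (t ^ j * (g * t ^ (-f g)) * t ^ (-j)) +
      Real.log (u.coeff.support.card * u.coeff g), ?_, ?_⟩
    · intro g hg
      have h1 := hl4 _ (hf2 g hg)
      have h2 : Tendsto (fun j : ℤ => Real.log (u.coeff.support.card * u.coeff g) / (j : ℝ) ^ l)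
          atTop (nhds 0) := by
        apply Tendsto.div_atTop tendsto_const_nhds
        exact (tendsto_pow_atTop hl0).comp tendsto_intCast_atTop_atTop
      have h3 := h1.add h2
      rw [add_zero] at h3
      refine h3.congr ?_
      intro j
      rw [← add_div]
    · intro j hj
      have h1 : φ (yj t y j) ≤ φ (sg (t ^ j) 1 • (u • y)) := by
        have : sg (t ^ j) 1 • (u • y) - yj t y j ∈ T := by
          unfold yj
          rw [← smul_sub]
          exact hKT (hK.cone.smul _ (hS.zmem j) 1 zero_le_one _ huy)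
        have := (hφ.mem _).mp this
        rw [hφ.sub] at this
        linarith
      rw [shift_expand f y u j, hφ.sum] at h1
      have h2 : ∑ g ∈ u.coeff.support, φ (yj t y j) / u.coeff.support.card ≤
          ∑ g ∈ u.coeff.support, φ (sg (t ^ j * (g * t ^ (-f g)) * t ^ (-j)) (u.coeff g) •
            yj t y (j + f g)) := by
        rw [Finset.sum_const, nsmul_eq_mul, mul_div_cancel₀ _ hcard.ne']
        exact h1
      obtain ⟨g, hg, hle⟩ := Finset.exists_le_of_sum_le hne' h2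
      have hgH : g ∈ H := hu.2 g (Finsupp.mem_support_iff.mp hg)
      have hn := hS.conj j _ (hf2 g hgH)
      rw [hφ.smul hn] at hle
      have hug : 0 < u.coeff g := lt_of_le_of_ne (hu.1 g) (Ne.symm (Finsupp.mem_support_iff.mp hg))
      have hχ := hφ.chi_pos _ hn
      set X := chi φ Y (t ^ j * (g * t ^ (-f g)) * t ^ (-j)) with hX
      have hpos1 : 0 < φ (yj t y j) / u.coeff.support.card := div_pos hj hcard
      have hpos2 : 0 < φ (yj t y (j + f g)) := by
        by_contra hcon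
        push Not at hcon
        have : u.coeff g * X * φ (yj t y (j + f g)) ≤ 0 :=
          mul_nonpos_of_nonneg_of_nonpos (mul_pos hug hχ).le hcon
        linarith
      refine ⟨g, hg, hpos2, ?_⟩
      rw [div_le_iff₀ hcard] at hle
      have h3 := Real.log_le_log hj hle
      have h4 : u.coeff g * X * φ (yj t y (j + f g)) * u.coeff.support.card =
          φ (yj t y (j + f g)) * (X * (u.coeff.support.card * u.coeff g)) := by ring
      rw [h4, Real.log_mul hpos2.ne' (mul_pos hχ (mul_pos hcard hug)).ne',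
        Real.log_mul hχ.ne' (mul_pos hcard hug).ne'] at h3
      exact h3

end Pool.Agent.MP_22afe8_al
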