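import Mathlib
import Pool.Agent.Work.MP_22afe8_al.StrC

set_option autoImplicit false

namespace Pool.Agent.MP_22afe8_al

variable {Q : Type} [Group Q] {C : Type} [AddCommGroup C] [Module (RA Q) C]

/-- Shifted functional. -/
noncomputable def phs (t : Q) (φ : C → ℝ) (i : ℤ) (m : C) : ℝ := φ (sg (t ^ i) 1 • m)

theorem phs_smul {N H : Subgroup Q} {t : Q} (hS : StepData N H t) {T : Set C} {Y : C} {φ : C → ℝ}
    (hφ : Eig N T Y φ) (hinv : ∀ n ∈ N, chi φ Y (t * n * t⁻¹) = chi φ Y n) {n : Q} (hn : n ∈ N)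
    (l i : ℤ) (c : ℝ) (m : C) :
    phs t φ i (sg (n * t ^ l) c • m) = c * chi φ Y n * phs t φ (i + l) m := by
  unfold phs
  have e : sg (t ^ i) 1 • sg (n * t ^ l) c • m =
      sg (t ^ i * n * t ^ (-i)) c • sg (t ^ (i + l)) 1 • m := by
    rw [sg_smul_sg, sg_smul_sg, one_mul, mul_one]
    congr 2
    rw [zpow_add]; group
  rw [e, hφ.smul (hS.conj i n hn), hS.inv_zpow hinv i n hn]

theorem phs_zero (t : Q) (φ : C → ℝ) (m : C) : phs t φ 0 m = φ m := by
  unfold phs
  rw [zpow_zero]
  rw [sg_one_one]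

theorem phs_add {N : Subgroup Q} {t : Q} {T : Set C} {Y : C} {φ : C → ℝ}
    (hφ : Eig N T Y φ) (i : ℤ) (a b : C) : phs t φ i (a + b) = phs t φ i a + phs t φ i b := by
  unfold phs
  rw [smul_add, hφ.add]

theorem phs_neg {N : Subgroup Q} {t : Q} {T : Set C} {Y : C} {φ : C → ℝ}
    (hφ : Eig N T Y φ) (i : ℤ) (a : C) : phs t φ i (-a) = -phs t φ i a := by
  unfold phs
  rw [smul_neg, hφ.neg]

theorem phs_sub {N : Subgroup Q} {t : Q} {T : Set C} {Y : C} {φ : C → ℝ}
    (hφ : Eig N T Y φ) (i : ℤ) (a b : C) : phs t φ i (a - b) = phs t φ i a - phs t φ i b := by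
  unfold phs
  rw [smul_sub, hφ.sub]

theorem phs_scal {N H : Subgroup Q} {t : Q} (hS : StepData N H t) {T : Set C} {Y : C} {φ : C → ℝ}
    (hφ : Eig N T Y φ) (i : ℤ) (c : ℝ) (m : C) :
    phs t φ i (sg (1 : Q) c • m) = c * phs t φ i m := by
  unfold phs
  have e : sg (t ^ i) 1 • sg (1 : Q) c • m = sg (1 : Q) c • sg (t ^ i) 1 • m := by
    rw [sg_smul_sg, sg_smul_sg, one_mul, mul_one, mul_one, one_mul]
  rw [e, hφ.scal]

theorem altA_of_inv {N H : Subgroup Q} {t : Q} (hS : StepData N H t) {K T : Set C} {y : C}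
    (hK : MaxCone H K y) (hKT : K ⊆ T) (k : ℕ) (φ : C → ℝ) (hφ : Eig N T (win t y k) φ)
    (hinv : ∀ n ∈ N, chi φ (win t y k) (t * n * t⁻¹) = chi φ (win t y k) n) : AltA H K y := by
  classical
  set Y := win t y k with hY
  have hsh : ∀ g ∈ H, ∃ x : ℝ, 0 < x ∧ ∃ l : ℤ, ∀ i c (m : C),
      phs t φ i (sg g c • m) = c * x * phs t φ (i + l) m := by
    intro g hg
    obtain ⟨n, hn, l, rfl⟩ := hS.gen g hg
    exact ⟨chi φ Y n, hφ.chi_pos n hn, l, fun i c m => phs_smul hS hφ hinv hn l i c m⟩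
  set K' : Set C := {m | ∀ i, 0 ≤ phs t φ i m} with hK'
  have hK'cone : IsCone H K' := by
    refine ⟨?_, ?_, ?_⟩
    · intro i
      unfold phs
      rw [smul_zero]
      have := hφ.sub (0 : C) 0
      rw [sub_zero, sub_self] at this
      rw [this]
    · intro a ha b hb i
      rw [phs_add hφ]
      exact add_nonneg (ha i) (hb i)
    · intro g hg c hc m hm i
      obtain ⟨x, hx, l, h⟩ := hsh g hg
      rw [h]
      exact mul_nonneg (mul_nonneg hc hx.le) (hm _)
  have hKK' : K ⊆ K' := by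
    intro m hm i
    exact (hφ.mem _).mp (hKT (hK.cone.smul _ (hS.zmem i) 1 zero_le_one _ hm))
  have hj0 : ∃ j, 0 < phs t φ j y := by
    have h1 : 0 < ∑ j ∈ Finset.Icc (1 : ℤ) k, φ (yj t y j) := by
      have := hφ.pos
      rw [hY, win, hφ.sum] at this
      exact this
    obtain ⟨j, _, hj⟩ := Finset.exists_lt_of_sum_lt (s := Finset.Icc (1 : ℤ) k) (f := fun _ => (0 : ℝ))
      (g := fun j => φ (yj t y j)) (by simpa using h1)
    exact ⟨j, hj⟩
  obtain ⟨j0, hj0⟩ := hj0
  have hny : -y ∉ K' := by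
    intro h
    have := h j0
    rw [phs_neg hφ] at this
    linarith
  have hK'K : K' ⊆ K := by
    intro m hm
    by_contra hcon
    obtain ⟨k', hk', u, hu, h⟩ := hK.max m hcon
    apply hny
    rw [h]
    exact hK'cone.add _ (hKK' hk') _ (hK'cone.nn hu hm)
  have hcomm : ∀ u ∈ NN (H : Set Q), ∀ u' ∈ NN (H : Set Q), ∀ i (m : C),
      phs t φ i (u • u' • m) = phs t φ i (u' • u • m) := by
    intro u hu u' hu'
    refine NN.induct (p := fun u => ∀ i (m : C),
      phs t φ i (u • u' • m) = phs t φ i (u' • u • m)) ?_ ?_ ?_ hu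
    · intro i m
      rw [zero_smul, zero_smul, smul_zero]
    · intro a b ha hb i m
      rw [add_smul, add_smul, smul_add, phs_add hφ, phs_add hφ, ha, hb]
    · intro g hg c hc
      refine NN.induct (p := fun u' => ∀ i (m : C),
        phs t φ i (sg g c • u' • m) = phs t φ i (u' • sg g c • m)) ?_ ?_ ?_ hu'
      · intro i m
        rw [zero_smul, zero_smul, smul_zero]
      · intro a b ha hb i m
        rw [add_smul, add_smul, smul_add, phs_add hφ, phs_add hφ, ha, hb]
      · intro g' hg' c' hc' i m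
        obtain ⟨x, hx, l, h⟩ := hsh g hg
        obtain ⟨x', hx', l', h'⟩ := hsh g' hg'
        rw [h, h', h', h]
        have e : i + l + l' = i + l' + l := by ring
        rw [e]
        ring
  have htot : ∀ m, m ∈ K ∨ -m ∈ K := by
    intro m
    by_contra hcon
    obtain ⟨h1, h2⟩ := not_or.mp hcon
    obtain ⟨k1, hk1, u, hu, hku⟩ := hK.max m h1
    obtain ⟨k2, hk2, u', hu', hku'⟩ := hK.max (-m) h2
    have hu0 : u ≠ 0 := by
      rintro rfl
      apply hK.nmem
      rw [hku, zero_smul, add_zero]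
      exact hk1
    have h3 : -((u + u') • y) ∈ K := by
      apply hK'K
      have e1 : -((u + u') • y) = (u' • k1 + u • k2) + (u' • u • m - u • u' • m) := by
        have e2 : u' • (-y) = u' • k1 + u' • u • m := by rw [hku, smul_add]
        have e3 : u • (-y) = u • k2 - u • u' • m := by
          rw [hku', smul_add, smul_neg, smul_neg, sub_eq_add_neg]
        rw [← smul_neg, add_smul, e2, e3]
        abel
      rw [e1]
      refine hK'cone.add _ (hKK' (hK.cone.add _ (hK.cone.nn hu' hk1) _ (hK.cone.nn hu hk2))) _ ?_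
      intro i
      rw [phs_sub hφ, hcomm u' hu' u hu i m, sub_self]
    exact hK.nmem (hK.cone.neg_mem (NN.add hu hu') (NN.add_ne_zero hu hu' hu0) hK.mem h3)
  -- proportionality
  set Y' : C := sg (t ^ j0) 1 • y with hY'
  have hY'K : Y' ∈ K := hK.cone.smul _ (hS.zmem j0) 1 zero_le_one _ hK.mem
  have hY'0 : 0 < φ Y' := hj0
  have hY'1 : 0 ≤ phs t φ 1 Y' := hKK' hY'K 1
  have hker : ∀ m, φ m = 0 → ¬ 0 < phs t φ 1 m := by
    intro m hm hpos
    set ε := phs t φ 1 m / (2 * (phs t φ 1 Y' + 1)) with hε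
    have hε0 : 0 < ε := div_pos hpos (by linarith)
    have hεm : ε * phs t φ 1 Y' < phs t φ 1 m := by
      have h1 : ε * (2 * (phs t φ 1 Y' + 1)) = phs t φ 1 m := by
        rw [hε]
        exact div_mul_cancel₀ _ (by linarith)
      nlinarith
    rcases htot (m - sg (1 : Q) ε • Y') with h | h
    · have h1 := hKK' h 0
      rw [phs_zero, hφ.sub, hφ.scal, hm] at h1
      have := mul_pos hε0 hY'0
      linarith
    · have h1 := hKK' h 1
      rw [phs_neg hφ, phs_sub hφ, phs_scal hS hφ] at h1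
      linarith
  have hker0 : ∀ m, φ m = 0 → phs t φ 1 m = 0 := by
    intro m hm
    have h1 := hker m hm
    have h2 := hker (-m) (by rw [hφ.neg, hm, neg_zero])
    rw [phs_neg hφ] at h2
    push Not at h1 h2
    linarith
  set c := phs t φ 1 Y' / φ Y' with hc
  have hφ1 : ∀ m, phs t φ 1 m = c * φ m := by
    intro m
    have h1 := hker0 (m - sg (1 : Q) (φ m / φ Y') • Y') (by
      rw [hφ.sub, hφ.scal, div_mul_cancel₀ _ hY'0.ne', sub_self])
    rw [phs_sub hφ, phs_scal hS hφ] at h1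
    have h2 : φ m / φ Y' * phs t φ 1 Y' = c * φ m := by
      rw [hc]; field_simp
    linarith
  have hcnn : 0 ≤ c := div_nonneg hY'1 hY'0.le
  have hstep : ∀ i (m : C), phs t φ (i + 1) m = c * phs t φ i m := by
    intro i m
    have h1 := hφ1 (sg (t ^ i) 1 • m)
    have e : phs t φ 1 (sg (t ^ i) 1 • m) = phs t φ (i + 1) m := by
      unfold phs
      rw [sg_smul_sg, mul_one, ← zpow_add, add_comm]
    rw [e] at h1
    exact h1
  have hc0 : c ≠ 0 := by
    intro h0
    have h1 := hstep (-1) Y'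
    rw [h0, zero_mul, neg_add_cancel, phs_zero] at h1
    linarith
  have hcpos : 0 < c := lt_of_le_of_ne hcnn (Ne.symm hc0)
  have hpow : ∀ i (m : C), phs t φ i m = c ^ i * φ m := by
    intro i m
    induction i using Int.induction_on with
    | zero => rw [phs_zero, zpow_zero, one_mul]
    | succ i ih => rw [hstep, ih, zpow_add₀ hc0, zpow_one]; ring
    | pred i ih =>
      have h1 := hstep (-(i : ℤ) - 1) m
      rw [sub_add_cancel, ih] at h1
      rw [zpow_sub₀ hc0, zpow_one]
      field_simp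
      linarith
  refine ⟨φ, hφ.add, hφ.scal, ?_, ?_, ?_⟩
  · intro m
    constructor
    · intro hm
      have := hKK' hm 0
      rwa [phs_zero] at this
    · intro hm
      apply hK'K
      intro i
      rw [hpow]
      exact mul_nonneg (zpow_pos hcpos i).le hm
  · have h1 := hj0
    rw [hpow] at h1
    exact (mul_pos_iff_of_pos_left (zpow_pos hcpos j0)).mp h1
  · intro g hg
    obtain ⟨x, hx, l, h⟩ := hsh g hg
    refine ⟨x * c ^ l, mul_pos hx (zpow_pos hcpos l), ?_⟩
    intro m
    have h1 := h 0 1 m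
    rw [phs_zero, zero_add, hpow, one_mul] at h1
    rw [h1]; ring

end Pool.Agent.MP_22afe8_al
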