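import Mathlib
import Pool.Agent.Work.MP_22afe8_al.StrD

set_option autoImplicit false

namespace Pool.Agent.MP_22afe8_al

open Filter

variable {Q : Type} [Group Q] {C : Type} [AddCommGroup C] [Module (RA Q) C]

theorem NN.pow_le {H : Subgroup Q} {τ : Q → ℝ} (hτ : ∀ g ∈ H, ∀ h ∈ H, τ (g * h) = τ g + τ h)
    {u : RA Q} {δ : ℝ} (hu : u ∈ NN {g : Q | g ∈ H ∧ τ g ≤ -δ}) (k : ℕ) :
    u ^ k ∈ NN {g : Q | g ∈ H ∧ τ g ≤ -(k * δ)} := by
  induction k with
  | zero =>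
    rw [pow_zero]
    refine NN.one_mem ⟨H.one_mem, ?_⟩
    rw [add_one' hτ]; simp
  | succ k ih =>
    rw [pow_succ]
    refine NN.mul ih hu ?_
    rintro g ⟨hg, hg'⟩ h ⟨hh, hh'⟩
    refine ⟨H.mul_mem hg hh, ?_⟩
    rw [hτ g hg h hh]
    push_cast
    linarith

theorem NN.exists_le {H : Subgroup Q} (τ : Q → ℝ) {u : RA Q} (hu : u ∈ NN (H : Set Q)) :
    ∃ c : ℝ, u ∈ NN {g : Q | g ∈ H ∧ τ g ≤ c} := by
  obtain ⟨c, hc⟩ := exists_ub u.coeff.support τ
  exact ⟨c, hu.1, fun g hg => ⟨hu.2 g hg, hc g (Finsupp.mem_support_iff.mpr hg)⟩⟩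

theorem NN.exists_neg {H : Subgroup Q} {τ : Q → ℝ} {u : RA Q}
    (hu : u ∈ NN {g : Q | g ∈ H ∧ τ g < 0}) :
    ∃ δ : ℝ, 0 < δ ∧ u ∈ NN {g : Q | g ∈ H ∧ τ g ≤ -δ} := by
  obtain ⟨δ, hδ, hδ'⟩ := exists_pos_lb u.coeff.support (fun g => -τ g) (fun g hg => by
    have := (hu.2 g (Finsupp.mem_support_iff.mp hg)).2
    linarith)
  refine ⟨δ, hδ, hu.1, fun g hg => ⟨(hu.2 g hg).1, ?_⟩⟩
  have := hδ' g (Finsupp.mem_support_iff.mpr hg)
  linarith

theorem iter_dom {H : Subgroup Q} {K : Set C} (hK : IsCone H K) {u : RA Q}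
    (hu : u ∈ NN (H : Set Q)) {y : C} (h : u • y - y ∈ K) (k : ℕ) : u ^ k • y - y ∈ K := by
  induction k with
  | zero => rw [pow_zero, one_smul, sub_self]; exact hK.zero
  | succ k ih =>
    have e : u ^ (k + 1) • y - y = u • (u ^ k • y - y) + (u • y - y) := by
      rw [pow_succ', mul_smul, smul_sub]; abel
    rw [e]
    exact hK.add _ (hK.nn hu ih) _ h

theorem transfer {H : Subgroup Q} {K : Set C} (hK : IsCone H K) {τ : Q → ℝ}
    (hτ : ∀ g ∈ H, ∀ h ∈ H, τ (g * h) = τ g + τ h) {u v v' : RA Q}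
    (hu : u ∈ NN {g : Q | g ∈ H ∧ τ g < 0}) {y y' : C} (huy : u • y' - y' ∈ K)
    (hv : v ∈ NN (H : Set Q)) (hv' : v' ∈ NN (H : Set Q)) (h1 : v • y' - y ∈ K)
    (h2 : v' • y - y' ∈ K) (M : ℝ) :
    ∃ w ∈ NN {g : Q | g ∈ H ∧ τ g < -M}, w • y - y ∈ K := by
  have huH : u ∈ NN (H : Set Q) := NN.mono (fun g hg => hg.1) hu
  obtain ⟨δ, hδ, huδ⟩ := NN.exists_neg hu
  obtain ⟨c, hc⟩ := NN.exists_le τ hv
  obtain ⟨c', hc'⟩ := NN.exists_le τ hv'
  obtain ⟨k, hk⟩ := exists_nat_gt ((c + c' + M) / δ)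
  rw [div_lt_iff₀ hδ] at hk
  refine ⟨v * (u ^ k * v'), ?_, ?_⟩
  · refine NN.mul (S' := {g : Q | g ∈ H ∧ τ g ≤ -(k * δ) + c'}) hc
      (NN.mul (NN.pow_le hτ huδ k) hc' ?_) ?_
    · rintro g ⟨hg, hg'⟩ h ⟨hh, hh'⟩
      refine ⟨H.mul_mem hg hh, ?_⟩
      rw [hτ g hg h hh]; linarith
    · rintro g ⟨hg, hg'⟩ h ⟨hh, hh'⟩
      refine ⟨H.mul_mem hg hh, ?_⟩
      rw [hτ g hg h hh]; linarith
  · have hukH : ∀ k : ℕ, u ^ k ∈ NN (H : Set Q) := by
      intro k
      exact NN.mono (fun g hg => hg.1) (NN.pow_le hτ huδ k)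
    have e : (v * (u ^ k * v')) • y - y =
        v • u ^ k • (v' • y - y') + v • (u ^ k • y' - y') + (v • y' - y) := by
      rw [mul_smul, mul_smul, smul_sub, smul_sub, smul_sub]; abel
    rw [e]
    refine hK.add _ (hK.add _ (hK.nn hv (hK.nn (hukH k) h2)) _ (hK.nn hv ?_)) _ h1
    exact iter_dom hK huH huy k

theorem inv_of_finite {N H : Subgroup Q} {t : Q} (hQ : Group.IsNilpotent Q)
    (hS : StepData N H t) (m : ℕ) (hm : 1 ≤ m) (htm : t ^ m ∈ N) (ρ : Q → ℝ)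
    (hρ : ∀ g ∈ N, ∀ h ∈ N, ρ (g * h) = ρ g + ρ h) : ∀ n ∈ N, ρ (t * n * t⁻¹) = ρ n := by
  by_cases hne : ∃ n ∈ N, ρ n ≠ 0
  · obtain ⟨l, lam, hl1, hl2, hl3, hl4, hl5⟩ := poly_growth hQ N t hS.n1 hS.n2 ρ hρ hne
    apply hl5
    by_contra hl0
    obtain ⟨n, hn, hn0⟩ := hl2
    apply hn0
    have h1 := hl4 n hn
    have hseq : Tendsto (fun k : ℕ => ((m * k : ℕ) : ℤ)) atTop atTop := by
      apply tendsto_natCast_atTop_atTop.comp
      exact tendsto_id.const_mul_atTop' (by omega)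
    have h2 := h1.comp hseq
    have h3 : Tendsto (fun k : ℕ => ρ n / (((m * k : ℕ) : ℤ) : ℝ) ^ l) atTop (nhds 0) := by
      apply Tendsto.div_atTop tendsto_const_nhds
      exact (tendsto_pow_atTop hl0).comp (tendsto_intCast_atTop_atTop.comp hseq)
    have h4 : (fun k : ℕ => ρ n / (((m * k : ℕ) : ℤ) : ℝ) ^ l) =
        (fun j : ℤ => ρ (t ^ j * n * t ^ (-j)) / (j : ℝ) ^ l) ∘ fun k : ℕ => ((m * k : ℕ) : ℤ) := by
      funext k
      simp only [Function.comp]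
      have htk : t ^ (m * k) ∈ N := by
        rw [pow_mul]; exact N.pow_mem htm k
      have e : ρ (t ^ ((m * k : ℕ) : ℤ) * n * t ^ (-((m * k : ℕ) : ℤ))) = ρ n := by
        rw [zpow_neg, zpow_natCast, hρ _ (N.mul_mem htk hn) _ (N.inv_mem htk),
          hρ _ htk _ hn, add_inv' hρ htk]
        ring
      rw [e]
    rw [← h4] at h2
    exact tendsto_nhds_unique h2 h3
  · push Not at hne
    intro n hn
    rw [hne _ (hS.n1 n hn), hne n hn]

theorem altT_finite {N H : Subgroup Q} {t : Q} (hQ : Group.IsNilpotent Q)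
    (hS : StepData N H t) (m : ℕ) (hm : 1 ≤ m) (htm : t ^ m ∈ N) {K T : Set C} {y : C}
    (hK : MaxCone H K y) (hKT : K ⊆ T) (k : ℕ) (hk : m ≤ k) (hA : AltT N T (win t y k)) :
    AltT H K y := by
  classical
  obtain ⟨ρ, hρ, hne, hno⟩ := hA
  have hinv := inv_of_finite hQ hS m hm htm ρ hρ
  have hm0 : (m : ℝ) ≠ 0 := by
    have : m ≠ 0 := by omega
    exact_mod_cast this
  have hKN : IsCone N K := hK.cone.mono hS.le
  set Y := win t y k with hY
  have hpw : ∀ n ∈ N, ∀ i : ℤ, ∀ j : ℕ, ∃ n' ∈ N, (n * t ^ i) ^ j = n' * t ^ (i * j) ∧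
      ρ n' = j * ρ n := by
    intro n hn i j
    induction j with
    | zero => exact ⟨1, N.one_mem, by simp, by rw [add_one' hρ]; simp⟩
    | succ j ih =>
      obtain ⟨n', hn', h1, h2⟩ := ih
      refine ⟨n' * (t ^ (i * j) * n * t ^ (-(i * j))), N.mul_mem hn' (hS.conj _ n hn), ?_, ?_⟩
      · rw [pow_succ, h1]
        have : i * ((j + 1 : ℕ) : ℤ) = i * j + i := by push_cast; ring
        rw [this, zpow_add, zpow_neg]
        simp only [mul_assoc, inv_mul_cancel_left]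
      · rw [hρ _ hn' _ (hS.conj _ n hn), hS.inv_zpow hinv _ n hn, h2]
        push_cast; ring
  set τ : Q → ℝ := fun g => ρ (g ^ m) / m with hτdef
  set σ : ℝ := ρ (t ^ m) / m with hσ
  have hτf : ∀ n ∈ N, ∀ i : ℤ, τ (n * t ^ i) = ρ n + i * σ := by
    intro n hn i
    obtain ⟨n', hn', h1, h2⟩ := hpw n hn i m
    have e : τ (n * t ^ i) = ρ ((n * t ^ i) ^ m) / m := rfl
    have e2 : t ^ (i * (m : ℤ)) = (t ^ m) ^ i := by
      rw [mul_comm, zpow_mul, zpow_natCast]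
    rw [e, h1, e2, hρ _ hn' _ (N.zpow_mem htm i), h2, add_zpow' hρ htm, hσ]
    field_simp
  have hτadd : ∀ g ∈ H, ∀ h ∈ H, τ (g * h) = τ g + τ h := by
    intro g hg h hh
    obtain ⟨n, hn, i, rfl⟩ := hS.gen g hg
    obtain ⟨n', hn', j, rfl⟩ := hS.gen h hh
    have e : n * t ^ i * (n' * t ^ j) = (n * (t ^ i * n' * t ^ (-i))) * t ^ (i + j) := by
      rw [zpow_add]; group
    rw [e, hτf _ (N.mul_mem hn (hS.conj i n' hn')), hτf n hn, hτf n' hn', hρ _ hn _ (hS.conj i n' hn'),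
      hS.inv_zpow hinv _ n' hn']
    push_cast; ring
  have hτt : τ t = σ := rfl
  refine ⟨τ, hτadd, ?_, ?_⟩
  · obtain ⟨n, hn, hn0⟩ := hne
    refine ⟨n, hS.le hn, ?_⟩
    have := hτf n hn 0
    rw [zpow_zero, mul_one] at this
    rw [this]; simpa using hn0
  · intro u hu huy
    obtain ⟨w, hw, hwy⟩ := transfer (v := 1) (v' := 1) hK.cone hτadd hu huy
      (NN.one_mem H.one_mem) (NN.one_mem H.one_mem)
      (by rw [one_smul, sub_self]; exact hK.cone.zero)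
      (by rw [one_smul, sub_self]; exact hK.cone.zero) (2 * k * |σ| + 1)
    have hD : ∀ h ∈ H, τ h ≤ -(k * |σ| + 1) → ∀ c : ℝ, 0 ≤ c →
        BS N ρ K Y (sg h c • y) (-1) := by
      intro h hh hle c hc
      obtain ⟨n, hn, i, rfl⟩ := hS.gen h hh
      have hmz : (0 : ℤ) < m := by exact_mod_cast hm
      set r : ℤ := (i - 1) % m + 1 with hr
      set q : ℤ := (i - 1) / m with hq
      have hr0 := Int.emod_nonneg (i - 1) hmz.ne'
      have hr1 := Int.emod_lt_of_pos (i - 1) hmz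
      have hdiv := Int.mul_ediv_add_emod (i - 1) m
      have hi : i = m * q + r := by rw [hr, hq]; linarith
      have hn'' : n * (t ^ m) ^ q ∈ N := N.mul_mem hn (N.zpow_mem htm q)
      have e1 : n * t ^ i = (n * (t ^ m) ^ q) * t ^ r := by
        rw [hi, zpow_add, zpow_mul, zpow_natCast, mul_assoc]
      have e2 : sg (n * t ^ i) c • y = sg (n * (t ^ m) ^ q) c • yj t y r := by
        unfold yj
        rw [e1, sg_smul_sg, mul_one]
      have h3 : τ (n * t ^ i) = ρ (n * (t ^ m) ^ q) + r * σ := by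
        rw [e1]; exact hτf _ hn'' r
      have hrk : (r : ℝ) ≤ k := by
        have : r ≤ (k : ℤ) := by
          have : (m : ℤ) ≤ k := by exact_mod_cast hk
          omega
        exact_mod_cast this
      have hr0' : (0 : ℝ) ≤ r := by
        have : (0 : ℤ) ≤ r := by omega
        exact_mod_cast this
      have h4 : -((k : ℝ) * |σ|) ≤ r * σ := by
        have h5 : |(r : ℝ) * σ| ≤ k * |σ| := by
          rw [abs_mul, abs_of_nonneg hr0']
          exact mul_le_mul_of_nonneg_right hrk (abs_nonneg _)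
        have := neg_abs_le ((r : ℝ) * σ)
        linarith
      refine ⟨sg (n * (t ^ m) ^ q) c,
        NN.sg_mem (S := {g : Q | g ∈ N ∧ ρ g ≤ -1}) ⟨hn'', by linarith⟩ hc, ?_⟩
      rw [e2, ← smul_sub]
      refine hKN.smul _ hn'' c hc _ ?_
      exact win_sub hS hK.cone hK.mem k r (by omega) (by
        have : (m : ℤ) ≤ k := by exact_mod_cast hk
        omega)
    have hYB : BS N ρ K Y (∑ j ∈ Finset.Icc (1 : ℤ) k, sg (t ^ j) 1 • (w • y)) (-1) := by
      refine BS.sum hKN _ _ _ ?_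
      intro j hj
      rw [Finset.mem_Icc] at hj
      refine NN.induct (p := fun w => BS N ρ K Y (sg (t ^ j) 1 • (w • y)) (-1)) ?_ ?_ ?_ hw
      · rw [zero_smul, smul_zero]; exact BS.zero hKN _
      · intro a b ha hb
        rw [add_smul, smul_add]
        exact BS.add hKN ha hb
      · rintro g ⟨hg, hg'⟩ c hc
        rw [sg_smul_sg, one_mul]
        refine hD _ (H.mul_mem (hS.zmem j) hg) ?_ c hc
        rw [hτadd _ (hS.zmem j) _ hg, add_zpow' hτadd hS.mem, hτt]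
        have hjk : (j : ℝ) ≤ k := by exact_mod_cast hj.2
        have hj0 : (0 : ℝ) ≤ j := by
          have : (0 : ℤ) ≤ j := by omega
          exact_mod_cast this
        have h5 : |(j : ℝ) * σ| ≤ k * |σ| := by
          rw [abs_mul, abs_of_nonneg hj0]
          exact mul_le_mul_of_nonneg_right hjk (abs_nonneg _)
        have := le_abs_self ((j : ℝ) * σ)
        linarith
    have hYY : BS N ρ K Y Y (-1) := by
      refine BS.le hKN hYB ?_
      rw [hY, win, ← Finset.sum_sub_distrib]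
      refine cone_sum hK.cone _ _ ?_
      intro j _
      unfold yj
      rw [← smul_sub]
      exact hK.cone.smul _ (hS.zmem j) 1 zero_le_one _ hwy
    obtain ⟨w', hw', h⟩ := hYY
    exact hno w' (NN.mono (S := {g : Q | g ∈ N ∧ ρ g ≤ -1}) (S' := {g : Q | g ∈ N ∧ ρ g < 0})
      (fun g hg => ⟨hg.1, lt_of_le_of_lt hg.2 (by norm_num)⟩) hw') (hKT h)

end Pool.Agent.MP_22afe8_al
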