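import Mathlib
import Pool.Agent.Work.MP_22afe8_al.StrE

set_option autoImplicit false

namespace Pool.Agent.MP_22afe8_al

variable {Q : Type} [Group Q] {C : Type} [AddCommGroup C] [Module (RA Q) C]

theorem altT_of_f {N H : Subgroup Q} {t : Q} (hS : StepData N H t) (f : Q → ℤ)
    (hf1 : ∀ n ∈ N, ∀ i : ℤ, f (n * t ^ i) = i)
    (hf3 : ∀ g ∈ H, ∀ h ∈ H, f (g * h) = f g + f h) {K : Set C} {y : C} (s : ℤ) (hs : s ≠ 0)
    (hno : ∀ u ∈ NN {g : Q | ∃ n ∈ N, ∃ i : ℤ, s * i < 0 ∧ g = n * t ^ i}, u • y - y ∉ K) :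
    AltT H K y := by
  refine ⟨fun g => ((s * f g : ℤ) : ℝ), ?_, ?_, ?_⟩
  · intro g hg h hh
    simp only []
    rw [hf3 g hg h hh]
    push_cast; ring
  · refine ⟨t, hS.mem, ?_⟩
    have := hf1 1 N.one_mem 1
    rw [one_mul, zpow_one] at this
    simp only []
    rw [this, mul_one]
    exact_mod_cast hs
  · intro u hu
    apply hno
    refine NN.mono ?_ hu
    rintro g ⟨hg, hg'⟩
    obtain ⟨n, hn, i, rfl⟩ := hS.gen g hg
    refine ⟨n, hn, i, ?_, rfl⟩
    simp only [] at hg'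
    rw [hf1 n hn i] at hg'
    exact_mod_cast hg'

theorem Co_mono {N : Subgroup Q} {t : Q} {a b a' b' : ℤ} (ha : a' ≤ a) (hb : b ≤ b') :
    Co N t a b ⊆ Co N t a' b' := by
  rintro g ⟨n, hn, i, h1, h2, rfl⟩
  exact ⟨n, hn, i, le_trans ha h1, le_trans h2 hb, rfl⟩

theorem exists_Co_pos {N : Subgroup Q} {t : Q} {u : RA Q}
    (hu : u ∈ NN {g : Q | ∃ n ∈ N, ∃ i : ℤ, -1 * i < 0 ∧ g = n * t ^ i}) :
    ∃ k : ℕ, u ∈ NN (Co N t 1 k) := by
  apply NN.exists_dir (S := fun k : ℕ => Co N t 1 k)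
  · intro a b hab
    exact Co_mono le_rfl (by exact_mod_cast hab)
  · refine NN.mono ?_ hu
    rintro g ⟨n, hn, i, hi, rfl⟩
    refine Set.mem_iUnion.mpr ⟨i.toNat, n, hn, i, by omega, Int.self_le_toNat i, rfl⟩

theorem exists_Co_neg {N : Subgroup Q} {t : Q} {u : RA Q}
    (hu : u ∈ NN {g : Q | ∃ n ∈ N, ∃ i : ℤ, 1 * i < 0 ∧ g = n * t ^ i}) :
    ∃ k : ℕ, u ∈ NN (Co N t (-k) (-1)) := by
  apply NN.exists_dir (S := fun k : ℕ => Co N t (-k) (-1))
  · intro a b hab
    exact Co_mono (by simpa using hab) le_rfl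
  · refine NN.mono ?_ hu
    rintro g ⟨n, hn, i, hi, rfl⟩
    refine Set.mem_iUnion.mpr ⟨(-i).toNat, n, hn, i, ?_, by omega, rfl⟩
    have := Int.self_le_toNat (-i)
    omega

theorem str (hQ : Group.IsNilpotent Q) : ∀ n : ℕ,
    (∀ k, k < n → ∀ N : Subgroup Q, Pc k N → OreRel N) → ∀ H : Subgroup Q, Pc n H →
    ∀ (K : Set C) (y : C), MaxCone H K y → Bd H K y → AltT H K y ∨ AltA H K y := by
  classical
  intro n
  induction n with
  | zero =>
    intro _ H hH K y hK hb
    cases hH with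
    | bot => exact Or.inr (str_bot hK hb)
  | succ n ih =>
    intro hO H hH K y hK hb
    cases hH with
    | bot => exact Or.inr (str_bot hK hb)
    | step _ N _ t hN hNH ht h1 h2 hgen =>
      have hS : StepData N H t := ⟨hNH, ht, h1, h2, hgen⟩
      have hON : OreRel N := hO n (Nat.lt_succ_self n) N hN
      have ih' := ih (fun k hk => hO k (Nat.lt_succ_of_lt hk)) N hN
      by_cases hfin : ∃ m : ℕ, 1 ≤ m ∧ t ^ m ∈ N
      · obtain ⟨m, hm, htm⟩ := hfin
        have hone1 : (1 : RA Q) ∈ NN (Co N t (-m) (-1)) := by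
          refine NN.one_mem ⟨t ^ m, htm, -m, le_rfl, by omega, ?_⟩
          rw [zpow_neg, zpow_natCast, mul_inv_cancel]
        have hone2 : (1 : RA Q) ∈ NN (Co N t 1 m) := by
          refine NN.one_mem ⟨(t ^ m)⁻¹, N.inv_mem htm, m, by omega, le_rfl, ?_⟩
          rw [zpow_natCast, inv_mul_cancel]
        have hz : (1 : RA Q) • y - y ∈ K := by
          rw [one_smul, sub_self]; exact hK.cone.zero
        obtain ⟨T, hKT, hT, hbT⟩ := window hS hK hb m hm 1 1 hone1 hone2 hz hz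
        rcases ih' T _ hT hbT with h | h
        · exact Or.inl (altT_finite hQ hS m hm htm hK hKT m le_rfl h)
        · obtain ⟨φ, hφ⟩ := h.eig
          refine Or.inr (altA_of_inv hS hK hKT m φ hφ ?_)
          intro x hx
          have := inv_of_finite hQ hS m hm htm (fun g => Real.log (chi φ (win t y m) g))
            hφ.log_add x hx
          exact Real.log_injOn_pos (Set.mem_Ioi.mpr (hφ.chi_pos _ (hS.n1 x hx)))
            (Set.mem_Ioi.mpr (hφ.chi_pos _ hx)) this
      · push Not at hfin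
        obtain ⟨f, hf1, hf2, hf3⟩ := hS.exists_f hfin
        by_cases hneg : ∀ u ∈ NN {g : Q | ∃ n ∈ N, ∃ i : ℤ, 1 * i < 0 ∧ g = n * t ^ i}, u • y - y ∉ K
        · exact Or.inl (altT_of_f hS f hf1 hf3 1 one_ne_zero hneg)
        by_cases hpos : ∀ u ∈ NN {g : Q | ∃ n ∈ N, ∃ i : ℤ, -1 * i < 0 ∧ g = n * t ^ i}, u • y - y ∉ K
        · exact Or.inl (altT_of_f hS f hf1 hf3 (-1) (by norm_num) hpos)
        push Not at hneg hpos
        obtain ⟨um, hum, hm⟩ := hneg
        obtain ⟨up, hup, hp⟩ := hpos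
        obtain ⟨k1, hk1⟩ := exists_Co_neg hum
        obtain ⟨k2, hk2⟩ := exists_Co_pos hup
        set k := max (max k1 k2) 1 with hk
        have hk1' : um ∈ NN (Co N t (-k) (-1)) := by
          refine NN.mono (Co_mono ?_ le_rfl) hk1
          have : k1 ≤ k := le_trans (le_max_left _ _) (le_max_left _ _)
          omega
        have hk2' : up ∈ NN (Co N t 1 k) := by
          refine NN.mono (Co_mono le_rfl ?_) hk2
          have : k2 ≤ k := le_trans (le_max_right _ _) (le_max_left _ _)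
          exact_mod_cast this
        have hk0 : 1 ≤ k := le_max_right _ _
        obtain ⟨T, hKT, hT, hbT⟩ := window hS hK hb k hk0 um up hk1' hk2' hm hp
        rcases ih' T _ hT hbT with h | h
        · obtain ⟨F, a, l, lam, hG⟩ := growth_of_altT hQ hS f hf2 hK.cone hKT k hT hbT h
          exact Or.inl (growth_final hS f hf1 hf2 hf3 F a l lam hG k um up hk1' hk2' hm hp)
        · obtain ⟨φ, hφ⟩ := h.eig
          by_cases hinv : ∀ n ∈ N, chi φ (win t y k) (t * n * t⁻¹) = chi φ (win t y k) n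
          · exact Or.inr (altA_of_inv hS hK hKT k φ hφ hinv)
          · push Not at hinv
            obtain ⟨F, a, l, lam, hG⟩ := growth_of_eig hQ hS f hf2 hK hKT k φ hφ hinv
            exact Or.inl (growth_final hS f hf1 hf2 hf3 F a l lam hG k um up hk1' hk2' hm hp)

end Pool.Agent.MP_22afe8_al
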