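import Mathlib
import Pool.Agent.Work.MP_22afe8_al.Str

set_option autoImplicit false

namespace Pool.Agent.MP_22afe8_al

variable {Q : Type} [Group Q]

/-- Support contained in a set. -/
def SI (X : Set Q) (u : RA Q) : Prop := ∀ g, u.coeff g ≠ 0 → g ∈ X

namespace SI

theorem zero (X : Set Q) : SI X (0 : RA Q) := fun _ hg => absurd rfl hg

theorem add {X : Set Q} {u v : RA Q} (hu : SI X u) (hv : SI X v) : SI X (u + v) := by
  intro g hg
  by_cases h : u.coeff g = 0
  · refine hv g ?_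
    intro h'
    apply hg
    rw [MonoidAlgebra.coeff_add, Finsupp.add_apply, h, h', add_zero]
  · exact hu g h

theorem neg {X : Set Q} {u : RA Q} (hu : SI X u) : SI X (-u) := by
  intro g hg
  refine hu g ?_
  intro h
  apply hg
  rw [MonoidAlgebra.coeff_neg, Finsupp.neg_apply, h, neg_zero]

theorem sub {X : Set Q} {u v : RA Q} (hu : SI X u) (hv : SI X v) : SI X (u - v) := by
  rw [sub_eq_add_neg]
  exact add hu (neg hv)

theorem mono {X X' : Set Q} (h : X ⊆ X') {u : RA Q} (hu : SI X u) : SI X' u :=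
  fun g hg => h (hu g hg)

theorem sg_mem {X : Set Q} {g : Q} (hg : g ∈ X) (c : ℝ) : SI X (sg g c) := by
  classical
  intro h hh
  rw [MonoidAlgebra.coeff_single, Finsupp.single_apply] at hh
  split_ifs at hh with h1
  · rw [← h1]; exact hg
  · exact absurd rfl hh

theorem of_NN {X : Set Q} {u : RA Q} (hu : u ∈ NN X) : SI X u := hu.2

theorem sum_mem {X : Set Q} {ι : Type*} (s : Finset ι) (f : ι → RA Q)
    (h : ∀ i ∈ s, SI X (f i)) : SI X (∑ i ∈ s, f i) := by
  classical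
  induction s using Finset.induction_on with
  | empty => simpa using zero X
  | insert a s ha ih =>
    rw [Finset.sum_insert ha]
    exact add (h a (Finset.mem_insert_self a s))
      (ih fun i hi => h i (Finset.mem_insert_of_mem hi))

theorem induct {X : Set Q} {p : RA Q → Prop} (h0 : p 0) (hadd : ∀ u v, p u → p v → p (u + v))
    (hs : ∀ g ∈ X, ∀ c : ℝ, p (sg g c)) {u : RA Q} (hu : SI X u) : p u := by
  classical
  rw [NN.decomp u]
  have : ∀ s : Finset Q, (∀ g ∈ s, g ∈ u.coeff.support) → p (∑ g ∈ s, sg g (u.coeff g)) := by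
    intro s
    induction s using Finset.induction_on with
    | empty => intro _; simpa using h0
    | insert a s ha ih =>
      intro hss
      rw [Finset.sum_insert ha]
      refine hadd _ _ ?_ (ih fun g hg => hss g (Finset.mem_insert_of_mem hg))
      exact hs a (hu a (Finsupp.mem_support_iff.mp (hss a (Finset.mem_insert_self a s)))) _
  exact this _ fun g hg => hg

theorem mul {X X' X'' : Set Q} {u v : RA Q} (hu : SI X u) (hv : SI X' v)
    (h : ∀ g ∈ X, ∀ k ∈ X', g * k ∈ X'') : SI X'' (u * v) := by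
  refine induct (p := fun u => SI X'' (u * v)) ?_ ?_ ?_ hu
  · simpa using zero X''
  · intro a b ha hb
    rw [add_mul]
    exact add ha hb
  · intro g hg c
    refine induct (p := fun v => SI X'' (sg g c * v)) ?_ ?_ ?_ hv
    · simpa using zero X''
    · intro a b ha hb
      rw [mul_add]
      exact add ha hb
    · intro k hk d
      rw [MonoidAlgebra.single_mul_single]
      exact sg_mem (h g hg k hk) _

end SI

/-- Elements bounded by multiples of `e` with coefficients supported in `S`. -/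
def Hull (K : Set (RA Q)) (e : RA Q) (S : Set Q) : Set (RA Q) :=
  {m | ∃ u ∈ NN S, u * e - m ∈ K ∧ u * e + m ∈ K}

theorem IsCone.sgm {K : Set (RA Q)} (hK : IsCone (⊤ : Subgroup Q) K) (g : Q) {c : ℝ} (hc : 0 ≤ c)
    {k : RA Q} (hk : k ∈ K) : sg g c * k ∈ K :=
  hK.smul g (Subgroup.mem_top g) c hc k hk

theorem IsCone.nnm {K : Set (RA Q)} (hK : IsCone (⊤ : Subgroup Q) K) {S : Set Q} {u : RA Q}
    (hu : u ∈ NN S) {k : RA Q} (hk : k ∈ K) : u * k ∈ K := by
  have : u ∈ NN ((⊤ : Subgroup Q) : Set Q) := NN.mono (fun g _ => Subgroup.mem_top g) hu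
  exact hK.nn this hk

namespace Hull

variable {K : Set (RA Q)} {e : RA Q}

theorem mono {S S' : Set Q} (h : S ⊆ S') {m : RA Q} (hm : m ∈ Hull K e S) :
    m ∈ Hull K e S' := by
  obtain ⟨u, hu, h1, h2⟩ := hm
  exact ⟨u, NN.mono h hu, h1, h2⟩

theorem zero (hK : IsCone (⊤ : Subgroup Q) K) (S : Set Q) : (0 : RA Q) ∈ Hull K e S :=
  ⟨0, NN.zero _, by simpa using hK.zero, by simpa using hK.zero⟩

theorem add (hK : IsCone (⊤ : Subgroup Q) K) {S : Set Q} {m m' : RA Q} (hm : m ∈ Hull K e S)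
    (hm' : m' ∈ Hull K e S) : m + m' ∈ Hull K e S := by
  obtain ⟨u, hu, h1, h2⟩ := hm
  obtain ⟨u', hu', h1', h2'⟩ := hm'
  refine ⟨u + u', NN.add hu hu', ?_, ?_⟩
  · have e1 : (u + u') * e - (m + m') = (u * e - m) + (u' * e - m') := by
      rw [add_mul]; abel
    rw [e1]
    exact hK.add _ h1 _ h1'
  · have e1 : (u + u') * e + (m + m') = (u * e + m) + (u' * e + m') := by
      rw [add_mul]; abel
    rw [e1]
    exact hK.add _ h2 _ h2'

theorem neg {S : Set Q} {m : RA Q} (hm : m ∈ Hull K e S) : -m ∈ Hull K e S := by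
  obtain ⟨u, hu, h1, h2⟩ := hm
  refine ⟨u, hu, ?_, ?_⟩
  · rw [sub_neg_eq_add]; exact h2
  · rw [← sub_eq_add_neg]; exact h1

theorem smul (hK : IsCone (⊤ : Subgroup Q) K) {S S' S'' : Set Q} {m β : RA Q}
    (hm : m ∈ Hull K e S) (hβ : SI S' β) (h : ∀ g ∈ S', ∀ k ∈ S, g * k ∈ S'') :
    β * m ∈ Hull K e S'' := by
  have hpos : ∀ g ∈ S', ∀ c : ℝ, 0 ≤ c → ∀ m ∈ Hull K e S, sg g c * m ∈ Hull K e S'' := by
    rintro g hg c hc m ⟨u, hu, h1, h2⟩
    refine ⟨sg g c * u, NN.mul (NN.sg_mem hg hc) hu h, ?_, ?_⟩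
    · rw [mul_assoc, ← mul_sub]
      exact hK.sgm g hc h1
    · rw [mul_assoc, ← mul_add]
      exact hK.sgm g hc h2
  refine SI.induct (p := fun β => β * m ∈ Hull K e S'') ?_ ?_ ?_ hβ
  · rw [zero_mul]; exact zero hK _
  · intro a b ha hb
    rw [add_mul]
    exact add hK ha hb
  · intro g hg c
    rcases le_total 0 c with hc | hc
    · exact hpos g hg c hc m hm
    · have h1 := hpos g hg (-c) (by linarith) (-m) (neg hm)
      have e1 : sg g (-c) * -m = sg g c * m := by
        have : sg g (-c) = -(sg g c) := by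
          rw [eq_neg_iff_add_eq_zero, sg, sg, ← MonoidAlgebra.single_add, neg_add_cancel,
            MonoidAlgebra.single_zero]
        rw [this, neg_mul_neg]
      rwa [e1] at h1

end Hull

/-- The goodness lemma. -/
theorem good {Q1 : Subgroup Q} (hnorm : ∀ q ∈ Q1, ∀ g : Q, g * q * g⁻¹ ∈ Q1) (hO : OreRel Q1)
    {s0 : RA Q} (hs0 : s0 ∈ NN (Q1 : Set Q)) (hs00 : s0 ≠ 0) {X : Set Q}
    (hX : ∀ q ∈ Q1, ∀ x ∈ X, q * x ∈ X) {w : RA Q} (hw : SI X w) :
    ∃ s ∈ NN (Q1 : Set Q), s ≠ 0 ∧ ∃ v, SI X v ∧ s * w = v * s0 := by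
  refine SI.induct (p := fun w => ∃ s ∈ NN (Q1 : Set Q), s ≠ 0 ∧ ∃ v, SI X v ∧ s * w = v * s0)
    ?_ ?_ ?_ hw
  · exact ⟨s0, hs0, hs00, 0, SI.zero _, by simp⟩
  · rintro a b ⟨s, hs, hs', v, hv, h1⟩ ⟨r, hr, hr', v', hv', h2⟩
    obtain ⟨σ, hσ, σ', hσ', hσ0, hσ'0, hσσ⟩ := hO s hs r hr hs' hr'
    refine ⟨σ * s, NN.mulH hσ hs, NN.mul_ne_zero hσ hs hσ0 hs', σ * v + σ' * v', ?_, ?_⟩
    · exact SI.add (SI.mul (SI.of_NN hσ) hv fun g hg k hk => hX g hg k hk)
        (SI.mul (SI.of_NN hσ') hv' fun g hg k hk => hX g hg k hk)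
    · rw [mul_add, mul_assoc σ s a, h1, hσσ, mul_assoc σ' r b, h2, add_mul, mul_assoc, mul_assoc]
  · intro g hg c
    have e : sg g 1 * s0 * sg g⁻¹ 1 * sg g c = sg g c * s0 := by
      have e1 : sg g⁻¹ (1 : ℝ) * sg g c = sg 1 c := by
        rw [MonoidAlgebra.single_mul_single, inv_mul_cancel, one_mul]
      have e2 : sg g c = sg (1 : Q) c * sg g 1 := by
        rw [MonoidAlgebra.single_mul_single, one_mul, mul_one]
      rw [mul_assoc _ (sg g⁻¹ 1), e1]
      have e3 : ∀ x : RA Q, x * sg (1 : Q) c = sg (1 : Q) c * x := by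
        intro x
        refine MonoidAlgebra.induction_linear x ?_ ?_ ?_
        · simp
        · intro a b ha hb
          rw [add_mul, mul_add, ha, hb]
        · intro m r
          rw [MonoidAlgebra.single_mul_single, MonoidAlgebra.single_mul_single, mul_one, one_mul,
            mul_comm]
      rw [e3, ← mul_assoc, ← e2]
    refine ⟨sg g 1 * s0 * sg g⁻¹ 1, ?_, ?_, sg g c, SI.sg_mem hg c, e⟩
    · refine NN.mul (S := {x : Q | ∃ q ∈ Q1, x = g * q}) (S' := {g⁻¹})
        (NN.mul (S := {g}) (NN.sg_mem (Set.mem_singleton g) zero_le_one) hs0 ?_)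
        (NN.sg_mem (Set.mem_singleton _) zero_le_one) ?_
      · rintro x hx k hk
        rw [Set.mem_singleton_iff] at hx
        exact ⟨k, hk, by rw [hx]⟩
      · rintro x ⟨q, hq, rfl⟩ k hk
        rw [Set.mem_singleton_iff] at hk
        rw [hk]
        exact hnorm q hq g
    · apply NN.ne_zero_of_aug
      rw [NN.aug_mul, NN.aug_mul, NN.aug_sg, NN.aug_sg, one_mul, mul_one]
      exact (NN.aug_pos hs0 hs00).ne'

end Pool.Agent.MP_22afe8_al
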