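import Mathlib
import Pool.Agent.Work.MP_22afe8_al.OreA
import Pool.Agent.Work.MP_22afe8_al.M2

set_option autoImplicit false

namespace Pool.Agent.MP_22afe8_al

variable {Q : Type} [Group Q]

theorem split0 {Q1 : Subgroup Q} {τ : Q → ℝ} (hQ1 : ∀ g, g ∈ Q1 ↔ τ g = 0) {u : RA Q}
    (hu : u ∈ NN {g : Q | τ g ≤ 0}) :
    ∃ u0 ∈ NN (Q1 : Set Q), ∃ um ∈ NN {g : Q | τ g < 0}, u = u0 + um := by
  refine NN.induct (p := fun u => ∃ u0 ∈ NN (Q1 : Set Q), ∃ um ∈ NN {g : Q | τ g < 0},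
    u = u0 + um) ?_ ?_ ?_ hu
  · exact ⟨0, NN.zero _, 0, NN.zero _, by simp⟩
  · rintro a b ⟨a0, ha0, am, ham, rfl⟩ ⟨b0, hb0, bm, hbm, rfl⟩
    exact ⟨a0 + b0, NN.add ha0 hb0, am + bm, NN.add ham hbm, by abel⟩
  · intro g hg c hc
    rcases lt_or_eq_of_le (show τ g ≤ 0 from hg) with h | h
    · exact ⟨0, NN.zero _, sg g c, NN.sg_mem (S := {g : Q | τ g < 0}) h hc, by simp⟩
    · exact ⟨sg g c, NN.sg_mem ((hQ1 g).mpr h) hc, 0, NN.zero _, by simp⟩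

theorem norm1 {Q1 : Subgroup Q} {τ : Q → ℝ} (hτ : ∀ g h, τ (g * h) = τ g + τ h)
    (hQ1 : ∀ g, g ∈ Q1 ↔ τ g = 0) {p : RA Q} (hp : p ∈ NN (Set.univ : Set Q)) (hp0 : p ≠ 0) :
    ∃ g : Q, ∃ p0 ∈ NN (Q1 : Set Q), ∃ pm ∈ NN {g : Q | τ g < 0}, p0 ≠ 0 ∧
      sg g 1 * p = p0 + pm := by
  classical
  have hτ1 : τ 1 = 0 := by
    have := hτ 1 1
    rw [one_mul] at this
    linarith
  have hne : p.coeff.support.Nonempty := by
    rw [Finset.nonempty_iff_ne_empty]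
    intro h
    exact hp0 (MonoidAlgebra.coeff_eq_zero.mp (Finsupp.support_eq_empty.mp h))
  obtain ⟨h, hh, hmax⟩ := Finset.exists_max_image p.coeff.support τ hne
  have hp' : p ∈ NN {x : Q | τ x ≤ τ h} :=
    ⟨hp.1, fun g hg => hmax g (Finsupp.mem_support_iff.mpr hg)⟩
  have hinv : τ h⁻¹ = -τ h := by
    have := hτ h h⁻¹
    rw [mul_inv_cancel, hτ1] at this
    linarith
  have h1 : sg h⁻¹ 1 * p ∈ NN {x : Q | τ x ≤ 0} := by
    refine NN.mul (S := {h⁻¹}) (NN.sg_mem (Set.mem_singleton _) zero_le_one) hp' ?_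
    rintro x hx k hk
    rw [Set.mem_singleton_iff] at hx
    change τ (x * k) ≤ 0
    have hk' : τ k ≤ τ h := hk
    rw [hx, hτ, hinv]
    linarith
  obtain ⟨p0, hp0', pm, hpm, e⟩ := split0 hQ1 h1
  refine ⟨h⁻¹, p0, hp0', pm, hpm, ?_, e⟩
  rintro rfl
  rw [zero_add] at e
  have h2 : (sg h⁻¹ 1 * p).coeff 1 = p.coeff h := by
    rw [MonoidAlgebra.coeff_single_mul_eq_mul_coeff (m₂ := h), one_mul]
    intro m' _
    constructor
    · intro hm
      exact (inv_mul_eq_one.mp hm).symm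
    · intro hm
      rw [hm, inv_mul_cancel]
  rw [e] at h2
  have h3 := hpm.2 1 (by rw [h2]; exact Finsupp.mem_support_iff.mp hh)
  have h4 : τ 1 < 0 := h3
  rw [hτ1] at h4
  exact lt_irrefl _ h4

theorem alg1 (x u s e : RA Q) : x * u * e - e = x * (u * e - s * e) + (x * (s * e) - e) := by
  rw [mul_sub, mul_assoc]; abel

/-- Undoing a nonzero multiplication. -/
theorem undo {K : Set (RA Q)} (hK : IsCone (⊤ : Subgroup Q) K) {a : RA Q} {S : Set Q}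
    (ha : a ∈ NN S) (ha0 : a ≠ 0) {k : RA Q} (hk : k ∈ K) :
    ∃ g ∈ S, ∃ c : ℝ, 0 < c ∧ sg g⁻¹ c * (a * k) - k ∈ K := by
  obtain ⟨g, hg, c, hc, a', ha', rfl⟩ := NN.split ha ha0
  refine ⟨g, hg, c⁻¹, inv_pos.mpr hc, ?_⟩
  have e : sg g⁻¹ c⁻¹ * ((sg g c + a') * k) - k = sg g⁻¹ c⁻¹ * (a' * k) := by
    have e1 : sg g⁻¹ c⁻¹ * (sg g c * k) = k := by
      rw [← mul_assoc, MonoidAlgebra.single_mul_single, inv_mul_cancel, inv_mul_cancel₀ hc.ne']
      exact one_mul k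
    rw [add_mul, mul_add, e1]; abel
  rw [e]
  exact hK.sgm _ (inv_pos.mpr hc).le (hK.nnm ha' hk)

theorem ore_T {K : Set (RA Q)} (hK : IsCone (⊤ : Subgroup Q) K) {p r : RA Q}
    (hp : p ∈ NN (Set.univ : Set Q)) (hr : r ∈ NN (Set.univ : Set Q)) (hp0 : p ≠ 0) (hr0 : r ≠ 0)
    (hpK : p ∈ K) (hrK : -r ∈ K) {τ : Q → ℝ} (hτ : ∀ g h, τ (g * h) = τ g + τ h)
    {Q1 : Subgroup Q} (hQ1 : ∀ g, g ∈ Q1 ↔ τ g = 0) (hO : OreRel Q1)
    (hN : IsNoetherianRing (suppRing Q1))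
    (hno : ∀ u ∈ NN {g : Q | τ g < 0}, u * (p - r) - (p - r) ∉ K) : False := by
  classical
  have hτ1 : τ 1 = 0 := by
    have := hτ 1 1
    rw [one_mul] at this
    linarith
  have hinv : ∀ g, τ g⁻¹ = -τ g := by
    intro g
    have := hτ g g⁻¹
    rw [mul_inv_cancel, hτ1] at this
    linarith
  have hnorm : ∀ q ∈ Q1, ∀ g : Q, g * q * g⁻¹ ∈ Q1 := by
    intro q hq g
    rw [hQ1] at hq ⊢
    rw [hτ, hτ, hinv, hq]; ring
  have hQ1sub : (Q1 : Set Q) ⊆ {g : Q | τ g ≤ 0} := fun g hg => ((hQ1 g).mp hg).le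
  obtain ⟨g, p0, hp0', pm, hpm, hp0ne, ep⟩ := norm1 hτ hQ1 hp hp0
  obtain ⟨g', r0, hr0', rm, hrm, hr0ne, er⟩ := norm1 hτ hQ1 hr hr0
  obtain ⟨s, hs, s', hs', hs0, hs'0, hss⟩ := hO p0 hp0' r0 hr0' hp0ne hr0ne
  set s0 := s * p0 with hs0def
  have hs0mem : s0 ∈ NN (Q1 : Set Q) := NN.mulH hs hp0'
  have hs0ne : s0 ≠ 0 := NN.mul_ne_zero hs hp0' hs0 hp0ne
  set Pm := s * pm with hPm
  set Rm := s' * rm with hRm
  have hmulneg : ∀ a ∈ (Q1 : Set Q), ∀ b ∈ {g : Q | τ g < 0}, a * b ∈ {g : Q | τ g < 0} := by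
    intro a ha b hb
    change τ (a * b) < 0
    rw [hτ, (hQ1 a).mp ha, zero_add]
    exact hb
  have hPmN : Pm ∈ NN {g : Q | τ g < 0} := NN.mul hs hpm hmulneg
  have hRmN : Rm ∈ NN {g : Q | τ g < 0} := NN.mul hs' hrm hmulneg
  set a := s * sg g 1 with ha
  set b := s' * sg g' 1 with hb
  have haN : a ∈ NN (Set.univ : Set Q) :=
    NN.mul hs (NN.sg_mem (Set.mem_univ g) zero_le_one) fun _ _ _ _ => Set.mem_univ _
  have hbN : b ∈ NN (Set.univ : Set Q) :=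
    NN.mul hs' (NN.sg_mem (Set.mem_univ g') zero_le_one) fun _ _ _ _ => Set.mem_univ _
  have hane : a ≠ 0 := by
    apply NN.ne_zero_of_aug
    rw [ha, NN.aug_mul, NN.aug_sg, mul_one]
    exact (NN.aug_pos hs hs0).ne'
  have hbne : b ≠ 0 := by
    apply NN.ne_zero_of_aug
    rw [hb, NN.aug_mul, NN.aug_sg, mul_one]
    exact (NN.aug_pos hs' hs'0).ne'
  set P := a * p with hPdef
  set R := b * r with hRdef
  have eP : P = s0 + Pm := by
    rw [hPdef, ha, mul_assoc, ep, mul_add]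
  have eR : R = s0 + Rm := by
    rw [hRdef, hb, mul_assoc, er, mul_add, ← hss]
  have hPK : P ∈ K := hK.nnm haN hpK
  have hRK : -R ∈ K := by
    have := hK.nnm hbN hrK
    rwa [mul_neg] at this
  set e := P - R with he
  have heK : e ∈ K := by
    rw [he, sub_eq_add_neg]; exact hK.add _ hPK _ hRK
  have hePR : e = Pm - Rm := by
    rw [he, eP, eR]; abel
  -- no small multiple dominates e
  have hnoe : ∀ u ∈ NN {g : Q | τ g < 0}, u * e - e ∉ K := by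
    intro u hu hue
    obtain ⟨g1, _, c1, hc1, h1⟩ := undo hK haN hane hpK
    obtain ⟨g2, _, c2, hc2, h2⟩ := undo hK hbN hbne hrK
    have hv1 : sg g1⁻¹ c1 + sg g2⁻¹ c2 ∈ NN ((⊤ : Subgroup Q) : Set Q) :=
      NN.add (NN.sg_mem (Subgroup.mem_top _) hc1.le) (NN.sg_mem (Subgroup.mem_top _) hc2.le)
    have hv2 : a + b ∈ NN ((⊤ : Subgroup Q) : Set Q) :=
      NN.add (NN.mono (fun _ _ => Subgroup.mem_top _) haN)
        (NN.mono (fun _ _ => Subgroup.mem_top _) hbN)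
    have hd1 : (sg g1⁻¹ c1 + sg g2⁻¹ c2) • e - (p - r) ∈ K := by
      have e1 : (sg g1⁻¹ c1 + sg g2⁻¹ c2) • e - (p - r) =
          (sg g1⁻¹ c1 * (a * p) - p) + (sg g2⁻¹ c2 * (b * -r) - -r) +
          (sg g1⁻¹ c1 * (-R) + sg g2⁻¹ c2 * P) := by
        rw [smul_eq_mul, he, hPdef, hRdef]
        simp only [add_mul, mul_sub, mul_neg, sub_neg_eq_add]
        abel
      rw [e1]
      exact hK.add _ (hK.add _ h1 _ h2) _
        (hK.add _ (hK.sgm _ hc1.le hRK) _ (hK.sgm _ hc2.le hPK))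
    have hd2 : (a + b) • (p - r) - e ∈ K := by
      have e1 : (a + b) • (p - r) - e = a * (-r) + b * p := by
        rw [smul_eq_mul, he, hPdef, hRdef]
        simp only [add_mul, mul_sub, mul_neg]
        abel
      rw [e1]
      exact hK.add _ (hK.nnm haN hrK) _ (hK.nnm hbN hpK)
    have hu' : u ∈ NN {g : Q | g ∈ (⊤ : Subgroup Q) ∧ τ g < 0} :=
      NN.mono (S := {g : Q | τ g < 0}) (S' := {g : Q | g ∈ (⊤ : Subgroup Q) ∧ τ g < 0})
        (fun g hg => ⟨Subgroup.mem_top g, hg⟩) hu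
    obtain ⟨w, hw, hwy⟩ := transfer (C := RA Q) hK (fun g _ h _ => hτ g h) hu' hue hv1 hv2 hd1 hd2 0
    refine hno w (NN.mono (S := {g : Q | g ∈ (⊤ : Subgroup Q) ∧ τ g < -0}) ?_ hw) hwy
    intro x hx
    have hx2 : τ x < -0 := hx.2
    rw [neg_zero] at hx2
    exact hx2
  -- hulls
  set C0 := Hull K e {g : Q | τ g ≤ 0} with hC0
  set Cm := Hull K e {g : Q | τ g < 0} with hCm
  have hPC0 : P ∈ C0 := by
    refine ⟨1, NN.one_mem (by change τ 1 ≤ 0; rw [hτ1]), ?_, ?_⟩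
    · rw [one_mul, he, sub_sub_cancel_left]; exact hRK
    · rw [one_mul]; exact hK.add _ heK _ hPK
  have hmul1 : ∀ a ∈ {g : Q | τ g < 0}, ∀ b ∈ {g : Q | τ g ≤ 0}, a * b ∈ {g : Q | τ g < 0} := by
    intro a ha b hb
    change τ (a * b) < 0
    have h1 : τ a < 0 := ha
    have h2 : τ b ≤ 0 := hb
    rw [hτ]; linarith
  have hmul2 : ∀ a ∈ (Q1 : Set Q), ∀ b ∈ {g : Q | τ g ≤ 0}, a * b ∈ {g : Q | τ g ≤ 0} := by
    intro a ha b hb
    change τ (a * b) ≤ 0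
    rw [hτ, (hQ1 a).mp ha, zero_add]
    exact hb
  have hneg0 : {g : Q | τ g < 0} ⊆ {g : Q | τ g ≤ 0} := by
    intro g hg
    have h1 : τ g < 0 := hg
    exact h1.le
  have hCmC0 : Cm ⊆ C0 := fun m hm => Hull.mono hneg0 hm
  have hnot : ∀ s ∈ NN (Q1 : Set Q), s ≠ 0 → s * e ∉ Cm := by
    rintro s hs hs0 ⟨u, hu, h1, _⟩
    obtain ⟨g, hg, c, hc, h2⟩ := undo hK hs hs0 heK
    refine hnoe (sg g⁻¹ c * u) ?_ ?_
    · exact NN.mul (S := (Q1 : Set Q)) (NN.sg_mem (Q1.inv_mem hg) hc.le) hu hmulneg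
    · rw [alg1 (sg g⁻¹ c) u s e]
      exact hK.add _ (hK.sgm _ hc.le h1) _ h2
  set E : Finset Q := Pm.coeff.support ∪ Rm.coeff.support with hE
  have hEneg : ∀ x ∈ E, τ x < 0 := by
    intro x hx
    rcases Finset.mem_union.mp hx with h | h
    · exact hPmN.2 x (Finsupp.mem_support_iff.mp h)
    · exact hRmN.2 x (Finsupp.mem_support_iff.mp h)
  have hPmE : SI (E : Set Q) Pm := fun g hg =>
    Finset.mem_union_left _ (Finsupp.mem_support_iff.mpr hg)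
  have hRmE : SI (E : Set Q) Rm := fun g hg =>
    Finset.mem_union_right _ (Finsupp.mem_support_iff.mpr hg)
  have hPSleft : ∀ J, ∀ q ∈ Q1, ∀ x ∈ PS Q1 E J, q * x ∈ PS Q1 E J := by
    intro J
    induction J with
    | zero => intro q hq x hx; exact Q1.mul_mem hq hx
    | succ J ih =>
      rintro q hq x ⟨z, hz, d, hd, rfl⟩
      exact ⟨q * z, ih q hq z hz, d, hd, by rw [mul_assoc]⟩
  have hPSle : ∀ J, ∀ x ∈ PS Q1 E J, τ x ≤ 0 := by
    intro J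
    induction J with
    | zero => intro x hx; exact ((hQ1 x).mp hx).le
    | succ J ih =>
      rintro x ⟨z, hz, d, hd, rfl⟩
      rw [hτ]
      have := ih z hz
      have := hEneg d hd
      linarith
  have hPSneg : ∀ J, ∀ x ∈ PS Q1 E (J + 1), τ x < 0 := by
    rintro J x ⟨z, hz, d, hd, rfl⟩
    rw [hτ]
    have := hPSle J z hz
    have := hEneg d hd
    linarith
  -- the sequence
  have hstep : ∀ J : ℕ, ∀ w : RA Q, (SI (PS Q1 E (J + 1)) w ∧ w ∈ C0 ∧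
      ∀ s ∈ NN (Q1 : Set Q), s ≠ 0 → s * w ∉ Cm) →
      ∃ w' : RA Q, SI (PS Q1 E (J + 2)) w' ∧ w' ∈ C0 ∧
      ∀ s ∈ NN (Q1 : Set Q), s ≠ 0 → s * w' ∉ Cm := by
    rintro J w ⟨hw1, hw2, hw3⟩
    obtain ⟨s, hs, hs0, v, hv, hsv⟩ := good hnorm hO hs0mem hs0ne (hPSleft (J + 1)) hw1
    have hvneg : SI {g : Q | τ g < 0} v := SI.mono (hPSneg J) hv
    have hvP : v * P ∈ Cm := Hull.smul hK hPC0 hvneg hmul1
    refine ⟨s * w - v * P, ?_, ?_, ?_⟩
    · have e1 : s * w - v * P = -(v * Pm) := by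
        rw [hsv, eP, mul_add]; abel
      rw [e1]
      apply SI.neg
      exact SI.mul hv hPmE fun z hz d hd => ⟨z, hz, d, hd, rfl⟩
    · rw [sub_eq_add_neg]
      exact Hull.add hK (Hull.smul hK hw2 (SI.of_NN hs) hmul2) (Hull.neg (hCmC0 hvP))
    · intro s2 hs2 hs20 hcon
      apply hw3 (s2 * s) (NN.mulH hs2 hs) (NN.mul_ne_zero hs2 hs hs20 hs0)
      have e1 : s2 * s * w = s2 * (s * w - v * P) + (s2 * v) * P := by
        rw [mul_sub, mul_assoc, mul_assoc]; abel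
      rw [e1]
      refine Hull.add hK hcon (Hull.smul hK hPC0 (SI.mul (SI.of_NN hs2) hvneg hmulneg) hmul1)
  have hbase : SI (PS Q1 E 1) e ∧ e ∈ C0 ∧ ∀ s ∈ NN (Q1 : Set Q), s ≠ 0 → s * e ∉ Cm := by
    refine ⟨?_, ?_, hnot⟩
    · have h1 : (E : Set Q) ⊆ PS Q1 E 1 := fun x hx => ⟨1, Q1.one_mem, x, hx, (one_mul x).symm⟩
      rw [hePR]
      exact SI.mono h1 (SI.sub hPmE hRmE)
    · refine ⟨1, NN.one_mem (by change τ 1 ≤ 0; rw [hτ1]), ?_, ?_⟩
      · rw [one_mul, sub_self]; exact hK.zero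
      · rw [one_mul]; exact hK.add _ heK _ heK
  let good' : ℕ → RA Q → Prop := fun J w => SI (PS Q1 E (J + 1)) w ∧ w ∈ C0 ∧
      ∀ s ∈ NN (Q1 : Set Q), s ≠ 0 → s * w ∉ Cm
  let seq : (J : ℕ) → {w : RA Q // good' J w} := fun J =>
    Nat.rec ⟨e, hbase⟩ (fun J w => ⟨(hstep J w.1 w.2).choose, (hstep J w.1 w.2).choose_spec⟩) J
  let w : ℕ → RA Q := fun J => match J with
    | 0 => 0
    | (J + 1) => (seq J).1
  have hwsucc : ∀ J, good' J (w (J + 1)) := fun J => (seq J).2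
  have hw0 : w 0 = 0 := rfl
  obtain ⟨J, β, hβ, hrel⟩ := artin_rees τ hτ Q1 hQ1 hN E hEneg w (by
    intro J
    cases J with
    | zero => intro g hg; rw [hw0] at hg; exact absurd rfl hg
    | succ J => exact (hwsucc J).1)
  have hwC0 : ∀ i, w i ∈ C0 := by
    intro i
    cases i with
    | zero => rw [hw0]; exact Hull.zero hK _
    | succ i => exact (hwsucc i).2.1
  have hmem : w (J + 1) ∈ Cm := by
    rw [hrel]
    have : ∀ s : Finset ℕ, ∑ i ∈ s, β i * w i ∈ Cm := by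
      intro s
      induction s using Finset.induction_on with
      | empty => simpa using Hull.zero hK _
      | insert i s hi ih =>
        rw [Finset.sum_insert hi]
        exact Hull.add hK (Hull.smul hK (hwC0 i) (hβ i) hmul1) ih
    exact this _
  refine (hwsucc J).2.2 1 (NN.one_mem Q1.one_mem) one_ne_zero ?_
  rw [one_mul]
  exact hmem

end Pool.Agent.MP_22afe8_al
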