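import Mathlib
import Pool.Agent.Work.MP_22afe8_al.Defs

set_option autoImplicit false

namespace Pool.Agent.MP_22afe8_al

section gen

variable {A : Type} [Ring A] [Algebra ℝ A] {M : Type} [AddCommGroup M] [Module A M]

/-- The ascending series killed by the augmentation ideal. -/
def UU (ε : A →+* ℝ) : ℕ → Submodule A M
  | 0 => ⊥
  | (k + 1) =>
    { carrier := {m | ∀ a : A, ε a = 0 → a • m ∈ UU ε k}
      zero_mem' := by
        intro a _
        rw [smul_zero]
        exact (UU ε k).zero_mem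
      add_mem' := by
        intro x y hx hy a ha
        rw [smul_add]
        exact (UU ε k).add_mem (hx a ha) (hy a ha)
      smul_mem' := by
        intro r x hx a ha
        rw [smul_smul]
        refine hx (a * r) ?_
        rw [map_mul, ha, zero_mul] }

theorem mem_UU_succ (ε : A →+* ℝ) (k : ℕ) (m : M) :
    m ∈ UU (M := M) ε (k + 1) ↔ ∀ a : A, ε a = 0 → a • m ∈ UU (M := M) ε k := Iff.rfl

/-- if multiplication by `d` commutes with `A` on `W` and its kernel is small then
elements whose image is small are small -/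
theorem UU_step (ε : A →+* ℝ) (W : Submodule A M) (d : A)
    (hd : ∀ a : A, ∀ w ∈ W, d • a • w = a • d • w) (k1 : ℕ)
    (hk1 : ∀ w ∈ W, d • w = 0 → w ∈ UU (M := M) ε k1) (k : ℕ) :
    ∀ w ∈ W, d • w ∈ UU (M := M) ε k → w ∈ UU (M := M) ε (k1 + k) := by
  induction k with
  | zero =>
    intro w hw h
    exact hk1 w hw h
  | succ k ih =>
    intro w hw h
    show w ∈ UU (M := M) ε ((k1 + k) + 1)
    rw [mem_UU_succ]
    intro a ha
    refine ih (a • w) (W.smul_mem a hw) ?_
    rw [hd a w hw]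
    exact h a ha

/-- The linear endomorphism of `W` given by a commuting element. -/
def thetaW (W : Submodule A M) (d : A)
    (hd : ∀ a : A, ∀ w ∈ W, d • a • w = a • d • w) : Module.End A W where
  toFun w := ⟨d • (w : M), W.smul_mem d w.2⟩
  map_add' x y := by
    apply Subtype.ext
    simp [smul_add]
  map_smul' a x := by
    apply Subtype.ext
    simp only [RingHom.id_apply, Submodule.coe_smul]
    exact hd a x x.2

theorem thetaW_pow_zero [IsNoetherian A M] (y : M)
    (hess : ∀ L : Submodule A M, L ≠ ⊥ → y ∈ L) (W : Submodule A M) (d : A)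
    (hdy : d • y = 0) (hy : y ≠ 0)
    (hd : ∀ a : A, ∀ w ∈ W, d • a • w = a • d • w) :
    ∃ n : ℕ, (thetaW W d hd) ^ n = 0 := by
  obtain ⟨n, hn⟩ := Filter.eventually_atTop.mp
    (Module.End.eventually_disjoint_ker_pow_range_pow (thetaW W d hd))
  refine ⟨n + 1, ?_⟩
  have hdis := hn (n + 1) (Nat.le_succ n)
  by_contra hne
  have hr : LinearMap.range ((thetaW W d hd) ^ (n + 1)) ≠ ⊥ := by
    intro h
    exact hne (LinearMap.range_eq_bot.mp h)
  have hL : (LinearMap.range ((thetaW W d hd) ^ (n + 1))).map W.subtype ≠ ⊥ := by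
    intro h
    apply hr
    rw [eq_bot_iff]
    intro x hx
    have hx2 : W.subtype x ∈ (LinearMap.range ((thetaW W d hd) ^ (n + 1))).map W.subtype :=
      Submodule.mem_map_of_mem hx
    rw [h, Submodule.mem_bot] at hx2
    exact (Submodule.mem_bot _).mpr (Subtype.ext hx2)
  obtain ⟨y', hy', hyy⟩ := hess _ hL
  have hk : y' ∈ LinearMap.ker ((thetaW W d hd) ^ (n + 1)) := by
    rw [LinearMap.mem_ker, pow_succ, Module.End.mul_apply]
    have : thetaW W d hd y' = 0 := by
      apply Subtype.ext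
      show d • (y' : M) = 0
      have : (y' : M) = y := hyy
      rw [this, hdy]
    rw [this, map_zero]
  have := (Submodule.disjoint_def.mp hdis) y' hk hy'
  apply hy
  rw [← hyy, this]
  rfl

theorem UU_of_pow (ε : A →+* ℝ) (W : Submodule A M) (d : A)
    (hd : ∀ a : A, ∀ w ∈ W, d • a • w = a • d • w) (k1 : ℕ)
    (hk1 : ∀ w ∈ W, d • w = 0 → w ∈ UU (M := M) ε k1) (n : ℕ) :
    ∃ k, ∀ w : W, ((thetaW W d hd) ^ n) w = 0 → (w : M) ∈ UU (M := M) ε k := by
  induction n with
  | zero =>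
    refine ⟨0, ?_⟩
    intro w hw
    rw [pow_zero, Module.End.one_apply] at hw
    rw [hw]
    exact Submodule.zero_mem _
  | succ n ih =>
    obtain ⟨k, hk⟩ := ih
    refine ⟨k1 + k, ?_⟩
    intro w hw
    rw [pow_succ, Module.End.mul_apply] at hw
    exact UU_step ε W d hd k1 hk1 k w w.2 (hk _ hw)

/-- One adjoining step. -/
theorem step_one [IsNoetherian A M] (ε : A →+* ℝ) (y : M)
    (hess : ∀ L : Submodule A M, L ≠ ⊥ → y ∈ L) (hy : y ≠ 0) (W : Submodule A M) (d : A)
    (hdy : d • y = 0)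
    (hd : ∀ a : A, ∀ w ∈ W, d • a • w = a • d • w)
    (hk : ∀ W' : Submodule A M, W' ≤ W → (∀ w ∈ W', d • w = 0) →
      ∃ k, W' ≤ UU (M := M) ε k) : ∃ k, W ≤ UU (M := M) ε k := by
  obtain ⟨n, hn⟩ := thetaW_pow_zero y hess W d hdy hy hd
  obtain ⟨k1, hk1⟩ := hk ((LinearMap.ker (thetaW W d hd)).map W.subtype)
    (by
      intro w hw
      obtain ⟨w', _, rfl⟩ := hw
      exact w'.2)
    (by
      intro w hw
      obtain ⟨w', hw', rfl⟩ := hw
      have := congrArg Subtype.val (LinearMap.mem_ker.mp hw')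
      exact this)
  obtain ⟨k, hk⟩ := UU_of_pow ε W d hd k1 (by
    intro w hw h0
    apply hk1
    refine ⟨⟨w, hw⟩, ?_, rfl⟩
    rw [SetLike.mem_coe, LinearMap.mem_ker]
    apply Subtype.ext
    exact h0) n
  refine ⟨k, ?_⟩
  intro w hw
  refine hk ⟨w, hw⟩ ?_
  rw [hn]
  rfl

theorem UU_final (ε : A →+* ℝ) (hε : ∀ c : ℝ, ε (algebraMap ℝ A c) = c) (p : A) (hp : ε p ≠ 0)
    (k : ℕ) : ∀ m ∈ UU (M := M) ε k, p • m = 0 → m = 0 := by
  induction k with
  | zero =>
    intro m hm _
    exact hm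
  | succ k ih =>
    intro m hm h0
    refine ih m ?_ h0
    have h1 := (mem_UU_succ ε k m).mp hm (p - algebraMap ℝ A (ε p)) (by
      rw [map_sub, hε, sub_self])
    rw [sub_smul, h0, zero_sub] at h1
    have h2 := (UU (M := M) ε k).smul_mem (-(algebraMap ℝ A (ε p)⁻¹)) h1
    rw [smul_neg, neg_smul, neg_neg, smul_smul, ← map_mul, inv_mul_cancel₀ hp, map_one,
      one_smul] at h2
    exact h2

end gen

section grp

variable {Q : Type} [Group Q] {M : Type} [AddCommGroup M] [Module (RA Q) M]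

theorem algebraMap_eq_sg (c : ℝ) : algebraMap ℝ (RA Q) c = sg (1 : Q) c := by
  simp [sg]

theorem sg_mul (g h : Q) (a b : ℝ) : sg g a * sg h b = sg (g * h) (a * b) := by
  simp [sg, MonoidAlgebra.single_mul_single]

/-- The element `g - χ g`. -/
noncomputable def dd (χ : Q → ℝ) (g : Q) : RA Q := sg g 1 - sg (1 : Q) (χ g)

theorem sg_inj_of_smul (y : M) (hy : y ≠ 0) (a b : ℝ)
    (h : sg (1 : Q) a • y = sg (1 : Q) b • y) : a = b := by
  by_contra hne
  have h1 : sg (1 : Q) (a - b) • y = 0 := by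
    have : sg (1 : Q) (a - b) = sg (1 : Q) a - sg (1 : Q) b := by
      rw [← algebraMap_eq_sg, ← algebraMap_eq_sg, ← algebraMap_eq_sg, map_sub]
    rw [this, sub_smul, h, sub_self]
  have h2 : sg (1 : Q) (a - b)⁻¹ • sg (1 : Q) (a - b) • y = y := by
    rw [smul_smul, sg_mul, inv_mul_cancel₀ (sub_ne_zero.mpr hne), mul_one,
      ← algebraMap_eq_sg, map_one, one_smul]
  rw [h1, smul_zero] at h2
  exact hy h2.symm

theorem chi_mul (χ : Q → ℝ) (y : M) (hy : y ≠ 0)
    (hχ : ∀ g, sg g 1 • y = sg (1 : Q) (χ g) • y) (g h : Q) : χ (g * h) = χ g * χ h := by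
  apply sg_inj_of_smul (Q := Q) y hy
  rw [← hχ (g * h)]
  have h1 : sg (g * h) (1 : ℝ) = sg g 1 * sg h 1 := by
    rw [sg_mul, one_mul]
  rw [h1, mul_smul, hχ h, smul_smul]
  have h2 : sg g (1 : ℝ) * sg (1 : Q) (χ h) = sg (1 : Q) (χ h) * sg g 1 := by
    rw [sg_mul, sg_mul, mul_one, one_mul, one_mul, mul_one]
  rw [h2, mul_smul, hχ g, smul_smul, sg_mul, one_mul, mul_comm]

theorem chi_one (χ : Q → ℝ) (y : M) (hy : y ≠ 0)
    (hχ : ∀ g, sg g 1 • y = sg (1 : Q) (χ g) • y) : χ 1 = 1 := by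
  apply sg_inj_of_smul (Q := Q) y hy
  exact (hχ 1).symm

/-- The character as a monoid homomorphism. -/
def chiHom (χ : Q → ℝ) (h1 : χ 1 = 1) (hm : ∀ g h, χ (g * h) = χ g * χ h) : Q →* ℝ where
  toFun := χ
  map_one' := h1
  map_mul' := hm

/-- The augmentation. -/
noncomputable def aug (χ : Q → ℝ) (h1 : χ 1 = 1) (hm : ∀ g h, χ (g * h) = χ g * χ h) :
    RA Q →ₐ[ℝ] ℝ := MonoidAlgebra.lift ℝ ℝ Q (chiHom χ h1 hm)

theorem aug_single (χ : Q → ℝ) (h1 : χ 1 = 1) (hm : ∀ g h, χ (g * h) = χ g * χ h) (g : Q)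
    (c : ℝ) : aug χ h1 hm (sg g c) = c * χ g := by
  simp [aug, sg, chiHom]

theorem aug_eq (χ : Q → ℝ) (h1 : χ 1 = 1) (hm : ∀ g h, χ (g * h) = χ g * χ h) (p : RA Q) :
    aug χ h1 hm p = p.coeff.sum fun g c => c * χ g := by
  classical
  simp [aug, MonoidAlgebra.lift_apply, chiHom]

/-- Elements are combinations of `dd` modulo scalars. -/
theorem ker_aug_span (χ : Q → ℝ) (h1 : χ 1 = 1) (hm : ∀ g h, χ (g * h) = χ g * χ h) (p : RA Q) :
    p - sg (1 : Q) (aug χ h1 hm p) ∈ Submodule.span (RA Q) (Set.range (dd χ)) := by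
  induction p using MonoidAlgebra.induction_linear with
  | zero =>
    rw [map_zero, ← algebraMap_eq_sg, map_zero, sub_zero]
    exact Submodule.zero_mem _
  | add f g hf hg =>
    have : f + g - sg (1 : Q) (aug χ h1 hm (f + g)) =
      (f - sg (1 : Q) (aug χ h1 hm f)) + (g - sg (1 : Q) (aug χ h1 hm g)) := by
      rw [map_add, ← algebraMap_eq_sg, ← algebraMap_eq_sg, ← algebraMap_eq_sg, map_add]
      abel
    rw [this]
    exact Submodule.add_mem _ hf hg
  | single g c =>
    have : MonoidAlgebra.single g c - sg (1 : Q) (aug χ h1 hm (MonoidAlgebra.single g c)) =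
      sg (1 : Q) c * dd χ g := by
      have h2 : aug χ h1 hm (MonoidAlgebra.single g c) = c * χ g := aug_single χ h1 hm g c
      rw [h2, dd, mul_sub, sg_mul, sg_mul, one_mul, one_mul, mul_one]
    rw [this]
    exact Submodule.smul_mem _ _ (Submodule.subset_span ⟨g, rfl⟩)

theorem chi_comm (χ : Q → ℝ) (h1 : χ 1 = 1) (hm : ∀ g h, χ (g * h) = χ g * χ h) (g h : Q) :
    χ (g⁻¹ * h⁻¹ * g * h) = 1 := by
  have h2 : ∀ g, χ g⁻¹ * χ g = 1 := by
    intro g
    rw [← hm, inv_mul_cancel, h1]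
  rw [hm, hm, hm]
  calc χ g⁻¹ * χ h⁻¹ * χ g * χ h = (χ g⁻¹ * χ g) * (χ h⁻¹ * χ h) := by ring
    _ = 1 := by rw [h2, h2, one_mul]

/-- `dd z` commutes with the group algebra on modules where commutators with `z` act trivially -/
theorem dd_comm (χ : Q → ℝ) (h1 : χ 1 = 1) (hm : ∀ g h, χ (g * h) = χ g * χ h)
    (W : Submodule (RA Q) M) (X : Set Q) (hX : ∀ x ∈ X, ∀ w ∈ W, dd χ x • w = 0) (z : Q)
    (hz : ∀ g, z⁻¹ * g⁻¹ * z * g ∈ X) :
    ∀ a : RA Q, ∀ w ∈ W, dd χ z • a • w = a • dd χ z • w := by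
  intro a w hw
  induction a using MonoidAlgebra.induction_linear with
  | zero => simp
  | add f g hf hg =>
    rw [add_smul, smul_add, hf, hg, add_smul]
  | single g c =>
    have h3 := hX _ (hz g) w hw
    rw [dd, chi_comm χ h1 hm, sub_smul] at h3
    have h4 : sg (z⁻¹ * g⁻¹ * z * g) (1 : ℝ) • w = w := by
      have h5 := sub_eq_zero.mp h3
      rw [h5, ← algebraMap_eq_sg, map_one, one_smul]
    have h6 : sg z (1 : ℝ) * sg g c = sg g c * sg z 1 * sg (z⁻¹ * g⁻¹ * z * g) 1 := by
      rw [sg_mul, sg_mul, sg_mul, mul_one, mul_one, one_mul]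
      congr 1
      group
    have h7 : sg (1 : Q) (χ z) * sg g c = sg g c * sg (1 : Q) (χ z) := by
      rw [sg_mul, sg_mul, one_mul, mul_one, mul_comm]
    show dd χ z • sg g c • w = sg g c • dd χ z • w
    rw [dd, smul_smul, smul_smul, sub_mul, mul_sub, sub_smul, sub_smul, h6, h7, mul_smul _ _ w, h4]

/-- A module killed by all `dd z`, `z ∈ T`, is killed by the left ideal they span. -/
theorem killed_of_span (χ : Q → ℝ) (W : Submodule (RA Q) M) (T S : Set (RA Q))
    (hT : ∀ t ∈ T, ∀ w ∈ W, t • w = 0)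
    (hS : Submodule.span (RA Q) S ≤ Submodule.span (RA Q) T) :
    ∀ t ∈ S, ∀ w ∈ W, t • w = 0 := by
  have key : ∀ t ∈ Submodule.span (RA Q) T, ∀ w ∈ W, t • w = 0 := by
    intro t ht
    induction ht using Submodule.span_induction with
    | mem x hx => exact hT x hx
    | zero => intro w _; exact zero_smul _ w
    | add x y _ _ hx hy => intro w hw; rw [add_smul, hx w hw, hy w hw, add_zero]
    | smul a x _ hx => intro w hw; rw [smul_eq_mul, mul_smul, hx w hw, smul_zero]
  intro t ht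
  exact key t (hS (Submodule.subset_span ht))

theorem finset_step [IsNoetherian (RA Q) M] (χ : Q → ℝ) (h1 : χ 1 = 1)
    (hm : ∀ g h, χ (g * h) = χ g * χ h) (ε : RA Q →+* ℝ) (y : M)
    (hess : ∀ L : Submodule (RA Q) M, L ≠ ⊥ → y ∈ L) (hy : y ≠ 0)
    (hdy : ∀ g, dd χ g • y = 0) (X : Set Q) (S : Finset Q)
    (hS : ∀ z ∈ S, ∀ g, z⁻¹ * g⁻¹ * z * g ∈ X) :
    ∀ W : Submodule (RA Q) M, (∀ x ∈ X, ∀ w ∈ W, dd χ x • w = 0) →
      (∀ W' : Submodule (RA Q) M, W' ≤ W → (∀ z ∈ S, ∀ w ∈ W', dd χ z • w = 0) →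
        ∃ k, W' ≤ UU (M := M) ε k) → ∃ k, W ≤ UU (M := M) ε k := by
  classical
  induction S using Finset.induction_on with
  | empty =>
    intro W _ h
    exact h W le_rfl (by simp)
  | insert z S hz ih =>
    intro W hW h
    refine ih (fun z' hz' => hS z' (Finset.mem_insert_of_mem hz')) W hW ?_
    intro W' hW' hk
    have hX' : ∀ x ∈ X, ∀ w ∈ W', dd χ x • w = 0 := fun x hx w hw => hW x hx w (hW' hw)
    refine step_one ε y hess hy W' (dd χ z) (hdy z)
      (dd_comm χ h1 hm W' X hX' z (hS z (Finset.mem_insert_self z S))) ?_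
    intro W'' hW'' hz''
    refine h W'' (hW''.trans hW') ?_
    intro z' hz' w hw
    rcases Finset.mem_insert.mp hz' with h' | h'
    · rw [h']; exact hz'' w hw
    · exact hk z' h' w (hW'' hw)

end grp

theorem nil_ess {Q : Type} [Group Q] (hQ : Group.IsNilpotent Q) (hA : IsNoetherianRing (RA Q))
    {M : Type} [AddCommGroup M] [Module (RA Q) M] (hM : IsNoetherian (RA Q) M)
    (χ : Q → ℝ) (y : M) (hy : y ≠ 0) (hχ : ∀ g, sg g 1 • y = sg (1 : Q) (χ g) • y)
    (hess : ∀ L : Submodule (RA Q) M, L ≠ ⊥ → y ∈ L)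
    (p : RA Q) (hp : (p.coeff.sum fun g c => c * χ g) ≠ 0) (m : M) (hm : p • m = 0) : m = 0 := by
  classical
  have h1 := chi_one χ y hy hχ
  have hmul := chi_mul χ y hy hχ
  have hdy : ∀ g, dd χ g • y = 0 := by
    intro g
    rw [dd, sub_smul, hχ g, sub_self]
  have claim : ∀ j i : ℕ, i + j = Group.nilpotencyClass Q → ∀ W : Submodule (RA Q) M,
      (∀ z ∈ (Subgroup.upperCentralSeries Q i : Set Q), ∀ w ∈ W, dd χ z • w = 0) →
      ∃ k, W ≤ UU (M := M) (aug χ h1 hmul : RA Q →+* ℝ) k := by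
    intro j
    induction j with
    | zero =>
      intro i hi W hW
      refine ⟨1, ?_⟩
      intro w hw
      rw [mem_UU_succ]
      intro a ha
      have ha' : aug χ h1 hmul a = 0 := ha
      have hk := killed_of_span χ W (Set.range (dd χ)) {a} (by
          rintro t ⟨z, rfl⟩
          refine hW z ?_
          rw [add_zero] at hi
          rw [hi, Subgroup.upperCentralSeries_nilpotencyClass]
          exact Subgroup.mem_top z)
        (by
          rw [Submodule.span_le]
          intro b hb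
          rw [Set.mem_singleton_iff] at hb
          rw [hb]
          have := ker_aug_span χ h1 hmul a
          rw [ha', ← algebraMap_eq_sg, map_zero, sub_zero] at this
          exact this)
      have := hk a rfl w hw
      rw [this]
      exact Submodule.zero_mem _
    | succ j ih =>
      intro i hi W hW
      have ih' := ih (i + 1) (by omega)
      have hfg : (Submodule.span (RA Q)
          (dd χ '' (Subgroup.upperCentralSeries Q (i + 1) : Set Q))).FG :=
        IsNoetherian.noetherian _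
      obtain ⟨s', hs', hspan⟩ := (Submodule.fg_span_iff_fg_span_finset_subset _).mp hfg
      obtain ⟨T, hT, rfl⟩ := Finset.subset_set_image_iff.mp hs'
      refine finset_step χ h1 hmul _ y hess hy hdy _ T ?_ W hW ?_
      · intro z hz g
        have hz' := hT hz
        have := (Subgroup.mem_upperCentralSeries_succ_iff.mp
          ((Subgroup.upperCentralSeries Q (i + 1)).inv_mem hz')) g⁻¹
        rw [commutatorElement_def, inv_inv, inv_inv] at this
        exact this
      · intro W' _ hk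
        refine ih' W' ?_
        intro z hz w hw
        refine killed_of_span χ W' ((T.image (dd χ) : Finset (RA Q)) : Set (RA Q))
          (dd χ '' (Subgroup.upperCentralSeries Q (i + 1) : Set Q)) ?_ hspan.le _
          ⟨z, hz, rfl⟩ w hw
        intro t ht
        rw [Finset.coe_image] at ht
        obtain ⟨z', hz', rfl⟩ := ht
        exact hk z' hz'
  obtain ⟨k, hk⟩ := claim (Group.nilpotencyClass Q) 0 (zero_add _) ⊤ (by
    intro z hz w _
    have : z = 1 := by
      rw [Subgroup.upperCentralSeries_zero] at hz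
      exact hz
    rw [this, dd, h1, sub_self, zero_smul])
  refine UU_final (aug χ h1 hmul : RA Q →+* ℝ) ?_ p ?_ k m (hk trivial) hm
  · intro c
    exact (aug χ h1 hmul).commutes c
  · intro h
    apply hp
    rw [← aug_eq χ h1 hmul]
    exact h

end Pool.Agent.MP_22afe8_al
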