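import Mathlib
import Pool.Agent.Work.MP_22afe8_al.OreA
import Pool.Agent.Work.MP_22afe8_al.M6

set_option autoImplicit false

namespace Pool.Agent.MP_22afe8_al

variable {Q : Type} [Group Q]

theorem sg_one_comm (c : ℝ) (x : RA Q) : x * sg (1 : Q) c = sg (1 : Q) c * x := by
  refine MonoidAlgebra.induction_linear x ?_ ?_ ?_
  · simp
  · intro a b ha hb
    rw [add_mul, mul_add, ha, hb]
  · intro m r
    rw [MonoidAlgebra.single_mul_single, MonoidAlgebra.single_mul_single, mul_one, one_mul,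
      mul_comm]

theorem sg_one_smul_comm {M : Type} [AddCommGroup M] [Module (RA Q) M] (c : ℝ) (x : RA Q) (m : M) :
    x • sg (1 : Q) c • m = sg (1 : Q) c • x • m := by
  rw [smul_smul, smul_smul, sg_one_comm]

theorem ore_A (hQ : Group.IsNilpotent Q) (hA : IsNoetherianRing (RA Q))
    (D C : Submodule (RA Q) (RA Q)) (KC : Set C) (y : C) (φ : C → ℝ)
    (hφ : Eig (⊤ : Subgroup Q) KC y φ) (hD : ∀ m : C, (m : RA Q) ∈ D ↔ φ m = 0)
    (p r : C) (hp : (p : RA Q) ∈ NN (Set.univ : Set Q)) (hr : (r : RA Q) ∈ NN (Set.univ : Set Q))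
    (hp0 : (p : RA Q) ≠ 0) (hr0 : (r : RA Q) ≠ 0) (hφp : 0 ≤ φ p) (hφr : φ r ≤ 0)
    (hyy : φ y = φ p - φ r)
    (hess : ∀ L : Submodule (RA Q) (RA Q), ¬ L ≤ D → ∃ l : C, (l : RA Q) ∈ L ∧ 0 < φ l) :
    False := by
  classical
  set yb : RA Q ⧸ D := Submodule.Quotient.mk (y : RA Q) with hyb
  have hkey : ∀ m : C, (Submodule.Quotient.mk (m : RA Q) : RA Q ⧸ D) =
      sg (1 : Q) (φ m / φ y) • yb := by
    intro m
    have h1 : ((m - sg (1 : Q) (φ m / φ y) • y : C) : RA Q) ∈ D := by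
      rw [hD, hφ.sub, hφ.scal, div_mul_cancel₀ _ hφ.pos.ne', sub_self]
    have h2 : (Submodule.Quotient.mk (m : RA Q) : RA Q ⧸ D) =
        Submodule.Quotient.mk (sg (1 : Q) (φ m / φ y) • (y : RA Q)) := by
      rw [Submodule.Quotient.eq]
      simpa using h1
    rw [h2, Submodule.Quotient.mk_smul]
  have hy0 : yb ≠ 0 := by
    intro h
    rw [hyb, Submodule.Quotient.mk_eq_zero, hD] at h
    exact hφ.pos.ne' h
  have hcan : ∀ c : ℝ, sg (1 : Q) c • yb = 0 → c = 0 := by
    intro c hc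
    by_contra hc0
    apply hy0
    have : yb = sg (1 : Q) c⁻¹ • sg (1 : Q) c • yb := by
      rw [← sg_one_mul, inv_mul_cancel₀ hc0, sg_one_one]
    rw [this, hc, smul_zero]
  have hcan2 : ∀ a b : ℝ, sg (1 : Q) a • yb = sg (1 : Q) b • yb → a = b := by
    intro a b h
    have := hcan (a - b) (by rw [sg_one_sub, h, sub_self])
    linarith
  set X : RA Q → ℝ := fun u => u.coeff.sum fun g c => c * chi φ y g with hX
  have hXφ : ∀ u : RA Q, φ (u • y) = X u * φ y := by
    intro u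
    conv_lhs => rw [NN.decomp u]
    rw [Finset.sum_smul, hφ.sum, hX]
    simp only [Finsupp.sum]
    rw [Finset.sum_mul]
    refine Finset.sum_congr rfl ?_
    intro g _
    rw [hφ.smul (Subgroup.mem_top g)]
  have hXpos : ∀ u : RA Q, u ∈ NN (Set.univ : Set Q) → u ≠ 0 → 0 < X u := by
    intro u hu hu0
    obtain ⟨g, hg⟩ := Finsupp.ne_iff.mp (fun h => hu0 (MonoidAlgebra.coeff_eq_zero.mp h))
    rw [hX]
    simp only [Finsupp.sum]
    refine Finset.sum_pos' (fun i _ => mul_nonneg (hu.1 i) (hφ.chi_pos i (Subgroup.mem_top i)).le)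
      ⟨g, Finsupp.mem_support_iff.mpr hg, ?_⟩
    exact mul_pos (lt_of_le_of_ne (hu.1 g) (Ne.symm hg)) (hφ.chi_pos g (Subgroup.mem_top g))
  have hact : ∀ u : RA Q, u • yb = sg (1 : Q) (X u) • yb := by
    intro u
    have h1 := hkey (u • y)
    rw [hXφ, mul_div_assoc, div_self hφ.pos.ne', mul_one] at h1
    rw [← h1, hyb, ← Submodule.Quotient.mk_smul]
    rfl
  have hpX := hXpos p hp hp0
  have hrX := hXpos r hr hr0
  set κ : ℝ := φ p / (φ y * X p) with hκ
  set ob : RA Q ⧸ D := Submodule.Quotient.mk (1 : RA Q) with hob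
  have hone : ∀ m : C, (m : RA Q) • ob = sg (1 : Q) (φ m / φ y) • yb := by
    intro m
    rw [← hkey m, hob, ← Submodule.Quotient.mk_smul, smul_eq_mul, mul_one]
  have hx : ob - sg (1 : Q) κ • yb = 0 := by
    refine nil_ess hQ hA (M := RA Q ⧸ D) inferInstance (chi φ y) yb hy0 ?_ ?_ (p : RA Q) ?_ _ ?_
    · intro g
      have h1 := hkey (sg g 1 • y)
      rw [← show chi φ y g = φ (sg g 1 • y) / φ y from rfl] at h1
      rw [← h1, hyb, ← Submodule.Quotient.mk_smul]
      rfl
    · intro L hL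
      have h1 : ¬ (L.comap D.mkQ) ≤ D := by
        intro h
        apply hL
        rw [eq_bot_iff]
        intro z hz
        obtain ⟨z', rfl⟩ := Submodule.Quotient.mk_surjective D z
        have h2 : z' ∈ L.comap D.mkQ := hz
        rw [Submodule.mem_bot, Submodule.Quotient.mk_eq_zero]
        exact h h2
      obtain ⟨l, hl, hlφ⟩ := hess _ h1
      have h2 : sg (1 : Q) (φ l / φ y) • yb ∈ L := by
        rw [← hkey l]
        exact hl
      have h3 := L.smul_mem (sg (1 : Q) (φ l / φ y)⁻¹) h2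
      rwa [← sg_one_mul, inv_mul_cancel₀ (div_pos hlφ hφ.pos).ne', sg_one_one] at h3
    · exact hpX.ne'
    · rw [smul_sub, hone p, sg_one_smul_comm, hact (p : RA Q), ← sg_one_mul]
      have e : κ * X p = φ p / φ y := by
        rw [hκ]
        have := hφ.pos.ne'
        field_simp
      rw [e, sub_self]
  have hob' : ob = sg (1 : Q) κ • yb := sub_eq_zero.mp hx
  have h1 := hone r
  rw [hob', sg_one_smul_comm, hact (r : RA Q), ← sg_one_mul] at h1
  have h2 := hcan2 _ _ h1
  have hκ0 : 0 ≤ κ := div_nonneg hφp (mul_pos hφ.pos hpX).le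
  have h3 : φ r / φ y ≤ 0 := div_nonpos_of_nonpos_of_nonneg hφr hφ.pos.le
  have h4 : 0 ≤ κ * X r := mul_nonneg hκ0 hrX.le
  have h5 : κ * X r = 0 := le_antisymm (by rw [h2]; exact h3) h4
  have h6 : κ = 0 := by
    rcases mul_eq_zero.mp h5 with h | h
    · exact h
    · exact absurd h hrX.ne'
  have h7 : φ p = 0 := by
    rw [hκ, div_eq_zero_iff] at h6
    rcases h6 with h | h
    · exact h
    · exact absurd h (mul_pos hφ.pos hpX).ne'
  have h8 : φ r = 0 := by
    rw [h5] at h2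
    have := (div_eq_zero_iff.mp h2.symm)
    rcases this with h | h
    · exact h
    · exact absurd h hφ.pos.ne'
  have := hφ.pos
  rw [hyy, h7, h8] at this
  linarith

end Pool.Agent.MP_22afe8_al
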