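import Mathlib
import Pool.Agent.Work.MP_22afe8_al.OreB
import Pool.Agent.Work.MP_22afe8_al.OreC
import Pool.Agent.Work.MP_22afe8_al.M3

set_option autoImplicit false

namespace Pool.Agent.MP_22afe8_al

theorem Pc.zero_eq {Q : Type} [Group Q] {H : Subgroup Q} (h : Pc 0 H) : H = ⊥ := by
  cases h
  rfl

variable {Q : Type} [Group Q]

theorem IsCone.real_smul {K : Set (RA Q)} (hK : IsCone (⊤ : Subgroup Q) K) (u : RA Q) {x : RA Q}
    (hx : x ∈ K) (hnx : -x ∈ K) : u * x ∈ K ∧ -(u * x) ∈ K := by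
  refine MonoidAlgebra.induction_linear u ?_ ?_ ?_
  · simp [hK.zero]
  · intro a b ha hb
    rw [add_mul, neg_add]
    exact ⟨hK.add _ ha.1 _ hb.1, hK.add _ ha.2 _ hb.2⟩
  · intro g c
    rcases le_total 0 c with hc | hc
    · refine ⟨hK.sgm g hc hx, ?_⟩
      rw [← mul_neg]
      exact hK.sgm g hc hnx
    · have e : sg g c = -(sg g (-c)) := by
        rw [eq_neg_iff_add_eq_zero, sg, sg, ← MonoidAlgebra.single_add, add_neg_cancel,
          MonoidAlgebra.single_zero]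
      have hc' : 0 ≤ -c := by linarith
      refine ⟨?_, ?_⟩
      · change sg g c * x ∈ K
        rw [e, neg_mul, ← mul_neg]
        exact hK.sgm g hc' hnx
      · change -(sg g c * x) ∈ K
        rw [e, neg_mul, neg_neg]
        exact hK.sgm g hc' hx

theorem ore_step (hQ : Group.IsNilpotent Q) (n : ℕ) (hPc : Pc n (⊤ : Subgroup Q))
    (hO : ∀ k, k < n → ∀ N : Subgroup Q, Pc k N → OreRel N) : OreRel (⊤ : Subgroup Q) := by
  classical
  intro p hp r hr hp0 hr0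
  by_contra hcon
  have hno : ∀ s ∈ NN ((⊤ : Subgroup Q) : Set Q), ∀ s' ∈ NN ((⊤ : Subgroup Q) : Set Q),
      s ≠ 0 → s' ≠ 0 → s * p ≠ s' * r := by
    intro s hs s' hs' h1 h2 h3
    exact hcon ⟨s, hs, s', hs', h1, h2, h3⟩
  have hA : IsNoetherianRing (RA Q) := noeth_top n hPc
  have huniv : ((⊤ : Subgroup Q) : Set Q) = Set.univ := Subgroup.coe_top
  have hone : (1 : RA Q) ∈ NN ((⊤ : Subgroup Q) : Set Q) := NN.one_mem (Subgroup.mem_top _)
  set K0 : Set (RA Q) := {x | ∃ s ∈ NN ((⊤ : Subgroup Q) : Set Q),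
    ∃ s' ∈ NN ((⊤ : Subgroup Q) : Set Q), x = s * p - s' * r} with hK0def
  have hK0 : IsCone (⊤ : Subgroup Q) K0 := by
    refine ⟨⟨0, NN.zero _, 0, NN.zero _, by simp⟩, ?_, ?_⟩
    · rintro a ⟨s, hs, s', hs', rfl⟩ b ⟨t, ht, t', ht', rfl⟩
      exact ⟨s + t, NN.add hs ht, s' + t', NN.add hs' ht', by rw [add_mul, add_mul]; abel⟩
    · rintro g hg c hc a ⟨s, hs, s', hs', rfl⟩
      refine ⟨sg g c * s, NN.mulH (NN.sg_mem hg hc) hs, sg g c * s', NN.mulH (NN.sg_mem hg hc) hs', ?_⟩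
      rw [smul_eq_mul, mul_sub, mul_assoc, mul_assoc]
  have hpK0 : p ∈ K0 := ⟨1, hone, 0, NN.zero _, by simp⟩
  have hrK0 : -r ∈ K0 := ⟨0, NN.zero _, 1, hone, by simp⟩
  have hny0 : -(p - r) ∉ K0 := by
    rintro ⟨s, hs, s', hs', h⟩
    refine hno (1 + s) (NN.add hone hs) (1 + s') (NN.add hone hs')
      (NN.add_ne_zero hone hs one_ne_zero) (NN.add_ne_zero hone hs' one_ne_zero) ?_
    rw [add_mul, add_mul, one_mul, one_mul]
    have h2 : p - r + (s * p - s' * r) = 0 := by rw [← h]; abel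
    have h3 : p + s * p - (r + s' * r) = 0 := by rw [← h2]; abel
    exact sub_eq_zero.mp h3
  set 𝒥 : Set (Submodule (RA Q) (RA Q)) := {J | ∀ k ∈ K0, ∀ j ∈ J, -(p - r) ≠ k + j} with h𝒥
  obtain ⟨D, hDJ, hDmax⟩ := set_has_maximal_iff_noetherian.mpr (isNoetherianRing_iff.mp hA) 𝒥 (by
    refine ⟨⊥, ?_⟩
    intro k hk j hj h
    rw [Submodule.mem_bot] at hj
    rw [hj, add_zero] at h
    exact hny0 (h ▸ hk))
  set K0' : Set (RA Q) := {x | ∃ k ∈ K0, ∃ d ∈ D, x = k + d} with hK0'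
  have hK0'c : IsCone (⊤ : Subgroup Q) K0' := by
    refine ⟨⟨0, hK0.zero, 0, D.zero_mem, by simp⟩, ?_, ?_⟩
    · rintro a ⟨k, hk, d, hd, rfl⟩ b ⟨k', hk', d', hd', rfl⟩
      exact ⟨k + k', hK0.add _ hk _ hk', d + d', D.add_mem hd hd', by abel⟩
    · rintro g hg c hc a ⟨k, hk, d, hd, rfl⟩
      exact ⟨sg g c • k, hK0.smul g hg c hc _ hk, sg g c • d, D.smul_mem _ hd, smul_add _ _ _⟩
  have hyK0' : p - r ∈ K0' := by
    refine ⟨p - r, ?_, 0, D.zero_mem, by simp⟩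
    rw [sub_eq_add_neg]
    exact hK0.add _ hpK0 _ hrK0
  obtain ⟨K, hKK, hK⟩ := exists_maxCone hK0'c hyK0' (by
    rintro ⟨k, hk, d, hd, h⟩
    exact hDJ k hk d hd h)
  have hK0K : K0 ⊆ K := fun k hk => hKK ⟨k, hk, 0, D.zero_mem, by simp⟩
  have hDK : ∀ d ∈ D, d ∈ K := fun d hd => hKK ⟨0, hK0.zero, d, hd, by simp⟩
  have hpK : p ∈ K := hK0K hpK0
  have hrK : -r ∈ K := hK0K hrK0
  have hKD : ∀ x, x ∈ K → -x ∈ K → x ∈ D := by
    let D' : Submodule (RA Q) (RA Q) :=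
      { carrier := {x | x ∈ K ∧ -x ∈ K}
        add_mem' := by
          rintro a b ⟨h1, h2⟩ ⟨h3, h4⟩
          refine ⟨hK.cone.add _ h1 _ h3, ?_⟩
          rw [neg_add]
          exact hK.cone.add _ h2 _ h4
        zero_mem' := by
          refine ⟨hK.cone.zero, ?_⟩
          rw [neg_zero]
          exact hK.cone.zero
        smul_mem' := by
          rintro u x ⟨h1, h2⟩
          exact hK.cone.real_smul u h1 h2 }
    have h1 : D ≤ D' := fun d hd => ⟨hDK d hd, hDK _ (D.neg_mem hd)⟩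
    have h2 : D' ∈ 𝒥 := by
      rintro k hk j ⟨hj, _⟩ h
      apply hK.nmem
      rw [h]
      exact hK.cone.add _ (hK0K hk) _ hj
    intro x hx hnx
    by_contra hxD
    refine hDmax D' h2 (lt_of_le_of_ne h1 ?_)
    rintro rfl
    exact hxD ⟨hx, hnx⟩
  have hE0 : ∀ L : Submodule (RA Q) (RA Q), ¬ L ≤ D → ∃ l ∈ L, ∃ k ∈ K0, ∃ d ∈ D,
      l = (p - r) + k + d := by
    intro L hL
    have h1 : D < D ⊔ L := by
      refine lt_of_le_of_ne le_sup_left ?_
      intro h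
      apply hL
      rw [h]
      exact le_sup_right
    have h2 : D ⊔ L ∉ 𝒥 := fun h => hDmax _ h h1
    have h3 : ∃ k ∈ K0, ∃ j ∈ D ⊔ L, -(p - r) = k + j := by
      by_contra hc
      apply h2
      intro k hk j hj h
      exact hc ⟨k, hk, j, hj, h⟩
    obtain ⟨k, hk, j, hj, h⟩ := h3
    obtain ⟨d, hd, l, hl, rfl⟩ := Submodule.mem_sup.mp hj
    refine ⟨-l, L.neg_mem hl, k, hk, d, hd, ?_⟩
    have : p - r = -(k + (d + l)) := by rw [← h, neg_neg]
    rw [this]; abel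
  -- the hull
  let C : Submodule (RA Q) (RA Q) :=
    { carrier := Hull K (p - r) Set.univ
      add_mem' := fun ha hb => Hull.add hK.cone ha hb
      zero_mem' := Hull.zero hK.cone _
      smul_mem' := fun u x hx => Hull.smul hK.cone hx (S' := Set.univ)
        (fun g _ => Set.mem_univ g) (fun _ _ _ _ => Set.mem_univ _) }
  have h1u : (1 : RA Q) ∈ NN (Set.univ : Set Q) := NN.one_mem (Set.mem_univ _)
  have hyC : p - r ∈ C := ⟨1, h1u, by rw [one_mul, sub_self]; exact hK.cone.zero,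
    by rw [one_mul]; exact hK.cone.add _ hK.mem _ hK.mem⟩
  have hpC : p ∈ C := ⟨1, h1u, by rw [one_mul, sub_sub_cancel_left]; exact hrK,
    by rw [one_mul]; exact hK.cone.add _ hK.mem _ hpK⟩
  have hrC : r ∈ C := by
    have h := C.sub_mem hpC hyC
    rwa [sub_sub_cancel] at h
  have hDC : ∀ d ∈ D, d ∈ C := fun d hd => ⟨0, NN.zero _,
    by rw [zero_mul, zero_sub]; exact hDK _ (D.neg_mem hd), by rw [zero_mul, zero_add]; exact hDK _ hd⟩
  have hK0C : ∀ k ∈ K0, k ∈ C := by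
    rintro k ⟨s, _, s', _, rfl⟩
    exact C.sub_mem (C.smul_mem s hpC) (C.smul_mem s' hrC)
  let KC : Set C := {m | (m : RA Q) ∈ K}
  let yC : C := ⟨p - r, hyC⟩
  have hMC : MaxCone (⊤ : Subgroup Q) KC yC := by
    refine ⟨⟨hK.cone.zero, fun a ha b hb => hK.cone.add _ ha _ hb,
      fun g hg c hc k hk => hK.cone.smul g hg c hc _ hk⟩, hK.mem, hK.nmem, ?_⟩
    intro m hm
    obtain ⟨k, hk, u, hu, h⟩ := hK.max (m : RA Q) hm
    have hkC : k ∈ C := by
      have e : k = -(p - r) - u • (m : RA Q) := by rw [h]; abel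
      rw [e]
      exact C.sub_mem (C.neg_mem hyC) (C.smul_mem u m.2)
    refine ⟨⟨k, hkC⟩, hk, u, hu, ?_⟩
    apply Subtype.ext
    exact h
  have hBC : Bd (⊤ : Subgroup Q) KC yC := by
    rintro ⟨m, u, hu, h1, h2⟩
    exact ⟨u, NN.mono (fun _ _ => Subgroup.mem_top _) hu, h1⟩
  rcases str hQ n hO ⊤ hPc KC yC hMC hBC with hT | hAA
  · obtain ⟨τ, hτ, ⟨g0, _, hg0⟩, hτno⟩ := hT
    have hτ' : ∀ g h, τ (g * h) = τ g + τ h :=
      fun g h => hτ g (Subgroup.mem_top g) h (Subgroup.mem_top h)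
    have hτ1 : τ 1 = 0 := by
      have := hτ' 1 1
      rw [one_mul] at this
      linarith
    let Q1 : Subgroup Q :=
      { carrier := {g | τ g = 0}
        mul_mem' := by
          intro a b ha hb
          change τ (a * b) = 0
          have ha' : τ a = 0 := ha
          have hb' : τ b = 0 := hb
          rw [hτ', ha', hb', add_zero]
        one_mem' := hτ1
        inv_mem' := by
          intro a ha
          change τ a⁻¹ = 0
          have ha' : τ a = 0 := ha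
          have := hτ' a a⁻¹
          rw [mul_inv_cancel, hτ1, ha'] at this
          linarith }
    have hQ1 : ∀ g, g ∈ Q1 ↔ τ g = 0 := fun g => Iff.rfl
    cases n with
    | zero =>
      have h1 := hPc.zero_eq
      have h2 : g0 ∈ (⊥ : Subgroup Q) := by rw [← h1]; exact Subgroup.mem_top g0
      rw [Subgroup.mem_bot] at h2
      rw [h2] at hg0
      exact hg0 hτ1
    | succ n =>
      have hPQ1 : Pc n Q1 := Pc.ker hPc τ hτ ⟨g0, Subgroup.mem_top g0, hg0⟩ Q1 (by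
        intro g
        rw [hQ1]
        simp)
      refine ore_T hK.cone (NN.mono (fun _ _ => Set.mem_univ _) hp)
        (NN.mono (fun _ _ => Set.mem_univ _) hr) hp0 hr0 hpK hrK hτ' hQ1
        (hO n (Nat.lt_succ_self n) Q1 hPQ1) (noeth_Pc n Q1 hPQ1) ?_
      intro u hu h
      exact hτno u (NN.mono (S := {g : Q | τ g < 0})
        (S' := {g : Q | g ∈ (⊤ : Subgroup Q) ∧ τ g < 0}) (fun g hg => ⟨Subgroup.mem_top g, hg⟩) hu) h
  · obtain ⟨φ, hφ⟩ := hAA.eig
    refine ore_A hQ hA D C KC yC φ hφ ?_ ⟨p, hpC⟩ ⟨r, hrC⟩ (NN.mono (fun _ _ => Set.mem_univ _) hp)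
      (NN.mono (fun _ _ => Set.mem_univ _) hr) hp0 hr0 ?_ ?_ ?_ ?_
    · intro m
      constructor
      · intro hm
        have h1 : 0 ≤ φ m := (hφ.mem m).mp (hDK _ hm)
        have h2 : 0 ≤ φ (-m) := (hφ.mem (-m)).mp (hDK _ (D.neg_mem hm))
        rw [hφ.neg] at h2
        linarith
      · intro hm
        refine hKD _ ((hφ.mem m).mpr hm.ge) ?_
        have h2 : -m ∈ KC := by
          rw [hφ.mem, hφ.neg, hm, neg_zero]
        exact h2
    · exact (hφ.mem ⟨p, hpC⟩).mp hpK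
    · have h1 : 0 ≤ φ (-(⟨r, hrC⟩ : C)) := (hφ.mem _).mp hrK
      rw [hφ.neg] at h1
      linarith
    · rw [← hφ.sub]
      rfl
    · intro L hL
      obtain ⟨l, hl, k, hk, d, hd, e⟩ := hE0 L hL
      have hlC : l ∈ C := by
        rw [e]
        exact C.add_mem (C.add_mem hyC (hK0C k hk)) (hDC d hd)
      refine ⟨⟨l, hlC⟩, hl, ?_⟩
      have h1 : (⟨l, hlC⟩ : C) = yC + (⟨k, hK0C k hk⟩ + ⟨d, hDC d hd⟩) := by
        apply Subtype.ext
        change l = (p - r) + (k + d)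
        rw [e, add_assoc]
      have h2 : 0 ≤ φ (⟨k, hK0C k hk⟩ + ⟨d, hDC d hd⟩) :=
        (hφ.mem _).mp (hK.cone.add _ (hK0K hk) _ (hDK d hd))
      rw [h1, hφ.add]
      have := hφ.pos
      linarith

/-- Transfer of the Ore condition from a subgroup viewed as a group. -/
theorem OreRel.of_type {H : Subgroup Q} (h : OreRel (⊤ : Subgroup H)) : OreRel H := by
  classical
  set ι : RA H →+* RA Q := MonoidAlgebra.mapDomainRingHom ℝ H.subtype with hι
  have hιs : ∀ (g : H) (c : ℝ), ι (sg g c) = sg (g : Q) c := by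
    intro g c
    simp [hι]
  have hlift : ∀ u ∈ NN (H : Set Q), ∃ u' ∈ NN ((⊤ : Subgroup H) : Set H), ι u' = u := by
    intro u hu
    refine NN.induct (p := fun u => ∃ u' ∈ NN ((⊤ : Subgroup H) : Set H), ι u' = u) ?_ ?_ ?_ hu
    · exact ⟨0, NN.zero _, map_zero _⟩
    · rintro a b ⟨a', ha', rfl⟩ ⟨b', hb', rfl⟩
      exact ⟨a' + b', NN.add ha' hb', map_add _ _ _⟩
    · intro g hg c hc
      exact ⟨sg ⟨g, hg⟩ c, NN.sg_mem (Subgroup.mem_top _) hc, hιs _ _⟩
  have hdown : ∀ u' ∈ NN ((⊤ : Subgroup H) : Set H), ι u' ∈ NN (H : Set Q) := by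
    intro u' hu'
    refine NN.induct (p := fun u' => ι u' ∈ NN (H : Set Q)) ?_ ?_ ?_ hu'
    · rw [map_zero]; exact NN.zero _
    · intro a b ha hb
      rw [map_add]
      exact NN.add ha hb
    · intro g _ c hc
      rw [hιs]
      exact NN.sg_mem g.2 hc
  have haug : ∀ u' : RA H, NN.aug (ι u') = NN.aug u' := by
    intro u'
    refine MonoidAlgebra.induction_linear u' ?_ ?_ ?_
    · rw [map_zero, NN.aug_zero, NN.aug_zero]
    · intro a b ha hb
      rw [map_add, NN.aug_add, NN.aug_add, ha, hb]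
    · intro g c
      have := hιs g c
      rw [show MonoidAlgebra.single g c = sg g c from rfl, this, NN.aug_sg, NN.aug_sg]
  intro p hp r hr hp0 hr0
  obtain ⟨p', hp', rfl⟩ := hlift p hp
  obtain ⟨r', hr', rfl⟩ := hlift r hr
  have hp'0 : p' ≠ 0 := by
    rintro rfl
    exact hp0 (map_zero _)
  have hr'0 : r' ≠ 0 := by
    rintro rfl
    exact hr0 (map_zero _)
  obtain ⟨s, hs, s', hs', hs0, hs'0, e⟩ := h p' hp' r' hr' hp'0 hr'0
  refine ⟨ι s, hdown s hs, ι s', hdown s' hs', ?_, ?_, ?_⟩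
  · apply NN.ne_zero_of_aug
    rw [haug]
    exact (NN.aug_pos hs hs0).ne'
  · apply NN.ne_zero_of_aug
    rw [haug]
    exact (NN.aug_pos hs' hs'0).ne'
  · rw [← map_mul, ← map_mul, e]

theorem ore_main : ∀ n : ℕ, ∀ (Q : Type) [Group Q], Group.IsNilpotent Q →
    ∀ H : Subgroup Q, Pc n H → OreRel H := by
  intro n
  induction n using Nat.strong_induction_on with
  | _ n ih =>
    intro Q _ hQ H hH
    apply OreRel.of_type
    have hHn : Group.IsNilpotent H := Subgroup.isNilpotent H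
    exact ore_step hHn n hH.type fun k hk N hN => ih k hk H hHn N hN

theorem realOre_fg (Q : Type) [Group Q] (hfg : Group.FG Q) (hQ : Group.IsNilpotent Q) :
    RealOre Q := by
  obtain ⟨n, hn⟩ := Pc.of_fg_nilpotent hfg hQ
  intro p r hp hr hp0 hr0
  obtain ⟨s, hs, s', hs', h1, h2, h3⟩ := ore_main n Q hQ ⊤ hn p
    ⟨hp, fun g _ => Subgroup.mem_top g⟩ r ⟨hr, fun g _ => Subgroup.mem_top g⟩ hp0 hr0
  exact ⟨s, s', hs.1, hs'.1, h1, h2, h3⟩

end Pool.Agent.MP_22afe8_al
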